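import Pool.Agent.Lib.MP_f1849d_co.J.Spec

/-!
MP_f1849d_co, route J: averages over words.
-/

open Finset
open scoped Classical

namespace Pool.Agent.Lib.MP_f1849d_co.J

lemma avg_add {D : ℕ} [NeZero D] (M : ℕ) (f h : (ℕ → Fin D) → ℝ) :
    Avg D M (fun om => f om + h om) = Avg D M f + Avg D M h := by
  induction M generalizing f h with
  | zero => rfl
  | succ M ih =>
    simp only [Avg]
    rw [← mul_add, ← Finset.sum_add_distrib]
    congr 1
    exact Finset.sum_congr rfl fun l _ => ih _ _

lemma avg_smul {D : ℕ} [NeZero D] (M : ℕ) (c : ℝ) (f : (ℕ → Fin D) → ℝ) :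
    Avg D M (fun om => c * f om) = c * Avg D M f := by
  induction M generalizing f with
  | zero => rfl
  | succ M ih =>
    simp only [Avg]
    rw [mul_left_comm c]
    congr 1
    rw [Finset.mul_sum]
    exact Finset.sum_congr rfl fun l _ => ih _

lemma avg_const {D : ℕ} [NeZero D] (M : ℕ) (c : ℝ) : Avg D M (fun _ => c) = c := by
  have hD : (D : ℝ) ≠ 0 := Nat.cast_ne_zero.mpr (NeZero.ne D)
  induction M with
  | zero => rfl
  | succ M ih =>
    simp only [Avg]
    rw [ih, Finset.sum_const, Finset.card_univ, Fintype.card_fin, nsmul_eq_mul, ← mul_assoc,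
      one_div_mul_cancel hD, one_mul]

lemma avg_mono {D : ℕ} [NeZero D] (M : ℕ) (f h : (ℕ → Fin D) → ℝ) (hfh : ∀ om, f om ≤ h om) :
    Avg D M f ≤ Avg D M h := by
  induction M generalizing f h with
  | zero => exact hfh _
  | succ M ih =>
    simp only [Avg]
    refine mul_le_mul_of_nonneg_left ?_ (by positivity)
    exact Finset.sum_le_sum fun l _ => ih _ _ fun om => hfh _

lemma avg_sum {D : ℕ} [NeZero D] (M : ℕ) {ι : Type*} (s : Finset ι) (f : ι → (ℕ → Fin D) → ℝ) :
    Avg D M (fun om => ∑ i ∈ s, f i om) = ∑ i ∈ s, Avg D M (f i) := by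
  classical
  induction s using Finset.induction_on with
  | empty =>
    simp only [Finset.sum_empty]
    exact avg_const M 0
  | insert a s ha ih =>
    rw [Finset.sum_insert ha, ← ih, ← avg_add]
    congr 1
    funext om
    rw [Finset.sum_insert ha]

theorem avgLibStmt : AvgLibStmt := by
  intro D _ M
  exact ⟨avg_add M, avg_smul M, avg_const M, avg_mono M, fun ι s f => avg_sum M s f⟩

end Pool.Agent.Lib.MP_f1849d_co.J
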