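import Mathlib

/-!
MP_f1849d_co (peeling sequences), route J (exact junk removal), see team-store `MP_f1849d_proof.md`.
Definitions.
-/

open Finset
open scoped Classical

namespace Pool.Agent.Lib.MP_f1849d_co.J

/-- The properties of the operator `ext` (extreme points) on the subsets of `P` used by the
combinatorial part. `D = d + 1`. -/
structure Geom {α : Type} [DecidableEq α] (D : ℕ) (P : Finset α)
    (ext : Finset α → Finset α) : Prop where
  /-- extreme points belong to the set -/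
  sub : ∀ S, S ⊆ P → ext S ⊆ S
  ne : ∀ S, S ⊆ P → S.Nonempty → (ext S).Nonempty
  card : ∀ S, S ⊆ P → D ≤ S.card → D ≤ (ext S).card
  /-- persistence -/
  mono : ∀ S T, S ⊆ P → T ⊆ S → ∀ e ∈ ext S, e ∈ T → e ∈ ext T
  /-- an element of `conv Q`, `Q ⊆ X`, is not extreme in `X` -/
  inner : ∀ Z X Q, Z ⊆ P → X ⊆ P → ext Z ⊆ Q → Q ⊆ X →
    ∀ e ∈ Z, e ∈ X → e ∉ Q → e ∉ ext X
  /-- the three-point lemma -/
  three : ∀ (R : Finset α) (a b z o : α), R.card + 2 = D → R ⊆ P → a ∈ P → b ∈ P → z ∈ P →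
    a ∉ R → b ∉ R → z ∉ R → a ≠ b → a ≠ z → b ≠ z →
    ∀ Z1 Z2 Z3 : Finset α, Z1 ⊆ P → Z2 ⊆ P → Z3 ⊆ P →
    ext Z1 ⊆ insert a (insert b R) → ext Z2 ⊆ insert a (insert z R) →
    ext Z3 ⊆ insert b (insert z R) → o ∈ Z1 → o ∈ Z2 → o ∈ Z3 →
    o ∈ insert a (insert b (insert z R))
  /-- the determinant sign lemma -/
  sign : ∀ (l : Fin D) (X : Fin D → Finset α) (a o : α),
    (∀ m, m ≠ l → X m ⊆ P ∧ (X m).Nonempty ∧ a ∉ X m ∧ o ∉ X m) →
    (∀ m m', m ≠ l → m' ≠ l → m ≠ m' → Disjoint (X m) (X m')) →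
    a ∈ P → o ≠ a →
    (∀ yv : Fin D → α, (∀ m, m ≠ l → yv m ∈ X m) →
      ∃ Z, Z ⊆ P ∧ ext Z ⊆ insert a ((univ.erase l).image yv) ∧ o ∈ Z) →
    ∀ F, F ⊆ P → ext F ⊆ (univ.erase l).biUnion X → o ∉ F

/-- number of peelings of `S` -/
noncomputable def g {α : Type} [DecidableEq α] (ext : Finset α → Finset α) (S : Finset α) : ℕ :=
  if S = ∅ then 1 else ∑ e ∈ (S.filter (· ∈ ext S)).attach, g ext (S.erase e.1)
termination_by S.card
decreasing_by
  have h := e.2
  rw [Finset.mem_filter] at h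
  exact Finset.card_erase_lt_of_mem h.1

/-- number of removal sequences from `P` to `S` -/
noncomputable def N {α : Type} [DecidableEq α] (ext : Finset α → Finset α) (P S : Finset α) : ℕ :=
  if S = P then 1 else
    ∑ x ∈ ((P \ S).filter (fun x => x ∈ ext (insert x S))).attach, N ext P (insert x.1 S)
termination_by (P \ S).card
decreasing_by
  have h := x.2
  rw [Finset.mem_filter, Finset.mem_sdiff] at h
  apply Finset.card_lt_card
  rw [Finset.ssubset_iff_of_subset (Finset.sdiff_subset_sdiff (Finset.Subset.refl _)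
    (Finset.subset_insert _ _))]
  exact ⟨x.1, by simp [h.1.1, h.1.2], by simp⟩

/-- a record: no subset does relatively better -/
def Record {α : Type} [DecidableEq α] (ext : Finset α → Finset α) (P : Finset α) (Dp : ℝ) : Prop :=
  ∀ S, S ⊆ P → (g ext P : ℝ) ≤ (g ext S : ℝ) * Dp ^ (P.card - S.card)

/-- `U` is a potential -/
structure Pot {α : Type} [DecidableEq α] (Dp : ℝ) (P : Finset α) (ext : Finset α → Finset α)
    (U : Finset α → ℝ) : Prop where
  nonneg : ∀ S, S ⊆ P → 0 ≤ U S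
  step : ∀ S, S ⊆ P → S.Nonempty →
    Dp * Real.exp (U S) = ∑ e ∈ ext S, Real.exp (U (S.erase e))

/-- `S` is reached at cost at most `k` -/
def CostLe {α : Type} [DecidableEq α] (ext : Finset α → Finset α) (P : Finset α) (Dp : ℝ)
    (S : Finset α) (k : ℝ) : Prop :=
  Dp ^ (P \ S).card * Real.exp (-k) ≤ (N ext P S : ℝ)

/-! ### Lists and nodes -/

section Lists
variable {α : Type} [DecidableEq α] {D : ℕ}

/-- the elements removed at the prefix vector `v` -/
def Rem (L : Fin D → ℕ → α) (v : Fin D → ℕ) : Finset α :=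
  univ.biUnion fun l => (range (v l)).image (L l)

/-- the remaining set -/
def St (P : Finset α) (L : Fin D → ℕ → α) (v : Fin D → ℕ) : Finset α := P \ Rem L v

/-- the set of the pointers -/
def ptrs (L : Fin D → ℕ → α) (v : Fin D → ℕ) : Finset α := univ.image fun l => L l (v l)

/-- the lists are injective up to `t`, with values in `P` -/
def Inj (P : Finset α) (L : Fin D → ℕ → α) (t : ℕ) : Prop :=
  ∀ l, (∀ m, m ≤ t → L l m ∈ P) ∧ ∀ m m', m ≤ t → m' ≤ t → L l m = L l m' → m = m'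

/-- corner vector of the entry `(l, m)` with lag `g` -/
def corner (l : Fin D) (m lag : ℕ) : Fin D → ℕ := fun k => if k = l then m else m - lag

/-- validity of the entries up to `t` -/
def Valid (ext : Finset α → Finset α) (P : Finset α) (L : Fin D → ℕ → α) (lag : ℕ → ℕ)
    (t : ℕ) : Prop :=
  ∀ l, ∀ m, m ≤ t → L l m ∈ St P L (corner l m (lag m)) →
    L l m ∈ ext (St P L (corner l m (lag m)))

/-- validity in a tube of width `W`, for entries with index between `s` and `t` -/
def ValidAt (ext : Finset α → Finset α) (P : Finset α) (L : Fin D → ℕ → α) (s W t : ℕ) : Prop :=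
  ∀ l, ∀ v : Fin D → ℕ, s ≤ v l → v l ≤ t → (∀ k, v l ≤ v k + W) → L l (v l) ∈ St P L v →
    L l (v l) ∈ ext (St P L v)

/-- nodes -/
def Node (P : Finset α) (L : Fin D → ℕ → α) (s W t : ℕ) (v : Fin D → ℕ) : Prop :=
  (∀ l, s ≤ v l ∧ v l ≤ t) ∧ (∀ l m, v l ≤ v m + W) ∧ (∀ l, L l (v l) ∈ St P L v) ∧
    ∀ l m, l ≠ m → L l (v l) ≠ L m (v m)

/-- all pointers of all nodes are extreme (consequence of validity) -/
def NodeExt (ext : Finset α → Finset α) (P : Finset α) (L : Fin D → ℕ → α) (s W t : ℕ) : Prop :=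
  ∀ v, Node P L s W t v → ∀ l, L l (v l) ∈ ext (St P L v)

/-- remove the pointer of list `l` -/
noncomputable def nxt (L : Fin D → ℕ → α) (l : Fin D) (v : Fin D → ℕ) : Fin D → ℕ :=
  Function.update v l (sInf {m | v l < m ∧ L l m ∉ insert (L l (v l)) (Rem L v)})

/-- position after `j` letters -/
noncomputable def pos (L : Fin D → ℕ → α) (u : Fin D → ℕ) (om : ℕ → Fin D) : ℕ → (Fin D → ℕ)
  | 0 => u
  | j + 1 => nxt L (om j) (pos L u om j)

/-- the path is alive at time `j` -/
def Alive (P : Finset α) (L : Fin D → ℕ → α) (s W t : ℕ) (u : Fin D → ℕ) (om : ℕ → Fin D)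
    (j : ℕ) : Prop := ∀ i, i ≤ j → Node P L s W t (pos L u om i)

/-- number of letters `l` among the first `j` -/
def cnt (om : ℕ → Fin D) (l : Fin D) (j : ℕ) : ℕ := ((range j).filter fun i => om i = l).card

/-- good words -/
def GoodWord (b M : ℕ) (om : ℕ → Fin D) : Prop := ∀ j, j ≤ M → ∀ l m, cnt om l j ≤ cnt om m j + b

/-- the box of starts -/
def box (D s w : ℕ) : Finset (Fin D → ℕ) := Fintype.piFinset fun _ => Finset.Ico s (s + w)

/-- non-private positions of the list `l` -/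
noncomputable def NPpos (L : Fin D → ℕ → α) (t : ℕ) (l : Fin D) : Finset ℕ :=
  (range (t + 1)).filter fun i => ∃ k, k ≠ l ∧ ∃ i', i' ≤ t ∧ L k i' = L l i

/-- all elements with two positions lie in `J` -/
def Priv (L : Fin D → ℕ → α) (t : ℕ) (J : Finset α) : Prop :=
  ∀ l k, l ≠ k → ∀ i i', i ≤ t → i' ≤ t → L l i = L k i' → L l i ∈ J

/-- at the step from time `j` to `j+1` two pointers coincide -/
def CoinAt (L : Fin D → ℕ → α) (t : ℕ) (u : Fin D → ℕ) (om : ℕ → Fin D) (j : ℕ) : Prop :=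
  0 < pos L u om (j + 1) (om j) ∧ pos L u om (j + 1) (om j) ≤ t ∧
  ∃ k, k ≠ om j ∧ L (om j) (pos L u om (j + 1) (om j)) = L k (pos L u om (j + 1) k)

/-- the path is lost: the start is no node, or the path is killed by a coincidence -/
def Lost (P : Finset α) (L : Fin D → ℕ → α) (s W t M : ℕ) (u : Fin D → ℕ) (om : ℕ → Fin D) :
    Prop :=
  ¬ Node P L s W t u ∨ ∃ j, j < M ∧ Alive P L s W t u om j ∧ CoinAt L t u om j

end Lists

/-! ### Words -/

/-- prepend a letter -/
def cons {D : ℕ} (l : Fin D) (om : ℕ → Fin D) : ℕ → Fin D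
  | 0 => l
  | n + 1 => om n

/-- average over the first `M` letters -/
noncomputable def Avg (D : ℕ) [NeZero D] : ℕ → ((ℕ → Fin D) → ℝ) → ℝ
  | 0, f => f (fun _ => 0)
  | M + 1, f => (1 / (D : ℝ)) * ∑ l : Fin D, Avg D M (fun om => f (cons l om))

/-! ### The process with harvest -/

section Process
variable {α : Type} [DecidableEq α] {D : ℕ}

/-- the harvest: a minimiser of `U(S \ H') + 2|H'|` over `H ⊆ H' ⊆ S` -/
noncomputable def harv (U : Finset α → ℝ) (S H : Finset α) : Finset α :=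
  if h : (S.powerset.filter (fun H' => H ⊆ H')).Nonempty then
    Classical.choose (Finset.exists_min_image (S.powerset.filter (fun H' => H ⊆ H'))
      (fun H' => U (S \ H') + 2 * (H'.card : ℝ)) h)
  else H

/-- the harvested set before the harvest at time `j` -/
noncomputable def pre (U : Finset α → ℝ) (P : Finset α) (L : Fin D → ℕ → α) (u : Fin D → ℕ)
    (H0 : Finset α) (om : ℕ → Fin D) : ℕ → Finset α
  | 0 => H0
  | j + 1 => (harv U (St P L (pos L u om j)) (pre U P L u H0 om j)).erase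
      (L (om j) (pos L u om j (om j)))

/-- the harvested set after the harvest at time `j` -/
noncomputable def Hs (U : Finset α → ℝ) (P : Finset α) (L : Fin D → ℕ → α) (u : Fin D → ℕ)
    (H0 : Finset α) (om : ℕ → Fin D) (j : ℕ) : Finset α :=
  harv U (St P L (pos L u om j)) (pre U P L u H0 om j)

/-- the visit at time `j` is bad -/
def Bad (ext : Finset α → Finset α) (U : Finset α → ℝ) (P : Finset α) (L : Fin D → ℕ → α)
    (u : Fin D → ℕ) (H0 : Finset α) (om : ℕ → Fin D) (j : ℕ) : Prop :=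
  ¬ ext (St P L (pos L u om j) \ Hs U P L u H0 om j) ⊆ ptrs L (pos L u om j)

/-- `x` exits badly at time `j` -/
def ExitAt (ext : Finset α → Finset α) (U : Finset α → ℝ) (P : Finset α) (L : Fin D → ℕ → α)
    (u : Fin D → ℕ) (om : ℕ → Fin D) (j : ℕ) (x : α) : Prop :=
  (x ∈ Hs U P L u ∅ om j ∧ x ∉ pre U P L u ∅ om j) ∨
    (x = L (om j) (pos L u om j (om j)) ∧ Bad ext U P L u ∅ om j)

/-- the weight of the rows in which `x` exits badly -/
noncomputable def Q [NeZero D] (ext : Finset α → Finset α) (U : Finset α → ℝ) (P : Finset α)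
    (L : Fin D → ℕ → α) (s w W t M : ℕ) (x : α) : ℝ :=
  ∑ u ∈ box D s w, Avg D M fun om =>
    if ∃ j, j < M ∧ Alive P L s W t u om j ∧ ExitAt ext U P L u om j x then 1 else 0

end Process

end Pool.Agent.Lib.MP_f1849d_co.J
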