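import Mathlib
import Pool.Agent.Lib.MP_f1849d_co.PathLemma
import Pool.Agent.Lib.MP_f1849d_co.MultBound
import Pool.Agent.Lib.MP_f1849d_co.J.Defs

/-!
Cost of nodes, part 1: predecessors and the block path lemma in position coordinates.
-/

namespace Pool.Agent.Lib.MP_f1849d_co.J.CostM

open Finset
open scoped Classical

/-! ### Abstract block lemma in position coordinates -/

/-- coordinates of a node after `j` blocks and `c - r` letters of the next block; `C q i` counts
the positions `< i` of the list `q` which may be skipped -/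
def BInv {D : ℕ} (C : Fin D → ℕ → ℕ) (v c : Fin D → ℕ) (j : ℕ) (r u : Fin D → ℕ) : Prop :=
  ∀ q, u q + j * c q + (c q - r q) ≤ v q ∧
    v q + C q (u q) ≤ u q + j * c q + (c q - r q) + C q (v q)

theorem block_lemma {D : ℕ} (pred : Fin D → (Fin D → ℕ) → (Fin D → ℕ)) (C : Fin D → ℕ → ℕ)
    (lev : (Fin D → ℕ) → ℕ)
    (N : (Fin D → ℕ) → ℝ) (c : Fin D → ℕ) (M : ℕ) (v : Fin D → ℕ)
    (hstep : ∀ j, j < M → ∀ r u : Fin D → ℕ, (∀ q, r q ≤ c q) → BInv C v c j r u →
      (∑ y ∈ univ.filter (fun y => 0 < r y), N (pred y u) ≤ N u) ∧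
      ∀ y, 0 < r y → (∀ q, q ≠ y → pred y u q = u q) ∧ pred y u y + 1 ≤ u y ∧
        u y + C y (pred y u y) ≤ pred y u y + 1 + C y (u y) ∧ lev (pred y u) + 1 = lev u)
    (m : ℝ) (hm : ∀ u, BInv C v c M c u → lev u + M * ∑ q, c q = lev v → m ≤ N u) :
    mult c ^ M * m ≤ N v := by
  -- the claim with `j` blocks finished, remaining composition `r` in the current block
  have key : ∀ T : ℕ, ∀ j (r : Fin D → ℕ), (∀ q, r q ≤ c q) → ∑ q, r q = T → j + 1 ≤ M → ∀ u,
      BInv C v c j r u → lev u + j * ∑ q, c q + ∑ q, c q = lev v + T →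
      (∀ u', BInv C v c (j + 1) c u' → lev u' + (j + 1) * ∑ q, c q = lev v →
        mult c ^ (M - (j + 1)) * m ≤ N u') →
      mult r * (mult c ^ (M - (j + 1)) * m) ≤ N u := by
    intro T
    induction T with
    | zero =>
      intro j r hr hT hj u hinv hlev hend
      have hr0 : ∀ q, r q = 0 := fun q => Finset.sum_eq_zero_iff.mp hT q (mem_univ q)
      have hr' : r = fun _ => 0 := funext hr0
      rw [hr', mult_zero, one_mul]
      apply hend u
      · intro q
        have := hinv q
        rw [hr0 q] at this
        simp only [Nat.sub_zero, Nat.sub_self, add_zero] at this ⊢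
        have e : (j + 1) * c q = j * c q + c q := by ring
        rw [e]
        omega
      · have e : (j + 1) * ∑ q, c q = j * ∑ q, c q + ∑ q, c q := by ring
        rw [e]; omega
    | succ T ih =>
      intro j r hr hT hj u hinv hlev hend
      obtain ⟨hsum, hpred⟩ := hstep j (by omega) r u hr hinv
      have hpos : 0 < ∑ q, r q := by omega
      rw [← mult_rec r hpos, Finset.sum_mul]
      refine le_trans ?_ hsum
      apply Finset.sum_le_sum
      intro y hy
      have hry : 0 < r y := (mem_filter.mp hy).2
      obtain ⟨hp1, hp2, hp3, hp4⟩ := hpred y hry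
      apply ih j (decr r y)
      · intro q
        unfold decr
        by_cases hq : q = y
        · subst hq; rw [Function.update_self]; exact (Nat.sub_le _ _).trans (hr q)
        · rw [Function.update_of_ne hq]; exact hr q
      · have := sum_decr r y hry
        omega
      · exact hj
      · intro q
        have h1 := hinv q
        unfold decr
        by_cases hq : q = y
        · subst hq
          rw [Function.update_self]
          have := hr q
          omega
        · rw [Function.update_of_ne hq, hp1 q hq]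
          exact h1
      · omega
      · exact hend
  -- outer induction on the number of remaining blocks
  have outer : ∀ k j : ℕ, j + k = M → ∀ u, BInv C v c j c u →
      lev u + j * ∑ q, c q = lev v → mult c ^ k * m ≤ N u := by
    intro k
    induction k with
    | zero =>
      intro j hj u hinv hlev
      rw [pow_zero, one_mul]
      have hjM : j = M := by omega
      rw [hjM] at hinv hlev
      exact hm u hinv hlev
    | succ k ih =>
      intro j hj u hinv hlev
      have hkey := key _ j c (fun q => le_rfl) rfl (by omega) u hinv (by omega) (by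
        intro u' hinv' hlev'
        have hk : M - (j + 1) = k := by omega
        rw [hk]
        exact ih (j + 1) (by omega) u' hinv' hlev')
      have hk : M - (j + 1) = k := by omega
      rw [hk] at hkey
      calc mult c ^ (k + 1) * m = mult c * (mult c ^ k * m) := by rw [pow_succ]; ring
        _ ≤ N u := hkey
  exact outer M 0 (by omega) v (by
    intro q
    simp) (by simp)

/-! ### Predecessors -/

variable {α : Type} [DecidableEq α] {D : ℕ}

/-- the elements in the prefixes of the other lists -/
def RemO (L : Fin D → ℕ → α) (l : Fin D) (v : Fin D → ℕ) : Finset α :=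
  (univ.erase l).biUnion fun k => (range (v k)).image (L k)

/-- the position of the predecessor in the list `l` -/
noncomputable def pdi (L : Fin D → ℕ → α) (l : Fin D) (v : Fin D → ℕ) : ℕ :=
  ((range (v l)).filter fun i => L l i ∉ RemO L l v).sup id

/-- the predecessor -/
noncomputable def pd (L : Fin D → ℕ → α) (l : Fin D) (v : Fin D → ℕ) : Fin D → ℕ :=
  Function.update v l (pdi L l v)

/-- the number of non-private positions `< i` of the list `l` -/
noncomputable def CN (L : Fin D → ℕ → α) (t : ℕ) (l : Fin D) (i : ℕ) : ℕ :=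
  ((NPpos L t l).filter fun i' => i' < i).card

theorem mem_Rem {L : Fin D → ℕ → α} {v : Fin D → ℕ} {x : α} :
    x ∈ Rem L v ↔ ∃ l i, i < v l ∧ L l i = x := by
  unfold Rem
  simp [mem_biUnion, mem_image]

theorem mem_RemO {L : Fin D → ℕ → α} {l : Fin D} {v : Fin D → ℕ} {x : α} :
    x ∈ RemO L l v ↔ ∃ k, k ≠ l ∧ ∃ i, i < v k ∧ L k i = x := by
  unfold RemO
  simp [mem_biUnion, mem_image]

/-- if some entry below `v l` is not in the other prefixes then the predecessor exists -/
theorem pdi_spec (L : Fin D → ℕ → α) (l : Fin D) (v : Fin D → ℕ)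
    (h : ∃ i, i < v l ∧ L l i ∉ RemO L l v) :
    pdi L l v < v l ∧ L l (pdi L l v) ∉ RemO L l v ∧
      ∀ i, pdi L l v < i → i < v l → L l i ∈ RemO L l v := by
  classical
  set F := (range (v l)).filter fun i => L l i ∉ RemO L l v with hF
  have hne : F.Nonempty := by
    obtain ⟨i, hi, hi'⟩ := h
    exact ⟨i, by rw [hF, mem_filter, mem_range]; exact ⟨hi, hi'⟩⟩
  have hmem : pdi L l v ∈ F := by
    obtain ⟨i, hi, he⟩ := Finset.exists_mem_eq_sup F hne id
    have : pdi L l v = i := he
    rw [this]; exact hi
  rw [hF, mem_filter, mem_range] at hmem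
  refine ⟨hmem.1, hmem.2, ?_⟩
  intro i hi1 hi2
  by_contra hcon
  have hiF : i ∈ F := by rw [hF, mem_filter, mem_range]; exact ⟨hi2, hcon⟩
  have := Finset.le_sup (f := id) hiF
  have h2 : i ≤ pdi L l v := this
  omega

theorem pd_self (L : Fin D → ℕ → α) (l : Fin D) (v : Fin D → ℕ) : pd L l v l = pdi L l v := by
  unfold pd; rw [Function.update_self]

theorem pd_ne (L : Fin D → ℕ → α) (l : Fin D) (v : Fin D → ℕ) (q : Fin D) (hq : q ≠ l) :
    pd L l v q = v q := by
  unfold pd; rw [Function.update_of_ne hq]

/-- removed elements of the predecessor -/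
theorem Rem_pd (P : Finset α) (L : Fin D → ℕ → α) (t : ℕ) (hinj : Inj P L t) (l : Fin D)
    (v : Fin D → ℕ) (hvt : v l ≤ t + 1) (h : ∃ i, i < v l ∧ L l i ∉ RemO L l v) :
    Rem L v = insert (L l (pdi L l v)) (Rem L (pd L l v)) ∧
      L l (pdi L l v) ∉ Rem L (pd L l v) := by
  obtain ⟨h1, h2, h3⟩ := pdi_spec L l v h
  constructor
  · ext x
    rw [mem_insert, mem_Rem, mem_Rem]
    constructor
    · rintro ⟨k, i, hi, rfl⟩
      by_cases hk : k = l
      · subst hk
        rcases lt_trichotomy i (pdi L k v) with hlt | heq | hgt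
        · right; exact ⟨k, i, by rw [pd_self]; exact hlt, rfl⟩
        · left; rw [heq]
        · right
          have := h3 i hgt hi
          rw [mem_RemO] at this
          obtain ⟨k', hk', i', hi', he⟩ := this
          exact ⟨k', i', by rw [pd_ne L k v k' hk']; exact hi', he⟩
      · right; exact ⟨k, i, by rw [pd_ne L l v k hk]; exact hi, rfl⟩
    · rintro (rfl | ⟨k, i, hi, rfl⟩)
      · exact ⟨l, pdi L l v, h1, rfl⟩
      · by_cases hk : k = l
        · subst hk
          rw [pd_self] at hi
          exact ⟨k, i, by omega, rfl⟩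
        · rw [pd_ne L l v k hk] at hi
          exact ⟨k, i, hi, rfl⟩
  · intro hcon
    rw [mem_Rem] at hcon
    obtain ⟨k, i, hi, he⟩ := hcon
    by_cases hk : k = l
    · subst hk
      rw [pd_self] at hi
      have := (hinj k).2 i (pdi L k v) (by omega) (by omega) he
      omega
    · rw [pd_ne L l v k hk] at hi
      exact h2 (mem_RemO.mpr ⟨k, hk, i, hi, he⟩)

/-- the skipped positions are non-private -/
theorem pdi_skip (L : Fin D → ℕ → α) (t : ℕ) (l : Fin D) (v : Fin D → ℕ)
    (hvt : ∀ k, v k ≤ t + 1) (h : ∃ i, i < v l ∧ L l i ∉ RemO L l v) :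
    v l + CN L t l (pdi L l v) ≤ pdi L l v + 1 + CN L t l (v l) := by
  obtain ⟨h1, h2, h3⟩ := pdi_spec L l v h
  have hsub : (Finset.Ioo (pdi L l v) (v l)) ∪ ((NPpos L t l).filter fun i' => i' < pdi L l v)
      ⊆ (NPpos L t l).filter fun i' => i' < v l := by
    intro i hi
    rw [mem_union, mem_Ioo, mem_filter] at hi
    rw [mem_filter]
    rcases hi with ⟨hi1, hi2⟩ | ⟨hi1, hi2⟩
    · refine ⟨?_, hi2⟩
      have := h3 i hi1 hi2
      rw [mem_RemO] at this
      obtain ⟨k, hk, i', hi', he⟩ := this
      unfold NPpos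
      rw [mem_filter, mem_range]
      have := hvt l
      have := hvt k
      exact ⟨by omega, k, hk, i', by omega, he⟩
    · exact ⟨hi1, by omega⟩
  have hcard := Finset.card_le_card hsub
  rw [Finset.card_union_of_disjoint, Nat.card_Ioo] at hcard
  · unfold CN
    omega
  · rw [Finset.disjoint_left]
    intro i hi hi'
    rw [mem_Ioo] at hi
    rw [mem_filter] at hi'
    omega

/-- the recursion for the number of removal sequences -/
theorem N_ge_sum_pd (ext : Finset α → Finset α) (P : Finset α) (L : Fin D → ℕ → α) (t : ℕ)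
    (hinj : Inj P L t) (v : Fin D → ℕ) (Y : Finset (Fin D))
    (hvt : ∀ k, v k ≤ t + 1)
    (hY : ∀ l ∈ Y, (∃ i, i < v l ∧ L l i ∉ RemO L l v) ∧
      L l (pdi L l v) ∈ ext (St P L (pd L l v))) :
    ∑ l ∈ Y, (N ext P (St P L (pd L l v)) : ℝ) ≤ (N ext P (St P L v) : ℝ) := by
  classical
  rcases Y.eq_empty_or_nonempty with hYe | hYne
  · subst hYe; simp
  -- the removed points of different letters are distinct
  have hdist : ∀ l ∈ Y, ∀ k ∈ Y, l ≠ k → L l (pdi L l v) ≠ L k (pdi L k v) := by
    intro l hl k hk hlk he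
    have h1 := pdi_spec L l v (hY l hl).1
    have h2 := pdi_spec L k v (hY k hk).1
    apply h1.2.1
    rw [mem_RemO]
    exact ⟨k, Ne.symm hlk, pdi L k v, h2.1, he.symm⟩
  have hmemP : ∀ l, ∀ i, i < v l → L l i ∈ P := by
    intro l i hi
    have := hvt l
    exact (hinj l).1 i (by omega)
  have hSt : ∀ l ∈ Y, St P L (pd L l v) = insert (L l (pdi L l v)) (St P L v) ∧
      L l (pdi L l v) ∈ P \ St P L v := by
    intro l hl
    obtain ⟨h1, h2⟩ := Rem_pd P L t hinj l v (hvt l) (hY l hl).1
    have h3 := pdi_spec L l v (hY l hl).1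
    have hP := hmemP l _ h3.1
    constructor
    · unfold St
      rw [h1]
      ext x
      rw [mem_sdiff, mem_insert, mem_sdiff, mem_insert]
      constructor
      · rintro ⟨hx1, hx2⟩
        by_cases hx : x = L l (pdi L l v)
        · left; exact hx
        · right; exact ⟨hx1, fun h => h.elim hx hx2⟩
      · rintro (rfl | ⟨hx1, hx2⟩)
        · exact ⟨hP, h2⟩
        · exact ⟨hx1, fun h => hx2 (Or.inr h)⟩
    · unfold St
      rw [mem_sdiff, mem_sdiff, h1]
      exact ⟨hP, fun h => h.2 (mem_insert_self _ _)⟩
  have hne : St P L v ≠ P := by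
    obtain ⟨l, hl⟩ := hYne
    have := (hSt l hl).2
    intro h
    rw [h, sdiff_self] at this
    exact absurd this (Finset.notMem_empty _)
  have hNat : ∑ l ∈ Y, N ext P (St P L (pd L l v)) ≤ N ext P (St P L v) := by
    rw [N.eq_def ext P (St P L v), if_neg hne]
    rw [Finset.sum_attach ((P \ St P L v).filter (fun x => x ∈ ext (insert x (St P L v))))
      (fun x => N ext P (insert x (St P L v)))]
    have e1 : ∑ l ∈ Y, N ext P (St P L (pd L l v))
        = ∑ x ∈ Y.image (fun l => L l (pdi L l v)), N ext P (insert x (St P L v)) := by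
      rw [Finset.sum_image]
      · apply Finset.sum_congr rfl
        intro l hl
        rw [(hSt l hl).1]
      · intro l hl k hk he
        by_contra hne
        exact hdist l hl k hk hne he
    rw [e1]
    apply Finset.sum_le_sum_of_subset
    intro x hx
    rw [mem_image] at hx
    obtain ⟨l, hl, rfl⟩ := hx
    rw [mem_filter]
    refine ⟨(hSt l hl).2, ?_⟩
    rw [← (hSt l hl).1]
    exact (hY l hl).2
  exact_mod_cast hNat

end Pool.Agent.Lib.MP_f1849d_co.J.CostM
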