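import Mathlib
import Pool.Agent.Lib.MP_f1849d_co.J.CostPath

/-!
Cost of nodes, part 2: the block step and the step from one scale to the next one.
-/

namespace Pool.Agent.Lib.MP_f1849d_co.J.CostM

open Finset
open scoped Classical

variable {α : Type} [DecidableEq α] {D : ℕ}

theorem CN_le (L : Fin D → ℕ → α) (t : ℕ) (l : Fin D) (i β : ℕ)
    (h : (NPpos L t l).card ≤ β) : CN L t l i ≤ β :=
  (Finset.card_le_card (Finset.filter_subset _ _)).trans h

theorem CN_mono (L : Fin D → ℕ → α) (t : ℕ) (l : Fin D) {i j : ℕ} (h : i ≤ j) :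
    CN L t l i ≤ CN L t l j := by
  unfold CN
  apply Finset.card_le_card
  intro x hx
  rw [mem_filter] at hx ⊢
  exact ⟨hx.1, by omega⟩

/-- if `u l` is larger than the number of non-private positions below it plus `s`, then the
predecessor exists and has position at least `s` -/
theorem exists_private_below (L : Fin D → ℕ → α) (t : ℕ) (l : Fin D) (u : Fin D → ℕ) (s : ℕ)
    (hut : ∀ k, u k ≤ t + 1) (h : s + 1 + CN L t l (u l) ≤ u l) :
    ∃ i, s ≤ i ∧ i < u l ∧ L l i ∉ RemO L l u := by
  by_contra hcon
  push Not at hcon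
  have hsub : Finset.Ico s (u l) ⊆ (NPpos L t l).filter fun i' => i' < u l := by
    intro i hi
    rw [mem_Ico] at hi
    have := hcon i hi.1 hi.2
    rw [mem_RemO] at this
    obtain ⟨k, hk, i', hi', he⟩ := this
    rw [mem_filter]
    refine ⟨?_, hi.2⟩
    unfold NPpos
    rw [mem_filter, mem_range]
    have := hut l
    have := hut k
    exact ⟨by omega, k, hk, i', by omega, he⟩
  have := Finset.card_le_card hsub
  rw [Nat.card_Ico] at this
  unfold CN at h
  omega

theorem card_sdiff_St (P : Finset α) (L : Fin D → ℕ → α) (t : ℕ) (hinj : Inj P L t)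
    (v : Fin D → ℕ) (hv : ∀ l, v l ≤ t + 1) : (P \ St P L v).card = (Rem L v).card := by
  have hsub : Rem L v ⊆ P := by
    intro x hx
    rw [mem_Rem] at hx
    obtain ⟨l, i, hi, rfl⟩ := hx
    have := hv l
    exact (hinj l).1 i (by omega)
  unfold St
  rw [Finset.sdiff_sdiff_eq_self hsub]

/-- **Block step.** `M` blocks of composition `c` backward from `v`. -/
theorem block_step (ext : Finset α → Finset α) (P : Finset α)
    (L : Fin D → ℕ → α) (t : ℕ) (hinj : Inj P L t)
    (s W β : ℕ) (hval : ValidAt ext P L s W t) (hβ : ∀ l, (NPpos L t l).card ≤ β)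
    (v : Fin D → ℕ) (hvt : ∀ l, v l ≤ t + 1) (c : Fin D → ℕ) (M : ℕ)
    (hlow : ∀ l, s + β + M * c l ≤ v l)
    (hlead : ∀ j, j < M → ∀ l k, v l + j * c k + c k + β ≤ v k + j * c l + W + 1)
    (m : ℝ)
    (hm : ∀ u : Fin D → ℕ, (∀ l, s ≤ u l ∧ u l + M * c l ≤ v l ∧ v l ≤ u l + M * c l + β) →
      (P \ St P L u).card + M * ∑ q, c q = (P \ St P L v).card → m ≤ (N ext P (St P L u) : ℝ)) :
    mult c ^ M * m ≤ (N ext P (St P L v) : ℝ) := by
  apply block_lemma (fun l u => pd L l u) (CN L t) (fun u => (P \ St P L u).card)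
    (fun u => (N ext P (St P L u) : ℝ)) c M v
  · intro j hj r u hr hinv
    have hut : ∀ k, u k ≤ t + 1 := by
      intro k
      have h1 := (hinv k).1
      have h2 := hvt k
      omega
    -- the predecessor for the letter `y`
    have hpred : ∀ y, 0 < r y → (∃ i, i < u y ∧ L y i ∉ RemO L y u) ∧
        L y (pdi L y u) ∈ ext (St P L (pd L y u)) := by
      intro y hy
      have h1 := hinv y
      have h2 := hlow y
      have h3 := hr y
      have h4 := CN_le L t y (v y) β (hβ y)
      have h5 : j * c y + c y ≤ M * c y := by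
        calc j * c y + c y = (j + 1) * c y := by ring
          _ ≤ M * c y := Nat.mul_le_mul_right _ (by omega)
      have h6 : s + 1 + CN L t y (u y) ≤ u y := by omega
      obtain ⟨i, hi1, hi2, hi3⟩ := exists_private_below L t y u s hut h6
      have hex : ∃ i, i < u y ∧ L y i ∉ RemO L y u := ⟨i, hi2, hi3⟩
      refine ⟨hex, ?_⟩
      obtain ⟨p1, p2, p3⟩ := pdi_spec L y u hex
      have hsi : s ≤ pdi L y u := by
        by_contra hlt
        push Not at hlt
        exact hi3 (p3 i (by omega) hi2)
      have hit : pdi L y u ≤ t := by have := hut y; omega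
      have hlead' : ∀ k, pdi L y u ≤ pd L y u k + W := by
        intro k
        by_cases hk : k = y
        · subst hk; rw [pd_self]; omega
        · rw [pd_ne L y u k hk]
          have g1 := (hinv y).1
          have g2 := (hinv k).2
          have g3 := hlead j hj y k
          have g4 := CN_le L t k (v k) β (hβ k)
          have g5 : c k - r k ≤ c k := Nat.sub_le _ _
          omega
      obtain ⟨q1, q2⟩ := Rem_pd P L t hinj y u (hut y) hex
      have hxP : L y (pdi L y u) ∈ P := (hinj y).1 _ hit
      have hxSt : L y (pdi L y u) ∈ St P L (pd L y u) := by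
        unfold St
        rw [mem_sdiff]
        exact ⟨hxP, q2⟩
      have := hval y (pd L y u) (by rw [pd_self]; exact hsi) (by rw [pd_self]; exact hit)
        (by rw [pd_self]; exact hlead') (by rw [pd_self]; exact hxSt)
      rwa [pd_self] at this
    constructor
    · apply N_ge_sum_pd ext P L t hinj u _ hut
      intro y hy
      exact hpred y (mem_filter.mp hy).2
    · intro y hy
      obtain ⟨hex, -⟩ := hpred y hy
      obtain ⟨p1, p2, p3⟩ := pdi_spec L y u hex
      refine ⟨fun q hq => pd_ne L y u q hq, ?_, ?_, ?_⟩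
      · rw [pd_self]; omega
      · rw [pd_self]; exact pdi_skip L t y u hut hex
      · have hut' : ∀ k, pd L y u k ≤ t + 1 := by
          intro k
          by_cases hk : k = y
          · subst hk; rw [pd_self]; have := hut k; omega
          · rw [pd_ne L y u k hk]; exact hut k
        rw [card_sdiff_St P L t hinj _ hut', card_sdiff_St P L t hinj u hut]
        obtain ⟨q1, q2⟩ := Rem_pd P L t hinj y u (hut y) hex
        rw [q1, card_insert_of_notMem q2]
  · intro u hinv hlev
    apply hm u _ hlev
    intro l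
    have h1 := hinv l
    have h2 := hlow l
    have h4 := CN_le L t l (v l) β (hβ l)
    omega

/-- **Cost of a node.** -/
theorem cost_block (hD : 0 < D) (ext : Finset α → Finset α) (P : Finset α)
    (L : Fin D → ℕ → α) (t : ℕ) (hinj : Inj P L t)
    (s W β : ℕ) (hval : ValidAt ext P L s W t) (hβ : ∀ l, (NPpos L t l).card ≤ β)
    (v : Fin D → ℕ) (hvt : ∀ l, v l ≤ t + 1) (c : Fin D → ℕ) (M B0 X : ℕ)
    (hlow : ∀ l, s + β + M * c l ≤ v l)
    (hlead : ∀ j, j < M → ∀ l k, v l + j * c k + c k + β ≤ v k + j * c l + W + 1)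
    (hX : X < B0) (hc : ∑ y, c y = D * B0) (hc1 : ∀ y, c y ≤ B0 + X) (hc2 : ∀ y, B0 ≤ c y + X)
    (η k k' : ℝ)
    (hm : ∀ u : Fin D → ℕ, (∀ l, s ≤ u l ∧ u l + M * c l ≤ v l ∧ v l ≤ u l + M * c l + β) →
      CostLe ext P (D * Real.exp η) (St P L u) k)
    (hk : k + M * (D * Real.log (D * B0 + 1) + 2 * D * X ^ 2 / ((B0 : ℝ) - X) + η * (D * B0))
      ≤ k') :
    CostLe ext P (D * Real.exp η) (St P L v) k' := by
  have hDpos : (0 : ℝ) < D := by exact_mod_cast hD
  set Dp : ℝ := D * Real.exp η with hDp
  have hDp0 : 0 < Dp := mul_pos hDpos (Real.exp_pos _)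
  set A : ℝ := D * Real.log (D * B0 + 1) + 2 * D * X ^ 2 / ((B0 : ℝ) - X) + η * (D * B0) with hA
  by_cases hge : M * (D * B0) ≤ (P \ St P L v).card
  · -- apply the block step
    have hblock := block_step ext P L t hinj s W β hval hβ v hvt c M hlow hlead
      (Dp ^ ((P \ St P L v).card - M * (D * B0)) * Real.exp (-k)) (by
        intro u hu hlev
        have h1 := hm u hu
        unfold CostLe at h1
        rw [hc] at hlev
        have h2 : (P \ St P L v).card - M * (D * B0) = (P \ St P L u).card := by omega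
        rw [h2]; exact h1)
    unfold CostLe
    refine le_trans ?_ hblock
    -- `Dp ^ (D B0) ≤ exp A * mult c`
    have h3 : Dp ^ (D * B0) ≤ Real.exp A * mult c := by
      have h4 := pow_le_mult B0 X hX c hc hc1 hc2
      have h5 : Dp ^ (D * B0) = (D : ℝ) ^ (D * B0) * Real.exp (η * (D * B0)) := by
        rw [hDp, mul_pow, ← Real.exp_nat_mul]
        congr 2
        push_cast; ring
      have h6 : (((D * B0 + 1 : ℕ) : ℝ)) ^ D = Real.exp (D * Real.log (D * B0 + 1)) := by
        rw [Real.exp_nat_mul, Real.exp_log (by positivity)]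
        push_cast; ring
      rw [h5, hA, Real.exp_add, Real.exp_add, ← h6]
      calc (D : ℝ) ^ (D * B0) * Real.exp (η * (D * B0))
          ≤ (((D * B0 + 1 : ℕ) : ℝ) ^ D * Real.exp (2 * D * X ^ 2 / ((B0 : ℝ) - X)) * mult c)
            * Real.exp (η * (D * B0)) := mul_le_mul_of_nonneg_right h4 (Real.exp_pos _).le
        _ = _ := by ring
    have h7 : Dp ^ (M * (D * B0)) ≤ Real.exp (M * A) * mult c ^ M := by
      calc Dp ^ (M * (D * B0)) = (Dp ^ (D * B0)) ^ M := by rw [← pow_mul, Nat.mul_comm]
        _ ≤ (Real.exp A * mult c) ^ M := pow_le_pow_left₀ (by positivity) h3 M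
        _ = _ := by rw [mul_pow, ← Real.exp_nat_mul]
    have h8 : Dp ^ (P \ St P L v).card
        = Dp ^ ((P \ St P L v).card - M * (D * B0)) * Dp ^ (M * (D * B0)) := by
      rw [← pow_add]; congr 1; omega
    have h9 : Real.exp (-k') ≤ Real.exp (-(M * A)) * Real.exp (-k) := by
      rw [← Real.exp_add]
      apply Real.exp_le_exp.mpr
      linarith
    calc Dp ^ (P \ St P L v).card * Real.exp (-k')
        ≤ (Dp ^ ((P \ St P L v).card - M * (D * B0)) * (Real.exp (M * A) * mult c ^ M))
          * (Real.exp (-(M * A)) * Real.exp (-k)) := by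
          rw [h8]
          apply mul_le_mul _ h9 (Real.exp_pos _).le
          · have := mult_pos c
            positivity
          · exact mul_le_mul_of_nonneg_left h7 (by positivity)
      _ = mult c ^ M * (Dp ^ ((P \ St P L v).card - M * (D * B0)) * Real.exp (-k)) *
          (Real.exp (M * A) * Real.exp (-(M * A))) := by ring
      _ = mult c ^ M * (Dp ^ ((P \ St P L v).card - M * (D * B0)) * Real.exp (-k)) := by
          rw [← Real.exp_add, add_neg_cancel, Real.exp_zero, mul_one]
  · -- impossible level: apply the block step with a large value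
    exfalso
    have hmp : 0 < mult c ^ M := pow_pos (mult_pos c) M
    have hblock := block_step ext P L t hinj s W β hval hβ v hvt c M hlow hlead
      (((N ext P (St P L v) : ℝ) + 1) / mult c ^ M) (by
        intro u hu hlev
        rw [hc] at hlev
        omega)
    rw [mul_div_cancel₀ _ hmp.ne'] at hblock
    linarith

/-- a composition with sum divisible by `D`, close to `(v - s) / M` -/
theorem exists_composition (hD : 0 < D) (f : Fin D → ℕ) (hf : ∀ l, D ≤ f l) :
    ∃ (c : Fin D → ℕ) (B0 : ℕ), (∀ l, c l ≤ f l) ∧ (∀ l, f l ≤ c l + D) ∧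
      ∑ l, c l = D * B0 ∧ ∑ l, f l ≤ ∑ l, c l + D := by
  classical
  set l0 : Fin D := ⟨0, hD⟩
  set e := (∑ l, f l) % D with he
  have heD : e < D := Nat.mod_lt _ hD
  have h1 : ∑ l, (if l = l0 then f l - e else f l) + e = ∑ l, f l := by
    rw [← Finset.add_sum_erase _ _ (mem_univ l0), ← Finset.add_sum_erase _ f (mem_univ l0),
      if_pos rfl]
    have h2 : ∑ x ∈ univ.erase l0, (if x = l0 then f x - e else f x) = ∑ x ∈ univ.erase l0, f x :=
      Finset.sum_congr rfl fun x hx => by rw [if_neg (Finset.ne_of_mem_erase hx)]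
    rw [h2]
    have := hf l0
    omega
  refine ⟨fun l => if l = l0 then f l - e else f l, (∑ l, f l) / D, ?_, ?_, ?_, ?_⟩
  · intro l
    simp only
    split_ifs <;> omega
  · intro l
    simp only
    have := hf l
    split_ifs <;> omega
  · have h3 := Nat.div_add_mod (∑ l, f l) D
    rw [← he] at h3
    change ∑ l, (if l = l0 then f l - e else f l) = D * ((∑ l, f l) / D)
    omega
  · change ∑ l, f l ≤ ∑ l, (if l = l0 then f l - e else f l) + D
    omega

/-- **Cost of the box of the next scale.** -/
theorem cost_scale (hD : 0 < D) (ext : Finset α → Finset α) (P : Finset α)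
    (L : Fin D → ℕ → α) (t : ℕ) (hinj : Inj P L t)
    (s w s' w' W β M a b : ℕ) (hval : ValidAt ext P L s W t)
    (hβ : ∀ l, (NPpos L t l).card ≤ β)
    (hM : 0 < M) (ht : s' + w' ≤ t + 2)
    (ha : M * (a + D) + s + β ≤ s') (hb : s' + w' ≤ s + β + M * (b + 1))
    (hland : β + M * (D + 1) + 1 ≤ w) (hMw : M * (D + 1) ≤ w') (hW : w' + b + β ≤ W + 1)
    (hab : 2 * (b - a) < a) (hab' : a ≤ b)
    (η k k' : ℝ) (hη : 0 ≤ η)
    (hk0 : ∀ u ∈ box D s w, CostLe ext P (D * Real.exp η) (St P L u) k)
    (hk : k + M * (D * Real.log (D * b + 1) + 2 * D * ((b : ℝ) - a) ^ 2 / ((a : ℝ) - (b - a))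
      + η * (D * b)) ≤ k') :
    ∀ v ∈ box D s' w', CostLe ext P (D * Real.exp η) (St P L v) k' := by
  intro v hv
  unfold box at hv
  rw [Fintype.mem_piFinset] at hv
  have hv1 : ∀ l, s' ≤ v l := fun l => (mem_Ico.mp (hv l)).1
  have hv2 : ∀ l, v l < s' + w' := fun l => (mem_Ico.mp (hv l)).2
  have hw' : 0 < w' := by
    have := hv1 ⟨0, hD⟩
    have := hv2 ⟨0, hD⟩
    omega
  -- the composition
  set f : Fin D → ℕ := fun l => (v l - s - β) / M with hf
  have hf1 : ∀ l, M * f l + s + β ≤ v l := by
    intro l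
    have h1 := Nat.mul_div_le (v l - s - β) M
    have h2 := hv1 l
    have h3 : M * f l ≤ v l - s - β := h1
    have h4 : s + β ≤ v l := by omega
    omega
  have hf2 : ∀ l, v l < M * f l + M + s + β := by
    intro l
    have h1 := Nat.lt_mul_div_succ (v l - s - β) hM
    have h2 := hv1 l
    have h3 : v l - s - β < M * (f l + 1) := h1
    have h4 : M * (f l + 1) = M * f l + M := by ring
    omega
  have hf3 : ∀ l, a + D ≤ f l := by
    intro l
    rw [hf, Nat.le_div_iff_mul_le hM, Nat.mul_comm]
    have := hv1 l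
    omega
  have hf4 : ∀ l, f l ≤ b := by
    intro l
    by_contra hlt
    push Not at hlt
    have h1 : M * (b + 1) ≤ M * f l := Nat.mul_le_mul_left _ hlt
    have h2 := hf1 l
    have h3 := hv2 l
    omega
  obtain ⟨c, B0, hc1, hc2, hcs, -⟩ := exists_composition hD f (fun l => by
    have := hf3 l; omega)
  have hca : ∀ l, a ≤ c l := fun l => by have := hf3 l; have := hc2 l; omega
  have hcb : ∀ l, c l ≤ b := fun l => (hc1 l).trans (hf4 l)
  have hB0a : a ≤ B0 := by
    have h1 : D * a ≤ D * B0 := by
      rw [← hcs]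
      calc D * a = ∑ _l : Fin D, a := by simp
        _ ≤ ∑ l, c l := Finset.sum_le_sum fun l _ => hca l
    exact Nat.le_of_mul_le_mul_left h1 hD
  have hB0b : B0 ≤ b := by
    have h1 : D * B0 ≤ D * b := by
      rw [← hcs]
      calc ∑ l, c l ≤ ∑ _l : Fin D, b := Finset.sum_le_sum fun l _ => hcb l
        _ = D * b := by simp
    exact Nat.le_of_mul_le_mul_left h1 hD
  -- coordinates after `M` blocks
  have hMc1 : ∀ l, s + β + M * c l ≤ v l := by
    intro l
    have h1 := hf1 l
    have h2 : M * c l ≤ M * f l := Nat.mul_le_mul_left _ (hc1 l)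
    omega
  have hMc2 : ∀ l, v l < s + β + M * c l + M * (D + 1) := by
    intro l
    have h1 := hf2 l
    have h2 : M * f l ≤ M * (c l + D) := Nat.mul_le_mul_left _ (hc2 l)
    have h3 : M * (c l + D) = M * c l + M * D := by ring
    have h4 : M * (D + 1) = M * D + M := by ring
    omega
  apply cost_block hD ext P L t hinj s W β hval hβ v
    (fun l => by have := hv2 l; omega) c M B0 (b - a) hMc1 ?_ (by omega) hcs
    (fun y => by have := hcb y; omega) (fun y => by have := hca y; omega) η k k' ?_ ?_
  · -- leads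
    intro j hj l k'
    have h1 := hv1 k'
    have h2 := hv2 l
    have h3 := hcb k'
    rcases Nat.le_total (c k') (c l) with hle | hle
    · have h4 : j * c k' ≤ j * c l := Nat.mul_le_mul_left _ hle
      omega
    · -- compare with the end
      have h5 := hMc2 l
      have h6 := hMc1 k'
      have h7 : j * c k' + M * c l ≤ j * c l + M * c k' := by
        obtain ⟨e, he⟩ := Nat.exists_eq_add_of_le hle
        rw [he]
        have : j * (c l + e) + M * c l = j * c l + (j * e + M * c l) := by ring
        rw [this]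
        have h8 : M * (c l + e) = M * c l + M * e := by ring
        rw [h8]
        have h9 : j * e ≤ M * e := Nat.mul_le_mul_right _ hj.le
        omega
      omega
  · intro u hu
    apply hk0 u
    unfold box
    rw [Fintype.mem_piFinset]
    intro l
    rw [mem_Ico]
    obtain ⟨g1, g2, g3⟩ := hu l
    have := hMc2 l
    refine ⟨g1, ?_⟩
    omega
  · refine le_trans ?_ hk
    have hDr : (0 : ℝ) < D := by exact_mod_cast hD
    have hB0a' : (a : ℝ) ≤ B0 := by exact_mod_cast hB0a
    have hB0b' : (B0 : ℝ) ≤ b := by exact_mod_cast hB0b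
    have hab'' : (a : ℝ) ≤ b := by exact_mod_cast hab'
    have hX : ((b - a : ℕ) : ℝ) = (b : ℝ) - a := by rw [Nat.cast_sub hab']
    have hpos : (0 : ℝ) < (a : ℝ) - (b - a) := by
      have h1 : (2 * (b - a : ℕ) : ℝ) < a := by exact_mod_cast hab
      rw [hX] at h1
      linarith
    have hMr : (0 : ℝ) ≤ M := by positivity
    have e1 : Real.log (D * B0 + 1) ≤ Real.log (D * b + 1) := by
      apply Real.log_le_log (by positivity)
      have := mul_le_mul_of_nonneg_left hB0b' hDr.le
      linarith
    have e2 : 2 * D * ((b - a : ℕ) : ℝ) ^ 2 / ((B0 : ℝ) - ((b - a : ℕ) : ℝ))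
        ≤ 2 * D * ((b : ℝ) - a) ^ 2 / ((a : ℝ) - (b - a)) := by
      rw [hX]
      apply div_le_div_of_nonneg_left (by positivity) hpos
      linarith
    have e3 : η * (D * B0) ≤ η * (D * b) :=
      mul_le_mul_of_nonneg_left (mul_le_mul_of_nonneg_left hB0b' hDr.le) hη
    have e4 : D * Real.log (D * B0 + 1) ≤ D * Real.log (D * b + 1) :=
      mul_le_mul_of_nonneg_left e1 hDr.le
    have e5 := mul_le_mul_of_nonneg_left (add_le_add (add_le_add e4 e2) e3) hMr
    linarith

theorem mult_unit (l0 : Fin D) : mult (fun l : Fin D => if l = l0 then 1 else 0) = 1 := by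
  unfold mult
  have h1 : ∑ y : Fin D, (if y = l0 then 1 else 0) = 1 := by simp
  have h2 : ∏ y : Fin D, (((if y = l0 then 1 else 0 : ℕ).factorial : ℕ) : ℝ) = 1 := by
    apply Finset.prod_eq_one
    intro y _
    split_ifs <;> simp
  rw [h1, h2]
  simp

theorem one_le_N (ext : Finset α → Finset α) (P : Finset α)
    (L : Fin D → ℕ → α) (t : ℕ) (hinj : Inj P L t) (hval : ∀ W, ValidAt ext P L 0 W t)
    (hpriv : ∀ l, NPpos L t l = ∅) :
    ∀ n : ℕ, ∀ v : Fin D → ℕ, ∑ l, v l = n → (∀ l, v l ≤ t + 1) →
      (1 : ℝ) ≤ (N ext P (St P L v) : ℝ) := by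
  intro n
  induction n with
  | zero =>
    intro v hv _
    have hv0 : ∀ l, v l = 0 := fun l => Finset.sum_eq_zero_iff.mp hv l (mem_univ l)
    have hR : Rem L v = ∅ := by
      rw [Finset.eq_empty_iff_forall_notMem]
      intro x hx
      rw [mem_Rem] at hx
      obtain ⟨l, i, hi, -⟩ := hx
      rw [hv0 l] at hi
      omega
    have hS : St P L v = P := by unfold St; rw [hR, Finset.sdiff_empty]
    rw [hS, N.eq_def, if_pos rfl]
    simp
  | succ n ih =>
    intro v hv hvt
    obtain ⟨l0, hl0⟩ : ∃ l, 0 < v l := by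
      by_contra hcon
      push Not at hcon
      have : ∑ l, v l = 0 := Finset.sum_eq_zero fun l _ => Nat.le_zero.mp (hcon l)
      omega
    have hβ : ∀ l, (NPpos L t l).card ≤ 0 := fun l => by rw [hpriv l]; simp
    have h := block_step ext P L t hinj 0 (t + 2) 0 (hval _) hβ v hvt (fun l => if l = l0 then 1 else 0) 1
      (by
        intro l
        by_cases hl : l = l0
        · subst hl; simp; omega
        · simp [hl])
      (by
        intro j hj l k
        have h1 := hvt l
        have h2 : j = 0 := by omega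
        subst h2
        simp only [Nat.zero_mul, Nat.add_zero]
        split_ifs <;> omega)
      1 (by
        intro u hu _
        apply ih u _ _
        · have h3 : ∀ l, u l + (if l = l0 then 1 else 0) = v l := by
            intro l
            have := hu l
            omega
          have h4 : ∑ l, u l + 1 = ∑ l, v l := by
            rw [← Finset.sum_congr rfl (fun l _ => h3 l), Finset.sum_add_distrib]
            simp
          omega
        · intro l
          have := hu l
          have := hvt l
          omega)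
    rw [mult_unit, one_pow, one_mul] at h
    exact h

/-- **Cost of the first box**, from the origin. All positions up to `t` are private. -/
theorem cost_start (hD : 0 < D) (ext : Finset α → Finset α) (P : Finset α)
    (L : Fin D → ℕ → α) (t : ℕ) (hinj : Inj P L t) (hval : ∀ W, ValidAt ext P L 0 W t)
    (hpriv : ∀ l, NPpos L t l = ∅) (a b : ℕ)
    (hab : 2 * (b - a) < a) (hab' : a ≤ b) (η k : ℝ) (hη : 0 ≤ η)
    (hk : D * Real.log (D * Real.exp η) + (D * Real.log (D * b + 1) +
      2 * D * ((b : ℝ) - a) ^ 2 / ((a : ℝ) - (b - a)) + η * (D * b)) ≤ k)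
    (v : Fin D → ℕ) (hva : ∀ l, a + D ≤ v l) (hvb : ∀ l, v l ≤ b) (hvt : ∀ l, v l ≤ t + 1) :
    CostLe ext P (D * Real.exp η) (St P L v) k := by
  have hDr : (0 : ℝ) < D := by exact_mod_cast hD
  set Dp : ℝ := D * Real.exp η with hDp
  have hD1 : (1 : ℝ) ≤ D := by exact_mod_cast hD
  have hDp1 : 1 ≤ Dp := by
    have h1 : 1 ≤ Real.exp η := Real.one_le_exp hη
    calc (1 : ℝ) = 1 * 1 := by ring
      _ ≤ D * Real.exp η := mul_le_mul hD1 h1 zero_le_one hDr.le
  have hDp0 : 0 < Dp := lt_of_lt_of_le one_pos hDp1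
  have hβ : ∀ l, (NPpos L t l).card ≤ 0 := fun l => by rw [hpriv l]; simp
  obtain ⟨c, B0, hc1, hc2, hcs, hsumv⟩ := exists_composition hD v (fun l => by
    have := hva l; omega)
  have hca : ∀ l, a ≤ c l := fun l => by have := hva l; have := hc2 l; omega
  have hcb : ∀ l, c l ≤ b := fun l => (hc1 l).trans (hvb l)
  have hB0a : a ≤ B0 := by
    have h1 : D * a ≤ D * B0 := by
      rw [← hcs]
      calc D * a = ∑ _l : Fin D, a := by simp
        _ ≤ ∑ l, c l := Finset.sum_le_sum fun l _ => hca l
    exact Nat.le_of_mul_le_mul_left h1 hD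
  have hB0b : B0 ≤ b := by
    have h1 : D * B0 ≤ D * b := by
      rw [← hcs]
      calc ∑ l, c l ≤ ∑ _l : Fin D, b := Finset.sum_le_sum fun l _ => hcb l
        _ = D * b := by simp
    exact Nat.le_of_mul_le_mul_left h1 hD
  apply cost_block hD ext P L t hinj 0 (t + b + 1) 0 (hval _) hβ v hvt c 1 B0 (b - a) (fun l => by
      have := hc1 l; omega) ?_ (by omega) hcs
    (fun y => by have := hcb y; omega) (fun y => by have := hca y; omega) η
    (D * Real.log Dp) k ?_ ?_
  · intro j hj l k'
    have h2 : j = 0 := by omega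
    subst h2
    have h3 := hvt l
    have h4 := hcb k'
    simp only [Nat.zero_mul, Nat.add_zero]
    omega
  · intro u hu
    unfold CostLe
    have hut : ∀ l, u l ≤ t + 1 := fun l => by
      have := hu l
      have := hvt l
      omega
    have h1 := one_le_N ext P L t hinj hval hpriv _ u rfl hut
    refine le_trans ?_ h1
    have h3 : ∀ l, u l + c l = v l := by
      intro l
      have := hu l
      omega
    have h4 : ∑ l, u l ≤ D := by
      have : ∑ l, u l + ∑ l, c l = ∑ l, v l := by
        rw [← Finset.sum_add_distrib]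
        exact Finset.sum_congr rfl fun l _ => h3 l
      omega
    have h5 : (P \ St P L u).card ≤ D := by
      rw [card_sdiff_St P L t hinj u hut]
      unfold Rem
      calc _ ≤ ∑ l, ((range (u l)).image (L l)).card := Finset.card_biUnion_le
        _ ≤ ∑ l, u l := Finset.sum_le_sum fun l _ => by
            calc ((range (u l)).image (L l)).card ≤ (range (u l)).card := Finset.card_image_le
              _ = u l := Finset.card_range _
        _ ≤ D := h4
    calc Dp ^ (P \ St P L u).card * Real.exp (-(D * Real.log Dp))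
        ≤ Dp ^ D * Real.exp (-(D * Real.log Dp)) :=
          mul_le_mul_of_nonneg_right (pow_le_pow_right₀ hDp1 h5) (Real.exp_pos _).le
      _ = 1 := by
          rw [Real.exp_neg, Real.exp_nat_mul, Real.exp_log hDp0]
          exact mul_inv_cancel₀ (pow_pos hDp0 D).ne'
  · refine le_trans ?_ hk
    have hB0a' : (a : ℝ) ≤ B0 := by exact_mod_cast hB0a
    have hB0b' : (B0 : ℝ) ≤ b := by exact_mod_cast hB0b
    have hX : ((b - a : ℕ) : ℝ) = (b : ℝ) - a := by rw [Nat.cast_sub hab']
    have hpos : (0 : ℝ) < (a : ℝ) - (b - a) := by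
      have h1 : (2 * (b - a : ℕ) : ℝ) < a := by exact_mod_cast hab
      rw [hX] at h1
      have : (a : ℝ) ≤ b := by exact_mod_cast hab'
      linarith
    have e1 : Real.log (D * B0 + 1) ≤ Real.log (D * b + 1) := by
      apply Real.log_le_log (by positivity)
      have := mul_le_mul_of_nonneg_left hB0b' hDr.le
      linarith
    have e2 : 2 * D * ((b - a : ℕ) : ℝ) ^ 2 / ((B0 : ℝ) - ((b - a : ℕ) : ℝ))
        ≤ 2 * D * ((b : ℝ) - a) ^ 2 / ((a : ℝ) - (b - a)) := by
      rw [hX]
      apply div_le_div_of_nonneg_left (by positivity) hpos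
      linarith
    have e3 : η * (D * B0) ≤ η * (D * b) :=
      mul_le_mul_of_nonneg_left (mul_le_mul_of_nonneg_left hB0b' hDr.le) hη
    have e4 : D * Real.log (D * B0 + 1) ≤ D * Real.log (D * b + 1) :=
      mul_le_mul_of_nonneg_left e1 hDr.le
    rw [Nat.cast_one, one_mul]
    linarith

end Pool.Agent.Lib.MP_f1849d_co.J.CostM
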