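import Pool.Agent.Lib.MP_f1849d_co.J.Defs

/-!
MP_f1849d_co, route J: the statements of all modules, as Props, with proofs in the docstrings.
See team-store `MP_f1849d_proof.md` for the overview. Width of the starting box `w = 128 y`,
tube `W = 129 y`, lag `130 y`, maturity `8 y`.
-/

open Finset
open scoped Classical

namespace Pool.Agent.Lib.MP_f1849d_co.J

/-! ## Counting (module Count) -/

/-- `g` recursion, positivity; `N` recursion; `N S * g S ≤ g P`. -/
def CountStmt : Prop :=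
  ∀ (α : Type) [DecidableEq α] (D : ℕ) (P : Finset α) (ext : Finset α → Finset α),
    Geom D P ext →
    (g ext (∅ : Finset α) = 1) ∧
    (∀ S, S ⊆ P → S.Nonempty → g ext S = ∑ e ∈ ext S, g ext (S.erase e)) ∧
    (∀ S, S ⊆ P → 0 < g ext S) ∧
    (N ext P P = 1) ∧
    (∀ S, S ⊆ P → S ≠ P →
      N ext P S = ∑ x ∈ (P \ S).filter (fun x => x ∈ ext (insert x S)), N ext P (insert x S)) ∧
    (∀ S, S ⊆ P → N ext P S * g ext S ≤ g ext P)

/-- From a record to a potential. `U S = log g S - |S| log Dp - (log g P - |P| log Dp)`. -/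
def PotStmt : Prop :=
  ∀ (α : Type) [DecidableEq α] (D : ℕ) (P : Finset α) (ext : Finset α → Finset α) (Dp : ℝ),
    Geom D P ext → 0 < Dp → Record ext P Dp →
    ∃ U : Finset α → ℝ, Pot Dp P ext U ∧ ∀ S, S ⊆ P → ∀ k, CostLe ext P Dp S k → U S ≤ k

/-! ## One step inequality (module OneStep) -/

/-- Let `k = #{l : p l ∈ H}`. The terms with `p l ∈ H` equal `Φ - 1`, where
`Φ = U (S \ H) + |H|`. For `p l ∉ H`: `p l ∈ ext (S \ H)` by `mono`; put
`a l = U ((S \ H).erase (p l)) - U (S \ H)`. `Pot.step` gives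
`∑_{l, p l ∉ H} exp (a l) ≤ Dp - [bad] exp (-2)`. For `k < D` put `ρ = Dp / (D-k)` and use
`exp a ≥ ρ (1 + a - log ρ)`; `(D-k) log (Dp/(D-k)) ≤ (D-k) η + k`. Case `k = D` is trivial. -/
def OneStepStmt : Prop :=
  ∀ (α : Type) [DecidableEq α] (D : ℕ) (P : Finset α) (ext : Finset α → Finset α)
    (U : Finset α → ℝ) (Dp eta : ℝ),
    3 ≤ D → Geom D P ext → Pot Dp P ext U → 0 ≤ eta → Dp = D * Real.exp eta → Dp ≤ 2 * D →
    ∀ (S H : Finset α) (p : Fin D → α), S ⊆ P → H ⊆ S → Function.Injective p →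
    (∀ l, p l ∈ ext S) →
    (∀ e ∈ ext (S \ H), (∀ l, e ≠ p l) → U (S \ H) - 2 ≤ U ((S \ H).erase e)) →
    (1 / (D : ℝ)) * ∑ l, (U (S.erase (p l) \ H.erase (p l)) + ((H.erase (p l)).card : ℝ)) ≤
      U (S \ H) + H.card + eta -
        (if ext (S \ H) ⊆ univ.image p then 0 else 1 / (16 * (D : ℝ) ^ 2))

/-- Properties of the harvest. -/
def HarvStmt : Prop :=
  ∀ (α : Type) [DecidableEq α] (ext : Finset α → Finset α) (P : Finset α) (U : Finset α → ℝ)
    (D : ℕ), Geom D P ext → ∀ (S H : Finset α), S ⊆ P → H ⊆ S →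
    H ⊆ harv U S H ∧ harv U S H ⊆ S ∧
    (U (S \ harv U S H) + (harv U S H).card + ((harv U S H).card - H.card : ℝ) ≤
      U (S \ H) + H.card) ∧
    ∀ e ∈ ext (S \ harv U S H), U (S \ harv U S H) - 2 ≤ U ((S \ harv U S H).erase e)

/-! ## Averages over words (module AvgLib) -/

def AvgLibStmt : Prop :=
  ∀ (D : ℕ) [NeZero D] (M : ℕ),
    (∀ f h : (ℕ → Fin D) → ℝ, Avg D M (fun om => f om + h om) = Avg D M f + Avg D M h) ∧
    (∀ (c : ℝ) (f : (ℕ → Fin D) → ℝ), Avg D M (fun om => c * f om) = c * Avg D M f) ∧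
    (∀ c : ℝ, Avg D M (fun _ => c) = c) ∧
    (∀ f h : (ℕ → Fin D) → ℝ, (∀ om, f om ≤ h om) → Avg D M f ≤ Avg D M h) ∧
    (∀ (ι : Type) (s : Finset ι) (f : ι → (ℕ → Fin D) → ℝ),
      Avg D M (fun om => ∑ i ∈ s, f i om) = ∑ i ∈ s, Avg D M (f i))

/-- Fourth moments: for `l ≠ m`, `Δ_j = cnt om l j - cnt om m j` satisfies `E Δ_j^2 ≤ 2 j / D`,
`E Δ_j^4 ≤ 3 j^2` (`j ≤ M`; induction on `M` with `cons`), Markov and the union bound over
`j ≤ M`, `l`, `m`. -/
def WordsStmt : Prop :=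
  ∀ (D : ℕ) [NeZero D] (M b : ℕ), 3 ≤ D → 48 * D ^ 2 * M ^ 3 ≤ b ^ 4 → 0 < b →
    Avg D M (fun om => if GoodWord b M om then 1 else 0) ≥ 15 / 16

/-! ## Nodes (module Nodes) -/

/-- Elementary facts about `nxt`. Let `v` be a node, `v' = nxt L l v`, `0 < v' l` (so the
defining set is nonempty).
(1) `v l < v' l`, the other coordinates are unchanged;
(2) `St v' = (St v).erase (L l (v l))`;
(3) if `v' l ≤ t` the positions strictly between `v l` and `v' l` are in `NPpos L t l`, and more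
precisely `L l i` lies in a prefix `L k i'`, `k ≠ l`, `i' < v k`;
(4) if `i > v l`, `i ≤ t` and `L l i` is not `L k i'` for `k ≠ l`, `i' < v k`, then
`0 < v' l ≤ i`. -/
def NodesStmt : Prop :=
  ∀ (α : Type) [DecidableEq α] (D : ℕ) (P : Finset α) (L : Fin D → ℕ → α) (s W t : ℕ),
    Inj P L t → 0 < s → ∀ v, Node P L s W t v → ∀ l,
    (∀ k, k ≠ l → nxt L l v k = v k) ∧
    (0 < nxt L l v l → v l < nxt L l v l ∧
      St P L (nxt L l v) = (St P L v).erase (L l (v l)) ∧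
      (nxt L l v l ≤ t → ∀ i, v l < i → i < nxt L l v l →
        ∃ k, k ≠ l ∧ ∃ i', i' < v k ∧ L k i' = L l i)) ∧
    (∀ i, v l < i → i ≤ t → (∀ k, k ≠ l → ∀ i', i' < v k → L k i' ≠ L l i) →
      0 < nxt L l v l ∧ nxt L l v l ≤ i)

/-- Exact inverse. `v l` is the largest `i < v' l` such that `L l i` is in no other prefix. -/
def InverseStmt : Prop :=
  ∀ (α : Type) [DecidableEq α] (D : ℕ) (P : Finset α) (L : Fin D → ℕ → α) (s W t : ℕ),
    Inj P L t → 0 < s → ∀ v1 v2, Node P L s W t v1 → Node P L s W t v2 → ∀ l,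
    nxt L l v1 = nxt L l v2 → 0 < nxt L l v1 l → nxt L l v1 l ≤ t → v1 = v2

/-! ## Paths (module Path) -/

/-- (P1) positions along alive paths (also for the position after the last alive one, if the new
coordinate is in `(0, t]`). Induction on `j` with `NodesStmt`; the positions skipped in list `l`
so far are distinct elements of `NPpos L t l`. -/
def PosStmt : Prop :=
  ∀ (α : Type) [DecidableEq α] (D : ℕ) (P : Finset α) (L : Fin D → ℕ → α) (s W t : ℕ),
    Inj P L t → 0 < s → ∀ (u : Fin D → ℕ) (om : ℕ → Fin D) (j : ℕ), Alive P L s W t u om j →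
    (∀ l, u l + cnt om l j ≤ pos L u om j l ∧
      pos L u om j l ≤ u l + cnt om l j + (NPpos L t l).card) ∧
    (0 < pos L u om (j + 1) (om j) → pos L u om (j + 1) (om j) ≤ t →
      ∀ l, u l + cnt om l (j + 1) ≤ pos L u om (j + 1) l ∧
        pos L u om (j + 1) l ≤ u l + cnt om l (j + 1) + (NPpos L t l).card)

/-- (P3) cap: for a fixed word, node and letter the number of starts in the box whose path visits
the node at a time at which the letter is `l`. The start is determined by the time (exact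
inverse), the time by `cnt om l j`, which takes at most `w + β` values. -/
def CapStmt : Prop :=
  ∀ (α : Type) [DecidableEq α] (D : ℕ) (P : Finset α) (L : Fin D → ℕ → α) (s W t w beta : ℕ),
    Inj P L t → 0 < s → (∀ l, (NPpos L t l).card ≤ beta) →
    ∀ (M : ℕ) (om : ℕ → Fin D) (l : Fin D) (v : Fin D → ℕ),
    ((box D s w).filter (fun u => ∃ j, j < M ∧ Alive P L s W t u om j ∧ om j = l ∧
      pos L u om j = v)).card ≤ w + beta

/-- (P4) few starts are lost. Non-nodes: some pointer is at a non-private position; at most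
`D β w^(D-1)`. Coincidences: `D^2` pairs of lists, at most `β` positions, the other coordinates
of the node before the step lie in a window of size `2 W + 1`, and `CapStmt` (through the
inverse). -/
def LostStmt : Prop :=
  ∀ (α : Type) [DecidableEq α] (D : ℕ) (P : Finset α) (L : Fin D → ℕ → α) (s t y beta : ℕ),
    3 ≤ D → Inj P L t → 0 < s → (∀ l, (NPpos L t l).card ≤ beta) → s + 128 * y ≤ t →
    64 * D ^ 2 * 260 ^ D * beta ≤ y →
    ∀ (M : ℕ) (om : ℕ → Fin D),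
    64 * ((box D s (128 * y)).filter (fun u => Lost P L s (129 * y) t M u om)).card ≤ y ^ D

/-- (P5) crossing. `j` = the last alive time with `pos j m ≤ ν`. -/
def CrossStmt : Prop :=
  ∀ (α : Type) [DecidableEq α] (D : ℕ) (P : Finset α) (L : Fin D → ℕ → α)
    (s t y b beta M : ℕ),
    3 ≤ D → Inj P L t → 0 < s → (∀ l, (NPpos L t l).card ≤ beta) → b + beta ≤ y →
    D * (t + 1) ≤ M →
    ∀ (om : ℕ → Fin D), GoodWord b M om → ∀ u ∈ box D s (128 * y),
    ¬ Lost P L s (129 * y) t M u om →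
    ∀ (m : Fin D) (nu : ℕ) (a c : Fin D → ℕ), u m ≤ nu → nu ≤ t →
    (∀ k, k ≠ m → c k + b + beta + 2 ≤ t) →
    (∀ k, k ≠ m → a k + u m + (b + beta) ≤ nu + u k ∧ nu + u k + (b + beta) ≤ c k + u m) →
    (∀ k, k ≠ m → ∀ i, i ≤ c k → L k i ≠ L m nu) →
    ∃ j, j < M ∧ Alive P L s (129 * y) t u om j ∧ om j = m ∧ pos L u om j m = nu ∧
      ∀ k, k ≠ m → a k ≤ pos L u om j k ∧ pos L u om j k ≤ c k

/-- Rows: many rows cross the entry `(m, nu)` at a node outside `V`.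
For a good word: `#{u ∈ A : crossing, node ∉ V} ≥ |A| - #lost - |V| (w + β)`. Average. -/
def RowStmt : Prop :=
  ∀ (α : Type) [DecidableEq α] (D : ℕ) [NeZero D] (P : Finset α) (L : Fin D → ℕ → α)
    (s t y b beta M : ℕ),
    3 ≤ D → Inj P L t → 0 < s → (∀ l, (NPpos L t l).card ≤ beta) → b + beta ≤ y →
    D * (t + 1) ≤ M → s + 128 * y ≤ t → 64 * D ^ 2 * 260 ^ D * beta ≤ y →
    48 * D ^ 2 * M ^ 3 ≤ b ^ 4 → 0 < b →
    ∀ (A : Finset (Fin D → ℕ)), A ⊆ box D s (128 * y) →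
    ∀ (m : Fin D) (nu : ℕ) (a c : Fin D → ℕ), nu ≤ t →
    (∀ k, k ≠ m → c k + b + beta + 2 ≤ t) →
    (∀ u ∈ A, u m ≤ nu ∧ ∀ k, k ≠ m →
      a k + u m + (b + beta) ≤ nu + u k ∧ nu + u k + (b + beta) ≤ c k + u m) →
    (∀ k, k ≠ m → ∀ i, i ≤ c k → L k i ≠ L m nu) →
    ∀ V : Finset (Fin D → ℕ),
    (15 / 16 : ℝ) * ((A.card : ℝ) - (y : ℝ) ^ D / 64 - (V.card : ℝ) * (128 * y + beta)) ≤
      ∑ u ∈ A, Avg D M (fun om => if ∃ j, j < M ∧ Alive P L s (129 * y) t u om j ∧ om j = m ∧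
        pos L u om j m = nu ∧ (∀ k, k ≠ m → a k ≤ pos L u om j k ∧ pos L u om j k ≤ c k) ∧
        pos L u om j ∉ V then 1 else 0)

/-! ## Potential bound for the process (module Process) -/

/-- Backward induction on `M` (with general start state `(u, H0)`; at a non-node everything is
`0 ≤ Φ`), `OneStepStmt`, `HarvStmt`, `NodesStmt`. -/
def ProcStmt : Prop :=
  ∀ (α : Type) [DecidableEq α] (D : ℕ) [NeZero D] (P : Finset α) (ext : Finset α → Finset α)
    (U : Finset α → ℝ) (Dp eta : ℝ) (L : Fin D → ℕ → α) (s W t : ℕ),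
    3 ≤ D → Geom D P ext → Pot Dp P ext U → 0 ≤ eta → Dp = D * Real.exp eta → Dp ≤ 2 * D →
    Inj P L t → 0 < s → NodeExt ext P L s W t →
    ∀ (M : ℕ) (u : Fin D → ℕ) (H0 : Finset α), H0 ⊆ St P L u →
    Avg D M (fun om => ∑ j ∈ range M, if Alive P L s W t u om j then
        ((if Bad ext U P L u H0 om j then 1 / (16 * (D : ℝ) ^ 2) else 0) +
          (((Hs U P L u H0 om j).card : ℝ) - ((pre U P L u H0 om j).card : ℝ))) else 0) ≤
      U (St P L u \ H0) + H0.card + eta * M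

/-- Few junk elements, few harvests. `∑_x Q x ≤ ∑_rows (#bad + #harvested)`. -/
def JunkCardStmt : Prop :=
  ∀ (α : Type) [DecidableEq α] (D : ℕ) [NeZero D] (P : Finset α) (ext : Finset α → Finset α)
    (U : Finset α → ℝ) (Dp eta : ℝ) (L : Fin D → ℕ → α) (s t y M : ℕ) (k : ℝ),
    3 ≤ D → Geom D P ext → Pot Dp P ext U → 0 ≤ eta → Dp = D * Real.exp eta → Dp ≤ 2 * D →
    Inj P L t → 0 < s → NodeExt ext P L s (129 * y) t → 0 < y →
    (∀ u ∈ box D s (128 * y), U (St P L u) ≤ k) →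
    (((P.filter (fun x => (y : ℝ) ^ D ≤ 8 * Q ext U P L s (128 * y) (129 * y) t M x)).card : ℝ)
      ≤ 128 ^ (D + 1) * D ^ 2 * (k + eta * M)) ∧
    (∑ u ∈ box D s (128 * y), Avg D M (fun om => ∑ j ∈ range M,
        if Alive P L s (129 * y) t u om j then
          (((Hs U P L u ∅ om j).card : ℝ) - ((pre U P L u ∅ om j).card : ℝ)) else 0)
      ≤ 128 ^ D * (y : ℝ) ^ D * (k + eta * M))

/-- `Q` only grows when the lists are extended. -/
def QMonoStmt : Prop :=
  ∀ (α : Type) [DecidableEq α] (D : ℕ) [NeZero D] (P : Finset α) (ext : Finset α → Finset α)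
    (U : Finset α → ℝ) (L L' : Fin D → ℕ → α) (s w W t t' M : ℕ),
    0 < s → t ≤ t' → (∀ l m, m ≤ t → L l m = L' l m) →
    ∀ x, Q ext U P L s w W t M x ≤ Q ext U P L' s w W t' M x

/-! ## Exactness, extension, double entries -/

/-- Z2, section 4 of the proof. -/
def Z2Stmt : Prop :=
  ∀ (α : Type) [DecidableEq α] (D : ℕ) [NeZero D] (P : Finset α) (ext : Finset α → Finset α)
    (U : Finset α → ℝ) (L : Fin D → ℕ → α) (s t y b beta M : ℕ) (J : Finset α),
    3 ≤ D → Geom D P ext → Inj P L t → 0 < s → 16 * (b + beta + 2) ≤ y →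
    D * (t + 1) ≤ M → s + 132 * y ≤ t → 64 * D ^ 2 * 260 ^ D * beta ≤ y →
    48 * D ^ 2 * M ^ 3 ≤ b ^ 4 → 0 < b →
    J.card ≤ beta → Priv L t J →
    (∀ x ∈ P, x ∉ J → 8 * Q ext U P L s (128 * y) (129 * y) t M x < (y : ℝ) ^ D) →
    ∀ p : Fin D → ℕ, (∀ l, t ≤ p l + 130 * y ∧ p l + 8 * y ≤ t ∧ L l (p l) ∉ J) →
    ext (St P L p \ J) ⊆ ptrs L p

/-- Z3, section 5 of the proof. -/
def Z3Stmt : Prop :=
  ∀ (α : Type) [DecidableEq α] (D : ℕ) (P : Finset α) (ext : Finset α → Finset α)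
    (L : Fin D → ℕ → α) (t y : ℕ) (J : Finset α),
    3 ≤ D → Geom D P ext → Inj P L t → 130 * y ≤ t → J.card < y → Priv L t J →
    (∀ p : Fin D → ℕ, (∀ l, t ≤ p l + 130 * y ∧ p l + 8 * y ≤ t ∧ L l (p l) ∉ J) →
      ext (St P L p \ J) ⊆ ptrs L p) →
    ∀ l, ∃ x ∈ ext (St P L (corner l (t + 1) (130 * y + 1))),
      x ∈ J ∨ ∀ k i, i ≤ t → L k i = x → t < i + 8 * y

/-- Z1, counting part. `T` is the top; `x = L m nu`, `T ≤ nu + 8 y`. More than half of the nodes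
`v` with `v m = nu`, `v k ∈ [T - 32 y, T - 16 y]` (`k ≠ m`) have nonjunk other pointers and a good
visit with at most `y` harvested elements.
Proof: `A = {u : u m ∈ [s+32y, s+128y), u k + 32 y ≥ u m + b' + (T - nu)...}` (nominal positions
`nu + u k - u m ∈ [T-32y+b', T-16y-b']`, `b' = b + β`), `|A| ≥ 96 y (16 y + 1 - 2 b')^(D-1)`.
`RowStmt` with `a k = T - 32 y`, `c k = T - 16 y`, `V` = the nodes of the box with a junk pointer
(`|V| ≤ D β (16 y + 1)^(D-2)`). Subtract the rows in which `x` exits badly (`< y^D / 8`), and the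
rows with more than `y` harvested elements (Markov, `≤ y^D / 64`; `|Hs j|` is at most the sum of
the harvests up to `j`). Every node is crossed by at most `w + β` starts per word (`CapStmt`).
`(15/16)(96/128) = 0.703`. -/
def Z1CountStmt : Prop :=
  ∀ (α : Type) [DecidableEq α] (D : ℕ) [NeZero D] (P : Finset α) (ext : Finset α → Finset α)
    (U : Finset α → ℝ) (L : Fin D → ℕ → α) (s T y b beta M : ℕ) (J : Finset α),
    3 ≤ D → Geom D P ext → Inj P L T → 0 < s → 64 * D * (b + beta + 2) ≤ y →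
    D * (T + 1) ≤ M → s + 140 * y ≤ T → 64 * D ^ 2 * 260 ^ D * beta ≤ y →
    48 * D ^ 2 * M ^ 3 ≤ b ^ 4 → 0 < b →
    J.card ≤ beta → (∀ l, (NPpos L T l).card ≤ beta) →
    (64 * ∑ u ∈ box D s (128 * y), Avg D M (fun om => ∑ j ∈ range M,
        if Alive P L s (129 * y) T u om j then
          (((Hs U P L u ∅ om j).card : ℝ) - ((pre U P L u ∅ om j).card : ℝ)) else 0)
      ≤ (y : ℝ) ^ (D + 1)) →
    ∀ (m : Fin D) (nu : ℕ), nu ≤ T → T ≤ nu + 8 * y →
    (∀ k, k ≠ m → ∀ i, i ≤ T → L k i = L m nu → T ≤ i + 8 * y) →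
    8 * Q ext U P L s (128 * y) (129 * y) T M (L m nu) < (y : ℝ) ^ D →
    (16 * y + 1) ^ (D - 1) < 2 * ((Fintype.piFinset (fun k : Fin D =>
        if k = m then {nu} else Finset.Icc (T - 32 * y) (T - 16 * y))).filter (fun v =>
      (∀ k, k ≠ m → L k (v k) ∉ J) ∧ ∃ u ∈ box D s (128 * y), ∃ om : ℕ → Fin D, ∃ j,
        Alive P L s (129 * y) T u om j ∧ pos L u om j = v ∧ ¬ Bad ext U P L u ∅ om j ∧
        (Hs U P L u ∅ om j).card ≤ y)).card

/-- Z1, section 6 of the proof (`T = t + 1`; the lists are given up to `t + 1`). Suppose the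
conclusion fails; apply `Z1CountStmt` to `(a, t + 1)` and `(b', j)`; there are nodes `v1`, `v2`
of the two families with `v1 k = v2 k` for `k ≠ a, b'` (pigeonhole: both families have more than
half of the elements); `p a = v2 a`, `p b' = v1 b'`, `p k = v1 k`; exactness at `p`; `o` = a nonjunk
entry of a third list `c` with index in `(t + 1 - 16 y, t]`, not in the two harvested sets, `≠ x`;
`Geom.three`. -/
def Z1Stmt : Prop :=
  ∀ (α : Type) [DecidableEq α] (D : ℕ) [NeZero D] (P : Finset α) (ext : Finset α → Finset α)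
    (U : Finset α → ℝ) (L : Fin D → ℕ → α) (s t y b beta M : ℕ) (J : Finset α),
    3 ≤ D → Geom D P ext → Inj P L (t + 1) → 0 < s → 64 * D * (b + beta + 2) ≤ y →
    D * (t + 2) ≤ M → s + 140 * y ≤ t → 64 * D ^ 2 * 260 ^ D * beta ≤ y →
    48 * D ^ 2 * M ^ 3 ≤ b ^ 4 → 0 < b →
    J.card ≤ beta → Priv L t J → (∀ l, (NPpos L (t + 1) l).card ≤ beta) →
    (∀ p : Fin D → ℕ, (∀ l, t ≤ p l + 130 * y ∧ p l + 8 * y ≤ t ∧ L l (p l) ∉ J) →
      ext (St P L p \ J) ⊆ ptrs L p) →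
    (64 * ∑ u ∈ box D s (128 * y), Avg D M (fun om => ∑ j ∈ range M,
        if Alive P L s (129 * y) (t + 1) u om j then
          (((Hs U P L u ∅ om j).card : ℝ) - ((pre U P L u ∅ om j).card : ℝ)) else 0)
      ≤ (y : ℝ) ^ (D + 1)) →
    ∀ (a b' : Fin D) (j : ℕ), a ≠ b' → j ≤ t + 1 → L a (t + 1) = L b' j →
    L a (t + 1) ∉ J → (∀ k i, i ≤ t + 1 → L k i = L a (t + 1) → t < i + 8 * y) →
    (y : ℝ) ^ D ≤ 8 * Q ext U P L s (128 * y) (129 * y) (t + 1) M (L a (t + 1))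

/-! ## Cost -/

/-- real multinomial coefficient -/
noncomputable def mul' {D : ℕ} (c : Fin D → ℕ) : ℝ :=
  ((∑ y, c y).factorial : ℝ) / ∏ y, ((c y).factorial : ℝ)

/-- Lower bound for multinomial coefficients: induction on `N = ∑ n` with
`mul' n = ∑_{l, 0 < n l} mul' (n - e_l)` and Jensen (weights `q_l = n_l / N`):
`exp(-A(n)) ≤ (1/D) ∑_l exp(-A(n - e_l))` because
`∑ q_l A(n-e_l) + ∑ q_l log (D q_l) ≤ A(n)`, `A(n) = D f(n)/N + 4 D √N`,
`f(n) = ∑ (n_l - N/D)^2`; `∑ q_l log (D q_l) ≤ D f/N^2`,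
`∑ q_l f(n-e_l) = f (1 - 2/N) + 1 - 1/D`. -/
def MultStmt : Prop :=
  ∀ (D : ℕ) (n : Fin D → ℕ), 0 < D →
    (D : ℝ) ^ (∑ l, n l) ≤ mul' n *
      Real.exp (D * (∑ l, ((n l : ℝ) - (∑ k, (n k : ℝ)) / D) ^ 2) / (∑ k, (n k : ℝ)) +
        4 * D * Real.sqrt (∑ k, (n k : ℝ)))

/-- the predecessor -/
noncomputable def pred {α : Type} {D : ℕ} (L : Fin D → ℕ → α) (l : Fin D)
    (v : Fin D → ℕ) : Fin D → ℕ :=
  Function.update v l (sSup {i | i < v l ∧ ∀ k, k ≠ l → ∀ i', i' < v k → L k i' ≠ L l i})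

/-- Travelling backwards with `B` blocks of composition `n`. Corridor: all `w` with
`j n_l ≤ u_l - w_l ≤ (j+1) n_l + β` for some `j < B`. In the corridor all free entries (index
`i < w l`, `i ≥ w l - 1 - β`, in no other prefix) are extreme in `St (update w l i)`.
Then `N (St u) ≥ mul' n ^ B * m`.
Proof: `N (St w) ≥ ∑_{l ∈ Λ} N (St (pred L l w))` for every set `Λ` of letters such that a free
entry below `w l` exists (the sets are `insert x_l (St w)`, the `x_l` distinct, `CountStmt`).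
Invariant after `j` full blocks and a part `r` (`r_l ≤ n_l`) of the next one:
`u_l = w_l + j n_l + r_l + skip_l`, `skip_l + #{NP positions < w_l of list l} ≤ β`; if `r_l < n_l`
then `w_l ≥ β + 1 - skip_l`, so a non-private-free position below `w_l` exists.
`mul' r = ∑_{l, 0 < r l} mul' (r - e_l)`. Compare `PathLemma.lean` (`mult_rec`). -/
def TravelStmt : Prop :=
  ∀ (α : Type) [DecidableEq α] (D : ℕ) (P : Finset α) (ext : Finset α → Finset α)
    (L : Fin D → ℕ → α) (t beta B : ℕ) (u n : Fin D → ℕ) (m : ℝ),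
    Geom D P ext → Inj P L t → 0 < D → (∀ l, (NPpos L t l).card ≤ beta) →
    (∀ l, u l ≤ t + 1) → (∀ l, B * n l + beta ≤ u l) →
    (∀ w : Fin D → ℕ, ∀ j, j < B →
      (∀ l, w l + j * n l ≤ u l ∧ u l ≤ w l + (j + 1) * n l + beta) →
      (∀ l, ∀ i, i < w l → w l ≤ i + 1 + beta → (∀ k, k ≠ l → ∀ i', i' < w k → L k i' ≠ L l i) →
        L l i ∈ ext (St P L (Function.update w l i)))) →
    (∀ w : Fin D → ℕ, (∀ l, w l + B * n l ≤ u l ∧ u l ≤ w l + B * n l + beta) →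
      (Rem L w).card + B * ∑ l, n l = (Rem L u).card → m ≤ (N ext P (St P L w) : ℝ)) →
    mul' n ^ B * m ≤ (N ext P (St P L u) : ℝ)

/-- Costs. Scale step: `B = ⌈δ y⌉` blocks, `n_l = ⌊(u_l - 128 Λ y - β) / B⌋`, `TravelStmt`,
`MultStmt`; `f(n) ≤ D (129 y / B + 2)^2`, `B |n| ≤ D Λ y`, `|n| ≥ D (Λ y / 16) / B - D`.
Base: one block `n = u`, `β = 0`, landing at the origin (`N P P = 1`), `f(u) ≤ D (128 y)^2`,
`|u| ≥ 128 D Λ y`. Everything is `≤ κ (y' - y)`, `y' - y ≥ y / 1024`, if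
`Λ ≥ C(D) / κ`, then `δ` small (`√(δ D Λ) ≤ c κ`), then `y0` large, `η0 = κ / (10^7 D Λ)`. -/
def CostStmt : Prop :=
  ∀ (D : ℕ) (kap : ℝ), 3 ≤ D → 0 < kap → ∃ Lam0 : ℕ, ∀ Lam : ℕ, Lam0 ≤ Lam →
    ∃ (y0 : ℕ) (eta0 : ℝ), 0 < eta0 ∧
    ∀ (α : Type) [DecidableEq α] (P : Finset α) (ext : Finset α → Finset α)
      (L : Fin D → ℕ → α) (Dp eta : ℝ) (y t : ℕ),
      Geom D P ext → 0 ≤ eta → eta ≤ eta0 → Dp = D * Real.exp eta → y0 ≤ y → Inj P L t →
      -- base
      (128 * Lam * y + 128 * y ≤ t → (∀ l k, l ≠ k → ∀ i i', i ≤ t → i' ≤ t → L l i ≠ L k i') →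
        (∀ l m, m ≤ t → L l m ∈ ext (St P L (fun k => if k = l then m else 0))) →
        ∀ u ∈ box D (128 * Lam * y) (128 * y), CostLe ext P Dp (St P L u) (kap * y)) ∧
      -- step
      (∀ beta : ℕ, 8 * beta ≤ y → (∀ l, (NPpos L t l).card ≤ beta) →
        128 * Lam * (y + y / 512) + 128 * (y + y / 512) ≤ t →
        ValidAt ext P L (128 * Lam * y) (129 * y) t →
        (∀ u ∈ box D (128 * Lam * y) (128 * y), CostLe ext P Dp (St P L u) (kap * y)) →
        ∀ u ∈ box D (128 * Lam * (y + y / 512)) (128 * (y + y / 512)),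
          CostLe ext P Dp (St P L u) (kap * (y + y / 512 : ℕ)))

/-! ## Perfect start -/

/-- Section 8 of the proof. -/
def StartStmt : Prop :=
  ∀ (D T0 : ℕ), 3 ≤ D → ∃ eta0 : ℝ, 0 < eta0 ∧
    ∀ (α : Type) [DecidableEq α] (P : Finset α) (ext : Finset α → Finset α)
      (U : Finset α → ℝ) (Dp eta : ℝ),
      Geom D P ext → Pot Dp P ext U → U P ≤ 0 → 0 ≤ eta → eta ≤ eta0 →
      Dp = D * Real.exp eta → D * (T0 + 3) ≤ P.card →
      ∃ L : Fin D → ℕ → α, Inj P L T0 ∧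
        (∀ l m, m ≤ T0 → L l m ∈ ext (St P L (fun k => if k = l then m else 0))) ∧
        ∀ l k, l ≠ k → ∀ i i', i ≤ T0 → i' ≤ T0 → L l i ≠ L k i'

/-! ## Geometry -/

/-- extreme points -/
noncomputable def extV (d : ℕ) (S : Finset (EuclideanSpace ℝ (Fin d))) :
    Finset (EuclideanSpace ℝ (Fin d)) :=
  S.filter fun x => x ∉ convexHull ℝ ((S.erase x : Finset (EuclideanSpace ℝ (Fin d))) :
    Set (EuclideanSpace ℝ (Fin d)))

/-- general position: no `d + 1` points on a common hyperplane -/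
def GenPosV (d : ℕ) (P : Finset (EuclideanSpace ℝ (Fin d))) : Prop :=
  ∀ S : Finset (EuclideanSpace ℝ (Fin d)), S ⊆ P → S.card = d + 1 →
    AffineIndependent ℝ (fun x : S => (x : EuclideanSpace ℝ (Fin d)))

def GeoStmt : Prop :=
  ∀ (d : ℕ), 2 ≤ d → ∀ P : Finset (EuclideanSpace ℝ (Fin d)), GenPosV d P →
    Geom (d + 1) P (extV d)

/-! ## Main theorem and reduction -/

/-- (done by helper85) -/
def MainStmt : Prop :=
  ∀ D : ℕ, 3 ≤ D → ∃ (eta : ℝ) (n0 : ℕ), 0 < eta ∧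
    ∀ (α : Type) [DecidableEq α] (P : Finset α) (ext : Finset α → Finset α),
      Geom D P ext → n0 ≤ P.card → ¬ Record ext P (D * Real.exp eta)

end Pool.Agent.Lib.MP_f1849d_co.J
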