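import Mathlib
import Pool.Agent.Lib.MP_f1849d_co.J.Spec
import Pool.Agent.Lib.MP_f1849d_co.J.CostScale

/-!
`CostStmt`: the choice of the constants.
-/

open Finset
open scoped Classical

namespace Pool.Agent.Lib.MP_f1849d_co.J

theorem cost_log_bound (c : ℝ) (hc : 0 < c) : ∃ X : ℝ, 0 < X ∧ ∀ x : ℝ, X ≤ x → Real.log x ≤ c * x := by
  have h := Real.isLittleO_log_id_atTop.def hc
  rw [Filter.eventually_atTop] at h
  obtain ⟨X, hX⟩ := h
  refine ⟨max X 1, by positivity, fun x hx => ?_⟩
  have h1 := hX x ((le_max_left _ _).trans hx)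
  have h2 : (1 : ℝ) ≤ x := (le_max_right _ _).trans hx
  rw [Real.norm_eq_abs, id, Real.norm_eq_abs, abs_of_nonneg (by linarith : (0:ℝ) ≤ x)] at h1
  exact (le_abs_self _).trans h1

theorem cost_base_corner {α : Type} [DecidableEq α] {D : ℕ} (ext : Finset α → Finset α)
    (P : Finset α) (hG : Geom D P ext) (L : Fin D → ℕ → α) (t : ℕ)
    (h : ∀ l m, m ≤ t → L l m ∈ ext (St P L (fun k => if k = l then m else 0))) (W : ℕ) :
    ValidAt ext P L 0 W t := by
  intro l v _ hvt _ hmem
  have h1 := h l (v l) hvt
  apply hG.mono _ _ _ _ _ h1 hmem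
  · unfold St; exact Finset.sdiff_subset
  · unfold St
    apply Finset.sdiff_subset_sdiff (Finset.Subset.refl _)
    intro x hx
    rw [CostM.mem_Rem] at hx ⊢
    obtain ⟨k, i, hi, rfl⟩ := hx
    refine ⟨k, i, ?_, rfl⟩
    by_cases hk : k = l
    · subst hk; simpa using hi
    · simp [hk] at hi

theorem cost : CostStmt := by
  intro D kap hD hkap
  have hDr : (0 : ℝ) < D := by
    have : 0 < D := by omega
    exact_mod_cast this
  have hD1 : (1 : ℝ) ≤ D := by
    have : 1 ≤ D := by omega
    exact_mod_cast this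
  -- choice of `Lam0`
  obtain ⟨X1, hX1pos, hX1⟩ := cost_log_bound (kap / (8 * D)) (by positivity)
  set C : ℝ := D * Real.log (201 * D) + 2 * D * 70100 ^ 2 + 1 with hC
  obtain ⟨n1, hn1⟩ := exists_nat_ge X1
  obtain ⟨n2, hn2⟩ := exists_nat_ge (2 * C / kap)
  obtain ⟨n3, hn3⟩ := exists_nat_ge (8 * D * 129 ^ 2 / (64 * kap))
  refine ⟨n1 + n2 + n3 + D + 2000, ?_⟩
  intro Lam hLam
  have hLamr : (0 : ℝ) < Lam := by
    have : 0 < Lam := by omega
    exact_mod_cast this
  have hL1 : X1 ≤ Lam := by
    have : (n1 : ℝ) ≤ Lam := by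
      have : n1 ≤ Lam := by omega
      exact_mod_cast this
    linarith
  have hL2 : C ≤ kap / 2 * Lam := by
    have : (n2 : ℝ) ≤ Lam := by
      have : n2 ≤ Lam := by omega
      exact_mod_cast this
    have h1 : 2 * C / kap ≤ Lam := by linarith
    rw [div_le_iff₀ hkap] at h1
    linarith
  have hL3 : 8 * D * 129 ^ 2 ≤ 64 * kap * (Lam : ℝ) := by
    have : (n3 : ℝ) ≤ Lam := by
      have : n3 ≤ Lam := by omega
      exact_mod_cast this
    have h1 : 8 * D * 129 ^ 2 / (64 * kap) ≤ (Lam : ℝ) := by linarith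
    rw [div_le_iff₀ (by positivity)] at h1
    linarith
  have hL4 : D + 2000 ≤ Lam := by omega
  have hL4r : (D : ℝ) + 2000 ≤ Lam := by exact_mod_cast hL4
  -- constants of the step
  set b1 : ℕ := 128 * Lam ^ 2 + 70000 * Lam with hb1
  set a1 : ℕ := 128 * Lam ^ 2 - 100 * Lam with ha1
  have hLsq : 100 * Lam ≤ 128 * Lam ^ 2 := by nlinarith
  have hstepnum : D * Real.log (D * b1 + 1) + 2 * D * ((b1 : ℝ) - a1) ^ 2 /
      ((a1 : ℝ) - (b1 - a1)) + 1 ≤ kap * Lam := by
    have hb1r : (b1 : ℝ) = 128 * Lam ^ 2 + 70000 * Lam := by rw [hb1]; push_cast; ring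
    have ha1r : (a1 : ℝ) = 128 * Lam ^ 2 - 100 * Lam := by
      rw [ha1, Nat.cast_sub hLsq]; push_cast; ring
    have e1 : (b1 : ℝ) - a1 = 70100 * Lam := by rw [hb1r, ha1r]; ring
    have e2 : (Lam : ℝ) ^ 2 ≤ (a1 : ℝ) - (b1 - a1) := by
      rw [e1, ha1r]
      nlinarith
    have e3 : 2 * D * ((b1 : ℝ) - a1) ^ 2 / ((a1 : ℝ) - (b1 - a1)) ≤ 2 * D * 70100 ^ 2 := by
      rw [div_le_iff₀ (lt_of_lt_of_le (by positivity) e2), e1]
      calc 2 * (D : ℝ) * (70100 * Lam) ^ 2 = 2 * D * 70100 ^ 2 * Lam ^ 2 := by ring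
        _ ≤ 2 * D * 70100 ^ 2 * ((a1 : ℝ) - (b1 - a1)) :=
            mul_le_mul_of_nonneg_left e2 (by positivity) 
        _ = _ := by rw [e1]
    have e4 : Real.log (D * b1 + 1) ≤ Real.log (201 * D) + 2 * Real.log Lam := by
      have h1 : (D : ℝ) * b1 + 1 ≤ (201 * D) * Lam ^ 2 := by
        rw [hb1r]
        have h2 : (70000 : ℝ) * Lam ≤ 70 * Lam ^ 2 := by nlinarith
        have h3 : (1 : ℝ) ≤ D * Lam ^ 2 := by
          have : (1 : ℝ) ≤ Lam ^ 2 := by nlinarith
          nlinarith
        nlinarith
      calc Real.log (D * b1 + 1) ≤ Real.log ((201 * D) * Lam ^ 2) :=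
            Real.log_le_log (by positivity) h1
        _ = Real.log (201 * D) + 2 * Real.log Lam := by
            rw [Real.log_mul (by positivity) (by positivity), Real.log_pow]
            push_cast; ring
    have e5 := hX1 Lam hL1
    have e6 : (D : ℝ) * (2 * Real.log Lam) ≤ kap / 4 * Lam := by
      calc (D : ℝ) * (2 * Real.log Lam) ≤ D * (2 * (kap / (8 * D) * Lam)) := by
            apply mul_le_mul_of_nonneg_left _ hDr.le
            linarith
        _ = kap / 4 * Lam := by field_simp; ring
    have e7 : (D : ℝ) * Real.log (D * b1 + 1) ≤ D * Real.log (201 * D) + D * (2 * Real.log Lam) := by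
      have := mul_le_mul_of_nonneg_left e4 hDr.le
      linarith
    have : (0 : ℝ) ≤ kap * Lam := by positivity
    linarith
  -- choice of `y0` and `eta0`
  obtain ⟨X2, hX2pos, hX2⟩ := cost_log_bound (kap / (4 * D * (512 * D * Lam))) (by positivity)
  obtain ⟨n4, hn4⟩ := exists_nat_ge X2
  obtain ⟨n5, hn5⟩ := exists_nat_ge (4 * D * (D + 1) / kap)
  set eta0 : ℝ := min 1 (min (1 / (D * b1)) (kap / (1024 * D * Lam))) with heta0
  have hb1pos : (0 : ℝ) < b1 := by
    rw [hb1]; push_cast; positivity
  refine ⟨n4 + n5 + D + 512 * (Lam ^ 2 + 1) + 512 * 1000, eta0, by positivity, ?_⟩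
  intro α _ P ext L Dp eta y t hG heta hetale hDp hy hinj
  have heta1 : eta ≤ 1 := hetale.trans (min_le_left _ _)
  have heta2 : eta * (D * b1) ≤ 1 := by
    have h1 : eta ≤ 1 / (D * b1) := hetale.trans ((min_le_right _ _).trans (min_le_left _ _))
    rwa [le_div_iff₀ (by positivity)] at h1
  have heta3 : eta * (1024 * D * Lam) ≤ kap := by
    have h1 : eta ≤ kap / (1024 * D * Lam) :=
      hetale.trans ((min_le_right _ _).trans (min_le_right _ _))
    rwa [le_div_iff₀ (by positivity)] at h1
  have hyr : (0 : ℝ) < y := by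
    have : 0 < y := by omega
    exact_mod_cast this
  constructor
  · -- base
    intro ht hpriv hcorner u hu
    unfold box at hu
    rw [Fintype.mem_piFinset] at hu
    have hu1 : ∀ l, 128 * Lam * y ≤ u l := fun l => (mem_Ico.mp (hu l)).1
    have hu2 : ∀ l, u l < 128 * Lam * y + 128 * y := fun l => (mem_Ico.mp (hu l)).2
    have hDy : D ≤ y := by omega
    have hbig : D ≤ 128 * Lam * y := by nlinarith
    have hLy : 2000 * y ≤ Lam * y := Nat.mul_le_mul_right _ (by omega)
    rw [hDp]
    apply CostM.cost_start (by omega) ext P L t hinj (cost_base_corner ext P hG L t hcorner)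
      (by
        intro l
        unfold NPpos
        rw [Finset.filter_eq_empty_iff]
        rintro i hi ⟨k, hk, i', hi', he⟩
        rw [mem_range] at hi
        exact hpriv l k (Ne.symm hk) i i' (by omega) hi' he.symm)
      (128 * Lam * y - D) (128 * Lam * y + 128 * y) ?_ (by omega) eta (kap * y) heta ?_ u
      (fun l => by have := hu1 l; omega) (fun l => (hu2 l).le)
      (fun l => by have := hu2 l; omega)
    · have h1 : 128 * Lam * y = 128 * (Lam * y) := by ring
      rw [h1] at hbig ⊢
      omega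
    · have hcast : ((128 * Lam * y - D : ℕ) : ℝ) = 128 * Lam * y - D := by
        rw [Nat.cast_sub hbig]; push_cast; ring
      have hcast2 : ((128 * Lam * y + 128 * y : ℕ) : ℝ) = 128 * Lam * y + 128 * y := by
        push_cast; ring
      rw [hcast, hcast2]
      have hDyr : (D : ℝ) ≤ y := by exact_mod_cast hDy
      have hLyr : 2000 * (y : ℝ) ≤ Lam * y := by exact_mod_cast hLy
      -- four terms
      have t1 : (D : ℝ) * Real.log (D * Real.exp eta) ≤ kap * y / 4 := by
        have h1 : Real.log (D * Real.exp eta) ≤ D + 1 := by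
          rw [Real.log_mul hDr.ne' (Real.exp_pos _).ne', Real.log_exp]
          have := Real.log_le_sub_one_of_pos hDr
          linarith
        have h2 : 4 * D * (D + 1) / kap ≤ (y : ℝ) := by
          have : (n5 : ℝ) ≤ y := by
            have : n5 ≤ y := by omega
            exact_mod_cast this
          linarith
        rw [div_le_iff₀ hkap] at h2
        have h3 : (D : ℝ) * Real.log (D * Real.exp eta) ≤ D * (D + 1) :=
          mul_le_mul_of_nonneg_left h1 hDr.le
        linarith
      have t2 : (D : ℝ) * Real.log (D * (128 * Lam * y + 128 * y) + 1) ≤ kap * y / 4 := by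
        have h1 : X2 ≤ D * (128 * Lam * y + 128 * y) + 1 := by
          have h2 : (n4 : ℝ) ≤ y := by
            have : n4 ≤ y := by omega
            exact_mod_cast this
          have h3 : (y : ℝ) ≤ D * (128 * Lam * y + 128 * y) := by
            have : (0 : ℝ) ≤ Lam * y := by positivity
            nlinarith
          linarith
        have h2 := hX2 _ h1
        have h3 : D * (128 * Lam * (y : ℝ) + 128 * y) + 1 ≤ 512 * D * Lam * y := by
          have h4 : (1 : ℝ) ≤ y := by
            have : 1 ≤ y := by omega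
            exact_mod_cast this
          have h5 : (y : ℝ) ≤ Lam * y := by nlinarith
          have h6 : (1 : ℝ) ≤ D * (Lam * y) := by nlinarith
          nlinarith
        calc (D : ℝ) * Real.log (D * (128 * Lam * y + 128 * y) + 1)
            ≤ D * (kap / (4 * D * (512 * D * Lam)) * (D * (128 * Lam * y + 128 * y) + 1)) :=
              mul_le_mul_of_nonneg_left h2 hDr.le
          _ ≤ D * (kap / (4 * D * (512 * D * Lam)) * (512 * D * Lam * y)) := by
              apply mul_le_mul_of_nonneg_left _ hDr.le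
              apply mul_le_mul_of_nonneg_left h3 (by positivity)
          _ = kap * y / 4 := by field_simp
      have t3 : 2 * (D : ℝ) * ((128 * Lam * y + 128 * y) - (128 * Lam * y - D)) ^ 2 /
          ((128 * Lam * y - D) - ((128 * Lam * y + 128 * y) - (128 * Lam * y - D)))
          ≤ kap * y / 4 := by
        have h1 : (128 * Lam * (y : ℝ) + 128 * y) - (128 * Lam * y - D) = 128 * y + D := by ring
        rw [h1]
        have h2 : 64 * (Lam * (y : ℝ)) ≤ (128 * Lam * y - D) - (128 * y + D) := by nlinarith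
        have h3 : (0 : ℝ) < 64 * (Lam * y) := by positivity
        have h4 : 2 * (D : ℝ) * (128 * y + D) ^ 2 ≤ 2 * D * (129 * y) ^ 2 := by
          apply mul_le_mul_of_nonneg_left _ (by positivity)
          apply pow_le_pow_left₀ (by positivity)
          linarith
        rw [div_le_iff₀ (lt_of_lt_of_le h3 h2)]
        calc 2 * (D : ℝ) * (128 * y + D) ^ 2 ≤ 2 * D * (129 * y) ^ 2 := h4
          _ = (8 * D * 129 ^ 2) * (y * y / 4) := by ring
          _ ≤ (64 * kap * Lam) * (y * y / 4) :=
              mul_le_mul_of_nonneg_right hL3 (by positivity)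
          _ = kap * y / 4 * (64 * (Lam * y)) := by ring
          _ ≤ kap * y / 4 * ((128 * Lam * y - D) - (128 * y + D)) :=
              mul_le_mul_of_nonneg_left h2 (by positivity)
      have t4 : eta * (D * (128 * Lam * y + 128 * y)) ≤ kap * y / 4 := by
        have h1 : D * (128 * Lam * (y : ℝ) + 128 * y) ≤ 256 * D * Lam * y := by
          have h5 : (y : ℝ) ≤ Lam * y := by nlinarith
          nlinarith
        calc eta * (D * (128 * Lam * y + 128 * y)) ≤ eta * (256 * D * Lam * y) :=
              mul_le_mul_of_nonneg_left h1 heta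
          _ = (eta * (1024 * D * Lam)) * (y / 4) := by ring
          _ ≤ kap * (y / 4) := mul_le_mul_of_nonneg_right heta3 (by positivity)
          _ = kap * y / 4 := by ring
      linarith
  · -- step
    intro beta hbeta hNP ht hval hbox
    set q : ℕ := y / 512 with hq
    have hq1 : 512 * q ≤ y := Nat.mul_div_le y 512
    have hq2 : y < 512 * q + 512 := by
      have := Nat.lt_mul_div_succ y (show 0 < 512 by norm_num)
      rw [← hq] at this
      omega
    have hqL : Lam ^ 2 ≤ q := by
      have : 512 * (Lam ^ 2 + 1) ≤ y := by omega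
      omega
    have hq1000 : 1000 ≤ q := by omega
    have hLpos : 0 < Lam := by omega
    set M : ℕ := q / Lam with hM
    have hM1 : Lam * M ≤ q := Nat.mul_div_le q Lam
    have hM2 : q < Lam * (M + 1) := Nat.lt_mul_div_succ q hLpos
    have hLamq : Lam ≤ q := by nlinarith
    have hMpos : 0 < M := Nat.div_pos hLamq hLpos
    have hsq : Lam ^ 2 = Lam * Lam := by ring
    have hMa : M * a1 + 100 * q ≤ 128 * Lam * q + 100 * Lam := by
      have h1 : M * a1 + M * (100 * Lam) = M * (128 * Lam ^ 2) := by
        rw [ha1, ← Nat.mul_add]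
        congr 1
        omega
      have h2 : M * (128 * Lam ^ 2) = 128 * Lam * (Lam * M) := by ring
      have h3 : 128 * Lam * (Lam * M) ≤ 128 * Lam * q := Nat.mul_le_mul_left _ hM1
      have h4 : 100 * q ≤ M * (100 * Lam) + 100 * Lam := by
        have : 100 * q ≤ 100 * (Lam * (M + 1)) := by omega
        calc 100 * q ≤ 100 * (Lam * (M + 1)) := this
          _ = M * (100 * Lam) + 100 * Lam := by ring
      omega
    have hMD : M * (D + 1) ≤ q := by
      calc M * (D + 1) ≤ M * Lam := Nat.mul_le_mul_left _ (by omega)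
        _ = Lam * M := by ring
        _ ≤ q := hM1
    have hbq : beta ≤ 65 * q := by omega
    have hb1q : b1 ≤ 200 * q := by
      have h1 : 70000 * Lam ≤ 70 * Lam ^ 2 := by
        rw [hsq]
        nlinarith
      have h2 : 198 * Lam ^ 2 ≤ 198 * q := Nat.mul_le_mul_left _ hqL
      omega
    have hY : (y + y / 512 : ℕ) = y + q := rfl
    have hLq : Lam * 100 ≤ q := by nlinarith
    rw [hDp]
    have e0 : 128 * Lam * (y + q) = 128 * Lam * y + 128 * Lam * q := by ring
    apply CostM.cost_scale (by omega) ext P L t hinj (128 * Lam * y) (128 * y)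
      (128 * Lam * (y + y / 512)) (128 * (y + y / 512)) (129 * y) beta M a1 b1 hval hNP hMpos
      (ht.trans (Nat.le_add_right t 2)) ?_ ?_ ?_ ?_ ?_ ?_ (by omega) eta (kap * y) (kap * (y + y / 512 : ℕ)) heta
      (by rw [← hDp]; exact hbox) ?_
    · -- ha
      rw [← hq, e0]
      have h1 : M * (a1 + D) = M * a1 + M * D := by ring
      have h2 : M * D ≤ q := by
        calc M * D ≤ M * (D + 1) := Nat.mul_le_mul_left _ (by omega)
          _ ≤ q := hMD
      omega
    · -- hb
      rw [← hq, e0]
      have h1 : 128 * Lam * q + 70000 * q ≤ M * b1 + Lam * (128 * Lam + 70000) := by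
        have h2 : M * b1 + Lam * (128 * Lam + 70000) = (Lam * (M + 1)) * (128 * Lam + 70000) := by
          rw [hb1, hsq]; ring
        rw [h2]
        calc 128 * Lam * q + 70000 * q = q * (128 * Lam + 70000) := by ring
          _ ≤ (Lam * (M + 1)) * (128 * Lam + 70000) := Nat.mul_le_mul_right _ hM2.le
      have h3 : Lam * (128 * Lam + 70000) ≤ 200 * q := by
        have : Lam * (128 * Lam + 70000) = b1 := by rw [hb1, hsq]; ring
        rw [this]; exact hb1q
      have h4 : M * (b1 + 1) = M * b1 + M := by ring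
      rw [h4]
      omega
    · -- hland
      omega
    · -- hMw
      omega
    · -- hW
      omega
    · -- hab
      have h1 : b1 - a1 = 70100 * Lam := by omega
      rw [h1, ha1]
      have h2 : 2 * (70100 * Lam) + 100 * Lam < 128 * Lam ^ 2 := by
        rw [hsq]
        nlinarith
      omega
    · -- final inequality
      have hMr : (M : ℝ) * Lam ≤ q := by
        have : ((Lam * M : ℕ) : ℝ) ≤ q := by exact_mod_cast hM1
        push_cast at this
        linarith
      have h1 : D * Real.log (D * b1 + 1) + 2 * D * ((b1 : ℝ) - a1) ^ 2 /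
          ((a1 : ℝ) - (b1 - a1)) + eta * (D * b1) ≤ kap * Lam := by linarith
      have h2 := mul_le_mul_of_nonneg_left h1 (by positivity : (0 : ℝ) ≤ M)
      have h3 : (M : ℝ) * (kap * Lam) ≤ kap * q := by
        calc (M : ℝ) * (kap * Lam) = kap * (M * Lam) := by ring
          _ ≤ kap * q := mul_le_mul_of_nonneg_left hMr hkap.le
      have h4 : kap * ((y + y / 512 : ℕ) : ℝ) = kap * y + kap * q := by
        rw [← hq]; push_cast; ring
      rw [h4]
      linarith

end Pool.Agent.Lib.MP_f1849d_co.J
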