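import Pool.Agent.Lib.MP_f1849d_co.J.Spec

/-!
MP_f1849d_co, route J: module Count.
-/

open Finset
open scoped Classical

namespace Pool.Agent.Lib.MP_f1849d_co.J

section Count

variable {α : Type} [DecidableEq α] {D : ℕ} {P : Finset α} {ext : Finset α → Finset α}

lemma count_g_empty (ext : Finset α → Finset α) : g ext (∅ : Finset α) = 1 := by
  rw [g]
  simp

lemma count_g_rec (hG : Geom D P ext) {S : Finset α} (hS : S ⊆ P) (hne : S.Nonempty) :
    g ext S = ∑ e ∈ ext S, g ext (S.erase e) := by
  have h1 : g ext S = ∑ e ∈ (S.filter (· ∈ ext S)).attach, g ext (S.erase e.1) := by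
    rw [g, if_neg hne.ne_empty]
  rw [h1, Finset.sum_attach (S.filter (· ∈ ext S)) (fun e => g ext (S.erase e))]
  refine Finset.sum_congr ?_ fun _ _ => rfl
  ext e
  rw [Finset.mem_filter]
  exact ⟨fun h => h.2, fun h => ⟨hG.sub S hS h, h⟩⟩

lemma count_g_pos (hG : Geom D P ext) : ∀ (n : ℕ) (S : Finset α), S.card = n → S ⊆ P →
    0 < g ext S := by
  intro n
  induction n with
  | zero =>
    intro S hc _
    rw [Finset.card_eq_zero] at hc
    subst hc
    rw [count_g_empty]
    exact one_pos
  | succ n ih =>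
    intro S hc hS
    have hne : S.Nonempty := by
      rw [← Finset.card_pos, hc]
      exact Nat.succ_pos n
    rw [count_g_rec hG hS hne]
    obtain ⟨e, he⟩ := hG.ne S hS hne
    have heS : e ∈ S := hG.sub S hS he
    refine Finset.sum_pos (fun e' he' => ?_) ⟨e, he⟩
    have heS' : e' ∈ S := hG.sub S hS he'
    apply ih _ _ ((Finset.erase_subset _ _).trans hS)
    rw [Finset.card_erase_of_mem heS', hc]
    rfl

lemma count_N_self : N ext P P = 1 := by
  rw [N]
  simp

lemma count_N_rec {S : Finset α} (hne : S ≠ P) :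
    N ext P S = ∑ x ∈ (P \ S).filter (fun x => x ∈ ext (insert x S)), N ext P (insert x S) := by
  have h1 : N ext P S = ∑ x ∈ ((P \ S).filter (fun x => x ∈ ext (insert x S))).attach,
      N ext P (insert x.1 S) := by
    rw [N, if_neg hne]
  rw [h1, Finset.sum_attach ((P \ S).filter (fun x => x ∈ ext (insert x S)))
    (fun x => N ext P (insert x S))]

lemma count_step (hG : Geom D P ext) {k : ℕ} (hk : k + 1 ≤ P.card) :
    ∑ S ∈ P.powersetCard k, N ext P S * g ext S =
      ∑ S ∈ P.powersetCard (k + 1), N ext P S * g ext S := by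
  have h1 : ∑ S ∈ P.powersetCard k, N ext P S * g ext S =
      ∑ S ∈ P.powersetCard k, ∑ x ∈ (P \ S).filter (fun x => x ∈ ext (insert x S)),
        N ext P (insert x S) * g ext S := by
    refine Finset.sum_congr rfl fun S hS => ?_
    rw [Finset.mem_powersetCard] at hS
    have hne : S ≠ P := by
      rintro rfl
      omega
    rw [count_N_rec hne, Finset.sum_mul]
  have h2 : ∑ S ∈ P.powersetCard (k + 1), N ext P S * g ext S =
      ∑ S ∈ P.powersetCard (k + 1), ∑ e ∈ ext S, N ext P S * g ext (S.erase e) := by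
    refine Finset.sum_congr rfl fun S hS => ?_
    rw [Finset.mem_powersetCard] at hS
    have hne : S.Nonempty := by
      rw [← Finset.card_pos]
      omega
    rw [count_g_rec hG hS.1 hne, Finset.mul_sum]
  rw [h1, h2, Finset.sum_sigma', Finset.sum_sigma']
  refine Finset.sum_bij' (fun q _ => (⟨insert q.2 q.1, q.2⟩ : Σ _ : Finset α, α))
    (fun q _ => (⟨q.1.erase q.2, q.2⟩ : Σ _ : Finset α, α)) ?_ ?_ ?_ ?_ ?_
  · rintro ⟨S, x⟩ hq
    rw [Finset.mem_sigma, Finset.mem_powersetCard, Finset.mem_filter, Finset.mem_sdiff] at hq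
    obtain ⟨⟨hS, hc⟩, ⟨hxP, hxS⟩, hx⟩ := hq
    rw [Finset.mem_sigma, Finset.mem_powersetCard]
    refine ⟨⟨Finset.insert_subset hxP hS, ?_⟩, hx⟩
    change (insert x S).card = k + 1
    rw [Finset.card_insert_of_notMem hxS, hc]
  · rintro ⟨S, e⟩ hq
    rw [Finset.mem_sigma, Finset.mem_powersetCard] at hq
    obtain ⟨⟨hS, hc⟩, he⟩ := hq
    have heS : e ∈ S := hG.sub S hS he
    rw [Finset.mem_sigma, Finset.mem_powersetCard, Finset.mem_filter, Finset.mem_sdiff]
    refine ⟨⟨(Finset.erase_subset _ _).trans hS, ?_⟩, ⟨hS heS, Finset.notMem_erase _ _⟩, ?_⟩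
    · change (S.erase e).card = k
      rw [Finset.card_erase_of_mem heS]
      change S.card = k + 1 at hc
      omega
    · change e ∈ ext (insert e (S.erase e))
      rw [Finset.insert_erase heS]
      exact he
  · rintro ⟨S, x⟩ hq
    rw [Finset.mem_sigma, Finset.mem_powersetCard, Finset.mem_filter, Finset.mem_sdiff] at hq
    obtain ⟨_, ⟨_, hxS⟩, _⟩ := hq
    change (⟨(insert x S).erase x, x⟩ : Σ _ : Finset α, α) = ⟨S, x⟩
    rw [Finset.erase_insert hxS]
  · rintro ⟨S, e⟩ hq
    rw [Finset.mem_sigma, Finset.mem_powersetCard] at hq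
    obtain ⟨⟨hS, hc⟩, he⟩ := hq
    have heS : e ∈ S := hG.sub S hS he
    change (⟨insert e (S.erase e), e⟩ : Σ _ : Finset α, α) = ⟨S, e⟩
    rw [Finset.insert_erase heS]
  · rintro ⟨S, x⟩ hq
    rw [Finset.mem_sigma, Finset.mem_powersetCard, Finset.mem_filter, Finset.mem_sdiff] at hq
    obtain ⟨_, ⟨_, hxS⟩, _⟩ := hq
    change N ext P (insert x S) * g ext S =
      N ext P (insert x S) * g ext ((insert x S).erase x)
    rw [Finset.erase_insert hxS]

lemma count_level (hG : Geom D P ext) : ∀ (j k : ℕ), k + j = P.card →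
    ∑ S ∈ P.powersetCard k, N ext P S * g ext S = g ext P := by
  intro j
  induction j with
  | zero =>
    intro k hk
    rw [add_zero] at hk
    subst hk
    rw [Finset.powersetCard_self, Finset.sum_singleton, count_N_self, one_mul]
  | succ j ih =>
    intro k hk
    rw [count_step hG (by omega), ih (k + 1) (by omega)]

/-- module Count -/
theorem count : CountStmt := by
  intro α _ D P ext hG
  refine ⟨count_g_empty ext, fun S hS hne => count_g_rec hG hS hne,
    fun S hS => count_g_pos hG S.card S rfl hS, count_N_self,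
    fun S _ hne => count_N_rec hne, fun S hS => ?_⟩
  have hc : S.card ≤ P.card := Finset.card_le_card hS
  rw [← count_level hG (P.card - S.card) S.card (by omega)]
  exact Finset.single_le_sum (f := fun S => N ext P S * g ext S)
    (fun _ _ => Nat.zero_le _) (Finset.mem_powersetCard.mpr ⟨hS, rfl⟩)

end Count

end Pool.Agent.Lib.MP_f1849d_co.J
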