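import Pool.Agent.Lib.MP_f1849d_co.J.Paths
import Pool.Agent.Lib.MP_f1849d_co.J.Spec

/-!
MP_f1849d_co, route J: module Cross (adapter from `Paths.lean`).
-/

open Finset
open scoped Classical

namespace Pool.Agent.Lib.MP_f1849d_co.J

open Pa

theorem crossStmt : CrossStmt := by
  intro α _ D P L s t y b beta M hD hI hs hβ hb hM om hg u hu hlost m nu a c h1 h2 h3 h4 h5
  obtain ⟨j, a1, a2, a3, a4, a5⟩ := crossing (P := P) (L := L) (s := s) (W := 129 * y) (t := t)
    hs hI (w := 128 * y) (ν := nu) (l := m) hu (by omega) hg hM hβ hlost h1 h2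
    (fun k hk => by have := h3 k hk; have := (h4 k hk).2; omega)
    (fun k hk i hi => h5 k hk i (by have := (h4 k hk).2; omega))
  refine ⟨j, a1, a2, a4, a3, fun k hk => ?_⟩
  have h6 := a5 k
  have h7 := h4 k hk
  exact ⟨by omega, by omega⟩

end Pool.Agent.Lib.MP_f1849d_co.J
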