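import Mathlib
import Pool.Agent.Lib.MP_f1849d_co.J.Spec

/-!
General position in terms of affine hyperplanes.
-/

open Finset Module
open scoped Classical

namespace Pool.Agent.Lib.MP_f1849d_co.J

/-- `d + 1` points of `EuclideanSpace ℝ (Fin d)` are affinely independent iff they do not lie on
a common hyperplane. -/
theorem affineIndependent_iff_hyperplane (d : ℕ) (S : Finset (EuclideanSpace ℝ (Fin d)))
    (hS : S.card = d + 1) :
    AffineIndependent ℝ (fun x : S => (x : EuclideanSpace ℝ (Fin d))) ↔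
      ∀ (f : EuclideanSpace ℝ (Fin d) →ₗ[ℝ] ℝ) (c : ℝ), f ≠ 0 → ∃ x ∈ S, f x ≠ c := by
  have hcard : Fintype.card S = d + 1 := by rw [Fintype.card_coe]; exact hS
  have hrange : Set.range (fun x : S => (x : EuclideanSpace ℝ (Fin d))) = (S : Set _) :=
    Subtype.range_coe
  have hne : S.Nonempty := by
    rw [← Finset.card_pos]; omega
  obtain ⟨x0, hx0⟩ := hne
  constructor
  · intro h f c hf
    by_contra hcon
    push Not at hcon
    have htop : vectorSpan ℝ (Set.range (fun x : S => (x : EuclideanSpace ℝ (Fin d)))) = ⊤ :=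
      h.vectorSpan_eq_top_of_card_eq_finrank_add_one (by
        rw [hcard, finrank_euclideanSpace_fin])
    rw [hrange] at htop
    apply hf
    have hle : vectorSpan ℝ (S : Set (EuclideanSpace ℝ (Fin d))) ≤ LinearMap.ker f := by
      rw [vectorSpan_def, Submodule.span_le]
      rintro _ ⟨a, ha, b, hb, rfl⟩
      have h1 := hcon a ha
      have h2 := hcon b hb
      simp [h1, h2]
    rw [htop, top_le_iff] at hle
    exact LinearMap.ker_eq_top.mp hle
  · intro h
    rw [affineIndependent_iff_finrank_vectorSpan_eq ℝ _ hcard, hrange]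
    by_contra hcon
    have hlt : vectorSpan ℝ (S : Set (EuclideanSpace ℝ (Fin d))) < ⊤ := by
      rw [lt_top_iff_ne_top]
      intro htop
      apply hcon
      rw [htop, finrank_top, finrank_euclideanSpace_fin]
    obtain ⟨f, hf0, hf⟩ := Submodule.exists_le_ker_of_lt_top _ hlt
    obtain ⟨x, hx, hfx⟩ := h f (f x0) hf0
    apply hfx
    have h1 : x -ᵥ x0 ∈ vectorSpan ℝ (S : Set (EuclideanSpace ℝ (Fin d))) :=
      vsub_mem_vectorSpan ℝ hx hx0
    have h2 := hf h1
    rw [LinearMap.mem_ker, vsub_eq_sub, map_sub] at h2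
    linarith

/-- General position: no `d + 1` points on a common affine hyperplane. -/
theorem genPosV_iff_hyperplane (d : ℕ) (P : Finset (EuclideanSpace ℝ (Fin d))) :
    GenPosV d P ↔ ∀ S : Finset (EuclideanSpace ℝ (Fin d)), S ⊆ P → S.card = d + 1 →
      ∀ (f : EuclideanSpace ℝ (Fin d) →ₗ[ℝ] ℝ) (c : ℝ), f ≠ 0 → ∃ x ∈ S, f x ≠ c := by
  unfold GenPosV
  constructor
  · intro h S hS hc
    exact (affineIndependent_iff_hyperplane d S hc).mp (h S hS hc)
  · intro h S hS hc
    exact (affineIndependent_iff_hyperplane d S hc).mpr (h S hS hc)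

end Pool.Agent.Lib.MP_f1849d_co.J
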