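import Mathlib
import Pool.Agent.Lib.MP_f1849d_co.J.Spec
import Pool.Agent.Lib.MP_f1849d_co.J.GenPosIff

/-!
Sets in general position of every cardinality exist (moment curve).
-/

open Finset Module
open scoped Classical

namespace Pool.Agent.Lib.MP_f1849d_co.J

/-- the moment curve -/
noncomputable def momentCurve (d : ℕ) (x : ℝ) : EuclideanSpace ℝ (Fin d) :=
  WithLp.toLp 2 (fun j : Fin d => x ^ ((j : ℕ) + 1))

theorem momentCurve_injective {d : ℕ} (hd : 1 ≤ d) : Function.Injective (momentCurve d) := by
  intro x y h
  have h1 := congrArg (fun v : EuclideanSpace ℝ (Fin d) => v (⟨0, hd⟩ : Fin d)) h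
  simpa [momentCurve] using h1

theorem linear_momentCurve {d : ℕ} (f : EuclideanSpace ℝ (Fin d) →ₗ[ℝ] ℝ) (x : ℝ) :
    f (momentCurve d x) =
      ∑ j : Fin d, f (EuclideanSpace.basisFun (Fin d) ℝ j) * x ^ ((j : ℕ) + 1) := by
  have h : momentCurve d x =
      ∑ j : Fin d, (x ^ ((j : ℕ) + 1)) • (EuclideanSpace.basisFun (Fin d) ℝ j) := by
    have := (EuclideanSpace.basisFun (Fin d) ℝ).sum_repr (momentCurve d x)
    rw [← this]
    apply Finset.sum_congr rfl
    intro j _
    simp [momentCurve]
  rw [h, map_sum]
  apply Finset.sum_congr rfl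
  intro j _
  rw [map_smul, smul_eq_mul, mul_comm]

/-- sets in general position of every cardinality exist -/
theorem genPos_exists (d n : ℕ) (hd : 1 ≤ d) :
    ∃ P : Finset (EuclideanSpace ℝ (Fin d)), P.card = n ∧ GenPosV d P := by
  refine ⟨(Finset.range n).image (fun i : ℕ => momentCurve d (i : ℝ)), ?_, ?_⟩
  · rw [Finset.card_image_of_injective, Finset.card_range]
    intro i j h
    exact_mod_cast momentCurve_injective hd h
  · rw [genPosV_iff_hyperplane]
    intro S hS hcard f c hf
    by_contra hcon
    push Not at hcon
    apply hf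
    -- the polynomial
    let p : Polynomial ℝ := (∑ j : Fin d,
      Polynomial.C (f (EuclideanSpace.basisFun (Fin d) ℝ j)) * Polynomial.X ^ ((j : ℕ) + 1)) -
      Polynomial.C c
    have hdeg : p.natDegree ≤ d := by
      apply (Polynomial.natDegree_sub_le _ _).trans
      apply max_le
      · apply Polynomial.natDegree_sum_le_of_forall_le
        intro j _
        apply (Polynomial.natDegree_C_mul_X_pow_le _ _).trans
        have := j.2
        omega
      · simp
    have heval : ∀ x : ℝ, p.eval x = f (momentCurve d x) - c := by
      intro x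
      rw [linear_momentCurve]
      simp [p, Polynomial.eval_finsetSum]
    -- the roots
    have hsub : ∀ x ∈ S, ∃ t : ℝ, momentCurve d t = x ∧ p.eval t = 0 := by
      intro x hx
      obtain ⟨i, -, rfl⟩ := Finset.mem_image.mp (hS hx)
      refine ⟨i, rfl, ?_⟩
      rw [heval, hcon _ hx, sub_self]
    choose! tt ht1 ht2 using hsub
    have hp0 : p = 0 := by
      by_contra hp
      have h1 : (S.image tt).card ≤ p.roots.toFinset.card := by
        apply Finset.card_le_card
        intro t ht
        obtain ⟨x, hx, rfl⟩ := Finset.mem_image.mp ht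
        rw [Multiset.mem_toFinset, Polynomial.mem_roots hp]
        exact ht2 x hx
      have h2 : (S.image tt).card = S.card := by
        apply Finset.card_image_of_injOn
        intro x hx y hy hxy
        rw [← ht1 x hx, ← ht1 y hy]
        exact congrArg _ hxy
      have h3 := Multiset.toFinset_card_le p.roots
      have h4 := Polynomial.card_roots' p
      omega
    have hcoef : ∀ j : Fin d, f (EuclideanSpace.basisFun (Fin d) ℝ j) = 0 := by
      intro j
      have h1 : p.coeff ((j : ℕ) + 1) = 0 := by rw [hp0]; simp
      have h2 : p.coeff ((j : ℕ) + 1) = f (EuclideanSpace.basisFun (Fin d) ℝ j) := by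
        simp only [p, Polynomial.coeff_sub, Polynomial.finsetSum_coeff,
          Polynomial.coeff_C_mul_X_pow, Polynomial.coeff_C]
        rw [Finset.sum_eq_single j]
        · simp
        · intro k _ hk
          have : (j : ℕ) + 1 ≠ (k : ℕ) + 1 := by
            intro hh
            apply hk
            ext
            omega
          rw [if_neg this]
        · intro h
          exact absurd (Finset.mem_univ _) h
      rw [← h2, h1]
    apply (EuclideanSpace.basisFun (Fin d) ℝ).toBasis.ext
    intro j
    simpa using hcoef j

end Pool.Agent.Lib.MP_f1849d_co.J
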