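import Mathlib
import Pool.Agent.Lib.MP_f1849d_co.Geo
import Pool.Agent.Lib.MP_f1849d_co.J.Defs

/-!
The vertex operator of finite sets in general position satisfies `Geom`.
-/

namespace Pool.Agent.Lib.MP_f1849d_co

open Finset Module
open scoped Classical

variable {V : Type} [NormedAddCommGroup V] [NormedSpace ℝ V] [FiniteDimensional ℝ V]

omit [FiniteDimensional ℝ V] in
/-- the three-point lemma in `Finset` form -/
theorem three_point_finset {P : Finset V} (hP : GenPos P) {D : ℕ} (hD : D = finrank ℝ V + 1)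
    (R : Finset V) (a b z o : V) (hR : R.card + 2 = D) (hRP : R ⊆ P) (ha : a ∈ P) (hb : b ∈ P)
    (hz : z ∈ P) (haR : a ∉ R) (hbR : b ∉ R) (hzR : z ∉ R) (hab : a ≠ b) (haz : a ≠ z)
    (hbz : b ≠ z) (Z1 Z2 Z3 : Finset V) (hZ1P : Z1 ⊆ P)
    (h1 : ext Z1 ⊆ insert a (insert b R)) (h2 : ext Z2 ⊆ insert a (insert z R))
    (h3 : ext Z3 ⊆ insert b (insert z R)) (o1 : o ∈ Z1) (o2 : o ∈ Z2) (o3 : o ∈ Z3) :
    o ∈ insert a (insert b (insert z R)) := by
  by_contra ho
  simp only [mem_insert, not_or] at ho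
  obtain ⟨hoa, hob, hoz, hoR⟩ := ho
  set s : Finset V := insert a (insert b R) with hs
  have hbs : b ∉ R := hbR
  have hscard : s.card = D := by
    rw [hs, card_insert_of_notMem (by simp [hab, haR]), card_insert_of_notMem hbR]
    omega
  let e : s ≃ Fin D := s.equivFinOfCardEq hscard
  let h : Fin D → V := fun i => (e.symm i : V)
  have hinj : Function.Injective h := by
    intro i j hij
    exact e.symm.injective (Subtype.ext hij)
  have hmem : ∀ i, h i ∈ s := fun i => (e.symm i).2
  have hsP : s ⊆ P := by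
    intro v hv
    rw [hs, mem_insert, mem_insert] at hv
    rcases hv with rfl | rfl | hv
    · exact ha
    · exact hb
    · exact hRP hv
  let x : Fin D := e ⟨a, by rw [hs]; exact mem_insert_self _ _⟩
  let q : Fin D := e ⟨b, by rw [hs]; exact mem_insert_of_mem (mem_insert_self _ _)⟩
  have hx : h x = a := by simp [h, x]
  have hq : h q = b := by simp [h, q]
  have hxq : x ≠ q := by
    intro hh
    apply hab
    rw [← hx, ← hq, hh]
  have hsurj : ∀ v ∈ s, ∃ i, h i = v := by
    intro v hv
    exact ⟨e ⟨v, hv⟩, by simp [h]⟩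
  have hzs : ∀ i, h i ≠ z := by
    intro i hi
    have := hmem i
    rw [hi, hs, mem_insert, mem_insert] at this
    rcases this with hh | hh | hh
    · exact haz hh.symm
    · exact hbz hh.symm
    · exact hzR hh
  have hos : ∀ i, h i ≠ o := by
    intro i hi
    have := hmem i
    rw [hi, hs, mem_insert, mem_insert] at this
    rcases this with hh | hh | hh
    · exact hoa hh
    · exact hob hh
    · exact hoR hh
  refine three_point_ext hP hD h hinj (fun i => hsP (hmem i)) z hz hzs o (hZ1P o1) hos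
    (fun hh => hoz hh.symm) x q hxq Z1 Z3 Z2 ?_ ?_ ?_ o1 o3 o2
  · intro v hv
    obtain ⟨i, hi⟩ := hsurj v (h1 hv)
    rw [mem_image]
    exact ⟨i, mem_univ _, hi⟩
  · intro v hv
    have := h3 hv
    rw [mem_insert, mem_insert] at this
    rw [mem_image]
    rcases this with rfl | rfl | hvR
    · refine ⟨q, mem_univ _, ?_⟩
      rw [Function.update_of_ne (Ne.symm hxq), hq]
    · exact ⟨x, mem_univ _, Function.update_self _ _ _⟩
    · obtain ⟨i, hi⟩ := hsurj v (by rw [hs]; simp [hvR])
      refine ⟨i, mem_univ _, ?_⟩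
      rw [Function.update_of_ne, hi]
      intro hix
      rw [hix, hx] at hi
      exact haR (hi ▸ hvR)
  · intro v hv
    have := h2 hv
    rw [mem_insert, mem_insert] at this
    rw [mem_image]
    rcases this with rfl | rfl | hvR
    · refine ⟨x, mem_univ _, ?_⟩
      rw [Function.update_of_ne hxq, hx]
    · exact ⟨q, mem_univ _, Function.update_self _ _ _⟩
    · obtain ⟨i, hi⟩ := hsurj v (by rw [hs]; simp [hvR])
      refine ⟨i, mem_univ _, ?_⟩
      rw [Function.update_of_ne, hi]
      intro hix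
      rw [hix, hq] at hi
      exact hbR (hi ▸ hvR)

/-- **The vertex operator satisfies `Geom`.** -/
theorem geom_ext {d : ℕ} (hd : 1 ≤ d) (hfr : finrank ℝ V = d) (P : Finset V) (hP : GenPos P) :
    J.Geom (d + 1) P (ext : Finset V → Finset V) where
  sub := fun S _ => ext_subset S
  ne := fun S _ hS => ext_nonempty hS
  card := fun S hS hc => by
    have := card_ext_ge (hP.mono hS) (by rw [hfr]; exact hc)
    rwa [hfr] at this
  mono := fun S T _ hTS e he heT => ext_mono he heT hTS
  inner := fun Z X Q _ _ hZ hQ e heZ _ heQ => not_mem_ext_of_covered heZ hZ hQ heQ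
  three := fun R a b z o hR hRP ha hb hz haR hbR hzR hab haz hbz Z1 Z2 Z3 hZ1 _ _ h1 h2 h3
      o1 o2 o3 =>
    three_point_finset hP (by rw [hfr]) R a b z o hR hRP ha hb hz haR hbR hzR hab haz hbz
      Z1 Z2 Z3 hZ1 h1 h2 h3 o1 o2 o3
  sign := by
    intro l X a o hX hdis haP hoa hall F hFP hF
    -- `o ∈ P`
    have hoP : o ∈ P := by
      let y : Fin (d + 1) → V := fun m => if h : m ≠ l then (hX m h).2.1.choose else a
      obtain ⟨Z, hZP, -, hoZ⟩ := hall y (by
        intro m hm
        simp only [y, dif_pos hm]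
        exact (hX m hm).2.1.choose_spec)
      exact hZP hoZ
    apply sign_ext hd hfr hP l X (fun m hm => (hX m hm).1) (fun m hm => (hX m hm).2.1)
      (fun m m' hm hm' h => hdis m m' hm hm' h) a haP (fun m hm => (hX m hm).2.2.1) o hoP
      (fun m hm => (hX m hm).2.2.2) (Ne.symm hoa) _ F hF
    intro y hyl hy
    obtain ⟨Z, -, hZ, hoZ⟩ := hall y hy
    refine ⟨Z, ?_, hoZ⟩
    intro v hv
    have := hZ hv
    rw [mem_insert, mem_image] at this
    rw [mem_image]
    rcases this with rfl | ⟨m, -, rfl⟩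
    · exact ⟨l, mem_univ _, hyl⟩
    · exact ⟨m, mem_univ _, rfl⟩

end Pool.Agent.Lib.MP_f1849d_co
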