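import Mathlib
import Pool.Agent.Lib.MP_f1849d_co.J.Spec
import Pool.Agent.Lib.MP_f1849d_co.J.GeomInst

/-!
`GeoStmt`: finite sets in general position in `EuclideanSpace ℝ (Fin d)` satisfy `Geom`.
-/

open Finset
open scoped Classical

namespace Pool.Agent.Lib.MP_f1849d_co.J

theorem extV_eq_ext (d : ℕ) :
    (extV d : Finset (EuclideanSpace ℝ (Fin d)) → Finset (EuclideanSpace ℝ (Fin d))) =
      (MP_f1849d_co.ext : Finset (EuclideanSpace ℝ (Fin d)) → _) := by
  funext S
  unfold extV MP_f1849d_co.ext
  apply Finset.filter_congr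
  intro x _
  rw [Finset.coe_erase]

/-- the decidability instance does not matter -/
theorem geom_inst {α : Type} (i j : DecidableEq α) {D : ℕ} {P : Finset α}
    {e : Finset α → Finset α} (h : @Geom α i D P e) : @Geom α j D P e := by
  have hij : i = j := Subsingleton.elim _ _
  subst hij
  exact h

theorem geo : GeoStmt := by
  intro d hd P hP
  have h1 : MP_f1849d_co.GenPos P := by
    intro s hs hcard
    rw [finrank_euclideanSpace_fin] at hcard
    exact hP s hs hcard
  rw [extV_eq_ext]
  exact geom_inst _ _ (geom_ext (d := d) (by omega) finrank_euclideanSpace_fin P h1)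

end Pool.Agent.Lib.MP_f1849d_co.J
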