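import Mathlib
import Pool.Agent.Lib.MP_f1849d_co.J.Spec
import Pool.Agent.Lib.MP_f1849d_co.OneStepReal

/-!
The process with harvest: the one-step inequality, the specification of the harvest, the bound for
the expected number of bad visits and harvested elements, and the bound for the sum of the `Q x`.
-/

open Finset
open scoped Classical

namespace Pool.Agent.Lib.MP_f1849d_co.J

namespace HarvAux

/-! ### Elementary properties of `Avg` -/

section Avg
variable {D : ℕ} [NeZero D]

theorem Avg_mono (M : ℕ) : ∀ (f h : (ℕ → Fin D) → ℝ), (∀ om, f om ≤ h om) →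
    Avg D M f ≤ Avg D M h := by
  induction M with
  | zero => intro f h hfh; exact hfh _
  | succ M ih =>
    intro f h hfh
    simp only [Avg]
    apply mul_le_mul_of_nonneg_left _ (by positivity)
    exact Finset.sum_le_sum (fun l _ => ih _ _ (fun om => hfh _))

theorem Avg_const (M : ℕ) (c : ℝ) : Avg D M (fun _ => c) = c := by
  induction M with
  | zero => rfl
  | succ M ih =>
    simp only [Avg, ih, Finset.sum_const, Finset.card_univ, Fintype.card_fin, nsmul_eq_mul]
    have : (D : ℝ) ≠ 0 := by exact_mod_cast NeZero.ne D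
    field_simp

theorem Avg_add (M : ℕ) : ∀ (f h : (ℕ → Fin D) → ℝ),
    Avg D M (fun om => f om + h om) = Avg D M f + Avg D M h := by
  induction M with
  | zero => intro f h; rfl
  | succ M ih =>
    intro f h
    simp only [Avg]
    rw [← mul_add, ← Finset.sum_add_distrib]
    congr 1
    exact Finset.sum_congr rfl (fun l _ => ih _ _)

theorem Avg_const_mul (M : ℕ) (c : ℝ) : ∀ (f : (ℕ → Fin D) → ℝ),
    Avg D M (fun om => c * f om) = c * Avg D M f := by
  induction M with
  | zero => intro f; rfl
  | succ M ih =>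
    intro f
    simp only [Avg]
    rw [Finset.sum_congr rfl (fun l _ => ih (fun om => f (cons l om))), ← Finset.mul_sum]
    ring

theorem Avg_finset_sum {ι : Type*} (M : ℕ) (s : Finset ι) (f : ι → (ℕ → Fin D) → ℝ) :
    Avg D M (fun om => ∑ i ∈ s, f i om) = ∑ i ∈ s, Avg D M (f i) := by
  induction s using Finset.induction_on with
  | empty => simp only [Finset.sum_empty]; exact Avg_const M 0
  | insert i s hi ih =>
    simp only [Finset.sum_insert hi]
    rw [Avg_add, ih]

theorem Avg_nonneg (M : ℕ) (f : (ℕ → Fin D) → ℝ) (hf : ∀ om, 0 ≤ f om) : 0 ≤ Avg D M f := by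
  rw [← Avg_const (D := D) M 0]
  exact Avg_mono M _ _ hf

end Avg

/-! ### The position after one letter -/

section Step
variable {α : Type} [DecidableEq α] {D : ℕ}

theorem mem_Rem {L : Fin D → ℕ → α} {v : Fin D → ℕ} {x : α} :
    x ∈ Rem L v ↔ ∃ l, ∃ i, i < v l ∧ L l i = x := by
  simp [Rem]

/-- the removed set after one letter -/
theorem Rem_nxt {L : Fin D → ℕ → α} {v : Fin D → ℕ} {l : Fin D}
    (hne : {m | v l < m ∧ L l m ∉ insert (L l (v l)) (Rem L v)}.Nonempty) :
    Rem L (nxt L l v) = insert (L l (v l)) (Rem L v) := by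
  set A : Set ℕ := {m | v l < m ∧ L l m ∉ insert (L l (v l)) (Rem L v)} with hA
  have hm : sInf A ∈ A := Nat.sInf_mem hne
  have hlt : v l < sInf A := hm.1
  ext x
  rw [mem_Rem, mem_insert, mem_Rem]
  constructor
  · rintro ⟨k, i, hi, rfl⟩
    by_cases hk : k = l
    · subst hk
      rw [nxt, Function.update_self] at hi
      by_cases h1 : i < v k
      · exact Or.inr ⟨k, i, h1, rfl⟩
      · by_cases h2 : i = v k
        · left; rw [h2]
        · have h3 : v k < i := by omega
          have h4 : i ∉ A := Nat.notMem_of_lt_sInf hi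
          rw [hA, Set.mem_ofPred_eq, not_and, not_not] at h4
          have h5 := h4 h3
          rw [mem_insert, mem_Rem] at h5
          exact h5
    · rw [nxt, Function.update_of_ne hk] at hi
      exact Or.inr ⟨k, i, hi, rfl⟩
  · rintro (rfl | ⟨k, i, hi, rfl⟩)
    · refine ⟨l, v l, ?_, rfl⟩
      rw [nxt, Function.update_self]
      exact hlt
    · refine ⟨k, i, ?_, rfl⟩
      by_cases hk : k = l
      · subst hk
        rw [nxt, Function.update_self]
        exact lt_trans hi hlt
      · rw [nxt, Function.update_of_ne hk]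
        exact hi

/-- if the next position is a node (and `1 ≤ s`) then the next letter exists -/
theorem nxt_set_nonempty {P : Finset α} {L : Fin D → ℕ → α} {s W t : ℕ} (hs : 1 ≤ s)
    {v : Fin D → ℕ} {l : Fin D} (h : Node P L s W t (nxt L l v)) :
    {m | v l < m ∧ L l m ∉ insert (L l (v l)) (Rem L v)}.Nonempty := by
  by_contra hne
  rw [Set.not_nonempty_iff_eq_empty] at hne
  have h1 := (h.1 l).1
  rw [nxt, Function.update_self, hne] at h1
  simp at h1
  omega

theorem St_nxt {P : Finset α} {L : Fin D → ℕ → α} {s W t : ℕ} (hs : 1 ≤ s)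
    {v : Fin D → ℕ} {l : Fin D} (h : Node P L s W t (nxt L l v)) :
    St P L (nxt L l v) = (St P L v).erase (L l (v l)) := by
  rw [St, Rem_nxt (nxt_set_nonempty hs h), St]
  ext x
  simp only [mem_sdiff, mem_insert, mem_erase, not_or]
  tauto

end Step

/-! ### The harvest -/

section Harvest
variable {α : Type} [DecidableEq α] {D : ℕ}

theorem harv_spec (U : Finset α → ℝ) {S H : Finset α} (hH : H ⊆ S) :
    H ⊆ harv U S H ∧ harv U S H ⊆ S ∧
      ∀ H', H ⊆ H' → H' ⊆ S →
        U (S \ harv U S H) + 2 * ((harv U S H).card : ℝ) ≤ U (S \ H') + 2 * (H'.card : ℝ) := by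
  have hne : (S.powerset.filter (fun H' => H ⊆ H')).Nonempty :=
    ⟨H, by rw [mem_filter, mem_powerset]; exact ⟨hH, Finset.Subset.refl _⟩⟩
  have hspec := Classical.choose_spec (Finset.exists_min_image
    (S.powerset.filter (fun H' => H ⊆ H')) (fun H' => U (S \ H') + 2 * (H'.card : ℝ)) hne)
  have e : harv U S H = Classical.choose (Finset.exists_min_image
    (S.powerset.filter (fun H' => H ⊆ H')) (fun H' => U (S \ H') + 2 * (H'.card : ℝ)) hne) := by
    rw [harv, dif_pos hne]
  rw [← e] at hspec
  obtain ⟨h1, h2⟩ := hspec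
  rw [mem_filter, mem_powerset] at h1
  refine ⟨h1.2, h1.1, fun H' hH' hS' => h2 H' ?_⟩
  rw [mem_filter, mem_powerset]
  exact ⟨hS', hH'⟩

/-- the value of the potential of a state -/
noncomputable def Phi (U : Finset α → ℝ) (S H : Finset α) : ℝ := U (S \ H) + (H.card : ℝ)

theorem harv_drop (U : Finset α → ℝ) {S H : Finset α} (hH : H ⊆ S) :
    Phi U S (harv U S H) + ((harv U S H \ H).card : ℝ) ≤ Phi U S H := by
  obtain ⟨h1, h2, h3⟩ := harv_spec U hH
  have h4 := h3 H (Finset.Subset.refl _) hH
  have h5 : ((harv U S H \ H).card : ℝ) = (harv U S H).card - H.card := by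
    rw [Finset.card_sdiff_of_subset h1, Nat.cast_sub (Finset.card_le_card h1)]
  rw [Phi, Phi, h5]
  linarith

theorem harv_sub_two (U : Finset α → ℝ) {S H : Finset α} (hH : H ⊆ S) {e : α}
    (he : e ∈ S \ harv U S H) :
    U (S \ harv U S H) - 2 ≤ U ((S \ harv U S H).erase e) := by
  obtain ⟨h1, h2, h3⟩ := harv_spec U hH
  rw [mem_sdiff] at he
  have h4 := h3 (insert e (harv U S H)) (h1.trans (Finset.subset_insert _ _))
    (Finset.insert_subset he.1 h2)
  rw [Finset.card_insert_of_notMem he.2] at h4
  have h5 : S \ insert e (harv U S H) = (S \ harv U S H).erase e := by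
    ext x
    simp only [mem_sdiff, mem_insert, mem_erase, not_or]
    tauto
  rw [h5] at h4
  push_cast at h4
  linarith

/-- **The one-step inequality.** -/
theorem one_step [NeZero D] {η : ℝ} (hη0 : 0 ≤ η) (hη2 : Real.exp η ≤ 2) {P : Finset α}
    {ext : Finset α → Finset α} {U : Finset α → ℝ} (hG : Geom D P ext)
    (hU : Pot (D * Real.exp η) P ext U) {S H : Finset α} (hS : S ⊆ P) (_hH : H ⊆ S)
    (p : Fin D → α) (hp : ∀ l, p l ∈ ext S) (hinj : Function.Injective p)
    (hmin : ∀ e ∈ ext (S \ H), (∀ l, e ≠ p l) → U (S \ H) - 2 ≤ U ((S \ H).erase e)) :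
    (1 / (D : ℝ)) * ∑ l, Phi U (S.erase (p l)) (H.erase (p l)) ≤
      Phi U S H + η - (if ext (S \ H) ⊆ univ.image p then 0 else 1 / (16 * (D : ℝ) ^ 2)) := by
  have hD0 : D ≠ 0 := NeZero.ne D
  have hD1 : (1 : ℝ) ≤ D := by exact_mod_cast Nat.one_le_iff_ne_zero.mpr hD0
  set K : Finset (Fin D) := univ.filter (fun l => p l ∈ H) with hK
  have hKc : (K.card : ℝ) + ((Kᶜ).card : ℝ) = D := by
    have : K.card + (Kᶜ).card = D := by
      rw [Finset.card_add_card_compl, Fintype.card_fin]
    exact_mod_cast this
  -- the value for harvested pointers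
  have hval1 : ∀ l ∈ K, Phi U (S.erase (p l)) (H.erase (p l)) = Phi U S H - 1 := by
    intro l hl
    rw [hK, mem_filter] at hl
    have e1 : S.erase (p l) \ H.erase (p l) = S \ H := by
      ext x
      simp only [mem_sdiff, mem_erase, not_and]
      constructor
      · rintro ⟨⟨h1, h2⟩, h3⟩
        exact ⟨h2, h3 h1⟩
      · rintro ⟨h1, h2⟩
        refine ⟨⟨?_, h1⟩, fun _ => h2⟩
        rintro rfl
        exact h2 hl.2
    rw [Phi, Phi, e1, Finset.card_erase_of_mem hl.2,
      Nat.cast_sub (Finset.card_pos.mpr ⟨_, hl.2⟩)]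
    push_cast
    ring
  have hval2 : ∀ l ∈ Kᶜ, Phi U (S.erase (p l)) (H.erase (p l))
      = Phi U S H + (U ((S \ H).erase (p l)) - U (S \ H)) := by
    intro l hl
    rw [hK, mem_compl, mem_filter, not_and] at hl
    have hl' := hl (mem_univ _)
    have e1 : S.erase (p l) \ H.erase (p l) = (S \ H).erase (p l) := by
      ext x
      simp only [mem_sdiff, mem_erase, not_and]
      tauto
    rw [Phi, Phi, e1, Finset.erase_eq_of_notMem hl']
    ring
  have hsumeq : ∑ l, Phi U (S.erase (p l)) (H.erase (p l))
      = D * Phi U S H - K.card + ∑ l ∈ Kᶜ, (U ((S \ H).erase (p l)) - U (S \ H)) := by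
    rw [← Finset.sum_add_sum_compl K, Finset.sum_congr rfl hval1, Finset.sum_congr rfl hval2,
      Finset.sum_const, Finset.sum_add_distrib, Finset.sum_const, nsmul_eq_mul, nsmul_eq_mul]
    have : ((Kᶜ).card : ℝ) = D - K.card := by linarith
    rw [this]
    ring
  by_cases hKu : K = univ
  · -- all pointers harvested
    have h1 : ∑ l ∈ Kᶜ, (U ((S \ H).erase (p l)) - U (S \ H)) = 0 := by
      rw [hKu]; simp
    have h2 : (K.card : ℝ) = D := by rw [hKu]; simp
    rw [hsumeq, h1, h2]
    have h3 : (1 / (D : ℝ)) * (D * Phi U S H - D + 0) = Phi U S H - 1 := by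
      field_simp
      ring
    rw [h3]
    have h4 : (if ext (S \ H) ⊆ univ.image p then (0 : ℝ) else 1 / (16 * (D : ℝ) ^ 2)) ≤ 1 := by
      split_ifs
      · norm_num
      · rw [div_le_one (by positivity)]
        nlinarith
    linarith
  · -- some pointer is present
    have hSH : S \ H ⊆ P := (Finset.sdiff_subset).trans hS
    have hmem : ∀ l ∈ Kᶜ, p l ∈ ext (S \ H) := by
      intro l hl
      rw [hK, mem_compl, mem_filter, not_and] at hl
      have hl' := hl (mem_univ _)
      exact hG.mono S (S \ H) hS Finset.sdiff_subset (p l) (hp l)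
        (mem_sdiff.mpr ⟨hG.sub S hS (hp l), hl'⟩)
    have hne : (S \ H).Nonempty := by
      have : (Kᶜ).Nonempty := by
        rw [Finset.nonempty_iff_ne_empty]
        intro h0
        exact hKu (by rwa [Finset.compl_eq_empty_iff] at h0)
      obtain ⟨l, hl⟩ := this
      exact ⟨p l, hG.sub _ hSH (hmem l hl)⟩
    have hstep := hU.step (S \ H) hSH hne
    set β : ℝ := if ext (S \ H) ⊆ univ.image p then 0 else Real.exp (-2) with hβ
    have hβ0 : 0 ≤ β := by
      rw [hβ]; split_ifs
      · exact le_refl _
      · positivity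
    -- lower bound of the sum over the extreme points
    have hlow : ∑ l ∈ Kᶜ, Real.exp (U ((S \ H).erase (p l))) + β * Real.exp (U (S \ H))
        ≤ ∑ e ∈ ext (S \ H), Real.exp (U ((S \ H).erase e)) := by
      have himg : ∑ l ∈ Kᶜ, Real.exp (U ((S \ H).erase (p l)))
          = ∑ e ∈ (Kᶜ).image p, Real.exp (U ((S \ H).erase e)) := by
        rw [Finset.sum_image (fun x _ y _ h => hinj h)]
      have hsub : (Kᶜ).image p ⊆ ext (S \ H) := by
        intro x hx
        rw [mem_image] at hx
        obtain ⟨l, hl, rfl⟩ := hx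
        exact hmem l hl
      rw [himg, ← Finset.sum_sdiff hsub, add_comm]
      apply add_le_add _ (le_refl _)
      by_cases hb : ext (S \ H) ⊆ univ.image p
      · rw [hβ, if_pos hb, zero_mul]
        exact Finset.sum_nonneg (fun _ _ => by positivity)
      · rw [hβ, if_neg hb]
        rw [Finset.not_subset] at hb
        obtain ⟨e, he, he'⟩ := hb
        have he2 : e ∈ ext (S \ H) \ (Kᶜ).image p := by
          rw [mem_sdiff]
          refine ⟨he, fun h => he' ?_⟩
          rw [mem_image] at h ⊢
          obtain ⟨l, _, hl⟩ := h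
          exact ⟨l, mem_univ _, hl⟩
        have h1 : Real.exp (-2) * Real.exp (U (S \ H)) ≤ Real.exp (U ((S \ H).erase e)) := by
          rw [← Real.exp_add]
          apply Real.exp_le_exp.mpr
          have := hmin e he (fun l hl => he' (by
            rw [mem_image]
            exact ⟨l, mem_univ _, hl.symm⟩))
          linarith
        exact h1.trans (Finset.single_le_sum (f := fun e => Real.exp (U ((S \ H).erase e)))
          (fun _ _ => by positivity) he2)
    rw [← hstep] at hlow
    have hE : 0 < Real.exp (U (S \ H)) := Real.exp_pos _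
    have hreal : ∑ l ∈ Kᶜ, Real.exp (U ((S \ H).erase (p l)) - U (S \ H)) + β
        ≤ D * Real.exp η := by
      have h1 : (∑ l ∈ Kᶜ, Real.exp (U ((S \ H).erase (p l)) - U (S \ H)) + β)
          * Real.exp (U (S \ H)) ≤ D * Real.exp η * Real.exp (U (S \ H)) := by
        rw [add_mul, Finset.sum_mul]
        have h2 : ∀ l ∈ Kᶜ, Real.exp (U ((S \ H).erase (p l)) - U (S \ H))
            * Real.exp (U (S \ H)) = Real.exp (U ((S \ H).erase (p l))) := by
          intro l _
          rw [← Real.exp_add]
          congr 1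
          ring
        rw [Finset.sum_congr rfl h2]
        exact hlow
      exact le_of_mul_le_mul_right h1 hE
    have hone := one_step_real η β hη2 K (fun l => U ((S \ H).erase (p l)) - U (S \ H)) hβ0 hKu
      hη0 hreal
    rw [hsumeq]
    have h1 : (1 / (D : ℝ)) * (D * Phi U S H - K.card
        + ∑ l ∈ Kᶜ, (U ((S \ H).erase (p l)) - U (S \ H)))
        ≤ (1 / (D : ℝ)) * (D * Phi U S H + D * η - β / (2 * D)) := by
      apply mul_le_mul_of_nonneg_left _ (by positivity)
      linarith
    refine h1.trans ?_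
    have h2 : (1 / (D : ℝ)) * (D * Phi U S H + D * η - β / (2 * D))
        = Phi U S H + η - β / (2 * (D : ℝ) ^ 2) := by
      field_simp
    rw [h2]
    have h3 : (if ext (S \ H) ⊆ univ.image p then (0 : ℝ) else 1 / (16 * (D : ℝ) ^ 2))
        ≤ β / (2 * (D : ℝ) ^ 2) := by
      rw [hβ]
      split_ifs with hb
      · simp
      · rw [div_le_div_iff₀ (by positivity) (by positivity)]
        have h8 : (1 : ℝ) / 8 ≤ Real.exp (-2) := by
          rw [Real.exp_neg, ← one_div]
          apply one_div_le_one_div_of_le (by positivity)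
          have h9 : Real.exp 2 = Real.exp 1 * Real.exp 1 := by
            rw [← Real.exp_add]; norm_num
          rw [h9]
          have := Real.exp_one_lt_d9
          have h10 := Real.exp_pos 1
          nlinarith
        nlinarith [sq_nonneg (D : ℝ)]
    linarith

end Harvest

end HarvAux

open HarvAux in
/-- Properties of the harvest. -/
theorem harvStmt : HarvStmt := by
  intro α _ ext P U D hG S H hS hH
  obtain ⟨h1, h2, h3⟩ := harv_spec U hH
  refine ⟨h1, h2, ?_, ?_⟩
  · have h4 := h3 H (Finset.Subset.refl _) hH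
    linarith
  · intro e he
    exact harv_sub_two U hH (hG.sub _ ((Finset.sdiff_subset).trans hS) he)

namespace HarvAux

/-! ### The process -/

section Process
variable {α : Type} [DecidableEq α] {D : ℕ}

theorem pos_cons (L : Fin D → ℕ → α) (l : Fin D) (om : ℕ → Fin D) :
    ∀ (j : ℕ) (u : Fin D → ℕ), pos L u (cons l om) (j + 1) = pos L (nxt L l u) om j := by
  intro j
  induction j with
  | zero => intro u; rfl
  | succ j ih =>
    intro u
    have h1 : pos L u (cons l om) (j + 1 + 1)
        = nxt L (cons l om (j + 1)) (pos L u (cons l om) (j + 1)) := rfl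
    rw [h1, ih]
    rfl

theorem Alive_cons {P : Finset α} {L : Fin D → ℕ → α} {s W t : ℕ} (l : Fin D)
    (om : ℕ → Fin D) (j : ℕ) (u : Fin D → ℕ) :
    Alive P L s W t u (cons l om) (j + 1) ↔
      Node P L s W t u ∧ Alive P L s W t (nxt L l u) om j := by
  constructor
  · intro h
    refine ⟨h 0 (by omega), fun i hi => ?_⟩
    have := h (i + 1) (by omega)
    rwa [pos_cons] at this
  · rintro ⟨h1, h2⟩ i hi
    rcases i with _ | i
    · exact h1
    · rw [pos_cons]
      exact h2 i (by omega)

theorem pre_cons (U : Finset α → ℝ) (P : Finset α) (L : Fin D → ℕ → α) (l : Fin D)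
    (om : ℕ → Fin D) (u : Fin D → ℕ) (H0 : Finset α) :
    ∀ j, pre U P L u H0 (cons l om) (j + 1)
      = pre U P L (nxt L l u) ((harv U (St P L u) H0).erase (L l (u l))) om j := by
  intro j
  induction j with
  | zero => rfl
  | succ j ih =>
    have h1 : pre U P L u H0 (cons l om) (j + 1 + 1)
      = (harv U (St P L (pos L u (cons l om) (j + 1))) (pre U P L u H0 (cons l om) (j + 1))).erase
      (L (cons l om (j + 1)) (pos L u (cons l om) (j + 1) (cons l om (j + 1)))) := rfl
    rw [h1, ih, pos_cons]
    rfl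

theorem Hs_cons (U : Finset α → ℝ) (P : Finset α) (L : Fin D → ℕ → α) (l : Fin D)
    (om : ℕ → Fin D) (u : Fin D → ℕ) (H0 : Finset α) (j : ℕ) :
    Hs U P L u H0 (cons l om) (j + 1)
      = Hs U P L (nxt L l u) ((harv U (St P L u) H0).erase (L l (u l))) om j := by
  rw [Hs, Hs, pos_cons, pre_cons]

theorem Bad_cons (ext : Finset α → Finset α) (U : Finset α → ℝ) (P : Finset α)
    (L : Fin D → ℕ → α) (l : Fin D) (om : ℕ → Fin D) (u : Fin D → ℕ) (H0 : Finset α) (j : ℕ) :
    Bad ext U P L u H0 (cons l om) (j + 1) ↔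
      Bad ext U P L (nxt L l u) ((harv U (St P L u) H0).erase (L l (u l))) om j := by
  rw [Bad, Bad, pos_cons, Hs_cons]

/-- the gain at time `j` -/
noncomputable def gain (ext : Finset α → Finset α) (U : Finset α → ℝ) (P : Finset α)
    (L : Fin D → ℕ → α) (s W t : ℕ) (u : Fin D → ℕ) (H0 : Finset α) (om : ℕ → Fin D)
    (j : ℕ) : ℝ :=
  if Alive P L s W t u om j then
    (if Bad ext U P L u H0 om j then 1 / (16 * (D : ℝ) ^ 2) else 0)
      + ((Hs U P L u H0 om j \ pre U P L u H0 om j).card : ℝ)
  else 0

theorem gain_nonneg (ext : Finset α → Finset α) (U : Finset α → ℝ) (P : Finset α)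
    (L : Fin D → ℕ → α) (s W t : ℕ) (u : Fin D → ℕ) (H0 : Finset α) (om : ℕ → Fin D)
    (j : ℕ) : 0 ≤ gain ext U P L s W t u H0 om j := by
  rw [gain]
  split_ifs <;> positivity

theorem gain_zero (ext : Finset α → Finset α) (U : Finset α → ℝ) (P : Finset α)
    (L : Fin D → ℕ → α) (s W t : ℕ) (u : Fin D → ℕ) (H0 : Finset α) (om : ℕ → Fin D)
    (hu : Node P L s W t u) :
    gain ext U P L s W t u H0 om 0 =
      (if ext (St P L u \ harv U (St P L u) H0) ⊆ ptrs L u then 0 else 1 / (16 * (D : ℝ) ^ 2))
        + ((harv U (St P L u) H0 \ H0).card : ℝ) := by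
  have h1 : Alive P L s W t u om 0 := by
    intro i hi
    have : i = 0 := by omega
    subst this
    exact hu
  have h2 : Bad ext U P L u H0 om 0 ↔
      ¬ ext (St P L u \ harv U (St P L u) H0) ⊆ ptrs L u := Iff.rfl
  have h3 : Hs U P L u H0 om 0 = harv U (St P L u) H0 := rfl
  have h4 : pre U P L u H0 om 0 = H0 := rfl
  rw [gain, if_pos h1, h3, h4]
  congr 1
  by_cases h : ext (St P L u \ harv U (St P L u) H0) ⊆ ptrs L u
  · rw [if_pos h, if_neg (by rw [h2]; exact not_not.mpr h)]
  · rw [if_neg h, if_pos (by rw [h2]; exact h)]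

theorem gain_cons (ext : Finset α → Finset α) (U : Finset α → ℝ) (P : Finset α)
    (L : Fin D → ℕ → α) (s W t : ℕ) (u : Fin D → ℕ) (H0 : Finset α) (l : Fin D)
    (om : ℕ → Fin D) (j : ℕ) (hu : Node P L s W t u) :
    gain ext U P L s W t u H0 (cons l om) (j + 1) =
      gain ext U P L s W t (nxt L l u) ((harv U (St P L u) H0).erase (L l (u l))) om j := by
  rw [gain, gain, Hs_cons, pre_cons]
  simp only [Alive_cons, Bad_cons, hu, true_and]

theorem gain_of_not_node (ext : Finset α → Finset α) (U : Finset α → ℝ) (P : Finset α)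
    (L : Fin D → ℕ → α) (s W t : ℕ) (u : Fin D → ℕ) (H0 : Finset α)
    (om : ℕ → Fin D) (j : ℕ) (hu : ¬ Node P L s W t u) :
    gain ext U P L s W t u H0 om j = 0 := by
  rw [gain, if_neg]
  intro h
  exact hu (h 0 (by omega))

/-- **(3.1)** The expected gain is at most the potential of the start. -/
theorem avg_gain_le [NeZero D] {η : ℝ} (hη0 : 0 ≤ η) (hη2 : Real.exp η ≤ 2) {P : Finset α}
    {ext : Finset α → Finset α} {U : Finset α → ℝ} (hG : Geom D P ext)
    (hU : Pot (D * Real.exp η) P ext U) {L : Fin D → ℕ → α} {s W t : ℕ} (hs : 1 ≤ s)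
    (hV : NodeExt ext P L s W t) (M : ℕ) :
    ∀ (u : Fin D → ℕ) (H0 : Finset α), H0 ⊆ St P L u →
      Avg D M (fun om => ∑ j ∈ range M, gain ext U P L s W t u H0 om j) ≤
        Phi U (St P L u) H0 + η * M := by
  have hPhi : ∀ S H : Finset α, S ⊆ P → 0 ≤ Phi U S H := by
    intro S H hS
    rw [Phi]
    have := hU.nonneg (S \ H) ((Finset.sdiff_subset).trans hS)
    positivity
  have hStP : ∀ v : Fin D → ℕ, St P L v ⊆ P := fun v => Finset.sdiff_subset
  induction M with
  | zero =>
    intro u H0 hH0
    simp only [Finset.range_zero, Finset.sum_empty, Avg, Nat.cast_zero, mul_zero, add_zero]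
    exact hPhi _ _ (hStP u)
  | succ M ih =>
    intro u H0 hH0
    by_cases hu : Node P L s W t u
    swap
    · -- not a node: all gains vanish
      have h0 : ∀ om : ℕ → Fin D, ∑ j ∈ range (M + 1), gain ext U P L s W t u H0 om j = 0 := by
        intro om
        exact Finset.sum_eq_zero (fun j _ => gain_of_not_node ext U P L s W t u H0 om j hu)
      simp only [h0]
      rw [Avg_const]
      have := hPhi _ H0 (hStP u)
      positivity
    obtain ⟨hh1, hh2, hh3⟩ := harv_spec U hH0
    set S := St P L u with hS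
    set H' := harv U S H0 with hH'
    -- unfold one letter
    have hstep : Avg D (M + 1) (fun om => ∑ j ∈ range (M + 1), gain ext U P L s W t u H0 om j)
        = ((if ext (S \ H') ⊆ ptrs L u then 0 else 1 / (16 * (D : ℝ) ^ 2))
          + ((H' \ H0).card : ℝ)) + (1 / (D : ℝ)) * ∑ l : Fin D, Avg D M (fun om =>
            ∑ j ∈ range M, gain ext U P L s W t (nxt L l u) (H'.erase (L l (u l))) om j) := by
      have h1 : ∀ (l : Fin D) (om : ℕ → Fin D),
          ∑ j ∈ range (M + 1), gain ext U P L s W t u H0 (cons l om) j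
          = ((if ext (S \ H') ⊆ ptrs L u then 0 else 1 / (16 * (D : ℝ) ^ 2))
          + ((H' \ H0).card : ℝ)) + ∑ j ∈ range M,
            gain ext U P L s W t (nxt L l u) (H'.erase (L l (u l))) om j := by
        intro l om
        rw [Finset.sum_range_succ', add_comm]
        congr 1
        · exact gain_zero ext U P L s W t u H0 (cons l om) hu
        · exact Finset.sum_congr rfl
            (fun j _ => gain_cons ext U P L s W t u H0 l om j hu)
      simp only [Avg, h1]
      simp only [Avg_add, Avg_const]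
      rw [Finset.sum_add_distrib, mul_add]
      congr 1
      rw [Finset.sum_const, Finset.card_univ, Fintype.card_fin, nsmul_eq_mul]
      have : (D : ℝ) ≠ 0 := by exact_mod_cast NeZero.ne D
      field_simp
    rw [hstep]
    -- bound of each branch
    have hbranch : ∀ l : Fin D, Avg D M (fun om =>
            ∑ j ∈ range M, gain ext U P L s W t (nxt L l u) (H'.erase (L l (u l))) om j)
        ≤ Phi U (S.erase (L l (u l))) (H'.erase (L l (u l))) + η * M := by
      intro l
      by_cases hn : Node P L s W t (nxt L l u)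
      · have hst := St_nxt hs hn
        have h1 := ih (nxt L l u) (H'.erase (L l (u l))) (by
          rw [hst]
          exact Finset.erase_subset_erase _ hh2)
        rw [hst] at h1
        exact h1
      · have h0 : ∀ om : ℕ → Fin D, ∑ j ∈ range M,
            gain ext U P L s W t (nxt L l u) (H'.erase (L l (u l))) om j = 0 := by
          intro om
          exact Finset.sum_eq_zero (fun j _ => gain_of_not_node ext U P L s W t _ _ om j hn)
        simp only [h0]
        rw [Avg_const]
        have := hPhi (S.erase (L l (u l))) (H'.erase (L l (u l)))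
          ((Finset.erase_subset _ _).trans (hStP u))
        positivity
    have hinj : Function.Injective (fun l : Fin D => L l (u l)) := by
      intro l m hlm
      by_contra hne
      exact hu.2.2.2 l m hne hlm
    have hone := one_step hη0 hη2 hG hU (hStP u) hh2
      (fun l => L l (u l)) (fun l => hV u hu l) hinj (fun e he _ => harv_sub_two U hH0
        (hG.sub _ ((Finset.sdiff_subset).trans (hStP u)) he))
    have hsum : (1 / (D : ℝ)) * ∑ l : Fin D, Avg D M (fun om =>
            ∑ j ∈ range M, gain ext U P L s W t (nxt L l u) (H'.erase (L l (u l))) om j)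
        ≤ (1 / (D : ℝ)) * ∑ l : Fin D, Phi U (S.erase (L l (u l))) (H'.erase (L l (u l)))
          + η * M := by
      have h1 : (1 / (D : ℝ)) * ∑ l : Fin D, Avg D M (fun om =>
            ∑ j ∈ range M, gain ext U P L s W t (nxt L l u) (H'.erase (L l (u l))) om j)
        ≤ (1 / (D : ℝ)) * ∑ l : Fin D, (Phi U (S.erase (L l (u l))) (H'.erase (L l (u l)))
          + η * M) := by
        apply mul_le_mul_of_nonneg_left _ (by positivity)
        exact Finset.sum_le_sum (fun l _ => hbranch l)
      refine h1.trans (le_of_eq ?_)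
      rw [Finset.sum_add_distrib, mul_add, Finset.sum_const, Finset.card_univ,
        Fintype.card_fin, nsmul_eq_mul]
      have : (D : ℝ) ≠ 0 := by exact_mod_cast NeZero.ne D
      field_simp
    have hdrop := harv_drop U hH0
    rw [← hH'] at hdrop
    have hpt : ptrs L u = univ.image (fun l => L l (u l)) := rfl
    rw [hpt]
    push_cast
    linarith

end Process

/-! ### The sum of the weights `Q` -/

section Junk
variable {α : Type} [DecidableEq α] {D : ℕ}

/-- pathwise: the number of elements which exit badly is at most `16 D²` times the gain -/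
theorem card_exit_le [NeZero D] (ext : Finset α → Finset α) (U : Finset α → ℝ) (P : Finset α)
    (L : Fin D → ℕ → α) (s W t M : ℕ) (u : Fin D → ℕ) (om : ℕ → Fin D) (X : Finset α) :
    ∑ x ∈ X, (if ∃ j, j < M ∧ Alive P L s W t u om j ∧ ExitAt ext U P L u om j x
        then (1 : ℝ) else 0) ≤
      16 * (D : ℝ) ^ 2 * ∑ j ∈ range M, gain ext U P L s W t u ∅ om j := by
  have hD1 : (1 : ℝ) ≤ D := by
    exact_mod_cast Nat.one_le_iff_ne_zero.mpr (NeZero.ne D)
  have h1 : ∑ x ∈ X, (if ∃ j, j < M ∧ Alive P L s W t u om j ∧ ExitAt ext U P L u om j x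
        then (1 : ℝ) else 0)
      ≤ ∑ x ∈ X, ∑ j ∈ range M, (if Alive P L s W t u om j ∧ ExitAt ext U P L u om j x
        then (1 : ℝ) else 0) := by
    apply Finset.sum_le_sum
    intro x _
    split_ifs with h
    · obtain ⟨j, hj, h2, h3⟩ := h
      have h4 : (if Alive P L s W t u om j ∧ ExitAt ext U P L u om j x
        then (1 : ℝ) else 0) = 1 := if_pos ⟨h2, h3⟩
      calc (1 : ℝ) = (if Alive P L s W t u om j ∧ ExitAt ext U P L u om j x
        then (1 : ℝ) else 0) := h4.symm
        _ ≤ _ := Finset.single_le_sum (f := fun j => (if Alive P L s W t u om j ∧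
          ExitAt ext U P L u om j x then (1 : ℝ) else 0))
          (fun i _ => by split_ifs <;> norm_num) (mem_range.mpr hj)
    · exact Finset.sum_nonneg (fun i _ => by split_ifs <;> norm_num)
  refine h1.trans ?_
  rw [Finset.sum_comm, Finset.mul_sum]
  apply Finset.sum_le_sum
  intro j _
  by_cases hA : Alive P L s W t u om j
  swap
  · have h2 : ∀ x ∈ X, (if Alive P L s W t u om j ∧ ExitAt ext U P L u om j x
        then (1 : ℝ) else 0) = 0 := fun x _ => if_neg (fun h => hA h.1)
    rw [Finset.sum_congr rfl h2, Finset.sum_const_zero]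
    exact mul_nonneg (by positivity) (gain_nonneg ext U P L s W t u ∅ om j)
  · -- the elements which exit badly at time `j`
    have h2 : ∑ x ∈ X, (if Alive P L s W t u om j ∧ ExitAt ext U P L u om j x
        then (1 : ℝ) else 0) = ((X.filter (fun x => ExitAt ext U P L u om j x)).card : ℝ) := by
      rw [Finset.card_filter]
      push_cast
      apply Finset.sum_congr rfl
      intro x _
      simp only [hA, true_and]
    rw [h2]
    have h3 : X.filter (fun x => ExitAt ext U P L u om j x) ⊆
        (Hs U P L u ∅ om j \ pre U P L u ∅ om j) ∪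
          (if Bad ext U P L u ∅ om j then {L (om j) (pos L u om j (om j))} else ∅) := by
      intro x hx
      rw [mem_filter] at hx
      rw [mem_union, mem_sdiff]
      rcases hx.2 with h | ⟨h, hb⟩
      · exact Or.inl h
      · right
        rw [if_pos hb, mem_singleton]
        exact h
    have h4 := (Finset.card_le_card h3).trans (Finset.card_union_le _ _)
    have h5 : (if Bad ext U P L u ∅ om j then {L (om j) (pos L u om j (om j))}
        else (∅ : Finset α)).card = if Bad ext U P L u ∅ om j then 1 else 0 := by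
      split_ifs <;> simp
    rw [h5] at h4
    have h6 : ((X.filter (fun x => ExitAt ext U P L u om j x)).card : ℝ) ≤
        ((Hs U P L u ∅ om j \ pre U P L u ∅ om j).card : ℝ)
          + (if Bad ext U P L u ∅ om j then 1 else 0) := by
      have : ((X.filter (fun x => ExitAt ext U P L u om j x)).card : ℝ) ≤
        (((Hs U P L u ∅ om j \ pre U P L u ∅ om j).card
          + (if Bad ext U P L u ∅ om j then 1 else 0) : ℕ) : ℝ) := by exact_mod_cast h4
      refine this.trans (le_of_eq ?_)
      push_cast
      rfl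
    refine h6.trans ?_
    rw [gain, if_pos hA]
    have h7 : (0 : ℝ) ≤ ((Hs U P L u ∅ om j \ pre U P L u ∅ om j).card : ℝ) := by positivity
    have h8 : (1 : ℝ) ≤ 16 * (D : ℝ) ^ 2 := by nlinarith
    rw [mul_add]
    have h9 : 16 * (D : ℝ) ^ 2 * (if Bad ext U P L u ∅ om j then 1 / (16 * (D : ℝ) ^ 2) else 0)
        = (if Bad ext U P L u ∅ om j then 1 else 0) := by
      split_ifs
      · have : (16 * (D : ℝ) ^ 2) ≠ 0 := by positivity
        field_simp
      · simp
    rw [h9]
    nlinarith

/-- **The sum of the weights.** -/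
theorem sum_Q_le [NeZero D] {η : ℝ} (hη0 : 0 ≤ η) (hη2 : Real.exp η ≤ 2) {P : Finset α}
    {ext : Finset α → Finset α} {U : Finset α → ℝ} (hG : Geom D P ext)
    (hU : Pot (D * Real.exp η) P ext U) {L : Fin D → ℕ → α} {s w W t : ℕ} (hs : 1 ≤ s)
    (hV : NodeExt ext P L s W t) (M : ℕ) (k : ℝ) (hk : 0 ≤ k)
    (hcost : ∀ u ∈ box D s w, Node P L s W t u → U (St P L u) ≤ k) (X : Finset α) :
    ∑ x ∈ X, Q ext U P L s w W t M x ≤ 16 * (D : ℝ) ^ 2 * ((w : ℝ) ^ D * (k + η * M)) := by
  simp only [Q]
  rw [Finset.sum_comm]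
  have hcard : ((box D s w).card : ℝ) = (w : ℝ) ^ D := by
    rw [box, Fintype.card_piFinset]
    simp
  have h1 : ∀ u ∈ box D s w, ∑ x ∈ X, Avg D M (fun om =>
      if ∃ j, j < M ∧ Alive P L s W t u om j ∧ ExitAt ext U P L u om j x then (1 : ℝ) else 0)
      ≤ 16 * (D : ℝ) ^ 2 * (k + η * M) := by
    intro u hu
    rw [← Avg_finset_sum]
    refine (Avg_mono M _ _ (fun om => card_exit_le ext U P L s W t M u om X)).trans ?_
    rw [Avg_const_mul]
    apply mul_le_mul_of_nonneg_left _ (by positivity)
    by_cases hn : Node P L s W t u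
    · have h2 := avg_gain_le hη0 hη2 hG hU hs hV M u ∅ (Finset.empty_subset _)
      rw [Phi, Finset.sdiff_empty, Finset.card_empty] at h2
      have h3 := hcost u hu hn
      push_cast at h2
      linarith
    · have h0 : ∀ om : ℕ → Fin D, ∑ j ∈ range M, gain ext U P L s W t u ∅ om j = 0 := by
        intro om
        exact Finset.sum_eq_zero (fun j _ => gain_of_not_node ext U P L s W t u ∅ om j hn)
      simp only [h0]
      rw [Avg_const]
      positivity
  refine (Finset.sum_le_sum h1).trans ?_
  rw [Finset.sum_const, nsmul_eq_mul, hcard]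
  apply le_of_eq
  ring

/-- the number of junk elements -/
theorem card_junk_le [NeZero D] {η : ℝ} (hη0 : 0 ≤ η) (hη2 : Real.exp η ≤ 2) {P : Finset α}
    {ext : Finset α → Finset α} {U : Finset α → ℝ} (hG : Geom D P ext)
    (hU : Pot (D * Real.exp η) P ext U) {L : Fin D → ℕ → α} {s w W t : ℕ} (hs : 1 ≤ s)
    (hV : NodeExt ext P L s W t) (M : ℕ) (k : ℝ) (hk : 0 ≤ k)
    (hcost : ∀ u ∈ box D s w, Node P L s W t u → U (St P L u) ≤ k) (X : Finset α)
    (θ : ℝ) :
    θ * ((X.filter (fun x => θ ≤ Q ext U P L s w W t M x)).card : ℝ)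
      ≤ 16 * (D : ℝ) ^ 2 * ((w : ℝ) ^ D * (k + η * M)) := by
  refine le_trans ?_ (sum_Q_le hη0 hη2 hG hU hs hV M k hk hcost X)
  have hQ0 : ∀ x, 0 ≤ Q ext U P L s w W t M x := by
    intro x
    rw [Q]
    apply Finset.sum_nonneg
    intro u _
    apply Avg_nonneg
    intro om
    split_ifs <;> norm_num
  calc θ * ((X.filter (fun x => θ ≤ Q ext U P L s w W t M x)).card : ℝ)
      = ∑ x ∈ X.filter (fun x => θ ≤ Q ext U P L s w W t M x), θ := by
        rw [Finset.sum_const, nsmul_eq_mul, mul_comm]
    _ ≤ ∑ x ∈ X.filter (fun x => θ ≤ Q ext U P L s w W t M x), Q ext U P L s w W t M x :=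
        Finset.sum_le_sum (fun x hx => (mem_filter.mp hx).2)
    _ ≤ ∑ x ∈ X, Q ext U P L s w W t M x :=
        Finset.sum_le_sum_of_subset_of_nonneg (Finset.filter_subset _ _)
          (fun x _ _ => hQ0 x)

end Junk

end HarvAux

end Pool.Agent.Lib.MP_f1849d_co.J
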