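import Pool.Agent.Lib.MP_f1849d_co.J.Proc

/-!
MP_f1849d_co, route J: few junk elements, few harvests, in the form of `Spec.lean`.
-/

open Finset
open scoped Classical

namespace Pool.Agent.Lib.MP_f1849d_co.J

open HarvAux

theorem HarvAux.card_box (D s w : ℕ) : ((box D s w).card : ℝ) = (w : ℝ) ^ D := by
  rw [box, Fintype.card_piFinset]
  simp

theorem junkCardStmt : JunkCardStmt := by
  intro α _ D _ P ext U Dp eta L s t y M k hD hG hU h0 h1 h2 _ hs hV hy hcost
  have h3 := exp_le_two_of hD h1 h2
  subst h1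
  have hk : 0 ≤ k := by
    have hne : (fun _ => s : Fin D → ℕ) ∈ box D s (128 * y) := by
      rw [box, Fintype.mem_piFinset]
      intro l
      rw [mem_Ico]
      omega
    exact (hU.nonneg (St P L (fun _ => s)) Finset.sdiff_subset).trans (hcost _ hne)
  have hy' : (0 : ℝ) < y := by exact_mod_cast hy
  constructor
  · have h4 := card_junk_le h0 h3 hG hU hs hV M k hk (fun u hu _ => hcost u hu) P
      ((y : ℝ) ^ D / 8)
    have h5 : P.filter (fun x => (y : ℝ) ^ D ≤ 8 * Q ext U P L s (128 * y) (129 * y) t M x)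
        = P.filter (fun x => (y : ℝ) ^ D / 8 ≤ Q ext U P L s (128 * y) (129 * y) t M x) := by
      apply Finset.filter_congr
      intro x _
      constructor
      · intro h; linarith
      · intro h; linarith
    rw [h5]
    set c : ℝ := ((P.filter (fun x => (y : ℝ) ^ D / 8 ≤
      Q ext U P L s (128 * y) (129 * y) t M x)).card : ℝ) with hc
    have h6 : (((128 * y : ℕ) : ℝ)) ^ D = 128 ^ D * (y : ℝ) ^ D := by
      push_cast
      rw [mul_pow]
    rw [h6] at h4
    have hyD : (0 : ℝ) < (y : ℝ) ^ D := by positivity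
    have h7 : (y : ℝ) ^ D * c ≤ (y : ℝ) ^ D * (128 ^ (D + 1) * D ^ 2 * (k + eta * M)) := by
      have e1 : (y : ℝ) ^ D * (128 ^ (D + 1) * D ^ 2 * (k + eta * M))
          = 8 * (16 * (D : ℝ) ^ 2 * (128 ^ D * (y : ℝ) ^ D * (k + eta * M))) := by
        rw [pow_succ]; ring
      rw [e1]
      have e2 : (y : ℝ) ^ D * c = 8 * ((y : ℝ) ^ D / 8 * c) := by ring
      rw [e2]
      exact mul_le_mul_of_nonneg_left h4 (by norm_num)
    exact le_of_mul_le_mul_left h7 hyD
  · have h4 : ∀ u ∈ box D s (128 * y), Avg D M (fun om => ∑ j ∈ range M,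
        if Alive P L s (129 * y) t u om j then
          (((Hs U P L u ∅ om j).card : ℝ) - ((pre U P L u ∅ om j).card : ℝ)) else 0)
        ≤ k + eta * M := by
      intro u hu
      have h5 := avg_gain_le h0 h3 hG hU hs hV M u ∅ (Finset.empty_subset _)
      rw [Phi, Finset.sdiff_empty, Finset.card_empty] at h5
      have h6 := hcost u hu
      refine le_trans (Avg_mono M _ _ (fun om => Finset.sum_le_sum (fun j _ => ?_)))
        (h5.trans (by push_cast; linarith))
      rw [gain_eq ext U hs u (Finset.empty_subset _) om j]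
      by_cases hA : Alive P L s (129 * y) t u om j
      · rw [if_pos hA, if_pos hA]
        have : (0 : ℝ) ≤ (if Bad ext U P L u ∅ om j then 1 / (16 * (D : ℝ) ^ 2) else 0) := by
          split_ifs <;> positivity
        linarith
      · rw [if_neg hA, if_neg hA]
    refine (Finset.sum_le_sum h4).trans ?_
    rw [Finset.sum_const, nsmul_eq_mul, card_box]
    push_cast
    rw [mul_pow]

end Pool.Agent.Lib.MP_f1849d_co.J
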