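import Pool.Agent.Lib.MP_f1849d_co.J.Paths
import Pool.Agent.Lib.MP_f1849d_co.J.Spec

/-!
MP_f1849d_co, route J: module Lost (adapter from `Paths.lean`).
-/

open Finset
open scoped Classical

namespace Pool.Agent.Lib.MP_f1849d_co.J

open Pa

theorem lostStmt : LostStmt := by
  intro α _ D P L s t y beta hD hI hs hβ hst hb M om
  have h := card_lost (P := P) (L := L) (s := s) (W := 129 * y) (t := t) hs hI (w := 128 * y)
    (β := beta) (M := M) (by omega) (by omega) hβ om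
  rcases Nat.eq_zero_or_pos y with hy | hy
  · subst hy
    have hb0 : beta = 0 := by
      by_contra hne
      have : 0 < 64 * D ^ 2 * 260 ^ D * beta := by positivity
      omega
    have h0 : D * (beta * (128 * 0) ^ (D - 1)) + D * (D * ((128 * 0 + beta) *
        (beta * (2 * (129 * 0) + 1) ^ (D - 2)))) = 0 := by rw [hb0]; simp
    rw [h0] at h
    rw [Nat.le_zero.1 h]
    exact Nat.zero_le _
  obtain ⟨E, rfl⟩ : ∃ E, D = E + 2 := ⟨D - 2, by omega⟩
  have e1 : E + 2 - 1 = E + 1 := by omega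
  have e2 : E + 2 - 2 = E := by omega
  rw [e1, e2] at h
  have hbeta : beta ≤ y := by
    have h1 : 1 ≤ 64 * (E + 2) ^ 2 * 260 ^ (E + 2) := Nat.one_le_iff_ne_zero.2 (by positivity)
    calc beta = 1 * beta := (one_mul _).symm
      _ ≤ 64 * (E + 2) ^ 2 * 260 ^ (E + 2) * beta := Nat.mul_le_mul_right _ h1
      _ ≤ y := hb
  have t1 : (128 * y) ^ (E + 1) ≤ 260 ^ (E + 1) * y ^ (E + 1) := by
    rw [mul_pow]
    exact Nat.mul_le_mul_right _ (Nat.pow_le_pow_left (by norm_num) _)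
  have t2 : (2 * (129 * y) + 1) ^ E ≤ 260 ^ E * y ^ E := by
    rw [← mul_pow]
    exact Nat.pow_le_pow_left (by omega) _
  have t3 : 128 * y + beta ≤ 129 * y := by omega
  have t4 : (128 * y + beta) * (beta * (2 * (129 * y) + 1) ^ E) ≤
      beta * (260 ^ (E + 1) * y ^ (E + 1)) := by
    calc (128 * y + beta) * (beta * (2 * (129 * y) + 1) ^ E)
        ≤ (129 * y) * (beta * (260 ^ E * y ^ E)) :=
          Nat.mul_le_mul t3 (Nat.mul_le_mul_left _ t2)
      _ ≤ (260 * y) * (beta * (260 ^ E * y ^ E)) := Nat.mul_le_mul_right _ (by omega)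
      _ = beta * (260 ^ (E + 1) * y ^ (E + 1)) := by ring
  have t5 : (E + 2) * (beta * (128 * y) ^ (E + 1)) ≤
      (E + 2) ^ 2 * (beta * (260 ^ (E + 1) * y ^ (E + 1))) := by
    refine Nat.mul_le_mul ?_ (Nat.mul_le_mul_left _ t1)
    nlinarith
  have t6 : (E + 2) * ((E + 2) * ((128 * y + beta) * (beta * (2 * (129 * y) + 1) ^ E))) ≤
      (E + 2) ^ 2 * (beta * (260 ^ (E + 1) * y ^ (E + 1))) := by
    rw [← mul_assoc, ← sq]
    exact Nat.mul_le_mul_left _ t4
  calc 64 * ((box (E + 2) s (128 * y)).filter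
        (fun u => Lost P L s (129 * y) t M u om)).card
      ≤ 64 * ((E + 2) ^ 2 * (beta * (260 ^ (E + 1) * y ^ (E + 1))) +
          (E + 2) ^ 2 * (beta * (260 ^ (E + 1) * y ^ (E + 1)))) :=
        Nat.mul_le_mul_left _ (h.trans (Nat.add_le_add t5 t6))
    _ = 2 * (64 * (E + 2) ^ 2 * 260 ^ (E + 1) * beta * y ^ (E + 1)) := by ring
    _ ≤ 260 * (64 * (E + 2) ^ 2 * 260 ^ (E + 1) * beta * y ^ (E + 1)) :=
        Nat.mul_le_mul_right _ (by norm_num)
    _ = (64 * (E + 2) ^ 2 * 260 ^ (E + 2) * beta) * y ^ (E + 1) := by ring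
    _ ≤ y * y ^ (E + 1) := Nat.mul_le_mul_right _ hb
    _ = y ^ (E + 2) := by ring

end Pool.Agent.Lib.MP_f1849d_co.J
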