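import Pool.Agent.Lib.MP_f1849d_co.J.Spec

/-!
MP_f1849d_co, route J: auxiliary facts for the main induction (sequences, lists).
-/

open Finset
open scoped Classical

set_option linter.unusedSectionVars false

namespace Pool.Agent.Lib.MP_f1849d_co.J

/-! ### the sequence of scales -/

/-- the unit length of scale `r` -/
def yS (y0 : ℕ) : ℕ → ℕ
  | 0 => y0
  | r + 1 => yS y0 r + yS y0 r / 512

theorem yS_le_succ (y0 r : ℕ) : yS y0 r ≤ yS y0 (r + 1) := Nat.le_add_right _ _

theorem yS_mono (y0 : ℕ) {r r' : ℕ} (h : r ≤ r') : yS y0 r ≤ yS y0 r' := by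
  induction h with
  | refl => exact le_rfl
  | step _ ih => exact ih.trans (yS_le_succ _ _)

theorem yS_ge (y0 r : ℕ) : y0 ≤ yS y0 r := yS_mono y0 (Nat.zero_le r)

/-- top of the start of scale `r` -/
def TS (Lam y0 r : ℕ) : ℕ := 128 * (Lam + 2) * yS y0 r

theorem TS_lt_succ (Lam y0 r : ℕ) (hy : 512 ≤ y0) : TS Lam y0 r < TS Lam y0 (r + 1) := by
  have h1 := yS_ge y0 r
  have h2 : yS y0 r < yS y0 (r + 1) := by
    show yS y0 r < yS y0 r + yS y0 r / 512
    have : 0 < yS y0 r / 512 := Nat.div_pos (by omega) (by norm_num)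
    omega
  unfold TS
  exact Nat.mul_lt_mul_of_pos_left h2 (by positivity)

theorem TS_strictMono (Lam y0 : ℕ) (hy : 512 ≤ y0) : StrictMono (TS Lam y0) :=
  strictMono_nat_of_lt_succ fun r => TS_lt_succ Lam y0 r hy

/-- the scale of an index -/
noncomputable def rho (Lam y0 m : ℕ) : ℕ := Nat.findGreatest (fun r => TS Lam y0 r < m) m

theorem rho_spec {Lam y0 m : ℕ} (_hy : 512 ≤ y0) (h : TS Lam y0 0 < m) :
    TS Lam y0 (rho Lam y0 m) < m :=
  Nat.findGreatest_spec (P := fun r => TS Lam y0 r < m) (Nat.zero_le m) h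

theorem le_rho {Lam y0 m r : ℕ} (hy : 512 ≤ y0) (h : TS Lam y0 r < m) : r ≤ rho Lam y0 m := by
  have h1 : r ≤ m := ((TS_strictMono Lam y0 hy).id_le r).trans h.le
  exact Nat.le_findGreatest (P := fun r => TS Lam y0 r < m) h1 h

theorem rho_eq {Lam y0 m r : ℕ} (hy : 512 ≤ y0) (h : TS Lam y0 r < m)
    (h' : m ≤ TS Lam y0 (r + 1)) : rho Lam y0 m = r := by
  apply le_antisymm
  · by_contra hc
    push Not at hc
    have h1 : TS Lam y0 (rho Lam y0 m) < m := rho_spec hy (lt_of_le_of_lt
      ((TS_strictMono Lam y0 hy).monotone (Nat.zero_le r)) h)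
    have h2 : TS Lam y0 (r + 1) ≤ TS Lam y0 (rho Lam y0 m) :=
      (TS_strictMono Lam y0 hy).monotone hc
    omega
  · exact le_rho hy h

/-- every `t ≥ T_0` lies in a scale -/
theorem exists_scale {Lam y0 t : ℕ} (hy : 512 ≤ y0) (h : TS Lam y0 0 ≤ t) :
    ∃ r, TS Lam y0 r ≤ t ∧ t < TS Lam y0 (r + 1) := by
  refine ⟨rho Lam y0 (t + 1), ?_, ?_⟩
  · have := rho_spec (Lam := Lam) (y0 := y0) (m := t + 1) hy (by omega)
    omega
  · by_contra hc
    push Not at hc
    have := le_rho (Lam := Lam) (y0 := y0) (m := t + 1) (r := rho Lam y0 (t + 1) + 1) hy (by omega)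
    omega

theorem yS_growth (y0 r : ℕ) (hy : 512 ≤ y0) : 1025 * yS y0 r ≤ 1024 * yS y0 (r + 1) := by
  have h1 := yS_ge y0 r
  show 1025 * yS y0 r ≤ 1024 * (yS y0 r + yS y0 r / 512)
  omega

theorem sum_yS (y0 : ℕ) (hy : 512 ≤ y0) (r : ℕ) :
    ∑ r' ∈ range (r + 1), yS y0 r' ≤ 1025 * yS y0 r := by
  induction r with
  | zero =>
    simp only [zero_add, range_one, sum_singleton]
    omega
  | succ r ih =>
    rw [Finset.sum_range_succ]
    have := yS_growth y0 r hy
    omega

/-! ### lists -/

section
variable {α : Type} [DecidableEq α] {D : ℕ}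

theorem mem_Rem' {L : Fin D → ℕ → α} {v : Fin D → ℕ} {x : α} :
    x ∈ Rem L v ↔ ∃ l m, m < v l ∧ L l m = x := by
  unfold Rem
  simp only [mem_biUnion, mem_univ, true_and, mem_image, mem_range]

theorem Rem_congr {L L' : Fin D → ℕ → α} {v : Fin D → ℕ}
    (h : ∀ l m, m < v l → L l m = L' l m) : Rem L v = Rem L' v := by
  ext x
  rw [mem_Rem', mem_Rem']
  constructor
  · rintro ⟨l, m, hm, rfl⟩; exact ⟨l, m, hm, (h l m hm).symm⟩
  · rintro ⟨l, m, hm, rfl⟩; exact ⟨l, m, hm, h l m hm⟩

theorem St_congr {P : Finset α} {L L' : Fin D → ℕ → α} {v : Fin D → ℕ}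
    (h : ∀ l m, m < v l → L l m = L' l m) : St P L v = St P L' v := by
  unfold St
  rw [Rem_congr h]

theorem St_subset (P : Finset α) (L : Fin D → ℕ → α) (v : Fin D → ℕ) : St P L v ⊆ P :=
  sdiff_subset

theorem St_anti' {P : Finset α} {L : Fin D → ℕ → α} {u v : Fin D → ℕ} (h : ∀ l, u l ≤ v l) :
    St P L v ⊆ St P L u := by
  unfold St
  apply sdiff_subset_sdiff (Subset.refl _)
  intro x hx
  rw [mem_Rem'] at hx ⊢
  obtain ⟨l, m, hm, rfl⟩ := hx
  exact ⟨l, m, hm.trans_le (h l), rfl⟩

/-- validity at corners gives validity in the tube -/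
theorem validAt_of_valid {P : Finset α} {ext : Finset α → Finset α} (hG : Geom D P ext)
    {L : Fin D → ℕ → α} {lag : ℕ → ℕ} {t s W t' : ℕ} (hV : Valid ext P L lag t)
    (ht : t' ≤ t) (hlag : ∀ i, s ≤ i → i ≤ t' → W ≤ lag i) : ValidAt ext P L s W t' := by
  intro l v hs hvt hlead hmem
  have hle : ∀ k, corner l (v l) (lag (v l)) k ≤ v k := by
    intro k
    unfold corner
    split_ifs with h
    · rw [h]
    · have h1 := hlead k
      have h2 := hlag (v l) hs hvt
      omega
  have hsub := St_anti' (P := P) (L := L) hle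
  exact hG.mono _ _ (St_subset P L _) hsub _ (hV l (v l) (hvt.trans ht) (hsub hmem)) hmem

theorem nodeExt_of_validAt {P : Finset α} {ext : Finset α → Finset α}
    {L : Fin D → ℕ → α} {s W t : ℕ} (hV : ValidAt ext P L s W t) : NodeExt ext P L s W t := by
  intro v hv l
  exact hV l v (hv.1 l).1 (hv.1 l).2 (fun k => hv.2.1 l k) (hv.2.2.1 l)

theorem inj_mono {P : Finset α} {L : Fin D → ℕ → α} {t t' : ℕ} (h : Inj P L t) (ht : t' ≤ t) :
    Inj P L t' := fun l =>
  ⟨fun m hm => (h l).1 m (hm.trans ht), fun m m' hm hm' => (h l).2 m m' (hm.trans ht) (hm'.trans ht)⟩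

/-- appending one entry to every list -/
def app (L : Fin D → ℕ → α) (t : ℕ) (x : Fin D → α) : Fin D → ℕ → α :=
  fun l m => if m = t + 1 then x l else L l m

theorem app_of_le {L : Fin D → ℕ → α} {t : ℕ} {x : Fin D → α} {l : Fin D} {m : ℕ} (h : m ≤ t) :
    app L t x l m = L l m := by
  unfold app
  rw [if_neg (by omega)]

theorem app_last {L : Fin D → ℕ → α} {t : ℕ} {x : Fin D → α} {l : Fin D} :
    app L t x l (t + 1) = x l := by
  unfold app
  rw [if_pos rfl]

theorem St_app {P : Finset α} {L : Fin D → ℕ → α} {t : ℕ} {x : Fin D → α} {v : Fin D → ℕ}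
    (h : ∀ l, v l ≤ t + 1) : St P (app L t x) v = St P L v :=
  St_congr fun l m hm => app_of_le (by have := h l; omega)

theorem inj_app {P : Finset α} {L : Fin D → ℕ → α} {t : ℕ} {x : Fin D → α} (hI : Inj P L t)
    (hx : ∀ l, x l ∈ P) (hx' : ∀ l m, m ≤ t → L l m ≠ x l) : Inj P (app L t x) (t + 1) := by
  intro l
  constructor
  · intro m hm
    rcases Nat.lt_or_ge t m with h | h
    · have : m = t + 1 := by omega
      rw [this, app_last]; exact hx l
    · rw [app_of_le h]; exact (hI l).1 m h
  · intro m m' hm hm' he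
    rcases Nat.lt_or_ge t m with h | h <;> rcases Nat.lt_or_ge t m' with h' | h'
    · omega
    · have e : m = t + 1 := by omega
      rw [e, app_last, app_of_le h'] at he
      exact absurd he.symm (hx' l m' h')
    · have e : m' = t + 1 := by omega
      rw [e, app_last, app_of_le h] at he
      exact absurd he (hx' l m h)
    · rw [app_of_le h, app_of_le h'] at he
      exact (hI l).2 m m' h h' he

/-- non-private positions after appending -/
theorem NPpos_app {P : Finset α} {L : Fin D → ℕ → α} {t : ℕ} {x : Fin D → α} {J : Finset α}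
    (hI : Inj P L t) (hP : Priv L t J) (l : Fin D) :
    (NPpos (app L t x) (t + 1) l).card ≤ J.card + D + 1 := by
  have hsub : NPpos (app L t x) (t + 1) l ⊆
      ((range (t + 1)).filter (fun i => L l i ∈ J)) ∪
      ((range (t + 1)).filter (fun i => L l i ∈ univ.image x)) ∪ {t + 1} := by
    intro i hi
    unfold NPpos at hi
    rw [mem_filter, mem_range] at hi
    obtain ⟨hi, k, hk, i', hi', he⟩ := hi
    rw [mem_union, mem_union, mem_filter, mem_filter, mem_range, mem_singleton]
    rcases Nat.lt_or_ge t i with h | h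
    · right; omega
    · left
      rw [app_of_le h] at he
      rcases Nat.lt_or_ge t i' with h' | h'
      · right
        refine ⟨by omega, ?_⟩
        have e : i' = t + 1 := by omega
        rw [e, app_last] at he
        rw [← he]
        exact mem_image_of_mem _ (mem_univ k)
      · left
        refine ⟨by omega, ?_⟩
        rw [app_of_le h'] at he
        exact hP l k (Ne.symm hk) i i' h h' he.symm
  refine (card_le_card hsub).trans ((card_union_le _ _).trans ?_)
  have h1 : ((range (t + 1)).filter (fun i => L l i ∈ J)).card ≤ J.card := by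
    apply card_le_card_of_injOn (fun i => L l i)
    · intro i hi
      have := (mem_filter.mp hi).2
      exact this
    · intro i hi j hj he
      have h1 := mem_range.mp (mem_filter.mp hi).1
      have h2 := mem_range.mp (mem_filter.mp hj).1
      exact (hI l).2 i j (by omega) (by omega) he
  have h2 : ((range (t + 1)).filter (fun i => L l i ∈ univ.image x)).card ≤ D := by
    have : ((range (t + 1)).filter (fun i => L l i ∈ univ.image x)).card
        ≤ (univ.image x).card := by
      apply card_le_card_of_injOn (fun i => L l i)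
      · intro i hi
        have := (mem_filter.mp hi).2
        exact this
      · intro i hi j hj he
        have h1 := mem_range.mp (mem_filter.mp hi).1
        have h2 := mem_range.mp (mem_filter.mp hj).1
        exact (hI l).2 i j (by omega) (by omega) he
    refine this.trans (card_image_le.trans ?_)
    simp
  have h3 := card_union_le ((range (t + 1)).filter (fun i => L l i ∈ J))
    ((range (t + 1)).filter (fun i => L l i ∈ univ.image x))
  rw [card_singleton]
  omega

/-- an injective list is at most as long as `P` -/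
theorem inj_card {P : Finset α} {L : Fin D → ℕ → α} {t : ℕ} (h : Inj P L t) (l : Fin D) :
    t + 1 ≤ P.card := by
  have : (range (t + 1)).card ≤ P.card := by
    apply card_le_card_of_injOn (fun i => L l i)
    · intro i hi
      have := mem_range.mp hi
      exact (h l).1 i (by omega)
    · intro i hi j hj he
      have h1 := mem_range.mp hi
      have h2 := mem_range.mp hj
      exact (h l).2 i j (by omega) (by omega) he
  simpa using this

end

end Pool.Agent.Lib.MP_f1849d_co.J
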