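import Pool.Agent.Lib.MP_f1849d_co.J.MainA

/-!
MP_f1849d_co, route J: the induction over the stages.
-/

open Finset
open scoped Classical

set_option linter.unusedSectionVars false

namespace Pool.Agent.Lib.MP_f1849d_co.J

/-- numeric assumptions on the constants -/
structure Num (D Lam y0 : ℕ) (kap eta : ℝ) : Prop where
  hD : 3 ≤ D
  hy : 512 ≤ y0
  hLam : 2049 ≤ Lam
  kap0 : 0 < kap
  eta0 : 0 ≤ eta
  h1 : ∀ y, y0 ≤ y → 64 * D * (y / (256 * D) + y / (64 * D ^ 2 * 260 ^ D) + 2) ≤ y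
  h2 : ∀ y, y0 ≤ y →
    48 * D ^ 2 * (D * (128 * (Lam + 2) * (y + y / 512) + 2)) ^ 3 ≤ (y / (256 * D)) ^ 4
  h3 : ∀ y, y0 ≤ y → 0 < y / (256 * D)
  h4 : ∀ y : ℕ, y0 ≤ y → eta * (D * (128 * (Lam + 2) * (y + y / 512) + 2) : ℕ) ≤ kap * y
  h5 : ∀ y : ℕ, y0 ≤ y → (128 : ℝ) ^ (D + 1) * D ^ 2 * (2 * kap * (1025 * y)) + D + 1 ≤
    (y / (64 * D ^ 2 * 260 ^ D) : ℕ)
  h6 : 64 * (128 : ℝ) ^ D * (2 * kap) ≤ 1

section
variable {α : Type} [DecidableEq α] {D : ℕ} [NeZero D]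

/-- length of the words of scale `r` -/
def Mr (D Lam y0 r : ℕ) : ℕ := D * (TS Lam y0 (r + 1) + 2)

theorem Mr_eq (D Lam y0 r : ℕ) :
    Mr D Lam y0 r = D * (128 * (Lam + 2) * (yS y0 r + yS y0 r / 512) + 2) := rfl

/-- weight of the bad exits of `x`, scale `r`, top `t` -/
noncomputable def Qr (ext : Finset α → Finset α) (U : Finset α → ℝ) (P : Finset α)
    (Lam y0 : ℕ) (L : Fin D → ℕ → α) (r t : ℕ) (x : α) : ℝ :=
  Q ext U P L (128 * Lam * yS y0 r) (128 * yS y0 r) (129 * yS y0 r) t (Mr D Lam y0 r) x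

/-- junk -/
noncomputable def Junk (ext : Finset α → Finset α) (U : Finset α → ℝ) (P : Finset α)
    (Lam y0 : ℕ) (L : Fin D → ℕ → α) (t : ℕ) : Finset α :=
  P.filter fun x => ∃ r, TS Lam y0 r ≤ t ∧
    (yS y0 r : ℝ) ^ D ≤ 8 * Qr ext U P Lam y0 L r (min t (TS Lam y0 (r + 1))) x

/-- the lag -/
noncomputable def lagS (Lam y0 m : ℕ) : ℕ := 130 * yS y0 (rho Lam y0 m) + 1

theorem lag_ge {Lam y0 : ℕ} (hy : 512 ≤ y0) (hLam : 2049 ≤ Lam) (r i : ℕ)
    (hi : 128 * Lam * yS y0 r ≤ i) : 129 * yS y0 r ≤ lagS Lam y0 i := by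
  unfold lagS
  cases r with
  | zero =>
    have h1 := yS_ge y0 (rho Lam y0 i)
    show 129 * y0 ≤ _
    omega
  | succ q =>
    have h1 := yS_ge y0 q
    have h2 : yS y0 (q + 1) = yS y0 q + yS y0 q / 512 := rfl
    have h3 : TS Lam y0 q < 128 * Lam * yS y0 (q + 1) := by
      unfold TS
      rw [h2]
      have h4 : 2 * yS y0 q < Lam * (yS y0 q / 512) := by
        have h5 : 2049 * (yS y0 q / 512) ≤ Lam * (yS y0 q / 512) := Nat.mul_le_mul_right _ hLam
        omega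
      calc 128 * (Lam + 2) * yS y0 q = 128 * (Lam * yS y0 q) + 128 * (2 * yS y0 q) := by ring
        _ < 128 * (Lam * yS y0 q) + 128 * (Lam * (yS y0 q / 512)) := by omega
        _ = 128 * Lam * (yS y0 q + yS y0 q / 512) := by ring
    have h6 := le_rho (Lam := Lam) hy (lt_of_lt_of_le h3 hi)
    have h7 := yS_mono y0 h6
    omega

/-- the invariant -/
structure InvS (ext : Finset α → Finset α) (U : Finset α → ℝ) (P : Finset α) (Dp kap : ℝ)
    (Lam y0 : ℕ) (L : Fin D → ℕ → α) (t : ℕ) : Prop where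
  inj : Inj P L t
  val : Valid ext P L (lagS Lam y0) t
  priv : Priv L t (Junk ext U P Lam y0 L t)
  cost : ∀ r, TS Lam y0 r ≤ t → ∀ u ∈ box D (128 * Lam * yS y0 r) (128 * yS y0 r),
    CostLe ext P Dp (St P L u) (kap * yS y0 r)

/-- the standing hypotheses -/
structure Ctx (ext : Finset α → Finset α) (U : Finset α → ℝ) (P : Finset α) (Dp eta kap : ℝ)
    (Lam y0 : ℕ) : Prop where
  num : Num D Lam y0 kap eta
  geom : Geom D P ext
  pot : Pot Dp P ext U
  cost : ∀ S, S ⊆ P → ∀ k, CostLe ext P Dp S k → U S ≤ k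
  hDp : Dp = D * Real.exp eta
  hDp2 : Dp ≤ 2 * D

variable {ext : Finset α → Finset α} {U : Finset α → ℝ} {P : Finset α} {Dp eta kap : ℝ}
  {Lam y0 : ℕ}

theorem junk_mono (hQM : QMonoStmt) (hC : Ctx (D := D) ext U P Dp eta kap Lam y0)
    {L L' : Fin D → ℕ → α} {t : ℕ} (h : ∀ l m, m ≤ t → L l m = L' l m) :
    Junk ext U P Lam y0 L t ⊆ Junk ext U P Lam y0 L' (t + 1) := by
  intro x hx
  unfold Junk at hx ⊢
  rw [mem_filter] at hx ⊢
  obtain ⟨hxP, r, hr, hq⟩ := hx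
  refine ⟨hxP, r, by omega, hq.trans ?_⟩
  have hs : 0 < 128 * Lam * yS y0 r := by
    have h1 := yS_ge y0 r
    have h2 := hC.num.hy
    have h3 := hC.num.hLam
    have h4 : 0 < yS y0 r := by omega
    have h5 : 0 < Lam := by omega
    positivity
  have := hQM α D P ext U L L' (128 * Lam * yS y0 r) (128 * yS y0 r) (129 * yS y0 r)
    (min t (TS Lam y0 (r + 1))) (min (t + 1) (TS Lam y0 (r + 1))) (Mr D Lam y0 r) hs
    (min_le_min (Nat.le_succ t) le_rfl) (fun l m hm => h l m (hm.trans (min_le_left _ _))) x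
  unfold Qr
  linarith

theorem s_pos (hN : Num D Lam y0 kap eta) (r : ℕ) : 0 < 128 * Lam * yS y0 r := by
  have h1 := yS_ge y0 r
  have h2 := hN.hy
  have h3 := hN.hLam
  have h4 : 0 < yS y0 r := by omega
  have h5 : 0 < Lam := by omega
  positivity

theorem box_lt {s w : ℕ} {u : Fin D → ℕ} (hu : u ∈ box D s w) (l : Fin D) :
    s ≤ u l ∧ u l < s + w := by
  unfold box at hu
  rw [Fintype.mem_piFinset] at hu
  exact mem_Ico.mp (hu l)

theorem eta_M (hN : Num D Lam y0 kap eta) (r : ℕ) :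
    kap * yS y0 r + eta * (Mr D Lam y0 r : ℕ) ≤ 2 * kap * yS y0 r := by
  have := hN.h4 (yS y0 r) (yS_ge y0 r)
  rw [← Mr_eq] at this
  linarith

/-- number of junk elements of one scale -/
theorem junk_scale (hJC : JunkCardStmt) (hC : Ctx (D := D) ext U P Dp eta kap Lam y0)
    {L : Fin D → ℕ → α} {t : ℕ} (hI : Inj P L t) (hV : Valid ext P L (lagS Lam y0) t)
    {r : ℕ} {t' : ℕ} (ht : t' ≤ t)
    (hcost : ∀ u ∈ box D (128 * Lam * yS y0 r) (128 * yS y0 r),
      CostLe ext P Dp (St P L u) (kap * yS y0 r)) :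
    (((P.filter (fun x => (yS y0 r : ℝ) ^ D ≤ 8 * Qr ext U P Lam y0 L r t' x)).card : ℝ)
      ≤ 128 ^ (D + 1) * D ^ 2 * (2 * kap * yS y0 r)) ∧
    (∑ u ∈ box D (128 * Lam * yS y0 r) (128 * yS y0 r), Avg D (Mr D Lam y0 r) (fun om =>
      ∑ j ∈ range (Mr D Lam y0 r),
        if Alive P L (128 * Lam * yS y0 r) (129 * yS y0 r) t' u om j then
          (((Hs U P L u ∅ om j).card : ℝ) - ((pre U P L u ∅ om j).card : ℝ)) else 0)
      ≤ 128 ^ D * (yS y0 r : ℝ) ^ D * (2 * kap * yS y0 r)) := by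
  have hN := hC.num
  have hy := hN.hy
  have hy0 := yS_ge y0 r
  have hVA : ValidAt ext P L (128 * Lam * yS y0 r) (129 * yS y0 r) t' :=
    validAt_of_valid hC.geom hV ht fun i hi _ => lag_ge hy hN.hLam r i hi
  have h := hJC α D P ext U Dp eta L (128 * Lam * yS y0 r) t' (yS y0 r) (Mr D Lam y0 r)
    (kap * yS y0 r) hN.hD hC.geom hC.pot hN.eta0 hC.hDp hC.hDp2 (inj_mono hI ht) (s_pos hN r)
    (nodeExt_of_validAt hVA) (by omega) (fun u hu => hC.cost _ (St_subset P L u) _ (hcost u hu))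
  have hM := eta_M hN r
  refine ⟨h.1.trans ?_, h.2.trans ?_⟩
  · exact mul_le_mul_of_nonneg_left hM (by positivity)
  · exact mul_le_mul_of_nonneg_left hM (by positivity)

/-- number of junk elements -/
theorem junk_card (hJC : JunkCardStmt) (hC : Ctx (D := D) ext U P Dp eta kap Lam y0)
    {L : Fin D → ℕ → α} {t : ℕ} (hI : Inj P L t) (hV : Valid ext P L (lagS Lam y0) t)
    (hcost : ∀ r, TS Lam y0 r ≤ t → ∀ u ∈ box D (128 * Lam * yS y0 r) (128 * yS y0 r),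
      CostLe ext P Dp (St P L u) (kap * yS y0 r))
    {r : ℕ} (ht : t < TS Lam y0 (r + 1)) :
    (Junk ext U P Lam y0 L t).card + D + 1 ≤ yS y0 r / (64 * D ^ 2 * 260 ^ D) := by
  have hN := hC.num
  have hsub : Junk ext U P Lam y0 L t ⊆ ((range (r + 1)).filter (fun r' => TS Lam y0 r' ≤ t)).biUnion
      (fun r' => P.filter (fun x => (yS y0 r' : ℝ) ^ D ≤
        8 * Qr ext U P Lam y0 L r' (min t (TS Lam y0 (r' + 1))) x)) := by
    intro x hx
    unfold Junk at hx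
    rw [mem_filter] at hx
    obtain ⟨hxP, r', hr', hq⟩ := hx
    rw [mem_biUnion]
    refine ⟨r', ?_, ?_⟩
    · rw [mem_filter, mem_range]
      refine ⟨?_, hr'⟩
      by_contra hc
      push Not at hc
      have := (TS_strictMono Lam y0 hN.hy).monotone hc
      omega
    · rw [mem_filter]
      exact ⟨hxP, hq⟩
  have h1 : ((Junk ext U P Lam y0 L t).card : ℝ) ≤
      ∑ r' ∈ (range (r + 1)).filter (fun r' => TS Lam y0 r' ≤ t),
        128 ^ (D + 1) * (D : ℝ) ^ 2 * (2 * kap * yS y0 r') := by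
    calc ((Junk ext U P Lam y0 L t).card : ℝ)
        ≤ ((∑ r' ∈ (range (r + 1)).filter (fun r' => TS Lam y0 r' ≤ t),
          (P.filter (fun x => (yS y0 r' : ℝ) ^ D ≤
            8 * Qr ext U P Lam y0 L r' (min t (TS Lam y0 (r' + 1))) x)).card : ℕ) : ℝ) := by
          exact_mod_cast (card_le_card hsub).trans card_biUnion_le
      _ = ∑ r' ∈ (range (r + 1)).filter (fun r' => TS Lam y0 r' ≤ t),
          ((P.filter (fun x => (yS y0 r' : ℝ) ^ D ≤
            8 * Qr ext U P Lam y0 L r' (min t (TS Lam y0 (r' + 1))) x)).card : ℝ) := by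
          push_cast; rfl
      _ ≤ _ := by
          apply Finset.sum_le_sum
          intro r' hr'
          rw [mem_filter] at hr'
          exact (junk_scale hJC hC hI hV (min_le_left _ _) (hcost r' hr'.2)).1
  have h2 : ∑ r' ∈ (range (r + 1)).filter (fun r' => TS Lam y0 r' ≤ t),
        128 ^ (D + 1) * (D : ℝ) ^ 2 * (2 * kap * yS y0 r') ≤
      ∑ r' ∈ range (r + 1), 128 ^ (D + 1) * (D : ℝ) ^ 2 * (2 * kap * yS y0 r') := by
    apply Finset.sum_le_sum_of_subset_of_nonneg (filter_subset _ _)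
    intro i _ _
    have := hN.kap0
    positivity
  have h3 : ∑ r' ∈ range (r + 1), 128 ^ (D + 1) * (D : ℝ) ^ 2 * (2 * kap * yS y0 r') =
      128 ^ (D + 1) * (D : ℝ) ^ 2 * (2 * kap * (∑ r' ∈ range (r + 1), yS y0 r' : ℕ)) := by
    rw [← Finset.mul_sum]
    congr 1
    rw [← Finset.mul_sum]
    push_cast
    rfl
  have h4 : ((∑ r' ∈ range (r + 1), yS y0 r' : ℕ) : ℝ) ≤ 1025 * yS y0 r := by
    exact_mod_cast sum_yS y0 hN.hy r
  have h5 := hN.h5 (yS y0 r) (yS_ge y0 r)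
  have h6 : 128 ^ (D + 1) * (D : ℝ) ^ 2 * (2 * kap * (∑ r' ∈ range (r + 1), yS y0 r' : ℕ)) ≤
      128 ^ (D + 1) * (D : ℝ) ^ 2 * (2 * kap * (1025 * yS y0 r)) := by
    apply mul_le_mul_of_nonneg_left _ (by positivity)
    apply mul_le_mul_of_nonneg_left h4
    have := hN.kap0
    positivity
  have h7 : ((Junk ext U P Lam y0 L t).card : ℝ) + D + 1 ≤
      (yS y0 r / (64 * D ^ 2 * 260 ^ D) : ℕ) := by
    linarith
  exact_mod_cast h7

end

end Pool.Agent.Lib.MP_f1849d_co.J
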