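import Pool.Agent.Lib.MP_f1849d_co.J.MainB

/-!
MP_f1849d_co, route J: the step of the induction over the stages.
-/

open Finset
open scoped Classical

set_option linter.unusedSectionVars false
set_option maxHeartbeats 1000000

namespace Pool.Agent.Lib.MP_f1849d_co.J

section
variable {α : Type} [DecidableEq α] {D : ℕ} [NeZero D]
variable {ext : Finset α → Finset α} {U : Finset α → ℝ} {P : Finset α} {Dp eta kap : ℝ}
  {Lam y0 : ℕ}

/-- the step of the cost bound, as provided by `CostStmt` -/
def StepH (ext : Finset α → Finset α) (P : Finset α) (Dp kap : ℝ) (D Lam y0 : ℕ) : Prop :=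
  ∀ (L : Fin D → ℕ → α) (y t : ℕ), y0 ≤ y → Inj P L t →
    ∀ beta : ℕ, 8 * beta ≤ y → (∀ l, (NPpos L t l).card ≤ beta) →
      128 * Lam * (y + y / 512) + 128 * (y + y / 512) ≤ t →
      ValidAt ext P L (128 * Lam * y) (129 * y) t →
      (∀ u ∈ box D (128 * Lam * y) (128 * y), CostLe ext P Dp (St P L u) (kap * y)) →
      ∀ u ∈ box D (128 * Lam * (y + y / 512)) (128 * (y + y / 512)),
        CostLe ext P Dp (St P L u) (kap * (y + y / 512 : ℕ))

theorem nppos_le_of_priv {L : Fin D → ℕ → α} {t : ℕ} {J : Finset α}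
    (hI : Inj P L t) (hP : Priv L t J) (l : Fin D) : (NPpos L t l).card ≤ J.card := by
  apply card_le_card_of_injOn (fun i => L l i)
  · intro i hi
    have hi' := mem_filter.mp (show i ∈ NPpos L t l from hi)
    obtain ⟨h1, k, hk, i', h2, h3⟩ := hi'
    have h4 := mem_range.mp h1
    exact hP l k (Ne.symm hk) i i' (by omega) h2 h3.symm
  · intro i hi j hj he
    have h1 := mem_range.mp (mem_filter.mp (show i ∈ NPpos L t l from hi)).1
    have h2 := mem_range.mp (mem_filter.mp (show j ∈ NPpos L t l from hj)).1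
    exact (hI l).2 i j (by omega) (by omega) he

theorem step (hJC : JunkCardStmt) (hQM : QMonoStmt) (hZ2 : Z2Stmt) (hZ3 : Z3Stmt) (hZ1 : Z1Stmt)
    (hC : Ctx (D := D) ext U P Dp eta kap Lam y0) (hS : StepH ext P Dp kap D Lam y0)
    {L : Fin D → ℕ → α} {t : ℕ} (ht : TS Lam y0 0 ≤ t)
    (hInv : InvS ext U P Dp kap Lam y0 L t) :
    ∃ L' : Fin D → ℕ → α, InvS ext U P Dp kap Lam y0 L' (t + 1) := by
  have hN := hC.num
  obtain ⟨r, hr1, hr2⟩ := exists_scale (Lam := Lam) hN.hy ht
  set y := yS y0 r with hydef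
  have hy0 : y0 ≤ y := yS_ge y0 r
  have hy512 : 512 ≤ y := hN.hy.trans hy0
  set s := 128 * Lam * y with hs
  set J := Junk ext U P Lam y0 L t with hJ
  set M := Mr D Lam y0 r with hM
  set beta := y / (64 * D ^ 2 * 260 ^ D) with hbeta
  set b := y / (256 * D) with hb
  have hspos : 0 < s := s_pos hN r
  have hTS : TS Lam y0 r = s + 256 * y := by
    unfold TS
    rw [hs, ← hydef]; ring
  have hst : s + 256 * y ≤ t := by rw [← hTS]; exact hr1
  have hcard := junk_card hJC hC hInv.inj hInv.val hInv.cost hr2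
  rw [← hydef, ← hbeta, ← hJ] at hcard
  have hJb : J.card ≤ beta := by omega
  have hbeta1 : 64 * D ^ 2 * 260 ^ D * beta ≤ y := Nat.mul_div_le _ _
  have hn1 := hN.h1 y hy0
  rw [← hb, ← hbeta] at hn1
  have hn2 := hN.h2 y hy0
  have hn3 := hN.h3 y hy0
  rw [← hb] at hn2 hn3
  have hD := hN.hD
  have hMeq : M = D * (TS Lam y0 (r + 1) + 2) := rfl
  have hn2' : 48 * D ^ 2 * M ^ 3 ≤ b ^ 4 := hn2
  have h16 : 16 * (b + beta + 2) ≤ y := by
    have h0 : 16 ≤ 64 * D := by omega
    exact (Nat.mul_le_mul_right _ h0).trans hn1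
  have hJy : J.card < y := by
    have : beta ≤ y := Nat.div_le_self _ _
    omega
  have hMt1 : D * (t + 1) ≤ M := by
    rw [hMeq]; exact Nat.mul_le_mul_left _ (by omega)
  have hMt2 : D * (t + 2) ≤ M := by
    rw [hMeq]; exact Nat.mul_le_mul_left _ (by omega)
  -- nonjunk elements have small Q
  have hQ : ∀ x ∈ P, x ∉ J → 8 * Q ext U P L s (128 * y) (129 * y) t M x < (y : ℝ) ^ D := by
    intro x hxP hxJ
    by_contra hc
    push Not at hc
    apply hxJ
    rw [hJ]
    unfold Junk
    rw [mem_filter]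
    refine ⟨hxP, r, hr1, ?_⟩
    rw [min_eq_left hr2.le]
    exact hc
  -- exactness
  have hex : ∀ p : Fin D → ℕ, (∀ l, t ≤ p l + 130 * y ∧ p l + 8 * y ≤ t ∧ L l (p l) ∉ J) →
      ext (St P L p \ J) ⊆ ptrs L p :=
    hZ2 α D P ext U L s t y b beta M J hD hC.geom hInv.inj hspos h16 hMt1 (by omega) hbeta1
      hn2' hn3 hJb hInv.priv hQ
  -- extension
  have hext := hZ3 α D P ext L t y J hD hC.geom hInv.inj (by omega) hJy hInv.priv hex
  choose x hx using hext
  set L' := app L t x with hL'
  have hxSt : ∀ l, x l ∈ St P L (corner l (t + 1) (130 * y + 1)) := fun l =>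
    hC.geom.sub _ (St_subset P L _) (hx l).1
  have hxP : ∀ l, x l ∈ P := fun l => St_subset P L _ (hxSt l)
  have hxne : ∀ l m, m ≤ t → L l m ≠ x l := by
    intro l m hm he
    have h1 := hxSt l
    unfold St at h1
    rw [mem_sdiff] at h1
    apply h1.2
    rw [mem_Rem']
    refine ⟨l, m, ?_, he⟩
    unfold corner
    rw [if_pos rfl]
    omega
  have hInj' : Inj P L' (t + 1) := inj_app hInv.inj hxP hxne
  have hagree : ∀ l m, m ≤ t → L l m = L' l m := fun l m hm => (app_of_le hm).symm
  have hSt : ∀ v : Fin D → ℕ, (∀ l, v l ≤ t + 1) → St P L' v = St P L v := fun v hv => St_app hv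
  have hrho : rho Lam y0 (t + 1) = r := rho_eq hN.hy (by omega) (by omega)
  have hlag : lagS Lam y0 (t + 1) = 130 * y + 1 := by
    unfold lagS
    rw [hrho]
  have hVal' : Valid ext P L' (lagS Lam y0) (t + 1) := by
    intro l m hm hmem
    have hco : ∀ k, corner l m (lagS Lam y0 m) k ≤ t + 1 := by
      intro k
      unfold corner
      split_ifs <;> omega
    rw [hSt _ hco] at hmem ⊢
    rcases Nat.lt_or_ge t m with h | h
    · have e : m = t + 1 := by omega
      subst e
      rw [hL', app_last, hlag]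
      exact (hx l).1
    · rw [hL', app_of_le h] at hmem ⊢
      exact hInv.val l m h hmem
  -- the new junk set
  set J' := Junk ext U P Lam y0 L' (t + 1) with hJ'
  have hJJ' : J ⊆ J' := junk_mono hQM hC hagree
  have hNP : ∀ l, (NPpos L' (t + 1) l).card ≤ beta := by
    intro l
    have := NPpos_app (x := x) hInv.inj hInv.priv l
    exact this.trans hcard
  have hcost' : ∀ r', TS Lam y0 r' ≤ t → ∀ u ∈ box D (128 * Lam * yS y0 r') (128 * yS y0 r'),
      CostLe ext P Dp (St P L' u) (kap * yS y0 r') := by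
    intro r' hr' u hu
    rw [hSt u]
    · exact hInv.cost r' hr' u hu
    · intro l
      have h1 := (box_lt hu l).2
      have h2 : TS Lam y0 r' = 128 * Lam * yS y0 r' + 256 * yS y0 r' := by unfold TS; ring
      omega
  have hharv : (64 * ∑ u ∈ box D s (128 * y), Avg D M (fun om => ∑ j ∈ range M,
        if Alive P L' s (129 * y) (t + 1) u om j then
          (((Hs U P L' u ∅ om j).card : ℝ) - ((pre U P L' u ∅ om j).card : ℝ)) else 0)
      ≤ (y : ℝ) ^ (D + 1)) := by
    have h1 := (junk_scale (r := r) hJC hC hInj' hVal' (le_refl (t + 1)) (hcost' r hr1)).2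
    have h2 : 64 * (128 ^ D * (y : ℝ) ^ D * (2 * kap * y)) ≤ (y : ℝ) ^ (D + 1) := by
      have h3 := hN.h6
      have h4 : (0 : ℝ) ≤ (y : ℝ) ^ (D + 1) := by positivity
      calc 64 * (128 ^ D * (y : ℝ) ^ D * (2 * kap * y))
          = (64 * (128 : ℝ) ^ D * (2 * kap)) * (y : ℝ) ^ (D + 1) := by ring
        _ ≤ 1 * (y : ℝ) ^ (D + 1) := mul_le_mul_of_nonneg_right h3 h4
        _ = _ := one_mul _
    refine le_trans ?_ h2
    exact mul_le_mul_of_nonneg_left h1 (by norm_num)
  have hex' : ∀ p : Fin D → ℕ, (∀ l, t ≤ p l + 130 * y ∧ p l + 8 * y ≤ t ∧ L' l (p l) ∉ J) →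
      ext (St P L' p \ J) ⊆ ptrs L' p := by
    intro p hp
    have hpt : ∀ l, p l ≤ t := fun l => by have := (hp l).2.1; omega
    have e1 : St P L' p = St P L p := hSt p fun l => (hpt l).trans (Nat.le_succ t)
    have e2 : ptrs L' p = ptrs L p := by
      unfold ptrs
      apply Finset.image_congr
      intro l _
      exact app_of_le (hpt l)
    rw [e1, e2]
    apply hex p
    intro l
    refine ⟨(hp l).1, (hp l).2.1, ?_⟩
    have := (hp l).2.2
    rw [hL', app_of_le (hpt l)] at this
    exact this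
  have hPriv' : Priv L' t J := by
    intro l k hlk i i' hi hi' he
    rw [hL', app_of_le hi, app_of_le hi'] at he
    rw [hL', app_of_le hi]
    exact hInv.priv l k hlk i i' hi hi' he
  -- newest double entries are junk
  have hnew : ∀ (a b' : Fin D) (j : ℕ), a ≠ b' → j ≤ t + 1 → L' a (t + 1) = L' b' j →
      L' a (t + 1) ∈ J' := by
    intro a b' j hab hj he
    by_contra hcon
    have hxa : L' a (t + 1) = x a := app_last
    have hxJ : x a ∉ J := by
      intro h
      apply hcon
      rw [hxa]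
      exact hJJ' h
    have hpos : ∀ k i, i ≤ t + 1 → L' k i = L' a (t + 1) → t < i + 8 * y := by
      intro k i hi he'
      rcases Nat.lt_or_ge t i with h | h
      · omega
      · rw [hL', app_of_le h, app_last] at he'
        rcases (hx a).2 with h' | h'
        · exact absurd h' hxJ
        · exact h' k i h he'
    have := hZ1 α D P ext U L' s t y b beta M J hD hC.geom hInj' hspos hn1 hMt2 (by omega)
      hbeta1 hn2' hn3 hJb hPriv' hNP hex' hharv a b' j hab hj he (by rw [hxa]; exact hxJ) hpos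
    apply hcon
    rw [hJ']
    unfold Junk
    rw [mem_filter]
    refine ⟨by rw [hxa]; exact hxP a, r, by omega, ?_⟩
    rw [min_eq_left (by omega)]
    exact this
  have hPrivN : Priv L' (t + 1) J' := by
    intro l k hlk i i' hi hi' he
    rcases Nat.lt_or_ge t i with h | h
    · have e : i = t + 1 := by omega
      subst e
      exact hnew l k i' hlk hi' he
    · rcases Nat.lt_or_ge t i' with h' | h'
      · have e : i' = t + 1 := by omega
        subst e
        rw [he]
        exact hnew k l i (Ne.symm hlk) hi he.symm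
      · apply hJJ'
        exact hPriv' l k hlk i i' h h' he
  refine ⟨L', hInj', hVal', hPrivN, ?_⟩
  intro r' hr' u hu
  rcases Nat.lt_or_ge t (TS Lam y0 r') with h | h
  · have e : TS Lam y0 r' = t + 1 := by omega
    have hmono := TS_strictMono Lam y0 hN.hy
    have e' : r' = r + 1 := by
      have h1 : r < r' := by
        rw [← hmono.lt_iff_lt]; omega
      have h2 : ¬ (r + 1 < r') := by
        rw [← hmono.lt_iff_lt]; omega
      omega
    subst e'
    have hVA : ValidAt ext P L' (128 * Lam * y) (129 * y) (t + 1) :=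
      validAt_of_valid hC.geom hVal' le_rfl fun i hi _ => lag_ge hN.hy hN.hLam r i hi
    have hyr : yS y0 (r + 1) = y + y / 512 := rfl
    have hTS' : 128 * Lam * (y + y / 512) + 128 * (y + y / 512) ≤ t + 1 := by
      rw [← e]
      have h3 : TS Lam y0 (r + 1) = 128 * Lam * (y + y / 512) + 256 * (y + y / 512) := by
        unfold TS
        rw [hyr]
        ring
      rw [h3]
      omega
    have hb8 : 8 * beta ≤ y := by
      have h1 : 8 ≤ 64 * D ^ 2 * 260 ^ D := by
        have h2 : 1 ≤ D ^ 2 := Nat.one_le_pow _ _ (by omega)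
        have h3 : 1 ≤ 260 ^ D := Nat.one_le_pow _ _ (by norm_num)
        calc 8 ≤ 64 * 1 * 1 := by norm_num
          _ ≤ 64 * D ^ 2 * 260 ^ D := Nat.mul_le_mul (Nat.mul_le_mul_left _ h2) h3
      exact (Nat.mul_le_mul_right _ h1).trans hbeta1
    have := hS L' y (t + 1) hy0 hInj' beta hb8 hNP hTS' hVA (hcost' r hr1) u (by
      rw [← hyr]; exact hu)
    rw [hyr]
    exact this
  · exact hcost' r' h u hu

/-- all stages -/
theorem all_stages (hJC : JunkCardStmt) (hQM : QMonoStmt) (hZ2 : Z2Stmt) (hZ3 : Z3Stmt)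
    (hZ1 : Z1Stmt) (hC : Ctx (D := D) ext U P Dp eta kap Lam y0)
    (hS : StepH ext P Dp kap D Lam y0) {L : Fin D → ℕ → α}
    (hInv : InvS ext U P Dp kap Lam y0 L (TS Lam y0 0)) (t : ℕ) (ht : TS Lam y0 0 ≤ t) :
    ∃ L' : Fin D → ℕ → α, InvS ext U P Dp kap Lam y0 L' t := by
  induction t, ht using Nat.le_induction with
  | base => exact ⟨L, hInv⟩
  | succ t ht ih =>
    obtain ⟨L', hL'⟩ := ih
    exact step hJC hQM hZ2 hZ3 hZ1 hC hS ht hL'

/-- contradiction -/
theorem contra (hJC : JunkCardStmt) (hQM : QMonoStmt) (hZ2 : Z2Stmt) (hZ3 : Z3Stmt)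
    (hZ1 : Z1Stmt) (hC : Ctx (D := D) ext U P Dp eta kap Lam y0)
    (hS : StepH ext P Dp kap D Lam y0) {L : Fin D → ℕ → α}
    (hInv : InvS ext U P Dp kap Lam y0 L (TS Lam y0 0)) : False := by
  obtain ⟨L', hL'⟩ := all_stages hJC hQM hZ2 hZ3 hZ1 hC hS hInv
    (max (TS Lam y0 0) P.card) (le_max_left _ _)
  have h := inj_card hL'.inj (0 : Fin D)
  have h2 := le_max_right (TS Lam y0 0) P.card
  omega

/-- the invariant at the perfect start -/
theorem base (hC : Ctx (D := D) ext U P Dp eta kap Lam y0) {L : Fin D → ℕ → α}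
    (hI : Inj P L (TS Lam y0 0))
    (hE : ∀ l m, m ≤ TS Lam y0 0 → L l m ∈ ext (St P L (fun k => if k = l then m else 0)))
    (hd : ∀ l k, l ≠ k → ∀ i i', i ≤ TS Lam y0 0 → i' ≤ TS Lam y0 0 → L l i ≠ L k i')
    (hcost : ∀ u ∈ box D (128 * Lam * y0) (128 * y0), CostLe ext P Dp (St P L u) (kap * y0)) :
    InvS ext U P Dp kap Lam y0 L (TS Lam y0 0) := by
  have hN := hC.num
  refine ⟨hI, ?_, ?_, ?_⟩
  · intro l m hm hmem
    have hle : ∀ k, (fun k => if k = l then m else 0) k ≤ corner l m (lagS Lam y0 m) k := by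
      intro k
      unfold corner
      by_cases h : k = l
      · simp [h]
      · simp [h]
    exact hC.geom.mono _ _ (St_subset P L _) (St_anti' hle) _ (hE l m hm) hmem
  · intro l k hlk i i' hi hi' he
    exact absurd he (hd l k hlk i i' hi hi')
  · intro r hr u hu
    have hmono := TS_strictMono Lam y0 hN.hy
    have e : r = 0 := by
      by_contra h
      have : TS Lam y0 0 < TS Lam y0 r := hmono (Nat.pos_of_ne_zero h)
      omega
    subst e
    exact hcost u hu

end

end Pool.Agent.Lib.MP_f1849d_co.J
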