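import Pool.Agent.Lib.MP_f1849d_co.J.MainC

/-!
MP_f1849d_co, route J: the choice of the constants and the main theorem.
-/

open Finset
open scoped Classical

set_option linter.unusedSectionVars false

namespace Pool.Agent.Lib.MP_f1849d_co.J

/-- numeric assumptions hold for suitable constants -/
theorem num_exists (D Lam y0 : ℕ) (kap eta : ℝ) (hD : 3 ≤ D) (hLam : 2049 ≤ Lam)
    (hkap : kap = 1 / (128 ^ (D + 1) * (D : ℝ) ^ 2 * 2050 * 8 * (64 * (D : ℝ) ^ 2 * 260 ^ D)))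
    (hy1 : 256 * D * (48 * D ^ 2 * (258 * D * (Lam + 2) * (512 * D)) ^ 3 + 1) ≤ y0)
    (hy2 : 2 * (64 * D ^ 2 * 260 ^ D) * (D + 2) ≤ y0)
    (heta0 : 0 ≤ eta) (heta : eta * (258 * D * (Lam + 2)) ≤ kap) :
    Num D Lam y0 kap eta := by
  have hD0 : 0 < D := by omega
  have hDr : (0 : ℝ) < D := by exact_mod_cast hD0
  have hk0 : 0 < kap := by rw [hkap]; positivity
  have hcb : 256 * D ≤ 64 * D ^ 2 * 260 ^ D := by
    have h1 : 260 ≤ 260 ^ D := Nat.le_self_pow hD0.ne' 260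
    have h2 : D ≤ D ^ 2 := Nat.le_self_pow (by norm_num) D
    calc 256 * D ≤ 64 * D * 260 := by nlinarith
      _ ≤ 64 * D ^ 2 * 260 ^ D := Nat.mul_le_mul (Nat.mul_le_mul_left _ h2) h1
  have h512 : 512 * D ≤ y0 := by
    have : 1 ≤ 48 * D ^ 2 * (258 * D * (Lam + 2) * (512 * D)) ^ 3 := Nat.succ_le_of_lt (by positivity)
    calc 512 * D = 256 * D * (1 + 1) := by ring
      _ ≤ 256 * D * (48 * D ^ 2 * (258 * D * (Lam + 2) * (512 * D)) ^ 3 + 1) :=
        Nat.mul_le_mul_left _ (by omega)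
      _ ≤ y0 := hy1
  have hM : ∀ y, y0 ≤ y → D * (128 * (Lam + 2) * (y + y / 512) + 2) ≤ 258 * D * (Lam + 2) * y := by
    intro y hy
    have h1 : y / 512 ≤ y := Nat.div_le_self _ _
    have hy1 : 1 ≤ y := by omega
    have h2 : 2 ≤ 2 * (Lam + 2) * y := by
      calc 2 = 2 * 1 * 1 := by norm_num
        _ ≤ 2 * (Lam + 2) * y := Nat.mul_le_mul (Nat.mul_le_mul_left _ (by omega)) hy1
    calc D * (128 * (Lam + 2) * (y + y / 512) + 2)
        ≤ D * (128 * (Lam + 2) * (y + y) + 2 * (Lam + 2) * y) :=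
          Nat.mul_le_mul_left _ (Nat.add_le_add (Nat.mul_le_mul_left _ (by omega)) h2)
      _ = 258 * D * (Lam + 2) * y := by ring
  refine ⟨hD, by omega, hLam, hk0, heta0, ?_, ?_, ?_, ?_, ?_, ?_⟩
  · intro y hy
    have h1 : 256 * D * (y / (256 * D)) ≤ y := Nat.mul_div_le _ _
    have h2 : (64 * D ^ 2 * 260 ^ D) * (y / (64 * D ^ 2 * 260 ^ D)) ≤ y := Nat.mul_div_le _ _
    have h3 : 256 * D * (y / (64 * D ^ 2 * 260 ^ D)) ≤ y :=
      (Nat.mul_le_mul_right _ hcb).trans h2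
    have e : 4 * (64 * D * (y / (256 * D) + y / (64 * D ^ 2 * 260 ^ D) + 2)) =
        256 * D * (y / (256 * D)) + 256 * D * (y / (64 * D ^ 2 * 260 ^ D)) + 512 * D := by ring
    omega
  · intro y hy
    set q := y / (256 * D) with hq
    have hq1 : 48 * D ^ 2 * (258 * D * (Lam + 2) * (512 * D)) ^ 3 + 1 ≤ q := by
      rw [hq, Nat.le_div_iff_mul_le (by omega)]
      calc (48 * D ^ 2 * (258 * D * (Lam + 2) * (512 * D)) ^ 3 + 1) * (256 * D)
          = 256 * D * (48 * D ^ 2 * (258 * D * (Lam + 2) * (512 * D)) ^ 3 + 1) := by ring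
        _ ≤ y0 := hy1
        _ ≤ y := hy
    have hyq : y ≤ 512 * D * q := by
      have h1 : y < 256 * D * (q + 1) := by
        rw [hq]; exact Nat.lt_mul_div_succ y (by omega)
      have h2 : 256 * D * (q + 1) ≤ 512 * D * q := by
        have h3 : 1 ≤ q := by omega
        calc 256 * D * (q + 1) ≤ 256 * D * (q + q) := Nat.mul_le_mul_left _ (by omega)
          _ = 512 * D * q := by ring
      omega
    calc 48 * D ^ 2 * (D * (128 * (Lam + 2) * (y + y / 512) + 2)) ^ 3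
        ≤ 48 * D ^ 2 * (258 * D * (Lam + 2) * y) ^ 3 :=
          Nat.mul_le_mul_left _ (Nat.pow_le_pow_left (hM y hy) 3)
      _ ≤ 48 * D ^ 2 * (258 * D * (Lam + 2) * (512 * D * q)) ^ 3 :=
          Nat.mul_le_mul_left _ (Nat.pow_le_pow_left (Nat.mul_le_mul_left _ hyq) 3)
      _ = (48 * D ^ 2 * (258 * D * (Lam + 2) * (512 * D)) ^ 3) * q ^ 3 := by ring
      _ ≤ q * q ^ 3 := Nat.mul_le_mul_right _ (by omega)
      _ = q ^ 4 := by ring
  · intro y hy
    exact Nat.div_pos (by omega) (by omega)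
  · intro y hy
    have h1 : ((D * (128 * (Lam + 2) * (y + y / 512) + 2) : ℕ) : ℝ) ≤
        ((258 * D * (Lam + 2) * y : ℕ) : ℝ) := by exact_mod_cast hM y hy
    calc eta * ((D * (128 * (Lam + 2) * (y + y / 512) + 2) : ℕ) : ℝ)
        ≤ eta * ((258 * D * (Lam + 2) * y : ℕ) : ℝ) := mul_le_mul_of_nonneg_left h1 heta0
      _ = (eta * (258 * D * (Lam + 2))) * y := by push_cast; ring
      _ ≤ kap * y := mul_le_mul_of_nonneg_right heta (by positivity)
  · intro y hy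
    set c : ℕ := 64 * D ^ 2 * 260 ^ D with hc
    have hc0 : 0 < c := by rw [hc]; positivity
    have hcr : (0 : ℝ) < c := by exact_mod_cast hc0
    have hcc : (c : ℝ) = 64 * (D : ℝ) ^ 2 * 260 ^ D := by rw [hc]; push_cast; ring
    have e1 : (128 : ℝ) ^ (D + 1) * D ^ 2 * (2 * kap * (1025 * y)) = y / (8 * c) := by
      rw [hkap, ← hcc]
      field_simp
      ring
    have h2 : (y : ℝ) / c - 1 ≤ ((y / c : ℕ) : ℝ) := by
      have h3 : y < c * (y / c + 1) := Nat.lt_mul_div_succ y hc0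
      have h4 : (y : ℝ) < c * (((y / c : ℕ) : ℝ) + 1) := by exact_mod_cast h3
      have h5 : (y : ℝ) / c < ((y / c : ℕ) : ℝ) + 1 := by
        rw [div_lt_iff₀ hcr]; linarith
      linarith
    have h6 : (2 * c * (D + 2) : ℝ) ≤ y := by exact_mod_cast hy2.trans hy
    have h7 : 2 * ((D : ℝ) + 2) ≤ y / c := by
      rw [le_div_iff₀ hcr]; linarith
    have h8 : (y : ℝ) / (8 * c) = (y / c) / 8 := by field_simp
    rw [e1, h8]
    linarith
  · have e2 : 64 * (128 : ℝ) ^ D * (2 * kap) =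
        1 / ((D : ℝ) ^ 2 * 2050 * 8 * (64 * (D : ℝ) ^ 2 * 260 ^ D)) := by
      rw [hkap, pow_succ]
      field_simp
      ring
    rw [e2, div_le_one (by positivity)]
    have h1 : (1 : ℝ) ≤ (D : ℝ) ^ 2 := one_le_pow₀ (by exact_mod_cast hD0)
    have h2 : (1 : ℝ) ≤ (260 : ℝ) ^ D := one_le_pow₀ (by norm_num)
    nlinarith [mul_le_mul h1 h2 (by norm_num) (by positivity), mul_pos (by positivity : (0:ℝ) < (D : ℝ) ^ 2) (by positivity : (0 : ℝ) < (D : ℝ) ^ 2 * 260 ^ D)]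

/-- **Main theorem**, from the modules. -/
theorem main (hCount : CountStmt) (hPot : PotStmt) (hJC : JunkCardStmt) (hQM : QMonoStmt)
    (hZ2 : Z2Stmt) (hZ3 : Z3Stmt) (hZ1 : Z1Stmt) (hCost : CostStmt) (hStart : StartStmt) :
    MainStmt := by
  intro D hD
  haveI : NeZero D := ⟨by omega⟩
  have hD0 : 0 < D := by omega
  have hDr : (0 : ℝ) < D := by exact_mod_cast hD0
  obtain ⟨kap, hkap⟩ : ∃ kap : ℝ, kap =
    1 / (128 ^ (D + 1) * (D : ℝ) ^ 2 * 2050 * 8 * (64 * (D : ℝ) ^ 2 * 260 ^ D)) := ⟨_, rfl⟩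
  have hk0 : 0 < kap := by rw [hkap]; positivity
  obtain ⟨Lam0, hLam0⟩ := hCost D kap hD hk0
  obtain ⟨Lam, hLam, hLam2⟩ : ∃ Lam : ℕ, 2049 ≤ Lam ∧ Lam0 ≤ Lam :=
    ⟨max 2049 Lam0, le_max_left _ _, le_max_right _ _⟩
  obtain ⟨yc, etac, hetac, hCst⟩ := hLam0 Lam hLam2
  obtain ⟨y0, hy1, hy2, hyc⟩ : ∃ y0 : ℕ,
      256 * D * (48 * D ^ 2 * (258 * D * (Lam + 2) * (512 * D)) ^ 3 + 1) ≤ y0 ∧
      2 * (64 * D ^ 2 * 260 ^ D) * (D + 2) ≤ y0 ∧ yc ≤ y0 :=
    ⟨max (256 * D * (48 * D ^ 2 * (258 * D * (Lam + 2) * (512 * D)) ^ 3 + 1))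
      (max (2 * (64 * D ^ 2 * 260 ^ D) * (D + 2)) yc), le_max_left _ _,
      (le_max_left _ _).trans (le_max_right _ _), (le_max_right _ _).trans (le_max_right _ _)⟩
  obtain ⟨etas, hetas, hSt⟩ := hStart D (TS Lam y0 0) hD
  obtain ⟨eta, heta0, heta1, heta2, heta3, heta4⟩ : ∃ eta : ℝ, 0 < eta ∧ eta ≤ etac ∧
      eta ≤ etas ∧ eta * (258 * D * (Lam + 2)) ≤ kap ∧ eta ≤ 1 / 2 := by
    refine ⟨min (min etac etas) (min (kap / (258 * D * (Lam + 2))) (1 / 2)), ?_, ?_, ?_, ?_, ?_⟩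
    · exact lt_min (lt_min hetac hetas) (lt_min (by positivity) (by norm_num))
    · exact (min_le_left _ _).trans (min_le_left _ _)
    · exact (min_le_left _ _).trans (min_le_right _ _)
    · have : min (min etac etas) (min (kap / (258 * D * (Lam + 2))) (1 / 2)) ≤
          kap / (258 * D * (Lam + 2)) := (min_le_right _ _).trans (min_le_left _ _)
      rw [← le_div_iff₀ (by positivity)]
      exact this
    · exact (min_le_right _ _).trans (min_le_right _ _)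
  refine ⟨eta, D * (TS Lam y0 0 + 3), heta0, ?_⟩
  intro α _ P ext hG hcard hRec
  have hN := num_exists D Lam y0 kap eta hD hLam hkap hy1 hy2 heta0.le heta3
  have hDp0 : 0 < (D : ℝ) * Real.exp eta := by positivity
  obtain ⟨U, hU, hUc⟩ := hPot α D P ext (D * Real.exp eta) hG hDp0 hRec
  have hexp : Real.exp eta ≤ 2 := by
    have h1 : Real.exp eta ≤ Real.exp (1 / 2) := Real.exp_le_exp.mpr heta4
    have h2 : Real.exp (1 / 2) ^ 2 = Real.exp 1 := by
      rw [← Real.exp_nat_mul]; norm_num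
    have h3 : Real.exp 1 < 2.7182818286 := Real.exp_one_lt_d9
    have h4 : 0 < Real.exp (1 / 2) := Real.exp_pos _
    nlinarith
  have hUP : U P ≤ 0 := by
    apply hUc P (Subset.refl _) 0
    unfold CostLe
    rw [(hCount α D P ext hG).2.2.2.1]
    simp
  obtain ⟨L, hI, hE, hd⟩ := hSt α P ext U (D * Real.exp eta) eta hG hU hUP heta0.le heta2 rfl hcard
  have hC : Ctx (D := D) ext U P (D * Real.exp eta) eta kap Lam y0 :=
    ⟨hN, hG, hU, hUc, rfl, by nlinarith⟩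
  have hS : StepH ext P (D * Real.exp eta) kap D Lam y0 := by
    intro L y t hy hI
    exact (hCst α P ext L (D * Real.exp eta) eta y t hG heta0.le heta1 rfl (hyc.trans hy) hI).2
  have hB := (hCst α P ext L (D * Real.exp eta) eta y0 (TS Lam y0 0) hG heta0.le heta1 rfl hyc
    hI).1 (by
      have : TS Lam y0 0 = 128 * Lam * y0 + 256 * y0 := by
        show 128 * (Lam + 2) * y0 = _
        ring
      omega) hd hE
  exact contra hJC hQM hZ2 hZ3 hZ1 hC hS (base hC hI hE hd hB)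

end Pool.Agent.Lib.MP_f1849d_co.J
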