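import Pool.Agent.Lib.MP_f1849d_co.J.Paths
import Pool.Agent.Lib.MP_f1849d_co.J.Spec

/-!
MP_f1849d_co, route J: modules Nodes and Inverse (adapters from `Paths.lean`).
-/

open Finset
open scoped Classical

namespace Pool.Agent.Lib.MP_f1849d_co.J

open Pa

theorem nodesStmt : NodesStmt := by
  intro α _ D P L s W t hI hs v hv l
  refine ⟨fun k hk => nxt_ne hk v, fun h0 => ?_, fun i h1 h2 h3 => ?_⟩
  · have hlt := lt_nxt_of_pos h0
    refine ⟨hlt, St_nxt hlt, fun ht i h1 h2 => ?_⟩
    have h3 := skip_mem h1 h2
    rw [mem_insert, mem_Rem] at h3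
    rcases h3 with h3 | ⟨k, i', hi', h3⟩
    · have := (hI l).2 i (v l) (by omega) (hv.le_t l) h3
      omega
    · by_cases hk : k = l
      · subst hk
        have := (hI k).2 i' i (by have := hv.le_t k; omega) (by omega) h3
        omega
      · exact ⟨k, hk, i', hi', h3⟩
  · have hcand : L l i ∉ insert (L l (v l)) (Rem L v) := by
      intro hmem
      rw [mem_insert, mem_Rem] at hmem
      rcases hmem with e | ⟨k, i', hi', e⟩
      · have := (hI l).2 i (v l) h2 (hv.le_t l) e
        omega
      · by_cases hk : k = l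
        · subst hk
          have := (hI k).2 i' i (by omega) h2 e
          omega
        · exact h3 k hk i' hi' e
    have hn := nxt_le h1 hcand
    exact ⟨by omega, hn.2⟩

theorem inverseStmt : InverseStmt := by
  intro α _ D P L s W t hI hs v1 v2 h1 h2 l he h0 ht
  exact nxt_inj hI h1.le_t h2.le_t h1.mem h2.mem (lt_nxt_of_pos h0)
    (lt_nxt_of_pos (by rw [← he]; exact h0)) he

end Pool.Agent.Lib.MP_f1849d_co.J
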