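import Pool.Agent.Lib.MP_f1849d_co.J.Count

/-!
MP_f1849d_co, route J: from a record to a potential.
-/

open Finset
open scoped Classical

namespace Pool.Agent.Lib.MP_f1849d_co.J

theorem potU_of_count (hCount : CountStmt) : PotStmt := by
  intro α _ D P ext Dp hG hDp hRec
  obtain ⟨-, hrec, hpos, -, -, hNg⟩ := hCount α D P ext hG
  have hgpos : ∀ S, S ⊆ P → (0 : ℝ) < g ext S := fun S hS => by exact_mod_cast hpos S hS
  have hgP : (0 : ℝ) < g ext P := hgpos P (Subset.refl _)
  refine ⟨fun S => Real.log (g ext S) - S.card * Real.log Dp -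
    (Real.log (g ext P) - P.card * Real.log Dp), ⟨?_, ?_⟩, ?_⟩
  · intro S hS
    have h1 := hRec S hS
    have hc := card_le_card hS
    have h2 : Real.log (g ext P) ≤ Real.log (g ext S) + (P.card - S.card : ℕ) * Real.log Dp := by
      rw [← Real.log_pow, ← Real.log_mul (hgpos S hS).ne' (pow_pos hDp _).ne']
      exact Real.log_le_log hgP h1
    rw [Nat.cast_sub hc] at h2
    show 0 ≤ _
    linarith
  · intro S hS hne
    have h1 := hrec S hS hne
    set C : ℝ := Real.log (g ext P) - P.card * Real.log Dp with hC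
    have hexp : ∀ T, T ⊆ P → Real.exp (Real.log (g ext T) - T.card * Real.log Dp - C) =
        g ext T * (Dp ^ T.card)⁻¹ * Real.exp (-C) := by
      intro T hT
      rw [sub_eq_add_neg, Real.exp_add, sub_eq_add_neg, Real.exp_add, Real.exp_log (hgpos T hT),
        Real.exp_neg, ← Real.log_pow, Real.exp_log (pow_pos hDp _)]
    show Dp * Real.exp (Real.log (g ext S) - S.card * Real.log Dp - C) =
      ∑ e ∈ ext S, Real.exp (Real.log (g ext (S.erase e)) - (S.erase e).card * Real.log Dp - C)
    rw [hexp S hS]
    have h2 : ∀ e ∈ ext S,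
        Real.exp (Real.log (g ext (S.erase e)) - (S.erase e).card * Real.log Dp - C) =
        g ext (S.erase e) * ((Dp ^ (S.card - 1))⁻¹ * Real.exp (-C)) := by
      intro e he
      rw [hexp _ ((erase_subset _ _).trans hS), card_erase_of_mem (hG.sub S hS he)]
      ring
    rw [Finset.sum_congr rfl h2, ← Finset.sum_mul]
    have h3 : ((g ext S : ℕ) : ℝ) = ∑ e ∈ ext S, ((g ext (S.erase e) : ℕ) : ℝ) := by
      rw [h1]; push_cast; rfl
    rw [← h3]
    have h4 : Dp ^ S.card = Dp * Dp ^ (S.card - 1) := by
      have : 0 < S.card := hne.card_pos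
      rw [← pow_succ']
      congr 1
      omega
    rw [h4]
    have h5 : Dp ≠ 0 := hDp.ne'
    have h6 : Dp ^ (S.card - 1) ≠ 0 := (pow_pos hDp _).ne'
    field_simp
  · intro S hS k hk
    unfold CostLe at hk
    have h1 : (N ext P S : ℝ) * g ext S ≤ g ext P := by exact_mod_cast hNg S hS
    have h2 : Dp ^ (P \ S).card * Real.exp (-k) * g ext S ≤ g ext P :=
      (mul_le_mul_of_nonneg_right hk (hgpos S hS).le).trans h1
    have h3 := Real.log_le_log (by have := hgpos S hS; positivity) h2
    rw [Real.log_mul (by positivity) (hgpos S hS).ne', Real.log_mul (by positivity)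
      (Real.exp_pos _).ne', Real.log_exp, Real.log_pow, card_sdiff_of_subset hS,
      Nat.cast_sub (card_le_card hS)] at h3
    show Real.log (g ext S) - S.card * Real.log Dp -
      (Real.log (g ext P) - P.card * Real.log Dp) ≤ k
    linarith

theorem potStmt : PotStmt := potU_of_count count

end Pool.Agent.Lib.MP_f1849d_co.J
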