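import Pool.Agent.Lib.MP_f1849d_co.J.Paths
import Pool.Agent.Lib.MP_f1849d_co.J.AvgLib
import Pool.Agent.Lib.MP_f1849d_co.J.Spec

/-!
MP_f1849d_co, route J: module QMono (the weights `Q` only grow when the lists are extended).
-/

open Finset
open scoped Classical

namespace Pool.Agent.Lib.MP_f1849d_co.J

open Pa

namespace QM

variable {α : Type} [DecidableEq α] {D : ℕ}
variable {P : Finset α} {L L' : Fin D → ℕ → α} {s W t t' : ℕ}

theorem Rem_eq (h : ∀ l m, m ≤ t → L l m = L' l m) {v : Fin D → ℕ} (hv : ∀ l, v l ≤ t) :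
    Rem L v = Rem L' v := by
  ext x
  rw [mem_Rem, mem_Rem]
  constructor
  · rintro ⟨l, i, hi, rfl⟩
    exact ⟨l, i, hi, (h l i (by have := hv l; omega)).symm⟩
  · rintro ⟨l, i, hi, rfl⟩
    exact ⟨l, i, hi, h l i (by have := hv l; omega)⟩

theorem St_eq (h : ∀ l m, m ≤ t → L l m = L' l m) {v : Fin D → ℕ} (hv : ∀ l, v l ≤ t) :
    St P L v = St P L' v := by
  unfold St
  rw [Rem_eq h hv]

theorem nxt_eq (h : ∀ l m, m ≤ t → L l m = L' l m) {v : Fin D → ℕ} (hv : ∀ l, v l ≤ t)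
    {l : Fin D} (h0 : 0 < nxt L l v l) (ht : nxt L l v l ≤ t) : nxt L l v = nxt L' l v := by
  have hlt := lt_nxt_of_pos h0
  have hnm := nxt_notMem h0
  rw [Rem_eq h hv, h l _ ht, h l _ (hv l)] at hnm
  have h1 := nxt_le hlt hnm
  have h0' : 0 < nxt L' l v l := by omega
  have hnm' := nxt_notMem h0'
  rw [← Rem_eq h hv, ← h l _ (h1.2.trans ht), ← h l _ (hv l)] at hnm'
  have h2 := nxt_le h1.1 hnm'
  have he : nxt L l v l = nxt L' l v l := le_antisymm h2.2 h1.2
  funext k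
  by_cases hk : k = l
  · rw [hk, he]
  · rw [nxt_ne hk, nxt_ne hk]

theorem ptrs_eq (h : ∀ l m, m ≤ t → L l m = L' l m) {v : Fin D → ℕ} (hv : ∀ l, v l ≤ t) :
    ptrs L v = ptrs L' v := by
  unfold ptrs
  exact Finset.image_congr fun l _ => h l _ (hv l)

theorem Node_eq (h : ∀ l m, m ≤ t → L l m = L' l m) (htt : t ≤ t') {v : Fin D → ℕ}
    (hv : Node P L s W t v) : Node P L' s W t' v := by
  refine ⟨fun l => ⟨hv.s_le l, (hv.le_t l).trans htt⟩, hv.2.1, fun l => ?_, fun l m hlm => ?_⟩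
  · rw [← St_eq h hv.le_t, ← h l _ (hv.le_t l)]
    exact hv.mem l
  · rw [← h l _ (hv.le_t l), ← h m _ (hv.le_t m)]
    exact hv.2.2.2 l m hlm

theorem pos_eq (hs : 0 < s) (h : ∀ l m, m ≤ t → L l m = L' l m) {u : Fin D → ℕ}
    {om : ℕ → Fin D} {j : ℕ} (hal : Alive P L s W t u om j) :
    pos L u om j = pos L' u om j := by
  induction j with
  | zero => rfl
  | succ j ih =>
    have ih := ih (hal.mono (Nat.le_succ j))
    have hn := hal j (Nat.le_succ j)
    have hn' := hal (j + 1) le_rfl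
    have h0 : 0 < pos L u om (j + 1) (om j) := lt_of_lt_of_le hs (hn'.s_le (om j))
    have ht := hn'.le_t (om j)
    rw [pos_succ] at h0 ht
    rw [pos_succ, pos_succ, ← ih]
    exact nxt_eq h hn.le_t h0 ht

theorem alive_eq (hs : 0 < s) (h : ∀ l m, m ≤ t → L l m = L' l m) (htt : t ≤ t')
    {u : Fin D → ℕ} {om : ℕ → Fin D} {j : ℕ} (hal : Alive P L s W t u om j) :
    Alive P L' s W t' u om j := by
  intro i hi
  rw [← pos_eq hs h (hal.mono hi)]
  exact Node_eq h htt (hal i hi)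

theorem pre_eq (hs : 0 < s) (h : ∀ l m, m ≤ t → L l m = L' l m) (U : Finset α → ℝ)
    {u : Fin D → ℕ} {om : ℕ → Fin D} {H0 : Finset α} {j : ℕ} (hal : Alive P L s W t u om j) :
    pre U P L u H0 om j = pre U P L' u H0 om j := by
  induction j with
  | zero => rfl
  | succ j ih =>
    have hj := hal.mono (Nat.le_succ j)
    have ih := ih hj
    have hn := hal j (Nat.le_succ j)
    rw [pre, pre, ← ih, ← pos_eq hs h hj, ← St_eq h hn.le_t, ← h _ _ (hn.le_t (om j))]

theorem Hs_eq (hs : 0 < s) (h : ∀ l m, m ≤ t → L l m = L' l m) (U : Finset α → ℝ)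
    {u : Fin D → ℕ} {om : ℕ → Fin D} {H0 : Finset α} {j : ℕ} (hal : Alive P L s W t u om j) :
    Hs U P L u H0 om j = Hs U P L' u H0 om j := by
  unfold Hs
  rw [← pre_eq hs h U hal, ← pos_eq hs h hal, ← St_eq h (hal j le_rfl).le_t]

theorem exit_eq (hs : 0 < s) (h : ∀ l m, m ≤ t → L l m = L' l m)
    (ext : Finset α → Finset α) (U : Finset α → ℝ)
    {u : Fin D → ℕ} {om : ℕ → Fin D} {j : ℕ} (hal : Alive P L s W t u om j) {x : α}
    (hx : ExitAt ext U P L u om j x) : ExitAt ext U P L' u om j x := by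
  unfold ExitAt Bad at hx ⊢
  have hn := hal j le_rfl
  rwa [← pre_eq hs h U hal, ← Hs_eq hs h U hal, ← pos_eq hs h hal, ← St_eq h hn.le_t,
    ← h _ _ (hn.le_t (om j)), ← ptrs_eq h hn.le_t]

end QM

theorem qMonoStmt : QMonoStmt := by
  intro α _ D _ P ext U L L' s w W t t' M hs htt h x
  unfold Q
  refine sum_le_sum fun u _ => avg_mono M _ _ fun om => ?_
  by_cases hc : ∃ j, j < M ∧ Alive P L s W t u om j ∧ ExitAt ext U P L u om j x
  · obtain ⟨j, hj, h1, h2⟩ := hc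
    have h3 : ∃ j, j < M ∧ Alive P L' s W t' u om j ∧ ExitAt ext U P L' u om j x :=
      ⟨j, hj, QM.alive_eq hs h htt h1, QM.exit_eq hs h ext U h1 h2⟩
    rw [if_pos h3]
    split_ifs <;> norm_num
  · rw [if_neg hc]
    split_ifs <;> norm_num

end Pool.Agent.Lib.MP_f1849d_co.J
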