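import Pool.Agent.Lib.MP_f1849d_co.J.Paths
import Pool.Agent.Lib.MP_f1849d_co.J.Spec

/-!
MP_f1849d_co, route J: modules Pos and Cap (adapters from `Paths.lean`).
-/

open Finset
open scoped Classical

namespace Pool.Agent.Lib.MP_f1849d_co.J

open Pa

theorem posStmt : PosStmt := by
  intro α _ D P L s W t hI hs u om j h
  refine ⟨fun l => ⟨pos_ge hs h l, pos_le hs hI h l le_rfl⟩, fun h0 ht l => ?_⟩
  have hlt : pos L u om j (om j) < pos L u om (j + 1) (om j) := by
    rw [pos_succ] at h0 ⊢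
    exact lt_nxt_of_pos h0
  by_cases hl : l = om j
  · rw [hl]
    exact pos_succ_bounds hs hI h le_rfl hlt ht
  · have a := pos_ge hs h l
    have b := pos_le hs hI h l le_rfl
    rw [cnt_succ, if_neg (fun e => hl e.symm), pos_succ, nxt_ne hl]
    exact ⟨by omega, by omega⟩

theorem capStmt : CapStmt := by
  intro α _ D P L s W t w beta hI hs hβ M om l v
  refine le_trans (card_le_card ?_) (cap (W := W) hs hI (w := w) (hβ l) om v)
  intro u hu
  rw [mem_filter] at hu ⊢
  obtain ⟨hb, j, _, h1, h2, h3⟩ := hu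
  exact ⟨hb, j, h1, h3, h2⟩

end Pool.Agent.Lib.MP_f1849d_co.J
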