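import Pool.Agent.Lib.MP_f1849d_co.J.AvgLib

/-!
MP_f1849d_co, route J: most words are good (fourth moments).
-/

open Finset
open scoped Classical

namespace Pool.Agent.Lib.MP_f1849d_co.J

lemma words_cnt_zero {D : ℕ} (om : ℕ → Fin D) (l : Fin D) : cnt om l 0 = 0 := by
  simp [cnt]

lemma words_cnt_cons {D : ℕ} (l0 : Fin D) (om : ℕ → Fin D) (l : Fin D) (j : ℕ) :
    cnt (cons l0 om) l (j + 1) = cnt om l j + (if l0 = l then 1 else 0) := by
  unfold cnt
  rw [Finset.card_filter, Finset.card_filter, Finset.sum_range_succ']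
  rfl

/-- The fourth moment of the walk `cnt l - cnt m`, started at `x`. -/
lemma words_moment {D : ℕ} [NeZero D] (l m : Fin D) (hlm : l ≠ m) (M : ℕ) :
    ∀ (j : ℕ), j ≤ M → ∀ x : ℝ,
    Avg D M (fun om => (x + ((cnt om l j : ℝ) - (cnt om m j : ℝ))) ^ 4) =
      x ^ 4 + 12 * j / D * x ^ 2 + (2 * j / D + 12 * j * (j - 1) / D ^ 2) := by
  have hD : (D : ℝ) ≠ 0 := Nat.cast_ne_zero.mpr (NeZero.ne D)
  induction M with
  | zero =>
    intro j hj x
    have : j = 0 := by omega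
    subst this
    simp only [words_cnt_zero]
    rw [avg_const]
    simp
  | succ M ih =>
    intro j hj x
    cases j with
    | zero =>
      simp only [words_cnt_zero]
      rw [avg_const]
      simp
    | succ j =>
      simp only [Avg]
      have h1 : ∀ l0 : Fin D, Avg D M (fun om => (x + ((cnt (cons l0 om) l (j + 1) : ℝ) -
          (cnt (cons l0 om) m (j + 1) : ℝ))) ^ 4) =
          (x + ((if l0 = l then 1 else 0) - (if l0 = m then 1 else 0))) ^ 4 + 12 * j / D *
            (x + ((if l0 = l then 1 else 0) - (if l0 = m then 1 else 0))) ^ 2 +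
            (2 * j / D + 12 * j * (j - 1) / D ^ 2) := by
        intro l0
        rw [← ih j (by omega)]
        congr 1
        funext om
        rw [words_cnt_cons, words_cnt_cons]
        push_cast
        ring
      rw [Finset.sum_congr rfl fun l0 _ => h1 l0]
      have h2 : ∀ l0 : Fin D,
          (x + ((if l0 = l then 1 else 0) - (if l0 = m then 1 else 0))) ^ 4 + 12 * j / D *
            (x + ((if l0 = l then 1 else 0) - (if l0 = m then 1 else 0))) ^ 2 +
            (2 * j / D + 12 * j * (j - 1) / D ^ 2) =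
          (x ^ 4 + 12 * j / D * x ^ 2 + (2 * j / D + 12 * j * (j - 1) / D ^ 2)) +
          ((if l0 = l then ((x + 1) ^ 4 - x ^ 4 + 12 * j / D * ((x + 1) ^ 2 - x ^ 2)) else 0) +
          (if l0 = m then ((x - 1) ^ 4 - x ^ 4 + 12 * j / D * ((x - 1) ^ 2 - x ^ 2)) else 0)) := by
        intro l0
        by_cases h3 : l0 = l
        · have h4 : l0 ≠ m := fun h => hlm (h3.symm.trans h)
          rw [if_pos h3, if_neg h4, if_pos h3, if_neg h4]
          ring
        · by_cases h4 : l0 = m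
          · rw [if_neg h3, if_pos h4, if_neg h3, if_pos h4]
            ring
          · rw [if_neg h3, if_neg h4, if_neg h3, if_neg h4]
            ring
      rw [Finset.sum_congr rfl fun l0 _ => h2 l0, Finset.sum_add_distrib, Finset.sum_const,
        Finset.card_univ, Fintype.card_fin, nsmul_eq_mul, Finset.sum_add_distrib,
        Finset.sum_ite_eq' univ l, Finset.sum_ite_eq' univ m, if_pos (mem_univ _),
        if_pos (mem_univ _)]
      push_cast
      field_simp
      ring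

lemma words_moment_le {D : ℕ} [NeZero D] (hD : 3 ≤ D) (l m : Fin D) (M j : ℕ) (hj : j ≤ M) :
    Avg D M (fun om => ((cnt om l j : ℝ) - (cnt om m j : ℝ)) ^ 4) ≤ 3 * (j : ℝ) ^ 2 := by
  have hD0 : (3 : ℝ) ≤ D := by exact_mod_cast hD
  by_cases hlm : l = m
  · subst hlm
    have e0 : (fun om : ℕ → Fin D => ((cnt om l j : ℝ) - (cnt om l j : ℝ)) ^ 4) =
        fun _ => (0 : ℝ) := by
      funext om
      rw [sub_self]
      norm_num
    rw [e0, avg_const]
    positivity
  · have h1 := words_moment l m hlm M j hj 0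
    simp only [zero_add] at h1
    rw [h1]
    rcases Nat.eq_zero_or_pos j with h0 | h0
    · subst h0; simp
    · have hj1 : (1 : ℝ) ≤ j := by exact_mod_cast h0
      have e1 : 2 * (j : ℝ) / D ≤ 2 * j / 3 := by
        apply div_le_div_of_nonneg_left (by positivity) (by norm_num) hD0
      have e2 : 12 * (j : ℝ) * (j - 1) / D ^ 2 ≤ 12 * j * (j - 1) / 9 := by
        apply div_le_div_of_nonneg_left _ (by norm_num) (by nlinarith)
        have : (0 : ℝ) ≤ (j : ℝ) - 1 := by linarith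
        positivity
      have e3 : (0 : ℝ) ^ 4 + 12 * (j : ℝ) / D * 0 ^ 2 = 0 := by ring
      rw [e3, zero_add]
      nlinarith

theorem wordsStmt : WordsStmt := by
  intro D _ M b hD hM hb
  have hb0 : (0 : ℝ) < b := by exact_mod_cast hb
  have hDpos : (0 : ℝ) < D := by
    have : 0 < D := by omega
    exact_mod_cast this
  -- pointwise bound
  have h1 : ∀ om : ℕ → Fin D, (1 : ℝ) - ∑ j ∈ range (M + 1), ∑ l : Fin D, ∑ m : Fin D,
      (1 / (b : ℝ) ^ 4) * ((cnt om l j : ℝ) - (cnt om m j : ℝ)) ^ 4 ≤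
      if GoodWord b M om then 1 else 0 := by
    intro om
    have hnn : ∀ j ∈ range (M + 1), 0 ≤ ∑ l : Fin D, ∑ m : Fin D,
        (1 / (b : ℝ) ^ 4) * ((cnt om l j : ℝ) - (cnt om m j : ℝ)) ^ 4 := fun j _ =>
      Finset.sum_nonneg fun l _ => Finset.sum_nonneg fun m _ => by positivity
    split_ifs with hg
    · have := Finset.sum_nonneg hnn
      linarith
    · unfold GoodWord at hg
      push Not at hg
      obtain ⟨j, hj, l, m, hlm⟩ := hg
      have h2 : (b : ℝ) ≤ (cnt om l j : ℝ) - (cnt om m j : ℝ) := by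
        have : ((cnt om m j + b : ℕ) : ℝ) ≤ (cnt om l j : ℝ) := by exact_mod_cast hlm.le
        push_cast at this
        linarith
      have h3 : (1 : ℝ) ≤ (1 / (b : ℝ) ^ 4) * ((cnt om l j : ℝ) - (cnt om m j : ℝ)) ^ 4 := by
        rw [one_div, ← div_eq_inv_mul, le_div_iff₀ (by positivity), one_mul]
        exact pow_le_pow_left₀ hb0.le h2 4
      have h4 : (1 / (b : ℝ) ^ 4) * ((cnt om l j : ℝ) - (cnt om m j : ℝ)) ^ 4 ≤
          ∑ m : Fin D, (1 / (b : ℝ) ^ 4) * ((cnt om l j : ℝ) - (cnt om m j : ℝ)) ^ 4 :=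
        Finset.single_le_sum (f := fun m => (1 / (b : ℝ) ^ 4) *
          ((cnt om l j : ℝ) - (cnt om m j : ℝ)) ^ 4) (fun m _ => by positivity) (mem_univ m)
      have h5 : ∑ m : Fin D, (1 / (b : ℝ) ^ 4) * ((cnt om l j : ℝ) - (cnt om m j : ℝ)) ^ 4 ≤
          ∑ l : Fin D, ∑ m : Fin D, (1 / (b : ℝ) ^ 4) *
            ((cnt om l j : ℝ) - (cnt om m j : ℝ)) ^ 4 :=
        Finset.single_le_sum (f := fun l => ∑ m : Fin D, (1 / (b : ℝ) ^ 4) *
          ((cnt om l j : ℝ) - (cnt om m j : ℝ)) ^ 4)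
          (fun l _ => Finset.sum_nonneg fun m _ => by positivity) (mem_univ l)
      have h6 := Finset.single_le_sum hnn (mem_range.mpr (by omega : j < M + 1))
      linarith
  have h2 := avg_mono M _ _ h1
  refine le_trans ?_ h2
  have h3 : Avg D M (fun om => (1 : ℝ) - ∑ j ∈ range (M + 1), ∑ l : Fin D, ∑ m : Fin D,
      (1 / (b : ℝ) ^ 4) * ((cnt om l j : ℝ) - (cnt om m j : ℝ)) ^ 4) =
      1 - (1 / (b : ℝ) ^ 4) * ∑ j ∈ range (M + 1), ∑ l : Fin D, ∑ m : Fin D,
        Avg D M (fun om => ((cnt om l j : ℝ) - (cnt om m j : ℝ)) ^ 4) := by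
    have e1 : (fun om : ℕ → Fin D => (1 : ℝ) - ∑ j ∈ range (M + 1), ∑ l : Fin D, ∑ m : Fin D,
      (1 / (b : ℝ) ^ 4) * ((cnt om l j : ℝ) - (cnt om m j : ℝ)) ^ 4) =
      fun om => (1 : ℝ) + (-(1 / (b : ℝ) ^ 4)) * ∑ j ∈ range (M + 1), ∑ l : Fin D, ∑ m : Fin D,
        ((cnt om l j : ℝ) - (cnt om m j : ℝ)) ^ 4 := by
      funext om
      rw [neg_mul, Finset.mul_sum, sub_eq_add_neg]
      congr 2
      refine Finset.sum_congr rfl fun j _ => ?_
      rw [Finset.mul_sum]
      exact Finset.sum_congr rfl fun l _ => (Finset.mul_sum _ _ _).symm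
    rw [e1, avg_add, avg_const, avg_smul, avg_sum]
    rw [neg_mul, sub_eq_add_neg]
    congr 3
    refine Finset.sum_congr rfl fun j _ => ?_
    rw [avg_sum]
    exact Finset.sum_congr rfl fun l _ => avg_sum _ _ _
  rw [h3]
  have h4 : ∑ j ∈ range (M + 1), ∑ l : Fin D, ∑ m : Fin D,
        Avg D M (fun om => ((cnt om l j : ℝ) - (cnt om m j : ℝ)) ^ 4) ≤
      3 * (D : ℝ) ^ 2 * (M : ℝ) ^ 3 := by
    have h5 : ∀ j ∈ range (M + 1), ∑ l : Fin D, ∑ m : Fin D,
        Avg D M (fun om => ((cnt om l j : ℝ) - (cnt om m j : ℝ)) ^ 4) ≤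
        (D : ℝ) * (D * (3 * (j : ℝ) ^ 2)) := by
      intro j hj
      have hj' : j ≤ M := by have := mem_range.mp hj; omega
      have h6 : ∀ l : Fin D, ∑ m : Fin D,
          Avg D M (fun om => ((cnt om l j : ℝ) - (cnt om m j : ℝ)) ^ 4) ≤
          D * (3 * (j : ℝ) ^ 2) := by
        intro l
        have h7 := Finset.sum_le_card_nsmul (univ : Finset (Fin D))
          (fun m => Avg D M (fun om => ((cnt om l j : ℝ) - (cnt om m j : ℝ)) ^ 4))
          (3 * (j : ℝ) ^ 2) (fun m _ => words_moment_le hD l m M j hj')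
        rwa [Finset.card_univ, Fintype.card_fin, nsmul_eq_mul] at h7
      have h8 := Finset.sum_le_card_nsmul (univ : Finset (Fin D))
        (fun l => ∑ m : Fin D, Avg D M (fun om => ((cnt om l j : ℝ) - (cnt om m j : ℝ)) ^ 4))
        (D * (3 * (j : ℝ) ^ 2)) (fun l _ => h6 l)
      rwa [Finset.card_univ, Fintype.card_fin, nsmul_eq_mul] at h8
    refine le_trans (Finset.sum_le_sum h5) ?_
    have h9 : ∀ j ∈ range (M + 1), (D : ℝ) * (D * (3 * (j : ℝ) ^ 2)) ≤
        3 * (D : ℝ) ^ 2 * ((j : ℝ) * M) := by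
      intro j hj
      have hj' : (j : ℝ) ≤ M := by
        have := mem_range.mp hj
        exact_mod_cast (by omega : j ≤ M)
      have : (j : ℝ) ^ 2 ≤ j * M := by
        rw [sq]
        exact mul_le_mul_of_nonneg_left hj' (Nat.cast_nonneg j)
      calc (D : ℝ) * (D * (3 * (j : ℝ) ^ 2)) = 3 * (D : ℝ) ^ 2 * (j : ℝ) ^ 2 := by ring
        _ ≤ 3 * (D : ℝ) ^ 2 * ((j : ℝ) * M) := by gcongr
    refine le_trans (Finset.sum_le_sum h9) ?_
    rw [← Finset.mul_sum, ← Finset.sum_mul]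
    have h10 : ∑ j ∈ range (M + 1), (j : ℝ) ≤ (M : ℝ) ^ 2 := by
      rw [Finset.sum_range_succ']
      simp only [Nat.cast_zero, add_zero]
      have := Finset.sum_le_card_nsmul (range M) (fun j => ((j + 1 : ℕ) : ℝ)) M (by
        intro j hj
        have := mem_range.mp hj
        exact_mod_cast (by omega : j + 1 ≤ M))
      rw [Finset.card_range, nsmul_eq_mul] at this
      rw [sq]
      exact this
    calc 3 * (D : ℝ) ^ 2 * ((∑ j ∈ range (M + 1), (j : ℝ)) * M) ≤
        3 * (D : ℝ) ^ 2 * ((M : ℝ) ^ 2 * M) := by gcongr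
      _ = 3 * (D : ℝ) ^ 2 * (M : ℝ) ^ 3 := by ring
  have h5 : (48 : ℝ) * (D : ℝ) ^ 2 * (M : ℝ) ^ 3 ≤ (b : ℝ) ^ 4 := by exact_mod_cast hM
  have h6 : (1 / (b : ℝ) ^ 4) * ∑ j ∈ range (M + 1), ∑ l : Fin D, ∑ m : Fin D,
        Avg D M (fun om => ((cnt om l j : ℝ) - (cnt om m j : ℝ)) ^ 4) ≤ 1 / 16 := by
    rw [one_div_mul_eq_div, div_le_iff₀ (by positivity)]
    linarith
  linarith

end Pool.Agent.Lib.MP_f1849d_co.J
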