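import Pool.Agent.Lib.MP_f1849d_co.J.AvgLib
import Pool.Agent.Lib.MP_f1849d_co.J.Words
import Pool.Agent.Lib.MP_f1849d_co.J.Pos
import Pool.Agent.Lib.MP_f1849d_co.J.Lost
import Pool.Agent.Lib.MP_f1849d_co.J.Cross

/-!
MP_f1849d_co, route J: many rows cross a given entry.
-/

open Finset
open scoped Classical

namespace Pool.Agent.Lib.MP_f1849d_co.J

/-- the event of `RowStmt` -/
def RowEv {α : Type} [DecidableEq α] {D : ℕ} (P : Finset α) (L : Fin D → ℕ → α)
    (s t y M : ℕ) (m : Fin D) (nu : ℕ) (a c : Fin D → ℕ) (V : Finset (Fin D → ℕ))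
    (u : Fin D → ℕ) (om : ℕ → Fin D) : Prop :=
  ∃ j, j < M ∧ Alive P L s (129 * y) t u om j ∧ om j = m ∧
    pos L u om j m = nu ∧ (∀ k, k ≠ m → a k ≤ pos L u om j k ∧ pos L u om j k ≤ c k) ∧
    pos L u om j ∉ V

theorem row_good (hC : CapStmt) (hL : LostStmt) (hX : CrossStmt)
    {α : Type} [DecidableEq α] {D : ℕ} {P : Finset α} {L : Fin D → ℕ → α}
    {s t y b beta M : ℕ} (hD : 3 ≤ D) (hinj : Inj P L t) (hs : 0 < s)
    (hNP : ∀ l, (NPpos L t l).card ≤ beta) (hb : b + beta ≤ y) (hM : D * (t + 1) ≤ M)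
    (hst : s + 128 * y ≤ t) (hbeta : 64 * D ^ 2 * 260 ^ D * beta ≤ y)
    (A : Finset (Fin D → ℕ)) (hA : A ⊆ box D s (128 * y))
    (m : Fin D) (nu : ℕ) (a c : Fin D → ℕ) (hnu : nu ≤ t)
    (hc : ∀ k, k ≠ m → c k + b + beta + 2 ≤ t)
    (hAu : ∀ u ∈ A, u m ≤ nu ∧ ∀ k, k ≠ m →
      a k + u m + (b + beta) ≤ nu + u k ∧ nu + u k + (b + beta) ≤ c k + u m)
    (hpriv : ∀ k, k ≠ m → ∀ i, i ≤ c k → L k i ≠ L m nu)
    (V : Finset (Fin D → ℕ)) (om : ℕ → Fin D) (hgood : GoodWord b M om) :
    (A.card : ℝ) - (y : ℝ) ^ D / 64 - (V.card : ℝ) * (128 * y + beta) ≤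
      ∑ u ∈ A, if RowEv P L s t y M m nu a c V u om then (1 : ℝ) else 0 := by
  set X := A.filter fun u => RowEv P L s t y M m nu a c V u om with hXdef
  set B := (box D s (128 * y)).filter (fun u => Lost P L s (129 * y) t M u om) with hBdef
  set C := V.biUnion fun v => (box D s (128 * y)).filter (fun u => ∃ j, j < M ∧
    Alive P L s (129 * y) t u om j ∧ om j = m ∧ pos L u om j = v) with hCdef
  have hsub : A ⊆ X ∪ (B ∪ C) := by
    intro u hu
    rw [mem_union, mem_union]
    by_cases hlost : Lost P L s (129 * y) t M u om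
    · exact Or.inr (Or.inl (by rw [hBdef, mem_filter]; exact ⟨hA hu, hlost⟩))
    · obtain ⟨hum, huk⟩ := hAu u hu
      obtain ⟨j, hj, halive, homj, hpos, hbox⟩ := hX α D P L s t y b beta M hD hinj hs hNP hb hM
        om hgood u (hA hu) hlost m nu a c hum hnu hc huk hpriv
      by_cases hV : pos L u om j ∈ V
      · refine Or.inr (Or.inr ?_)
        rw [hCdef, mem_biUnion]
        exact ⟨pos L u om j, hV, by rw [mem_filter]; exact ⟨hA hu, j, hj, halive, homj, rfl⟩⟩
      · refine Or.inl ?_
        rw [hXdef, mem_filter]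
        exact ⟨hu, j, hj, halive, homj, hpos, hbox, hV⟩
  have hcard : A.card ≤ X.card + (B.card + C.card) :=
    (card_le_card hsub).trans ((card_union_le _ _).trans
      (Nat.add_le_add_left (card_union_le _ _) _))
  have hB : 64 * B.card ≤ y ^ D := hL α D P L s t y beta hD hinj hs hNP hst hbeta M om
  have hCc : C.card ≤ V.card * (128 * y + beta) := by
    refine card_biUnion_le_card_mul V _ _ fun v _ => ?_
    exact hC α D P L s (129 * y) t (128 * y) beta hinj hs hNP M om m v
  have hsum : ∑ u ∈ A, (if RowEv P L s t y M m nu a c V u om then (1 : ℝ) else 0) = X.card := by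
    rw [sum_ite, sum_const_zero, add_zero, sum_const, nsmul_eq_mul, mul_one]
  rw [hsum]
  have h1 : (A.card : ℝ) ≤ X.card + (B.card + C.card) := by exact_mod_cast hcard
  have h2 : (64 : ℝ) * B.card ≤ (y : ℝ) ^ D := by exact_mod_cast hB
  have h3 : (C.card : ℝ) ≤ V.card * (128 * y + beta) := by exact_mod_cast hCc
  linarith

/-- Rows, from the other modules. -/
theorem row_of (hA : AvgLibStmt) (hW : WordsStmt) (hC : CapStmt) (hL : LostStmt)
    (hX : CrossStmt) : RowStmt := by
  intro α _ D _ P L s t y b beta M hD hinj hs hNP hb hM hst hbeta hM3 hb0 A hAsub m nu a c hnu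
    hc hAu hpriv V
  obtain ⟨_, havgmul, _, havgmono, havgsum⟩ := hA D M
  have hwords := hW D M b hD hM3 hb0
  set K : ℝ := (A.card : ℝ) - (y : ℝ) ^ D / 64 - (V.card : ℝ) * (128 * y + beta) with hK
  have hgoal : (15 / 16 : ℝ) * K ≤
      ∑ u ∈ A, Avg D M (fun om => if RowEv P L s t y M m nu a c V u om then (1 : ℝ) else 0) := by
    rw [← havgsum]
    rcases le_or_gt 0 K with hK0 | hK0
    · have h1 : Avg D M (fun om => K * (if GoodWord b M om then (1 : ℝ) else 0)) ≤
          Avg D M (fun om => ∑ u ∈ A,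
            if RowEv P L s t y M m nu a c V u om then (1 : ℝ) else 0) := by
        refine havgmono _ _ fun om => ?_
        by_cases hg : GoodWord b M om
        · rw [if_pos hg, mul_one]
          exact row_good hC hL hX hD hinj hs hNP hb hM hst hbeta A hAsub m nu a c hnu hc hAu
            hpriv V om hg
        · rw [if_neg hg, mul_zero]
          exact sum_nonneg fun u _ => by split_ifs <;> norm_num
      rw [havgmul] at h1
      refine le_trans ?_ h1
      rw [mul_comm]
      exact mul_le_mul_of_nonneg_left hwords hK0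
    · have h1 : Avg D M (fun om => (0 : ℝ) * (1 : ℝ)) ≤
          Avg D M (fun om => ∑ u ∈ A,
            if RowEv P L s t y M m nu a c V u om then (1 : ℝ) else 0) := by
        refine havgmono _ _ fun om => ?_
        rw [zero_mul]
        exact sum_nonneg fun u _ => by split_ifs <;> norm_num
      rw [havgmul, zero_mul] at h1
      linarith
  refine hgoal.trans (le_of_eq ?_)
  refine sum_congr rfl fun u _ => congrArg (Avg D M) (funext fun om => ?_)
  by_cases h : RowEv P L s t y M m nu a c V u om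
  · rw [if_pos h]
    unfold RowEv at h
    rw [if_pos h]
  · rw [if_neg h]
    unfold RowEv at h
    rw [if_neg h]

theorem rowStmt : RowStmt := row_of avgLibStmt wordsStmt capStmt lostStmt crossStmt

end Pool.Agent.Lib.MP_f1849d_co.J
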