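import Pool.Agent.Lib.MP_f1849d_co.J.Spec

/-!
MP_f1849d_co, route J: the perfect start (section 8 of the proof). Near the top of a record every
remaining set has exactly `D` extreme points, and the lists obtained by peeling with one letter
only never meet.
-/

open Finset
open scoped Classical

namespace Pool.Agent.Lib.MP_f1849d_co.J

section start
variable {α : Type} [DecidableEq α] {D : ℕ}

/-- the bound for `exp U` at depth `k` -/
noncomputable def startB (D : ℕ) (δ : ℝ) (k : ℕ) : ℝ := 1 + δ * (((D : ℝ) + 1) ^ k - 1)

theorem start_pow (k : ℕ) : (1 : ℝ) ≤ ((D : ℝ) + 1) ^ k :=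
  one_le_pow₀ (by have : (0 : ℝ) ≤ D := Nat.cast_nonneg D; linarith)

theorem start_step {P : Finset α} {ext : Finset α → Finset α} {U : Finset α → ℝ} {Dp δ : ℝ}
    (hD : 1 ≤ D) (hG : Geom D P ext) (hU : Pot Dp P ext U) (hδ0 : 0 ≤ δ) (hδ1 : δ ≤ 1)
    (hDp0 : 0 ≤ Dp) (hDp : Dp ≤ D + δ) {S : Finset α} (hS : S ⊆ P) (hc : D ≤ S.card) {k : ℕ}
    (hk : Real.exp (U S) ≤ startB D δ k) {e : α} (he : e ∈ ext S) :
    Real.exp (U (S.erase e)) ≤ startB D δ (k + 1) := by
  have hne : S.Nonempty := ⟨e, hG.sub S hS he⟩
  have h1 := hU.step S hS hne
  have h2 : Real.exp (U (S.erase e)) + (((ext S).erase e).card : ℝ) ≤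
      ∑ e ∈ ext S, Real.exp (U (S.erase e)) := by
    rw [← Finset.add_sum_erase _ _ he]
    have : (((ext S).erase e).card : ℝ) = ∑ x ∈ (ext S).erase e, (1 : ℝ) := by simp
    rw [this]
    gcongr with x hx
    rw [← Real.exp_zero]
    exact Real.exp_le_exp.2 (hU.nonneg _ ((Finset.erase_subset _ _).trans hS))
  have h3 : (D : ℝ) - 1 ≤ (((ext S).erase e).card : ℝ) := by
    rw [Finset.card_erase_of_mem he]
    have := hG.card S hS hc
    rw [Nat.cast_sub (by omega)]
    push_cast
    have : (D : ℝ) ≤ (ext S).card := by exact_mod_cast this
    linarith
  have hq := start_pow (D := D) k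
  have hD' : (1 : ℝ) ≤ D := by exact_mod_cast hD
  have hb0 : 0 ≤ startB D δ k := by
    unfold startB
    have := mul_nonneg hδ0 (sub_nonneg.2 hq)
    linarith
  have h4 : Dp * Real.exp (U S) ≤ (D + δ) * startB D δ k := by
    apply mul_le_mul hDp hk (Real.exp_pos _).le
    linarith
  have h5 : (D + δ) * startB D δ k - (D - 1) ≤ startB D δ (k + 1) := by
    unfold startB
    rw [pow_succ]
    have h6 : 0 ≤ (1 - δ) * (δ * (((D : ℝ) + 1) ^ k - 1)) :=
      mul_nonneg (by linarith) (mul_nonneg hδ0 (by linarith))
    nlinarith
  linarith

theorem start_card {P : Finset α} {ext : Finset α → Finset α} {U : Finset α → ℝ} {Dp δ : ℝ}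
    {n : ℕ} (hD : 1 ≤ D) (hG : Geom D P ext) (hU : Pot Dp P ext U) (hδ0 : 0 ≤ δ)
    (hδ1 : δ ≤ 1) (hδ : δ * ((D : ℝ) + 1) ^ (n + 1) < 1)
    (hDp0 : 0 ≤ Dp) (hDp : Dp ≤ D + δ) {S : Finset α} (hS : S ⊆ P) (hc : D ≤ S.card) {k : ℕ}
    (hkn : k ≤ n) (hk : Real.exp (U S) ≤ startB D δ k) : (ext S).card = D := by
  have hne : S.Nonempty := Finset.card_pos.1 (by omega)
  have h1 := hU.step S hS hne
  have h2 : ((ext S).card : ℝ) ≤ ∑ e ∈ ext S, Real.exp (U (S.erase e)) := by
    have : ((ext S).card : ℝ) = ∑ x ∈ ext S, (1 : ℝ) := by simp
    rw [this]
    gcongr with x hx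
    rw [← Real.exp_zero]
    exact Real.exp_le_exp.2 (hU.nonneg _ ((Finset.erase_subset _ _).trans hS))
  have hq := start_pow (D := D) k
  have hD' : (1 : ℝ) ≤ D := by exact_mod_cast hD
  have h4 : Dp * Real.exp (U S) ≤ (D + δ) * startB D δ k := by
    apply mul_le_mul hDp hk (Real.exp_pos _).le
    linarith
  have h5 : (D + δ) * startB D δ k ≤ D + δ * ((D : ℝ) + 1) ^ (k + 1) := by
    unfold startB
    rw [pow_succ]
    have h6 : 0 ≤ (1 - δ) * (δ * (((D : ℝ) + 1) ^ k - 1)) :=
      mul_nonneg (by linarith) (mul_nonneg hδ0 (by linarith))
    nlinarith
  have h6 : δ * ((D : ℝ) + 1) ^ (k + 1) ≤ δ * ((D : ℝ) + 1) ^ (n + 1) := by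
    apply mul_le_mul_of_nonneg_left _ hδ0
    exact pow_le_pow_right₀ (by linarith) (by omega)
  have h7 : ((ext S).card : ℝ) < ((D + 1 : ℕ) : ℝ) := by
    push_cast
    linarith
  have h8 : (ext S).card < D + 1 := by exact_mod_cast h7
  have := hG.card S hS hc
  omega

/-- a new extreme element after the removal of `e` -/
noncomputable def startNew (ext : Finset α → Finset α) (S : Finset α) (e : α) : α :=
  if h : (ext (S.erase e) \ ext S).Nonempty then h.choose else e

/-- peel with one letter -/
noncomputable def startPeel (ext : Finset α → Finset α) (P : Finset α) (p : α) :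
    ℕ → Finset α × α
  | 0 => (P, p)
  | m + 1 => ((startPeel ext P p m).1.erase (startPeel ext P p m).2,
      startNew ext (startPeel ext P p m).1 (startPeel ext P p m).2)

/-- the state of the good region -/
structure StartOk (P : Finset α) (ext : Finset α → Finset α) (U : Finset α → ℝ) (D : ℕ) (δ : ℝ)
    (k : ℕ) (S : Finset α) : Prop where
  sub : S ⊆ P
  bd : Real.exp (U S) ≤ startB D δ k
  card : P.card ≤ S.card + k

theorem StartOk.erase {P : Finset α} {ext : Finset α → Finset α} {U : Finset α → ℝ} {Dp δ : ℝ}
    (hD : 1 ≤ D) (hG : Geom D P ext) (hU : Pot Dp P ext U) (hδ0 : 0 ≤ δ) (hδ1 : δ ≤ 1)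
    (hDp0 : 0 ≤ Dp) (hDp : Dp ≤ D + δ) {S : Finset α} {k : ℕ} (h : StartOk P ext U D δ k S)
    (hc : D + k ≤ P.card) {e : α} (he : e ∈ ext S) : StartOk P ext U D δ (k + 1) (S.erase e) := by
  have hS := h.sub
  have hcard := h.card
  refine ⟨(Finset.erase_subset _ _).trans h.sub, ?_, ?_⟩
  · exact start_step hD hG hU hδ0 hδ1 hDp0 hDp h.sub (by omega) h.bd he
  · rw [Finset.card_erase_of_mem (hG.sub S hS he)]
    omega

/-- after the removal of an extreme element exactly one new extreme element appears -/
theorem start_ext_erase {P : Finset α} {ext : Finset α → Finset α} (hG : Geom D P ext)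
    (hD : 1 ≤ D) {S : Finset α} (hS : S ⊆ P) (h1 : (ext S).card = D) {e : α} (he : e ∈ ext S)
    (h2 : (ext (S.erase e)).card = D) :
    startNew ext S e ∉ ext S ∧ ext (S.erase e) = insert (startNew ext S e) ((ext S).erase e) := by
  have hsub : (ext S).erase e ⊆ ext (S.erase e) := by
    intro x hx
    rw [Finset.mem_erase] at hx
    exact hG.mono S _ hS (Finset.erase_subset _ _) x hx.2
      (Finset.mem_erase.2 ⟨hx.1, hG.sub S hS hx.2⟩)
  have hne : (ext (S.erase e) \ ext S).Nonempty := by
    by_contra hempty
    rw [Finset.not_nonempty_iff_eq_empty, Finset.sdiff_eq_empty_iff_subset] at hempty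
    have hlt : ext (S.erase e) ⊆ (ext S).erase e := by
      intro x hx
      refine Finset.mem_erase.2 ⟨?_, hempty hx⟩
      have := hG.sub _ ((Finset.erase_subset _ _).trans hS) hx
      exact (Finset.mem_erase.1 this).1
    have := Finset.card_le_card hlt
    rw [Finset.card_erase_of_mem he] at this
    omega
  have hmem : startNew ext S e ∈ ext (S.erase e) \ ext S := by
    unfold startNew
    rw [dif_pos hne]
    exact hne.choose_spec
  rw [Finset.mem_sdiff] at hmem
  refine ⟨hmem.2, ?_⟩
  symm
  apply Finset.eq_of_subset_of_card_le
  · intro x hx
    rcases Finset.mem_insert.1 hx with rfl | hx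
    · exact hmem.1
    · exact hsub hx
  · rw [Finset.card_insert_of_notMem (fun h => hmem.2 (Finset.mem_of_mem_erase h)),
      Finset.card_erase_of_mem he, h2]
    omega

theorem start_rem_update (L : Fin D → ℕ → α) (v : Fin D → ℕ) (l : Fin D) (i : ℕ)
    (h : v l = i + 1) : Rem L v = insert (L l i) (Rem L (Function.update v l i)) := by
  ext x
  simp only [Rem, Finset.mem_biUnion, Finset.mem_univ, true_and, Finset.mem_image,
    Finset.mem_range, Finset.mem_insert]
  constructor
  · rintro ⟨k, j, hj, rfl⟩
    by_cases hk : k = l
    · subst hk
      rw [h] at hj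
      rcases Nat.lt_succ_iff_lt_or_eq.1 hj with hj | rfl
      · exact Or.inr ⟨k, j, by rwa [Function.update_self], rfl⟩
      · exact Or.inl rfl
    · exact Or.inr ⟨k, j, by rwa [Function.update_of_ne hk], rfl⟩
  · rintro (rfl | ⟨k, j, hj, rfl⟩)
    · exact ⟨l, i, by omega, rfl⟩
    · by_cases hk : k = l
      · subst hk
        rw [Function.update_self] at hj
        exact ⟨k, j, by omega, rfl⟩
      · rw [Function.update_of_ne hk] at hj
        exact ⟨k, j, hj, rfl⟩

theorem start_St_update (P : Finset α) (L : Fin D → ℕ → α) (v : Fin D → ℕ) (l : Fin D) (i : ℕ)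
    (h : v l = i + 1) : St P L v = (St P L (Function.update v l i)).erase (L l i) := by
  unfold St
  rw [start_rem_update L v l i h, Finset.sdiff_insert]

theorem start_sum_update (v : Fin D → ℕ) (l : Fin D) (i : ℕ)
    (h : v l = i + 1) : ∑ k, Function.update v l i k + 1 = ∑ k, v k := by
  rw [Finset.sum_update_of_mem (Finset.mem_univ l), ← Finset.add_sum_erase univ v
    (Finset.mem_univ l), h, Finset.sdiff_singleton_eq_erase]
  omega

theorem start_main {P : Finset α} {ext : Finset α → Finset α} {U : Finset α → ℝ} {Dp δ : ℝ}
    {n : ℕ} (hD : 3 ≤ D) (hG : Geom D P ext) (hU : Pot Dp P ext U) (hUP : U P ≤ 0)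
    (hδ0 : 0 ≤ δ) (hδ1 : δ ≤ 1) (hδ : δ * ((D : ℝ) + 1) ^ (n + 1) < 1)
    (hDp0 : 0 ≤ Dp) (hDp : Dp ≤ D + δ) (hn : D + n ≤ P.card) :
    ∃ L : Fin D → ℕ → α, ∀ v : Fin D → ℕ, ∑ k, v k ≤ n →
      ext (St P L v) = ptrs L v ∧ Function.Injective (fun j => L j (v j)) := by
  have hD1 : 1 ≤ D := by omega
  have hok0 : StartOk P ext U D δ 0 P := by
    refine ⟨Finset.Subset.refl _, ?_, by omega⟩
    unfold startB
    rw [pow_zero, sub_self, mul_zero, add_zero, ← Real.exp_zero]
    exact Real.exp_le_exp.2 hUP
  have hcardD : ∀ {k S}, StartOk P ext U D δ k S → k ≤ n → (ext S).card = D := by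
    intro k S h hk
    have h1 := h.card
    exact start_card hD1 hG hU hδ0 hδ1 hδ hDp0 hDp h.sub (by omega) hk h.bd
  have herase : ∀ {k S}, StartOk P ext U D δ k S → k ≤ n → ∀ {e}, e ∈ ext S →
      StartOk P ext U D δ (k + 1) (S.erase e) := by
    intro k S h hk e he
    exact h.erase hD1 hG hU hδ0 hδ1 hDp0 hDp (by omega) he
  have hP := hcardD hok0 (Nat.zero_le _)
  -- the pointers at the origin
  obtain ⟨p, hpinj, hpim⟩ : ∃ p : Fin D → α, Function.Injective p ∧ univ.image p = ext P := by
    let e := (ext P).equivFinOfCardEq hP
    refine ⟨fun l => (e.symm l).1, ?_, ?_⟩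
    · intro l l' h
      exact e.symm.injective (Subtype.ext h)
    · ext x
      simp only [Finset.mem_image, Finset.mem_univ, true_and]
      constructor
      · rintro ⟨l, rfl⟩
        exact (e.symm l).2
      · intro hx
        exact ⟨e ⟨x, hx⟩, by simp⟩
  have hpmem : ∀ l, p l ∈ ext P := fun l => by
    rw [← hpim]
    exact Finset.mem_image_of_mem _ (Finset.mem_univ _)
  let L : Fin D → ℕ → α := fun l m => (startPeel ext P (p l) m).2
  have hL0 : ∀ l, L l 0 = p l := fun l => rfl
  -- one letter
  have hone : ∀ l m, m ≤ n → StartOk P ext U D δ m (startPeel ext P (p l) m).1 ∧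
      ext (startPeel ext P (p l) m).1 = insert (L l m) ((ext P).erase (p l)) ∧
      L l m ∉ (ext P).erase (p l) := by
    intro l m
    induction m with
    | zero =>
      intro _
      refine ⟨hok0, ?_, ?_⟩
      · exact (Finset.insert_erase (hpmem l)).symm
      · exact Finset.notMem_erase _ _
    | succ m ih =>
      intro hm
      obtain ⟨h1, h2, h3⟩ := ih (by omega)
      have hx : L l m ∈ ext (startPeel ext P (p l) m).1 := by
        rw [h2]
        exact Finset.mem_insert_self _ _
      have h4 : StartOk P ext U D δ (m + 1) ((startPeel ext P (p l) m).1.erase (L l m)) :=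
        herase h1 (by omega) hx
      obtain ⟨h5, h6⟩ := start_ext_erase hG hD1 h1.sub (hcardD h1 (by omega)) hx
        (hcardD h4 hm)
      have h7 : (ext (startPeel ext P (p l) m).1).erase (L l m) = (ext P).erase (p l) := by
        rw [h2, Finset.erase_insert h3]
      refine ⟨h4, ?_, ?_⟩
      · rw [h7] at h6
        exact h6
      · intro hc
        apply h5
        rw [h2]
        exact Finset.mem_insert_of_mem hc
  have hset : ∀ l m, (startPeel ext P (p l) m).1 = P \ (range m).image (L l) := by
    intro l m
    induction m with
    | zero => simp [startPeel]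
    | succ m ih =>
      rw [Finset.range_add_one, Finset.image_insert, Finset.sdiff_insert, ← ih]
      rfl
  -- the general claim
  have hgen : ∀ N, ∀ v : Fin D → ℕ, ∑ k, v k = N → N ≤ n →
      StartOk P ext U D δ N (St P L v) ∧ ext (St P L v) = ptrs L v ∧
        Function.Injective (fun j => L j (v j)) := by
    intro N
    induction N using Nat.strong_induction_on with
    | _ N IH =>
      intro v hv hN
      by_cases hsing : ∃ l, ∀ k, k ≠ l → v k = 0
      · obtain ⟨l, hl⟩ := hsing
        have hsum : v l = N := by
          rw [← hv, ← Finset.add_sum_erase univ v (Finset.mem_univ l),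
            Finset.sum_eq_zero fun k hk => hl k (Finset.ne_of_mem_erase hk), add_zero]
        obtain ⟨h1, h2, h3⟩ := hone l (v l) (by omega)
        have hSt : St P L v = (startPeel ext P (p l) (v l)).1 := by
          rw [hset]
          unfold St Rem
          congr 1
          ext x
          simp only [Finset.mem_biUnion, Finset.mem_univ, true_and]
          constructor
          · rintro ⟨k, hk⟩
            by_cases hkl : k = l
            · subst hkl
              exact hk
            · rw [hl k hkl] at hk
              simp at hk
          · intro hx
            exact ⟨l, hx⟩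
        have hLk : ∀ k, k ≠ l → L k (v k) = p k := fun k hk => by rw [hl k hk, hL0]
        have hmem : ∀ k, k ≠ l → p k ∈ (ext P).erase (p l) := fun k hk =>
          Finset.mem_erase.2 ⟨fun h => hk (hpinj h), hpmem k⟩
        refine ⟨?_, ?_, ?_⟩
        · rw [hSt, ← hsum]
          exact h1
        · rw [hSt, h2]
          ext x
          simp only [ptrs, Finset.mem_insert, Finset.mem_image, Finset.mem_univ, true_and]
          constructor
          · rintro (rfl | hx)
            · exact ⟨l, rfl⟩
            · rw [Finset.mem_erase, ← hpim, Finset.mem_image] at hx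
              obtain ⟨hx1, k, -, rfl⟩ := hx
              have hkl : k ≠ l := fun h => hx1 (by rw [h])
              exact ⟨k, hLk k hkl⟩
          · rintro ⟨k, rfl⟩
            by_cases hkl : k = l
            · left
              rw [hkl]
            · right
              rw [hLk k hkl]
              exact hmem k hkl
        · intro j j' hjj
          simp only at hjj
          by_cases hj : j = l
          · by_cases hj' : j' = l
            · rw [hj, hj']
            · exfalso
              rw [hj, hLk j' hj'] at hjj
              exact h3 (hjj ▸ hmem j' hj')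
          · by_cases hj' : j' = l
            · exfalso
              rw [hj', hLk j hj] at hjj
              exact h3 (hjj ▸ hmem j hj)
            · rw [hLk j hj, hLk j' hj'] at hjj
              exact hpinj hjj
      · -- two coordinates are nonzero
        push Not at hsing
        obtain ⟨l, -, hl⟩ := hsing ⟨0, by omega⟩
        obtain ⟨k, hkl, hk⟩ := hsing l
        obtain ⟨i, hi⟩ := Nat.exists_eq_succ_of_ne_zero hl
        obtain ⟨j, hj⟩ := Nat.exists_eq_succ_of_ne_zero hk
        rw [Nat.succ_eq_add_one] at hi hj
        have hsA := start_sum_update v l i hi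
        have hsB := start_sum_update v k j hj
        have hjA : Function.update v l i k = j + 1 := by rw [Function.update_of_ne hkl, hj]
        have hsC := start_sum_update (Function.update v l i) k j hjA
        obtain ⟨A1, A2, A3⟩ := IH (N - 1) (by omega) (Function.update v l i) (by omega)
          (by omega)
        obtain ⟨B1, B2, B3⟩ := IH (N - 1) (by omega) (Function.update v k j) (by omega)
          (by omega)
        obtain ⟨C1, C2, C3⟩ := IH (N - 2) (by omega)
          (Function.update (Function.update v l i) k j) (by omega) (by omega)
        have hStA := start_St_update P L v l i hi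
        have hStB := start_St_update P L v k j hj
        have hStC := start_St_update P L (Function.update v l i) k j hjA
        have hAl : L l (Function.update v l i l) = L l i := by rw [Function.update_self]
        have hAne : ∀ m, m ≠ l → L m (Function.update v l i m) = L m (v m) := fun m hm => by
          rw [Function.update_of_ne hm]
        have hBk : L k (Function.update v k j k) = L k j := by rw [Function.update_self]
        have hBne : ∀ m, m ≠ k → L m (Function.update v k j m) = L m (v m) := fun m hm => by
          rw [Function.update_of_ne hm]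
        have hmA : L l i ∈ ext (St P L (Function.update v l i)) := by
          rw [A2, ← hAl]
          exact Finset.mem_image_of_mem _ (Finset.mem_univ l)
        have hmB : L k j ∈ ext (St P L (Function.update v k j)) := by
          rw [B2, ← hBk]
          exact Finset.mem_image_of_mem _ (Finset.mem_univ k)
        have hok : StartOk P ext U D δ N (St P L v) := by
          have := herase A1 (by omega) hmA
          rw [← hStA] at this
          have hN1 : N - 1 + 1 = N := by omega
          rwa [hN1] at this
        have hcard := hcardD hok hN
        -- the pointers of v are extreme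
        have hmono : ∀ m, L m (v m) ∈ ext (St P L v) := by
          intro m
          by_cases hm : m = l
          · -- use B
            subst hm
            have h1 : L m (v m) ∈ ext (St P L (Function.update v k j)) := by
              rw [B2, ← hBne m hkl.symm]
              exact Finset.mem_image_of_mem _ (Finset.mem_univ m)
            have h2 : L m (v m) ∈ St P L v := by
              rw [hStB, Finset.mem_erase]
              refine ⟨fun h => ?_, hG.sub _ B1.sub h1⟩
              apply hkl
              apply B3
              simp only
              rw [hBk, hBne m hkl.symm, h]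
            refine hG.mono _ _ B1.sub ?_ _ h1 h2
            rw [hStB]
            exact Finset.erase_subset _ _
          · have h1 : L m (v m) ∈ ext (St P L (Function.update v l i)) := by
              rw [A2, ← hAne m hm]
              exact Finset.mem_image_of_mem _ (Finset.mem_univ m)
            have h2 : L m (v m) ∈ St P L v := by
              rw [hStA, Finset.mem_erase]
              refine ⟨fun h => ?_, hG.sub _ A1.sub h1⟩
              apply hm
              apply A3
              simp only
              rw [hAl, hAne m hm, h]
            refine hG.mono _ _ A1.sub ?_ _ h1 h2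
            rw [hStA]
            exact Finset.erase_subset _ _
        -- injectivity
        have hinj : Function.Injective (fun m => L m (v m)) := by
          intro m m' hmm
          simp only at hmm
          by_contra hne
          by_cases h1 : m ≠ l ∧ m' ≠ l
          · apply hne
            apply A3
            simp only
            rw [hAne m h1.1, hAne m' h1.2, hmm]
          by_cases h2 : m ≠ k ∧ m' ≠ k
          · apply hne
            apply B3
            simp only
            rw [hBne m h2.1, hBne m' h2.2, hmm]
          -- the two lists meet
          have hz : L l (v l) = L k (v k) := by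
            by_cases h3 : m = l
            · subst h3
              have h4 : m' = k := by
                by_contra h5
                exact h2 ⟨hkl.symm, h5⟩
              rw [← h4, hmm]
            · have h3' : m' = l := by
                by_contra h5
                exact h1 ⟨h3, h5⟩
              subst h3'
              have h4 : m = k := by
                by_contra h5
                exact h2 ⟨h5, hkl.symm⟩
              rw [← h4, hmm]
          set R : Finset α := ((univ.erase l).erase k).image (fun m => L m (v m)) with hR
          have hRmem : ∀ x ∈ R, ∃ m, m ≠ k ∧ m ≠ l ∧ L m (v m) = x := by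
            intro x hx
            rw [hR, Finset.mem_image] at hx
            obtain ⟨m, hm, rfl⟩ := hx
            rw [Finset.mem_erase, Finset.mem_erase] at hm
            exact ⟨m, hm.1, hm.2.1, rfl⟩
          have hRcard : R.card + 2 = D := by
            rw [hR, Finset.card_image_of_injOn, Finset.card_erase_of_mem,
              Finset.card_erase_of_mem (Finset.mem_univ l), Finset.card_univ, Fintype.card_fin]
            · omega
            · rw [Finset.mem_erase]
              exact ⟨hkl, Finset.mem_univ k⟩
            · intro m1 hm1 m2 hm2 h12
              rw [Finset.mem_coe, Finset.mem_erase, Finset.mem_erase] at hm1 hm2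
              apply A3
              simp only at h12 ⊢
              rw [hAne m1 hm1.2.1, hAne m2 hm2.2.1, h12]
          have hRP : R ⊆ P := by
            intro x hx
            obtain ⟨m, -, -, rfl⟩ := hRmem x hx
            exact hok.sub (hG.sub _ hok.sub (hmono m))
          have haP : L l i ∈ P := A1.sub (hG.sub _ A1.sub hmA)
          have hbP : L k j ∈ P := B1.sub (hG.sub _ B1.sub hmB)
          have hzP : L l (v l) ∈ P := hok.sub (hG.sub _ hok.sub (hmono l))
          have haR : L l i ∉ R := by
            intro h
            obtain ⟨m, -, hml, hm⟩ := hRmem _ h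
            apply hml
            apply A3
            simp only
            rw [hAne m hml, hAl, hm]
          have hbR : L k j ∉ R := by
            intro h
            obtain ⟨m, hmk, -, hm⟩ := hRmem _ h
            apply hmk
            apply B3
            simp only
            rw [hBne m hmk, hBk, hm]
          have hzR : L l (v l) ∉ R := by
            intro h
            obtain ⟨m, hmk, hml, hm⟩ := hRmem _ h
            apply hml
            apply B3
            simp only
            rw [hBne m hmk, hBne l hkl.symm, hm]
          have hCl : L l (Function.update (Function.update v l i) k j l) = L l i := by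
            rw [Function.update_of_ne hkl.symm, Function.update_self]
          have hCk : L k (Function.update (Function.update v l i) k j k) = L k j := by
            rw [Function.update_self]
          have hCne : ∀ m, m ≠ k → m ≠ l →
              L m (Function.update (Function.update v l i) k j m) = L m (v m) := by
            intro m hmk hml
            rw [Function.update_of_ne hmk, Function.update_of_ne hml]
          have hab : L l i ≠ L k j := by
            intro h
            apply hkl
            apply C3
            simp only
            rw [hCl, hCk, h]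
          have haz : L l i ≠ L l (v l) := by
            intro h
            apply hkl
            apply A3
            simp only
            rw [hAl, hAne k hkl, h, hz]
          have hbz : L k j ≠ L l (v l) := by
            intro h
            apply hkl
            apply B3
            simp only
            rw [hBk, hBne l hkl.symm, h]
          -- another element
          have hlt : (insert (L l (v l)) R).card < (St P L v).card := by
            have h5 := hok.card
            have h6 := Finset.card_insert_le (L l (v l)) R
            omega
          obtain ⟨o, ho1, ho2⟩ := Finset.exists_mem_notMem_of_card_lt_card hlt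
          have hSA : St P L v ⊆ St P L (Function.update v l i) := by
            rw [hStA]
            exact Finset.erase_subset _ _
          have hSB : St P L v ⊆ St P L (Function.update v k j) := by
            rw [hStB]
            exact Finset.erase_subset _ _
          have hSC : St P L (Function.update v l i) ⊆
              St P L (Function.update (Function.update v l i) k j) := by
            rw [hStC]
            exact Finset.erase_subset _ _
          have hfin := hG.three R (L l i) (L k j) (L l (v l)) o hRcard hRP haP hbP hzP haR hbR hzR
            hab haz hbz _ _ _ C1.sub A1.sub B1.sub ?_ ?_ ?_ (hSC (hSA ho1)) (hSA ho1) (hSB ho1)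
          · rw [Finset.mem_insert, Finset.mem_insert] at hfin
            rcases hfin with h | h | h
            · rw [h, hStA] at ho1
              exact Finset.notMem_erase _ _ ho1
            · rw [h, hStB] at ho1
              exact Finset.notMem_erase _ _ ho1
            · exact ho2 h
          · rw [C2]
            intro x hx
            rw [ptrs, Finset.mem_image] at hx
            obtain ⟨m, -, rfl⟩ := hx
            by_cases hml : m = l
            · subst hml
              rw [hCl]
              exact Finset.mem_insert_self _ _
            by_cases hmk : m = k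
            · subst hmk
              rw [hCk]
              exact Finset.mem_insert_of_mem (Finset.mem_insert_self _ _)
            · rw [hCne m hmk hml]
              refine Finset.mem_insert_of_mem (Finset.mem_insert_of_mem ?_)
              rw [hR, Finset.mem_image]
              exact ⟨m, by simp [hml, hmk], rfl⟩
          · rw [A2]
            intro x hx
            rw [ptrs, Finset.mem_image] at hx
            obtain ⟨m, -, rfl⟩ := hx
            by_cases hml : m = l
            · subst hml
              rw [hAl]
              exact Finset.mem_insert_self _ _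
            rw [hAne m hml]
            by_cases hmk : m = k
            · subst hmk
              rw [← hz]
              exact Finset.mem_insert_of_mem (Finset.mem_insert_self _ _)
            · refine Finset.mem_insert_of_mem (Finset.mem_insert_of_mem ?_)
              rw [hR, Finset.mem_image]
              exact ⟨m, by simp [hml, hmk], rfl⟩
          · rw [B2]
            intro x hx
            rw [ptrs, Finset.mem_image] at hx
            obtain ⟨m, -, rfl⟩ := hx
            by_cases hmk : m = k
            · subst hmk
              rw [hBk]
              exact Finset.mem_insert_self _ _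
            rw [hBne m hmk]
            by_cases hml : m = l
            · subst hml
              exact Finset.mem_insert_of_mem (Finset.mem_insert_self _ _)
            · refine Finset.mem_insert_of_mem (Finset.mem_insert_of_mem ?_)
              rw [hR, Finset.mem_image]
              exact ⟨m, by simp [hml, hmk], rfl⟩
        refine ⟨hok, ?_, hinj⟩
        symm
        apply Finset.eq_of_subset_of_card_le
        · intro x hx
          rw [ptrs, Finset.mem_image] at hx
          obtain ⟨m, -, rfl⟩ := hx
          exact hmono m
        · rw [hcard, ptrs, Finset.card_image_of_injective _ hinj, Finset.card_univ,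
            Fintype.card_fin]
  exact ⟨L, fun v hv => ((hgen _ v rfl hv)).2⟩

theorem startStmt : StartStmt := by
  intro D T0 hD
  have hD' : (0 : ℝ) < D := by exact_mod_cast (by omega : 0 < D)
  have hqpos : (0 : ℝ) < ((D : ℝ) + 1) ^ (2 * T0 + 1) := by positivity
  have hq1 := start_pow (D := D) (2 * T0 + 1)
  set δ : ℝ := 1 / (2 * ((D : ℝ) + 1) ^ (2 * T0 + 1)) with hδ
  have hδpos : 0 < δ := by positivity
  have hδ1 : δ ≤ 1 := by
    rw [hδ, div_le_one (by positivity)]
    linarith
  have hδ2 : δ * ((D : ℝ) + 1) ^ (2 * T0 + 1) < 1 := by
    have : δ * ((D : ℝ) + 1) ^ (2 * T0 + 1) = 1 / 2 := by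
      rw [hδ]
      field_simp
    rw [this]
    norm_num
  refine ⟨Real.log (1 + δ / D), Real.log_pos (by linarith [div_pos hδpos hD']), ?_⟩
  intro α _ P ext U Dp eta hG hU hUP heta0 heta hDp hcard
  have hexp : Real.exp eta ≤ 1 + δ / D := by
    rw [← Real.exp_log (by positivity : (0 : ℝ) < 1 + δ / D)]
    exact Real.exp_le_exp.2 heta
  have hDp1 : Dp ≤ D + δ := by
    rw [hDp]
    calc (D : ℝ) * Real.exp eta ≤ D * (1 + δ / D) := by gcongr
      _ = D + δ := by field_simp
  have hDp0 : 0 ≤ Dp := by
    rw [hDp]
    positivity
  have hn : D + 2 * T0 ≤ P.card := by nlinarith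
  obtain ⟨L, hL⟩ := start_main (n := 2 * T0) hD hG hU hUP hδpos.le hδ1 hδ2 hDp0 hDp1 hn
  have hsum : ∀ (l : Fin D) (m : ℕ), ∑ k, (fun k => if k = l then m else 0) k = m := by
    intro l m
    simp
  have hext : ∀ l m, m ≤ T0 → L l m ∈ ext (St P L (fun k => if k = l then m else 0)) := by
    intro l m hm
    obtain ⟨h1, -⟩ := hL (fun k => if k = l then m else 0) (by rw [hsum]; omega)
    rw [h1, ptrs, Finset.mem_image]
    exact ⟨l, Finset.mem_univ _, by simp⟩
  have hSt : ∀ l m, m ≤ T0 → L l m ∈ St P L (fun k => if k = l then m else 0) := by
    intro l m hm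
    exact hG.sub _ (Finset.sdiff_subset) (hext l m hm)
  refine ⟨L, ?_, hext, ?_⟩
  · intro l
    refine ⟨fun m hm => Finset.sdiff_subset (hSt l m hm), ?_⟩
    have key : ∀ m m', m < m' → m' ≤ T0 → L l m ≠ L l m' := by
      intro m m' hmm hm' h
      have h1 := hSt l m' hm'
      rw [St, Finset.mem_sdiff] at h1
      apply h1.2
      rw [← h, Rem, Finset.mem_biUnion]
      exact ⟨l, Finset.mem_univ _, Finset.mem_image_of_mem _ (by simp [hmm])⟩
    intro m m' hm hm' h
    rcases lt_trichotomy m m' with hlt | heq | hlt
    · exact absurd h (key m m' hlt hm')
    · exact heq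
    · exact absurd h.symm (key m' m hlt hm)
  · intro l k hlk i i' hi hi' h
    obtain ⟨-, h2⟩ := hL (fun j => (if j = l then i else 0) + (if j = k then i' else 0)) (by
      rw [Finset.sum_add_distrib]
      simp
      omega)
    apply hlk
    apply h2
    simp only [if_true, if_neg hlk, if_neg hlk.symm, add_zero, zero_add]
    exact h

end start

end Pool.Agent.Lib.MP_f1849d_co.J
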