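import Pool.Agent.Lib.MP_f1849d_co.J.Spec

/-! MP_f1849d_co, route J: double entries are junk (Z1). -/

open Finset
open scoped Classical

namespace Pool.Agent.Lib.MP_f1849d_co.J

lemma z1_card_box {D : ℕ} (m : Fin D) (nu c : ℕ) (I : Finset ℕ) (hI : I.card = c) :
    (Fintype.piFinset (fun k : Fin D => if k = m then {nu} else I)).card = c ^ (D - 1) := by
  rw [Fintype.card_piFinset, ← Finset.mul_prod_erase univ _ (mem_univ m), if_pos rfl,
    card_singleton, one_mul, Finset.prod_congr rfl (g := fun _ => c), Finset.prod_const,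
    card_erase_of_mem (mem_univ m), card_univ, Fintype.card_fin]
  intro k hk
  rw [if_neg (Finset.ne_of_mem_erase hk), hI]

/-- Two families with more than half of the elements have members differing by a swap. -/
lemma z1_common {D : ℕ} (a b : Fin D) (hab : a ≠ b) (n1 n2 c : ℕ) (I : Finset ℕ)
    (hI : I.card = c) (F1 F2 : Finset (Fin D → ℕ))
    (h1 : F1 ⊆ Fintype.piFinset (fun k : Fin D => if k = a then {n1} else I))
    (h2 : F2 ⊆ Fintype.piFinset (fun k : Fin D => if k = b then {n2} else I))
    (hc1 : c ^ (D - 1) < 2 * F1.card) (hc2 : c ^ (D - 1) < 2 * F2.card) :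
    ∃ p : Fin D → ℕ, (∀ k, p k ∈ I) ∧ Function.update p a n1 ∈ F1 ∧
      Function.update p b n2 ∈ F2 := by
  set φ : (Fin D → ℕ) → (Fin D → ℕ) := fun v =>
    Function.update (Function.update v a (v b)) b n2 with hφ
  have hm1 : ∀ v ∈ F1, v a = n1 ∧ ∀ k, k ≠ a → v k ∈ I := by
    intro v hv
    have h := Fintype.mem_piFinset.mp (h1 hv)
    refine ⟨?_, fun k hk => ?_⟩
    · have h3 := h a
      rw [if_pos rfl, mem_singleton] at h3
      exact h3
    · have h3 := h k
      rw [if_neg hk] at h3
      exact h3
  have hinj : Set.InjOn φ F1 := by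
    intro v hv w hw hvw
    have hv1 := hm1 v hv
    have hw1 := hm1 w hw
    funext k
    by_cases hka : k = a
    · rw [hka, hv1.1, hw1.1]
    · by_cases hkb : k = b
      · have h3 := congrFun hvw a
        rw [hφ] at h3
        dsimp only at h3
        rw [Function.update_of_ne hab, Function.update_self, Function.update_of_ne hab,
          Function.update_self] at h3
        rw [hkb]
        exact h3
      · have h3 := congrFun hvw k
        rw [hφ] at h3
        dsimp only at h3
        rw [Function.update_of_ne hkb, Function.update_of_ne hka, Function.update_of_ne hkb,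
          Function.update_of_ne hka] at h3
        exact h3
  have himg : F1.image φ ⊆ Fintype.piFinset (fun k : Fin D => if k = b then {n2} else I) := by
    intro w hw
    obtain ⟨v, hv, rfl⟩ := mem_image.mp hw
    have hv1 := hm1 v hv
    rw [Fintype.mem_piFinset]
    intro k
    rw [hφ]
    dsimp only
    by_cases hkb : k = b
    · rw [if_pos hkb, hkb, Function.update_self, mem_singleton]
    · rw [if_neg hkb, Function.update_of_ne hkb]
      by_cases hka : k = a
      · rw [hka, Function.update_self]
        exact hv1.2 b (Ne.symm hab)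
      · rw [Function.update_of_ne hka]
        exact hv1.2 k hka
  have hnd : ¬ Disjoint (F1.image φ) F2 := by
    intro hd
    have h3 := Finset.card_union_of_disjoint hd
    rw [Finset.card_image_of_injOn hinj] at h3
    have h4 := Finset.card_le_card (Finset.union_subset himg h2)
    rw [z1_card_box b n2 c I hI] at h4
    omega
  rw [Finset.not_disjoint_iff] at hnd
  obtain ⟨w, hw1, hw2⟩ := hnd
  obtain ⟨v, hv, rfl⟩ := mem_image.mp hw1
  have hv1 := hm1 v hv
  refine ⟨Function.update v a (v b), fun k => ?_, ?_, hw2⟩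
  · by_cases hka : k = a
    · rw [hka, Function.update_self]
      exact hv1.2 b (Ne.symm hab)
    · rw [Function.update_of_ne hka]
      exact hv1.2 k hka
  · have e : Function.update (Function.update v a (v b)) a n1 = v := by
      funext k
      by_cases hka : k = a
      · rw [hka, Function.update_self, hv1.1]
      · rw [Function.update_of_ne hka, Function.update_of_ne hka]
    rw [e]
    exact hv

lemma z1_mem_St {α : Type} [DecidableEq α] {D : ℕ} {P : Finset α} {L : Fin D → ℕ → α} {t : ℕ}
    {J : Finset α} (hInj : Inj P L (t + 1)) (hPriv : Priv L t J) {c : Fin D} {i : ℕ}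
    (hi : i ≤ t) (hiJ : L c i ∉ J) (v : Fin D → ℕ) (hv : ∀ k, v k ≤ t + 1) (hvc : v c ≤ i) :
    L c i ∈ St P L v := by
  unfold St
  rw [mem_sdiff]
  refine ⟨(hInj c).1 i (by omega), ?_⟩
  unfold Rem
  rw [mem_biUnion]
  rintro ⟨k, _, hk⟩
  obtain ⟨i', hi', he⟩ := mem_image.mp hk
  rw [mem_range] at hi'
  have hvk := hv k
  by_cases hkc : k = c
  · subst hkc
    have := (hInj k).2 i' i (by omega) (by omega) he
    omega
  · exact hiJ (he ▸ hPriv k c hkc i' i (by omega) hi he)

theorem z1Stmt (hc : Z1CountStmt) : Z1Stmt := by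
  intro α _ D _ P ext U L s t y b beta M J hD hG hInj hs hb hM hst h64 h48 hb0 hJ hPriv hNP hex
    hharv a b' j hab hj hx hxJ hpos
  by_contra hQ
  rw [not_le] at hQ
  have hy : 128 ≤ y := by
    have : 64 * 3 * 2 ≤ 64 * D * (b + beta + 2) :=
      Nat.mul_le_mul (Nat.mul_le_mul_left _ hD) (by omega)
    omega
  have hby : beta + 2 ≤ y := by
    have : 1 * (b + beta + 2) ≤ 64 * D * (b + beta + 2) :=
      Nat.mul_le_mul_right _ (by omega)
    omega
  have h1 := hc α D P ext U L s (t + 1) y b beta M J hD hG hInj hs hb hM (by omega) h64 h48 hb0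
    hJ hNP hharv a (t + 1) le_rfl (by omega)
    (by intro k _ i hi hk; have := hpos k i hi hk; omega) hQ
  have h2 := hc α D P ext U L s (t + 1) y b beta M J hD hG hInj hs hb hM (by omega) h64 h48 hb0
    hJ hNP hharv b' j hj (by have := hpos b' j hj hx.symm; omega)
    (by intro k _ i hi hk; have := hpos k i hi (hk.trans hx.symm); omega) (by rw [← hx]; exact hQ)
  obtain ⟨p, hpI, hp1, hp2⟩ := z1_common a b' hab (t + 1) j (16 * y + 1)
    (Finset.Icc (t + 1 - 32 * y) (t + 1 - 16 * y)) (by rw [Nat.card_Icc]; omega) _ _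
    (Finset.filter_subset _ _) (Finset.filter_subset _ _) h1 h2
  rw [mem_filter] at hp1 hp2
  obtain ⟨_, hJ1, u1, _, om1, j1, _, hpos1, hbad1, hcard1⟩ := hp1
  obtain ⟨_, hJ2, u2, _, om2, j2, _, hpos2, hbad2, hcard2⟩ := hp2
  set H1 := Hs U P L u1 ∅ om1 j1 with hH1
  set H2 := Hs U P L u2 ∅ om2 j2 with hH2
  unfold Bad at hbad1 hbad2
  rw [not_not, ← hH1, hpos1] at hbad1
  rw [not_not, ← hH2, hpos2] at hbad2
  have hpI' : ∀ k, t + 1 ≤ p k + 32 * y ∧ p k + 16 * y ≤ t + 1 := by
    intro k
    have := mem_Icc.mp (hpI k)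
    omega
  have hpJ : ∀ k, L k (p k) ∉ J := by
    intro k
    by_cases hka : k = a
    · have h3 := hJ2 k (by rw [hka]; exact hab)
      rw [Function.update_of_ne (by rw [hka]; exact hab)] at h3
      exact h3
    · have h3 := hJ1 k hka
      rw [Function.update_of_ne hka] at h3
      exact h3
  have hZ3 := hex p fun l => ⟨by have := hpI' l; omega, by have := hpI' l; omega, hpJ l⟩
  have hpt : ∀ k, p k ≤ t := fun k => by have := hpI' k; omega
  have hinjp : ∀ k l, L k (p k) = L l (p l) → k = l := by
    intro k l h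
    by_contra hkl
    exact hpJ k (hPriv k l hkl (p k) (p l) (hpt k) (hpt l) h)
  have hxp : ∀ k, L a (t + 1) ≠ L k (p k) := by
    intro k h
    have h3 := hpos k (p k) (by have := hpt k; omega) h.symm
    have := hpI' k
    omega
  set R : Finset α := ((univ.erase a).erase b').image fun k => L k (p k) with hR
  have hmemR : ∀ z, z ∈ R → ∃ k, k ≠ a ∧ k ≠ b' ∧ z = L k (p k) := by
    intro z hz
    obtain ⟨k, hk, rfl⟩ := mem_image.mp hz
    rw [mem_erase, mem_erase] at hk
    exact ⟨k, hk.2.1, hk.1, rfl⟩
  have hRmem : ∀ k, k ≠ a → k ≠ b' → L k (p k) ∈ R := by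
    intro k hka hkb
    exact mem_image.mpr ⟨k, mem_erase.mpr ⟨hkb, mem_erase.mpr ⟨hka, mem_univ _⟩⟩, rfl⟩
  have hRcard : R.card + 2 = D := by
    rw [hR, card_image_of_injective _ (fun k l h => hinjp k l h),
      card_erase_of_mem (mem_erase.mpr ⟨Ne.symm hab, mem_univ _⟩),
      card_erase_of_mem (mem_univ _), card_univ, Fintype.card_fin]
    omega
  have hP : ∀ k i, i ≤ t + 1 → L k i ∈ P := fun k i hi => (hInj k).1 i hi
  have hRP : R ⊆ P := by
    intro z hz
    obtain ⟨k, _, _, rfl⟩ := hmemR z hz
    exact hP k _ (by have := hpt k; omega)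
  have hSt : ∀ v, St P L v ⊆ P := fun v => sdiff_subset
  -- the three sets of extreme points
  have e1 : ext (St P L (Function.update p a (t + 1)) \ H1) ⊆
      insert (L a (t + 1)) (insert (L b' (p b')) R) := by
    refine hbad1.trans ?_
    intro z hz
    obtain ⟨k, _, rfl⟩ := mem_image.mp hz
    by_cases hka : k = a
    · rw [hka, Function.update_self]
      exact mem_insert_self _ _
    · rw [Function.update_of_ne hka]
      by_cases hkb : k = b'
      · rw [hkb]
        exact mem_insert_of_mem (mem_insert_self _ _)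
      · exact mem_insert_of_mem (mem_insert_of_mem (hRmem k hka hkb))
  have e2 : ext (St P L (Function.update p b' j) \ H2) ⊆
      insert (L a (t + 1)) (insert (L a (p a)) R) := by
    refine hbad2.trans ?_
    intro z hz
    obtain ⟨k, _, rfl⟩ := mem_image.mp hz
    by_cases hkb : k = b'
    · rw [hkb, Function.update_self, ← hx]
      exact mem_insert_self _ _
    · rw [Function.update_of_ne hkb]
      by_cases hka : k = a
      · rw [hka]
        exact mem_insert_of_mem (mem_insert_self _ _)
      · exact mem_insert_of_mem (mem_insert_of_mem (hRmem k hka hkb))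
  have e3 : ext (St P L p \ J) ⊆ insert (L b' (p b')) (insert (L a (p a)) R) := by
    refine hZ3.trans ?_
    intro z hz
    obtain ⟨k, _, rfl⟩ := mem_image.mp hz
    by_cases hkb : k = b'
    · rw [hkb]
      exact mem_insert_self _ _
    · by_cases hka : k = a
      · rw [hka]
        exact mem_insert_of_mem (mem_insert_self _ _)
      · exact mem_insert_of_mem (mem_insert_of_mem (hRmem k hka hkb))
  -- a third list
  obtain ⟨c, hca, hcb⟩ : ∃ c : Fin D, c ≠ a ∧ c ≠ b' := by
    by_contra hne
    push Not at hne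
    have h3 : (univ : Finset (Fin D)) ⊆ {a, b'} := by
      intro c _
      rw [mem_insert, mem_singleton]
      by_cases hca : c = a
      · exact Or.inl hca
      · exact Or.inr (hne c hca)
    have h4 := card_le_card h3
    rw [card_univ, Fintype.card_fin] at h4
    have h5 : ({a, b'} : Finset (Fin D)).card ≤ 2 := card_le_two
    omega
  -- the point o
  obtain ⟨i, hi1, hi2, hiJ, hi3, hi4, hix⟩ : ∃ i, t + 2 ≤ i + 16 * y ∧ i ≤ t ∧ L c i ∉ J ∧
      L c i ∉ H1 ∧ L c i ∉ H2 ∧ L c i ≠ L a (t + 1) := by
    by_contra hne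
    push Not at hne
    have h3 : (Finset.Icc (t + 2 - 16 * y) t).image (L c) ⊆
        insert (L a (t + 1)) (J ∪ (H1 ∪ H2)) := by
      intro z hz
      obtain ⟨i, hi, rfl⟩ := mem_image.mp hz
      rw [mem_Icc] at hi
      rw [mem_insert, mem_union, mem_union]
      by_cases h4 : L c i ∈ J
      · exact Or.inr (Or.inl h4)
      by_cases h5 : L c i ∈ H1
      · exact Or.inr (Or.inr (Or.inl h5))
      by_cases h6 : L c i ∈ H2
      · exact Or.inr (Or.inr (Or.inr h6))
      · exact Or.inl (hne i (by omega) hi.2 h4 h5 h6)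
    have h4 := card_le_card h3
    rw [card_image_of_injOn (by
      intro i hi i' hi' h
      rw [mem_coe, mem_Icc] at hi hi'
      exact (hInj c).2 i i' (by omega) (by omega) h), Nat.card_Icc] at h4
    have h5 := card_insert_le (L a (t + 1)) (J ∪ (H1 ∪ H2))
    have h6 := card_union_le J (H1 ∪ H2)
    have h7 := card_union_le H1 H2
    omega
  have hpc := hpI' c
  have hoP := hP c i (by omega)
  have ho : ∀ v : Fin D → ℕ, (∀ k, v k ≤ t + 1) → v c ≤ i → L c i ∈ St P L v :=
    fun v hv hvc => z1_mem_St hInj hPriv hi2 hiJ v hv hvc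
  have h3 := hG.three R (L a (t + 1)) (L b' (p b')) (L a (p a)) (L c i) hRcard hRP
    (hP a _ le_rfl) (hP b' _ (by have := hpt b'; omega)) (hP a _ (by have := hpt a; omega))
    (fun h => by obtain ⟨k, _, _, hk⟩ := hmemR _ h; exact hxp k hk)
    (fun h => by obtain ⟨k, _, hkb, hk⟩ := hmemR _ h; exact hkb (hinjp _ _ hk).symm)
    (fun h => by obtain ⟨k, hka, _, hk⟩ := hmemR _ h; exact hka (hinjp _ _ hk).symm)
    (hxp b') (hxp a) (fun h => hab (hinjp _ _ h).symm)
    _ _ _ (sdiff_subset.trans (hSt _)) (sdiff_subset.trans (hSt _)) (sdiff_subset.trans (hSt _))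
    e1 e2 e3
    (mem_sdiff.mpr ⟨ho _ (fun k => by
      by_cases hka : k = a
      · rw [hka, Function.update_self]
      · rw [Function.update_of_ne hka]
        have := hpt k
        omega) (by rw [Function.update_of_ne hca]; omega), hi3⟩)
    (mem_sdiff.mpr ⟨ho _ (fun k => by
      by_cases hkb : k = b'
      · rw [hkb, Function.update_self]
        exact hj
      · rw [Function.update_of_ne hkb]
        have := hpt k
        omega) (by rw [Function.update_of_ne hcb]; omega), hi4⟩)
    (mem_sdiff.mpr ⟨ho _ (fun k => by have := hpt k; omega) (by omega), hiJ⟩)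
  have hop : ∀ k, L c i ≠ L k (p k) := by
    intro k h
    by_cases hkc : c = k
    · subst hkc
      have := (hInj c).2 i (p c) (by omega) (by omega) h
      omega
    · exact hiJ (hPriv c k hkc i (p k) hi2 (hpt k) h)
  rw [mem_insert, mem_insert, mem_insert] at h3
  rcases h3 with h3 | h3 | h3 | h3
  · exact hix h3
  · exact hop b' h3
  · exact hop a h3
  · obtain ⟨k, _, _, hk⟩ := hmemR _ h3
    exact hop k hk

end Pool.Agent.Lib.MP_f1849d_co.J
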