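import Pool.Agent.Lib.MP_f1849d_co.J.Spec

/-!
MP_f1849d_co, route J: the counting part of Z1.
-/

open Finset
open scoped Classical

namespace Pool.Agent.Lib.MP_f1849d_co.J

section Z1C
variable {α : Type} [DecidableEq α] {D : ℕ}

lemma z1c_sub (hH : HarvStmt) (hN : NodesStmt) {ext : Finset α → Finset α} {P : Finset α}
    {U : Finset α → ℝ} {L : Fin D → ℕ → α} {s W T : ℕ}
    (hG : Geom D P ext) (hI : Inj P L T) (hs : 0 < s) (u : Fin D → ℕ) (om : ℕ → Fin D) :
    ∀ j, Alive P L s W T u om j →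
      pre U P L u ∅ om j ⊆ Hs U P L u ∅ om j ∧
        Hs U P L u ∅ om j ⊆ St P L (pos L u om j) := by
  intro j
  induction j with
  | zero =>
    intro _
    have h := hH α ext P U D hG (St P L (pos L u om 0)) ∅ sdiff_subset (empty_subset _)
    exact ⟨h.1, h.2.1⟩
  | succ j ih =>
    intro hA
    have hA' : Alive P L s W T u om j := fun i hi => hA i (hi.trans (Nat.le_succ j))
    obtain ⟨_, h2⟩ := ih hA'
    have hn1 := hA (j + 1) le_rfl
    have hn := hA j (Nat.le_succ j)
    have hpos : 0 < nxt L (om j) (pos L u om j) (om j) := lt_of_lt_of_le hs (hn1.1 (om j)).1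
    have hst := ((hN α D P L s W T hI hs (pos L u om j) hn (om j)).2.1 hpos).2.1
    have hpre : pre U P L u ∅ om (j + 1) ⊆ St P L (pos L u om (j + 1)) := by
      change (Hs U P L u ∅ om j).erase _ ⊆ St P L (nxt L (om j) (pos L u om j))
      rw [hst]
      exact erase_subset_erase _ h2
    have h := hH α ext P U D hG (St P L (pos L u om (j + 1))) (pre U P L u ∅ om (j + 1))
      sdiff_subset hpre
    exact ⟨h.1, h.2.1⟩

lemma z1c_card {P : Finset α}
    {U : Finset α → ℝ} {L : Fin D → ℕ → α} {s W T : ℕ} (u : Fin D → ℕ) (om : ℕ → Fin D) :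
    ∀ j, Alive P L s W T u om j →
      ((Hs U P L u ∅ om j).card : ℝ) ≤ ∑ i ∈ range (j + 1), (if Alive P L s W T u om i then
          (((Hs U P L u ∅ om i).card : ℝ) - ((pre U P L u ∅ om i).card : ℝ)) else 0) := by
  intro j
  induction j with
  | zero =>
    intro hA
    rw [sum_range_one, if_pos hA]
    have : (pre U P L u ∅ om 0).card = 0 := by simp [pre]
    rw [this]
    simp
  | succ j ih =>
    intro hA
    have hA' : Alive P L s W T u om j := fun i hi => hA i (hi.trans (Nat.le_succ j))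
    rw [sum_range_succ, if_pos hA]
    have h1 := ih hA'
    have h2 : (pre U P L u ∅ om (j + 1)).card ≤ (Hs U P L u ∅ om j).card := by
      change ((Hs U P L u ∅ om j).erase _).card ≤ _
      exact card_le_card (erase_subset _ _)
    have h3 : ((pre U P L u ∅ om (j + 1)).card : ℝ) ≤ (Hs U P L u ∅ om j).card := by
      exact_mod_cast h2
    linarith

lemma z1c_card' (hH : HarvStmt) (hN : NodesStmt) {ext : Finset α → Finset α} {P : Finset α}
    {U : Finset α → ℝ} {L : Fin D → ℕ → α} {s W T : ℕ}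
    (hG : Geom D P ext) (hI : Inj P L T) (hs : 0 < s) (u : Fin D → ℕ) (om : ℕ → Fin D) (M : ℕ) :
    (0 ≤ ∑ i ∈ range M, (if Alive P L s W T u om i then
          (((Hs U P L u ∅ om i).card : ℝ) - ((pre U P L u ∅ om i).card : ℝ)) else 0)) ∧
    ∀ j, j < M → Alive P L s W T u om j →
      ((Hs U P L u ∅ om j).card : ℝ) ≤ ∑ i ∈ range M, (if Alive P L s W T u om i then
          (((Hs U P L u ∅ om i).card : ℝ) - ((pre U P L u ∅ om i).card : ℝ)) else 0) := by
  have hnn : ∀ i, 0 ≤ (if Alive P L s W T u om i then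
          (((Hs U P L u ∅ om i).card : ℝ) - ((pre U P L u ∅ om i).card : ℝ)) else 0) := by
    intro i
    split_ifs with h
    · have h1 := card_le_card (z1c_sub (U := U) hH hN hG hI hs u om i h).1
      have h2 : ((pre U P L u ∅ om i).card : ℝ) ≤ (Hs U P L u ∅ om i).card := by
        exact_mod_cast h1
      linarith
    · exact le_rfl
  refine ⟨sum_nonneg fun i _ => hnn i, fun j hj hA => ?_⟩
  refine (z1c_card u om j hA).trans ?_
  refine sum_le_sum_of_subset_of_nonneg ?_ fun i _ _ => hnn i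
  intro i hi
  rw [mem_range] at hi ⊢
  omega

/-- cardinality of a box with one coordinate fixed -/
lemma z1c_card_pi (m : Fin D) (x : ℕ) (S : Finset ℕ) :
    (Fintype.piFinset (fun k : Fin D => if k = m then {x} else S)).card = S.card ^ (D - 1) := by
  rw [Fintype.card_piFinset, ← mul_prod_erase univ _ (mem_univ m)]
  rw [if_pos rfl, card_singleton, one_mul]
  rw [prod_congr rfl (g := fun _ => S.card) (fun k hk => by rw [if_neg (ne_of_mem_erase hk)])]
  rw [prod_const, card_erase_of_mem (mem_univ m), card_univ, Fintype.card_fin]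

/-- cardinality of a box with two coordinates fixed -/
lemma z1c_card_pi2 (m k0 : Fin D) (h : k0 ≠ m) (x i : ℕ) (S : Finset ℕ) :
    (Fintype.piFinset (fun k : Fin D => if k = m then {x} else if k = k0 then {i} else S)).card
      = S.card ^ (D - 2) := by
  rw [Fintype.card_piFinset, ← mul_prod_erase univ _ (mem_univ m), if_pos rfl, card_singleton,
    one_mul, ← mul_prod_erase (univ.erase m) _ (mem_erase.2 ⟨h, mem_univ k0⟩), if_neg h,
    if_pos rfl, card_singleton, one_mul]
  rw [prod_congr rfl (g := fun _ => S.card) (fun k hk => by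
    rw [if_neg (ne_of_mem_erase (mem_of_mem_erase hk)), if_neg (ne_of_mem_erase hk)])]
  rw [prod_const, card_erase_of_mem (mem_erase.2 ⟨h, mem_univ k0⟩),
    card_erase_of_mem (mem_univ m), card_univ, Fintype.card_fin]
  congr 1

/-- few nodes have a junk pointer -/
lemma z1c_V {P : Finset α} {L : Fin D → ℕ → α} {T : ℕ} (hI : Inj P L T) (m : Fin D) (nu : ℕ)
    (S : Finset ℕ) (hS : ∀ i ∈ S, i ≤ T) (J : Finset α) :
    ((Fintype.piFinset (fun k : Fin D => if k = m then {nu} else S)).filter
      (fun v => ∃ k, k ≠ m ∧ L k (v k) ∈ J)).card ≤ D * (J.card * S.card ^ (D - 2)) := by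
  have hsub : (Fintype.piFinset (fun k : Fin D => if k = m then {nu} else S)).filter
      (fun v => ∃ k, k ≠ m ∧ L k (v k) ∈ J) ⊆
      (univ.erase m).biUnion fun k0 => (S.filter fun i => L k0 i ∈ J).biUnion fun i =>
        Fintype.piFinset (fun k : Fin D => if k = m then {nu} else if k = k0 then {i} else S) := by
    intro v hv
    rw [mem_filter, Fintype.mem_piFinset] at hv
    obtain ⟨hv1, k0, hk0, hJ⟩ := hv
    rw [mem_biUnion]
    refine ⟨k0, mem_erase.2 ⟨hk0, mem_univ _⟩, ?_⟩
    rw [mem_biUnion]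
    have h0 := hv1 k0
    rw [if_neg hk0] at h0
    refine ⟨v k0, mem_filter.2 ⟨h0, hJ⟩, ?_⟩
    rw [Fintype.mem_piFinset]
    intro k
    have h1 := hv1 k
    by_cases hkm : k = m
    · rw [if_pos hkm] at h1 ⊢
      exact h1
    · rw [if_neg hkm] at h1 ⊢
      by_cases hk : k = k0
      · rw [if_pos hk, hk]
        exact mem_singleton_self _
      · rw [if_neg hk]
        exact h1
  refine (card_le_card hsub).trans ?_
  refine card_biUnion_le.trans ?_
  have h1 : ∀ k0 ∈ (univ.erase m : Finset (Fin D)),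
      ((S.filter fun i => L k0 i ∈ J).biUnion fun i =>
        Fintype.piFinset (fun k : Fin D => if k = m then {nu} else if k = k0 then {i} else S)).card
        ≤ J.card * S.card ^ (D - 2) := by
    intro k0 hk0
    refine card_biUnion_le.trans ?_
    rw [sum_congr rfl (g := fun _ => S.card ^ (D - 2))
      (fun i _ => z1c_card_pi2 m k0 (ne_of_mem_erase hk0) nu i S)]
    rw [sum_const, smul_eq_mul]
    refine Nat.mul_le_mul_right _ ?_
    refine card_le_card_of_injOn (fun i => L k0 i) (fun i hi => ?_) ?_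
    · have hi' := (mem_filter.1 (Finset.mem_coe.1 hi)).2
      exact Finset.mem_coe.2 hi'
    · intro i hi i' hi' h
      have h1 := hS i (mem_filter.1 (Finset.mem_coe.1 hi)).1
      have h2 := hS i' (mem_filter.1 (Finset.mem_coe.1 hi')).1
      exact (hI k0).2 i i' h1 h2 h
  refine (sum_le_sum h1).trans ?_
  rw [sum_const, smul_eq_mul]
  refine Nat.mul_le_mul_right _ ?_
  rw [card_erase_of_mem (mem_univ m), card_univ, Fintype.card_fin]
  exact Nat.sub_le _ _

/-- many starts -/
lemma z1c_A (m : Fin D) (s y b' nu T : ℕ) (hb : 2 * b' ≤ 16 * y) (hnu : nu ≤ T)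
    (hnu2 : T ≤ nu + 8 * y) (hT : s + 140 * y ≤ T) :
    96 * y * (16 * y + 1 - 2 * b') ^ (D - 1) ≤
      ((box D s (128 * y)).filter (fun u => s + 32 * y ≤ u m ∧ ∀ k, k ≠ m →
        T - 32 * y + u m + b' ≤ nu + u k ∧ nu + u k + b' ≤ T - 16 * y + u m)).card := by
  have h1 : ((Ico (s + 32 * y) (s + 128 * y)) ×ˢ (Fintype.piFinset (fun k : Fin D =>
      if k = m then {0} else Icc (T - 32 * y + b') (T - 16 * y - b')))).card =
      96 * y * (16 * y + 1 - 2 * b') ^ (D - 1) := by
    rw [card_product, z1c_card_pi, Nat.card_Ico, Nat.card_Icc]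
    congr 2 <;> omega
  rw [← h1]
  refine card_le_card_of_injOn
    (fun q => fun k => if k = m then q.1 else q.2 k + q.1 - nu) (fun q hq => ?_) ?_
  · rw [Finset.mem_coe, mem_product, mem_Ico, Fintype.mem_piFinset] at hq
    obtain ⟨⟨h2, h3⟩, h4⟩ := hq
    rw [Finset.mem_coe, mem_filter]
    have h5 : ∀ k, k ≠ m → T - 32 * y + b' ≤ q.2 k ∧ q.2 k ≤ T - 16 * y - b' := by
      intro k hk
      have := h4 k
      rw [if_neg hk, mem_Icc] at this
      exact this
    refine ⟨?_, ?_, ?_⟩
    · rw [box, Fintype.mem_piFinset]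
      intro k
      rw [mem_Ico]
      beta_reduce
      by_cases hk : k = m
      · rw [if_pos hk]
        omega
      · rw [if_neg hk]
        have := h5 k hk
        omega
    · beta_reduce
      rw [if_pos rfl]
      exact h2
    · intro k hk
      have := h5 k hk
      beta_reduce
      rw [if_neg hk, if_pos rfl]
      omega
  · intro q hq q' hq' h
    rw [Finset.mem_coe, mem_product, mem_Ico, Fintype.mem_piFinset] at hq hq'
    obtain ⟨⟨h2, h3⟩, h4⟩ := hq
    obtain ⟨⟨h2', h3'⟩, h4'⟩ := hq'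
    have hm : q.1 = q'.1 := by
      have := congrFun h m
      simpa using this
    refine Prod.ext hm (funext fun k => ?_)
    have h5 := h4 k
    have h5' := h4' k
    by_cases hk : k = m
    · rw [if_pos hk, mem_singleton] at h5 h5'
      rw [h5, h5']
    · rw [if_neg hk, mem_Icc] at h5 h5'
      have h6 := congrFun h k
      simp only [if_neg hk] at h6
      omega

/-- the final computation -/
lemma z1c_arith (D : ℕ) (hD : 3 ≤ D) (Y bb be A V g q N1 : ℝ) (hY : 0 < Y) (hbb : 0 ≤ bb)
    (hbe : 0 ≤ be) (h1 : 64 * D * (bb + 2) ≤ Y) (h2 : 1000 * D * be ≤ Y)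
    (hA : 96 * Y * (16 * Y + 1 - 2 * bb) ^ (D - 1) ≤ A)
    (hV0 : 0 ≤ V) (hV : V ≤ D * (be * (16 * Y + 1) ^ (D - 2)))
    (hq : 8 * q < Y ^ D) (hN1 : N1 = (16 * Y + 1) ^ (D - 1))
    (hrow : (15 / 16 : ℝ) * (A - Y ^ D / 64 - V * (128 * Y + be)) ≤
      q + Y ^ D / 64 + g * (128 * Y + be)) : N1 < 2 * g := by
  obtain ⟨e, rfl⟩ : ∃ e, D = e + 3 := ⟨D - 3, by omega⟩
  have hD' : (3 : ℝ) ≤ ((e + 3 : ℕ) : ℝ) := by exact_mod_cast hD
  set Dr : ℝ := ((e + 3 : ℕ) : ℝ) with hDr
  have e1 : e + 3 - 1 = e + 2 := by omega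
  have e2 : e + 3 - 2 = e + 1 := by omega
  rw [e1] at hA hN1
  rw [e2] at hV
  set n : ℝ := 16 * Y + 1 with hn
  have hn0 : 0 < n := by positivity
  have hN0 : 0 < N1 := by rw [hN1]; positivity
  -- Bernoulli
  have hx0 : 0 ≤ 2 * bb / n := by positivity
  have hx : 2 * bb / n * Dr ≤ 1 / 512 := by
    rw [div_mul_eq_mul_div, div_le_iff₀ hn0]
    nlinarith
  have hx1 : 2 * bb / n ≤ 1 := by nlinarith
  have hB : N1 * (511 / 512) ≤ (n - 2 * bb) ^ (e + 2) := by
    have h3 : n - 2 * bb = n * (1 + (-(2 * bb / n))) := by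
      field_simp
      ring
    have h4 := one_add_mul_le_pow (a := -(2 * bb / n)) (by linarith) (e + 2)
    have h5 : (511 / 512 : ℝ) ≤ 1 + ((e + 2 : ℕ) : ℝ) * (-(2 * bb / n)) := by
      have h6 : ((e + 2 : ℕ) : ℝ) ≤ Dr := by
        rw [hDr]
        push_cast
        linarith
      nlinarith
    rw [h3, mul_pow, ← hN1]
    exact mul_le_mul_of_nonneg_left (h5.trans h4) hN0.le
  -- V
  have hVn : V * n ≤ Dr * be * N1 := by
    have : N1 = n ^ (e + 1) * n := by rw [hN1, pow_succ]
    rw [this]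
    nlinarith [mul_le_mul_of_nonneg_right hV hn0.le]
  have hVb : V * (128 * Y + be) ≤ Y * N1 * (9 / 1000) := by
    have hbe1 : be ≤ Y := by nlinarith
    have h6 : V * (128 * Y + be) ≤ V * (129 / 16 * n) :=
      mul_le_mul_of_nonneg_left (by rw [hn]; linarith) hV0
    have h7 : Dr * be * N1 ≤ Y / 1000 * N1 := by
      refine mul_le_mul_of_nonneg_right ?_ hN0.le
      linarith
    nlinarith
  -- Y ^ D
  have hYD : Y ^ (e + 3) ≤ Y * N1 / 256 := by
    have h8 : (16 * Y) ^ (e + 2) ≤ N1 := by
      rw [hN1]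
      exact pow_le_pow_left₀ (by positivity) (by linarith) _
    have h9 : (256 : ℝ) * Y ^ (e + 2) ≤ (16 * Y) ^ (e + 2) := by
      rw [mul_pow]
      refine mul_le_mul_of_nonneg_right ?_ (by positivity)
      calc (256 : ℝ) = 16 ^ 2 := by norm_num
        _ ≤ 16 ^ (e + 2) := pow_le_pow_right₀ (by norm_num) (by omega)
    have h10 : Y ^ (e + 3) = Y * Y ^ (e + 2) := by ring
    rw [h10]
    nlinarith
  by_contra hcon
  push Not at hcon
  have hYN : 0 < Y * N1 := mul_pos hY hN0
  have hA2 : 96 * (Y * N1) * (511 / 512) ≤ A := by nlinarith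
  have hbe1 : be ≤ Y := by nlinarith
  have hg : g * (128 * Y + be) ≤ N1 / 2 * (129 * Y) := by
    have h11 : g ≤ N1 / 2 := by linarith
    have h12 : (0 : ℝ) ≤ 128 * Y + be := by positivity
    calc g * (128 * Y + be) ≤ N1 / 2 * (128 * Y + be) := mul_le_mul_of_nonneg_right h11 h12
      _ ≤ N1 / 2 * (129 * Y) := mul_le_mul_of_nonneg_left (by linarith) (by positivity)
  nlinarith

end Z1C

/-- Z1, counting part -/
theorem z1Count (hAvg : AvgLibStmt) (hRow : RowStmt) (hCap : CapStmt) (hHarv : HarvStmt)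
    (hNodes : NodesStmt) : Z1CountStmt := by
  intro α _ D _ P ext U L s T y b beta M J hD hG hI hs hb1 hM hsT hbe hMb hb0 hJ hNP hharv m nu
    hnu hnu2 hother hQ
  obtain ⟨hadd, hmul, hconst, hmono, hsum⟩ := hAvg D M
  have hD192 : 192 ≤ 64 * D := by omega
  have hyb : 192 * (b + beta + 2) ≤ y := (Nat.mul_le_mul_right _ hD192).trans hb1
  have hy : 0 < y := by omega
  have hyr : (0 : ℝ) < y := by exact_mod_cast hy
  -- the box of nodes
  set B : Finset (Fin D → ℕ) := Fintype.piFinset (fun k : Fin D =>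
    if k = m then {nu} else Finset.Icc (T - 32 * y) (T - 16 * y)) with hB
  set G : Finset (Fin D → ℕ) := B.filter (fun v =>
      (∀ k, k ≠ m → L k (v k) ∉ J) ∧ ∃ u ∈ box D s (128 * y), ∃ om : ℕ → Fin D, ∃ j,
        Alive P L s (129 * y) T u om j ∧ pos L u om j = v ∧ ¬ Bad ext U P L u ∅ om j ∧
        (Hs U P L u ∅ om j).card ≤ y) with hGdef
  set V : Finset (Fin D → ℕ) := B.filter (fun v => ∃ k, k ≠ m ∧ L k (v k) ∈ J) with hV
  set A : Finset (Fin D → ℕ) := (box D s (128 * y)).filter (fun u => s + 32 * y ≤ u m ∧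
    ∀ k, k ≠ m → T - 32 * y + u m + (b + beta) ≤ nu + u k ∧
      nu + u k + (b + beta) ≤ T - 16 * y + u m) with hA
  have hboxm : ∀ u ∈ box D s (128 * y), ∀ k, s ≤ u k ∧ u k < s + 128 * y := by
    intro u hu k
    rw [box, Fintype.mem_piFinset] at hu
    exact Finset.mem_Ico.1 (hu k)
  have hrow := hRow α D P L s T y b beta M hD hI hs hNP (by omega) hM (by omega) hbe hMb hb0 A
    (filter_subset _ _) m nu (fun _ => T - 32 * y) (fun _ => T - 16 * y) hnu
    (fun k hk => by omega)
    (fun u hu => by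
      rw [hA, mem_filter] at hu
      obtain ⟨hu1, hu2, hu3⟩ := hu
      have := hboxm u hu1 m
      exact ⟨by omega, hu3⟩)
    (fun k hk i hi h => by
      have := hother k hk i (by omega) h
      omega) V
  -- pointwise bound
  have hpt : ∀ (u : Fin D → ℕ), u ∈ box D s (128 * y) → ∀ om : ℕ → Fin D,
      (if ∃ j, j < M ∧ Alive P L s (129 * y) T u om j ∧ om j = m ∧
        pos L u om j m = nu ∧ (∀ k, k ≠ m → T - 32 * y ≤ pos L u om j k ∧
          pos L u om j k ≤ T - 16 * y) ∧
        pos L u om j ∉ V then (1 : ℝ) else 0) ≤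
      ((if ∃ j, j < M ∧ Alive P L s (129 * y) T u om j ∧ ExitAt ext U P L u om j (L m nu)
          then (1 : ℝ) else 0) +
        (1 / (y : ℝ)) * ∑ j ∈ range M, (if Alive P L s (129 * y) T u om j then
          (((Hs U P L u ∅ om j).card : ℝ) - ((pre U P L u ∅ om j).card : ℝ)) else 0)) +
        ∑ v ∈ G, (if ∃ j, j < M ∧ Alive P L s (129 * y) T u om j ∧ om j = m ∧
          pos L u om j = v then (1 : ℝ) else 0) := by
    intro u hu om
    obtain ⟨hc0, hc1⟩ := z1c_card' (U := U) hHarv hNodes hG hI hs u om (W := 129 * y) M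
    have hX1 : (0 : ℝ) ≤ (if ∃ j, j < M ∧ Alive P L s (129 * y) T u om j ∧
        ExitAt ext U P L u om j (L m nu) then (1 : ℝ) else 0) := by
      split_ifs <;> norm_num
    have hX2 := mul_nonneg (by positivity : (0 : ℝ) ≤ 1 / (y : ℝ)) hc0
    have hX3 : (0 : ℝ) ≤ ∑ v ∈ G, (if ∃ j, j < M ∧ Alive P L s (129 * y) T u om j ∧ om j = m ∧
          pos L u om j = v then (1 : ℝ) else 0) := by
      refine sum_nonneg fun v _ => ?_
      split_ifs <;> norm_num
    by_cases hcr : ∃ j, j < M ∧ Alive P L s (129 * y) T u om j ∧ om j = m ∧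
        pos L u om j m = nu ∧ (∀ k, k ≠ m → T - 32 * y ≤ pos L u om j k ∧
          pos L u om j k ≤ T - 16 * y) ∧ pos L u om j ∉ V
    · rw [if_pos hcr]
      obtain ⟨j, hj, hal, hom, hnuj, hwin, hnV⟩ := hcr
      by_cases hbad : Bad ext U P L u ∅ om j
      · have : ∃ j, j < M ∧ Alive P L s (129 * y) T u om j ∧
            ExitAt ext U P L u om j (L m nu) := by
          refine ⟨j, hj, hal, Or.inr ⟨?_, hbad⟩⟩
          rw [hom, hnuj]
        rw [if_pos this] at *
        linarith
      · by_cases hcard : (Hs U P L u ∅ om j).card ≤ y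
        · have hmem : pos L u om j ∈ G := by
            have hBm : pos L u om j ∈ B := by
              rw [hB, Fintype.mem_piFinset]
              intro k
              by_cases hk : k = m
              · rw [if_pos hk, hk, mem_singleton]
                exact hnuj
              · rw [if_neg hk, Finset.mem_Icc]
                exact hwin k hk
            rw [hGdef, mem_filter]
            refine ⟨hBm, ?_, u, hu, om, j, hal, rfl, hbad, hcard⟩
            intro k hk hJ'
            apply hnV
            rw [hV, mem_filter]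
            exact ⟨hBm, k, hk, hJ'⟩
          have h1 : (1 : ℝ) ≤ ∑ v ∈ G, (if ∃ j, j < M ∧ Alive P L s (129 * y) T u om j ∧
              om j = m ∧ pos L u om j = v then (1 : ℝ) else 0) := by
            have h2 := single_le_sum (f := fun v => (if ∃ j, j < M ∧
              Alive P L s (129 * y) T u om j ∧ om j = m ∧ pos L u om j = v then (1 : ℝ) else 0))
              (fun v _ => by split_ifs <;> norm_num) hmem
            beta_reduce at h2
            rw [if_pos ⟨j, hj, hal, hom, rfl⟩] at h2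
            exact h2
          linarith
        · have h1 := hc1 j hj hal
          have h2 : (y : ℝ) ≤ (Hs U P L u ∅ om j).card := by
            exact_mod_cast (not_le.1 hcard).le
          have h3 : 1 ≤ (1 / (y : ℝ)) * ∑ j ∈ range M, (if Alive P L s (129 * y) T u om j then
              (((Hs U P L u ∅ om j).card : ℝ) - ((pre U P L u ∅ om j).card : ℝ)) else 0) := by
            rw [one_div, ← div_eq_inv_mul, le_div_iff₀ hyr]
            linarith
          linarith
    · rw [if_neg hcr]
      positivity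
  -- nonnegativity of averages
  have hnn : ∀ f : (ℕ → Fin D) → ℝ, (∀ om, 0 ≤ f om) → 0 ≤ Avg D M f := by
    intro f hf
    have := hmono (fun _ => 0) f hf
    rwa [hconst 0] at this
  -- summation
  have hup : ∑ u ∈ A, Avg D M (fun om => if ∃ j, j < M ∧ Alive P L s (129 * y) T u om j ∧
      om j = m ∧ pos L u om j m = nu ∧ (∀ k, k ≠ m → T - 32 * y ≤ pos L u om j k ∧
      pos L u om j k ≤ T - 16 * y) ∧ pos L u om j ∉ V then (1 : ℝ) else 0) ≤
      Q ext U P L s (128 * y) (129 * y) T M (L m nu) +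
      (1 / (y : ℝ)) * (∑ u ∈ box D s (128 * y), Avg D M (fun om => ∑ j ∈ range M,
        if Alive P L s (129 * y) T u om j then
          (((Hs U P L u ∅ om j).card : ℝ) - ((pre U P L u ∅ om j).card : ℝ)) else 0)) +
      (G.card : ℝ) * (128 * y + beta) := by
    have h1 : ∀ u ∈ A, Avg D M (fun om => if ∃ j, j < M ∧ Alive P L s (129 * y) T u om j ∧
        om j = m ∧ pos L u om j m = nu ∧ (∀ k, k ≠ m → T - 32 * y ≤ pos L u om j k ∧
        pos L u om j k ≤ T - 16 * y) ∧ pos L u om j ∉ V then (1 : ℝ) else 0) ≤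
        (Avg D M (fun om => if ∃ j, j < M ∧ Alive P L s (129 * y) T u om j ∧
          ExitAt ext U P L u om j (L m nu) then (1 : ℝ) else 0) +
        (1 / (y : ℝ)) * Avg D M (fun om => ∑ j ∈ range M,
          (if Alive P L s (129 * y) T u om j then
          (((Hs U P L u ∅ om j).card : ℝ) - ((pre U P L u ∅ om j).card : ℝ)) else 0))) +
        Avg D M (fun om => ∑ v ∈ G, (if ∃ j, j < M ∧ Alive P L s (129 * y) T u om j ∧
          om j = m ∧ pos L u om j = v then (1 : ℝ) else 0)) := by
      intro u hu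
      rw [← hmul, ← hadd, ← hadd]
      exact hmono _ _ fun om => hpt u (mem_of_mem_filter u hu) om
    refine (sum_le_sum h1).trans ?_
    have h2 : ∑ u ∈ A, ((Avg D M (fun om => if ∃ j, j < M ∧ Alive P L s (129 * y) T u om j ∧
          ExitAt ext U P L u om j (L m nu) then (1 : ℝ) else 0) +
        (1 / (y : ℝ)) * Avg D M (fun om => ∑ j ∈ range M,
          (if Alive P L s (129 * y) T u om j then
          (((Hs U P L u ∅ om j).card : ℝ) - ((pre U P L u ∅ om j).card : ℝ)) else 0))) +
        Avg D M (fun om => ∑ v ∈ G, (if ∃ j, j < M ∧ Alive P L s (129 * y) T u om j ∧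
          om j = m ∧ pos L u om j = v then (1 : ℝ) else 0))) ≤
        ∑ u ∈ box D s (128 * y), ((Avg D M (fun om => if ∃ j, j < M ∧
          Alive P L s (129 * y) T u om j ∧
          ExitAt ext U P L u om j (L m nu) then (1 : ℝ) else 0) +
        (1 / (y : ℝ)) * Avg D M (fun om => ∑ j ∈ range M,
          (if Alive P L s (129 * y) T u om j then
          (((Hs U P L u ∅ om j).card : ℝ) - ((pre U P L u ∅ om j).card : ℝ)) else 0))) +
        Avg D M (fun om => ∑ v ∈ G, (if ∃ j, j < M ∧ Alive P L s (129 * y) T u om j ∧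
          om j = m ∧ pos L u om j = v then (1 : ℝ) else 0))) := by
      refine sum_le_sum_of_subset_of_nonneg (filter_subset _ _) fun u _ _ => ?_
      have a1 := hnn (fun om => if ∃ j, j < M ∧ Alive P L s (129 * y) T u om j ∧
          ExitAt ext U P L u om j (L m nu) then (1 : ℝ) else 0)
          (fun om => by split_ifs <;> norm_num)
      have a2 := hnn (fun om => ∑ j ∈ range M, (if Alive P L s (129 * y) T u om j then
          (((Hs U P L u ∅ om j).card : ℝ) - ((pre U P L u ∅ om j).card : ℝ)) else 0))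
          (fun om => (z1c_card' (U := U) hHarv hNodes hG hI hs u om (W := 129 * y) M).1)
      have a3 := hnn (fun om => ∑ v ∈ G, (if ∃ j, j < M ∧ Alive P L s (129 * y) T u om j ∧
          om j = m ∧ pos L u om j = v then (1 : ℝ) else 0))
          (fun om => sum_nonneg fun v _ => by split_ifs <;> norm_num)
      have a4 := mul_nonneg (by positivity : (0 : ℝ) ≤ 1 / (y : ℝ)) a2
      linarith
    refine h2.trans ?_
    rw [sum_add_distrib, sum_add_distrib, ← mul_sum]
    have h3 : ∑ u ∈ box D s (128 * y), Avg D M (fun om => ∑ v ∈ G,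
        (if ∃ j, j < M ∧ Alive P L s (129 * y) T u om j ∧
          om j = m ∧ pos L u om j = v then (1 : ℝ) else 0)) ≤
        (G.card : ℝ) * (128 * y + beta) := by
      rw [← hsum, ← hconst ((G.card : ℝ) * (128 * y + beta))]
      refine hmono _ _ fun om => ?_
      rw [sum_comm, ← nsmul_eq_mul]
      refine sum_le_card_nsmul _ _ _ fun v _ => ?_
      have h4 := hCap α D P L s (129 * y) T (128 * y) beta hI hs hNP M om m v
      rw [← sum_filter, sum_const, nsmul_eq_mul, mul_one]
      have h5 : (((box D s (128 * y)).filter (fun u => ∃ j, j < M ∧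
        Alive P L s (129 * y) T u om j ∧ om j = m ∧ pos L u om j = v)).card : ℝ) ≤
        ((128 * y + beta : ℕ) : ℝ) := by exact_mod_cast h4
      push_cast at h5
      exact h5
    have h6 : Q ext U P L s (128 * y) (129 * y) T M (L m nu) =
      ∑ u ∈ box D s (128 * y), Avg D M (fun om => if ∃ j, j < M ∧
        Alive P L s (129 * y) T u om j ∧ ExitAt ext U P L u om j (L m nu)
        then (1 : ℝ) else 0) := rfl
    rw [h6]
    linarith
  have hrow2 := hrow.trans hup
  -- cardinalities
  have hAc := z1c_A (D := D) m s y (b + beta) nu T (by omega) hnu hnu2 hsT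
  have hVc := z1c_V (P := P) hI m nu (Finset.Icc (T - 32 * y) (T - 16 * y))
    (fun i hi => by rw [Finset.mem_Icc] at hi; omega) J
  have hIcc : (Finset.Icc (T - 32 * y) (T - 16 * y)).card = 16 * y + 1 := by
    rw [Nat.card_Icc]
    omega
  rw [hIcc] at hVc
  have hVc' : V.card ≤ D * (beta * (16 * y + 1) ^ (D - 2)) :=
    hVc.trans (Nat.mul_le_mul_left _ (Nat.mul_le_mul_right _ hJ))
  have hbe2 : 1000 * D * beta ≤ y := by
    refine le_trans ?_ hbe
    refine Nat.mul_le_mul_right _ ?_
    have h1 : 260 ≤ 260 ^ D := by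
      calc 260 = 260 ^ 1 := by norm_num
        _ ≤ 260 ^ D := Nat.pow_le_pow_right (by norm_num) (by omega)
    calc 1000 * D ≤ 64 * (3 * D) * 260 := by omega
      _ ≤ 64 * D ^ 2 * 260 ^ D := by
        refine Nat.mul_le_mul ?_ h1
        rw [pow_two]
        exact Nat.mul_le_mul_left _ (Nat.mul_le_mul_right _ hD)
  have hAr : 96 * (y : ℝ) * (16 * y + 1 - 2 * ((b : ℝ) + beta)) ^ (D - 1) ≤ (A.card : ℝ) := by
    have h1 : ((96 * y * (16 * y + 1 - 2 * (b + beta)) ^ (D - 1) : ℕ) : ℝ) ≤ (A.card : ℝ) := by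
      exact_mod_cast hAc
    rw [Nat.cast_mul, Nat.cast_pow, Nat.cast_sub (by omega)] at h1
    push_cast at h1
    exact h1
  have hVr : (V.card : ℝ) ≤ D * (beta * (16 * (y : ℝ) + 1) ^ (D - 2)) := by
    exact_mod_cast hVc'
  have hb1r : 64 * (D : ℝ) * (((b : ℝ) + beta) + 2) ≤ y := by exact_mod_cast hb1
  have hbe2r : 1000 * (D : ℝ) * beta ≤ y := by exact_mod_cast hbe2
  have hfin := z1c_arith D hD (y : ℝ) ((b : ℝ) + beta) beta A.card V.card G.card
    (Q ext U P L s (128 * y) (129 * y) T M (L m nu)) ((16 * (y : ℝ) + 1) ^ (D - 1)) hyr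
    (by positivity) (by positivity) hb1r hbe2r hAr (by positivity) hVr hQ rfl (by
      refine hrow2.trans ?_
      have h1 : (1 / (y : ℝ)) * (∑ u ∈ box D s (128 * y), Avg D M (fun om => ∑ j ∈ range M,
        if Alive P L s (129 * y) T u om j then
          (((Hs U P L u ∅ om j).card : ℝ) - ((pre U P L u ∅ om j).card : ℝ)) else 0)) ≤
          (y : ℝ) ^ D / 64 := by
        rw [one_div, ← div_eq_inv_mul, div_le_iff₀ hyr]
        rw [pow_succ] at hharv
        linarith
      linarith)
  exact_mod_cast hfin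

end Pool.Agent.Lib.MP_f1849d_co.J
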