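import Pool.Agent.Lib.MP_f1849d_co.J.Paths
import Pool.Agent.Lib.MP_f1849d_co.J.AvgLib
import Pool.Agent.Lib.MP_f1849d_co.J.Row
import Pool.Agent.Lib.MP_f1849d_co.J.Spec

/-!
MP_f1849d_co, route J: module Z2 (exactness of the mature box).
-/

open Finset
open scoped Classical

namespace Pool.Agent.Lib.MP_f1849d_co.J

open Pa

namespace Pa

/-- an element of the harvested set was harvested at some earlier time -/
theorem exists_harvest {α : Type} [DecidableEq α] {D : ℕ} (U : Finset α → ℝ) (P : Finset α)
    (L : Fin D → ℕ → α) (u : Fin D → ℕ) (om : ℕ → Fin D) (e : α) (j : ℕ)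
    (h : e ∈ Hs U P L u ∅ om j) :
    ∃ i, i ≤ j ∧ e ∈ Hs U P L u ∅ om i ∧ e ∉ pre U P L u ∅ om i := by
  induction j with
  | zero => exact ⟨0, le_rfl, h, by simp [pre]⟩
  | succ j ih =>
    by_cases hp : e ∈ pre U P L u ∅ om (j + 1)
    · have h1 : e ∈ Hs U P L u ∅ om j := by
        rw [pre] at hp
        exact (mem_erase.1 hp).2
      obtain ⟨i, hi, h2⟩ := ih h1
      exact ⟨i, by omega, h2⟩
    · exact ⟨j + 1, le_rfl, h, hp⟩

theorem NPpos_card_le {α : Type} [DecidableEq α] {D : ℕ} {P : Finset α} {L : Fin D → ℕ → α}
    {t : ℕ} {J : Finset α} (hI : Inj P L t) (hP : Priv L t J) (l : Fin D) :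
    (NPpos L t l).card ≤ J.card := by
  classical
  refine card_le_card_of_injOn (L l) ?_ ?_
  · intro i hi
    have hi' : i ∈ NPpos L t l := hi
    unfold NPpos at hi'
    rw [mem_filter, mem_range] at hi'
    obtain ⟨h1, k, hk, i', hi', he⟩ := hi'
    exact hP l k (fun e => hk e.symm) i i' (by omega) hi' he.symm
  · intro i hi i' hi' he
    have a : i ∈ NPpos L t l := hi
    have b : i' ∈ NPpos L t l := hi'
    unfold NPpos at a b
    rw [mem_filter, mem_range] at a b
    exact (hI l).2 i i' (by omega) (by omega) he

/-- number of nodes of a face box with a pointer in `J` -/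
theorem card_junk_nodes {α : Type} [DecidableEq α] {D : ℕ} {P : Finset α} {L : Fin D → ℕ → α}
    {t : ℕ} {J : Finset α} (hI : Inj P L t) (m : Fin D) (nu : ℕ) (a c : Fin D → ℕ) (h : ℕ)
    (hc : ∀ k, c k ≤ t) (hac : ∀ k, c k ≤ a k + h) :
    ((Fintype.piFinset fun k : Fin D => if k = m then {nu} else Finset.Icc (a k) (c k)).filter
      fun v => ∃ k, k ≠ m ∧ L k (v k) ∈ J).card ≤ D * (J.card * (h + 1) ^ (D - 2)) := by
  classical
  have hsub : ((Fintype.piFinset fun k : Fin D => if k = m then {nu} else
      Finset.Icc (a k) (c k)).filter fun v => ∃ k, k ≠ m ∧ L k (v k) ∈ J) ⊆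
      (univ.erase m).biUnion fun k => (Fintype.piFinset fun k' : Fin D =>
        if k' = m then {nu} else Finset.Icc (a k') (c k')).filter fun v => L k (v k) ∈ J := by
    intro v hv
    rw [mem_filter] at hv
    obtain ⟨hv, k, hk, hJ⟩ := hv
    rw [mem_biUnion]
    exact ⟨k, mem_erase.2 ⟨hk, mem_univ k⟩, mem_filter.2 ⟨hv, hJ⟩⟩
  refine (card_le_card hsub).trans ?_
  refine (card_biUnion_le_card_mul _ _ (J.card * (h + 1) ^ (D - 2)) fun k hk => ?_).trans ?_
  · have hkm : k ≠ m := ne_of_mem_erase hk
    -- the positions of `J` in the list `k`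
    set A : Finset ℕ := (range (t + 1)).filter fun i => L k i ∈ J with hA
    have hAc : A.card ≤ J.card := by
      refine card_le_card_of_injOn (L k) ?_ ?_
      · intro i hi
        exact (mem_filter.1 (show i ∈ A from hi)).2
      · intro i hi i' hi' he
        have h1 := mem_range.1 (mem_filter.1 (show i ∈ A from hi)).1
        have h2 := mem_range.1 (mem_filter.1 (show i' ∈ A from hi')).1
        exact (hI k).2 i i' (by omega) (by omega) he
    have hsub2 : ((Fintype.piFinset fun k' : Fin D =>
        if k' = m then {nu} else Finset.Icc (a k') (c k')).filter fun v => L k (v k) ∈ J) ⊆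
        Fintype.piFinset fun k' : Fin D => if k' = m then {nu} else if k' = k then A else
          Finset.Icc (a k') (c k') := by
      intro v hv
      rw [mem_filter, Fintype.mem_piFinset] at hv
      rw [Fintype.mem_piFinset]
      intro k'
      have h1 := hv.1 k'
      by_cases h2 : k' = m
      · rw [if_pos h2] at h1 ⊢; exact h1
      · rw [if_neg h2] at h1 ⊢
        by_cases h3 : k' = k
        · rw [if_pos h3]
          rw [Finset.mem_Icc] at h1
          rw [hA, mem_filter, mem_range, h3]
          refine ⟨?_, hv.2⟩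
          have := hc k
          rw [h3] at h1
          omega
        · rw [if_neg h3]; exact h1
    refine (card_le_card hsub2).trans ?_
    rw [Fintype.card_piFinset, ← mul_prod_erase univ _ (mem_univ m),
      ← mul_prod_erase (univ.erase m) _ (mem_erase.2 ⟨hkm, mem_univ k⟩)]
    have e1 : (if m = m then ({nu} : Finset ℕ) else if m = k then A else
        Finset.Icc (a m) (c m)).card = 1 := by simp
    have e2 : (if k = m then ({nu} : Finset ℕ) else if k = k then A else
        Finset.Icc (a k) (c k)).card = A.card := by simp [hkm]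
    rw [e1, e2, one_mul]
    refine Nat.mul_le_mul hAc ?_
    have : ∏ x ∈ (univ.erase m).erase k, (if x = m then ({nu} : Finset ℕ) else
        if x = k then A else Finset.Icc (a x) (c x)).card ≤
        ∏ _x ∈ (univ.erase m).erase k, (h + 1) := by
      refine prod_le_prod' fun x hx => ?_
      have h1 := ne_of_mem_erase hx
      have h2 := ne_of_mem_erase (mem_of_mem_erase hx)
      rw [if_neg h2, if_neg h1, Nat.card_Icc]
      have := hac x
      omega
    refine this.trans ?_
    rw [prod_const, card_erase_of_mem (mem_erase.2 ⟨hkm, mem_univ k⟩),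
      card_erase_of_mem (mem_univ m), card_univ, Fintype.card_fin]
    exact le_of_eq (by congr 1)
  · refine Nat.mul_le_mul_right _ ?_
    rw [card_erase_of_mem (mem_univ m), card_univ, Fintype.card_fin]
    exact Nat.sub_le _ _

end Pa

/-- Z2 from the counting of rows -/
theorem z2_of_row (hRow : RowStmt) : Z2Stmt := by
  intro α _ D _ P ext U L s t y b beta M J hD hG hI hs hb hM hst hbeta hMb hb0 hJ hPriv hQ p hp
  classical
  by_contra hnot
  rw [Finset.not_subset] at hnot
  obtain ⟨e, he, hep⟩ := hnot
  have hSp : St P L p \ J ⊆ P := fun z hz => (mem_St.1 (mem_sdiff.1 hz).1).1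
  have heS := hG.sub _ hSp he
  rw [mem_sdiff] at heS
  obtain ⟨heSt, heJ⟩ := heS
  have heP : e ∈ P := (mem_St.1 heSt).1
  -- a list which is the only one that can contain `e`
  obtain ⟨m, hm⟩ : ∃ m : Fin D, ∀ k, k ≠ m → ∀ i, i ≤ t → L k i ≠ e := by
    by_cases hl : ∃ m : Fin D, ∃ i, i ≤ t ∧ L m i = e
    · obtain ⟨m, i, hi, hmi⟩ := hl
      refine ⟨m, fun k hk i' hi' hki' => heJ ?_⟩
      have := hPriv k m hk i' i hi' hi (hki'.trans hmi.symm)
      rwa [hki'] at this
    · push Not at hl
      exact ⟨⟨0, by omega⟩, fun k _ i hi => hl k i hi⟩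
  have hNP : ∀ l, (NPpos L t l).card ≤ beta := fun l => (NPpos_card_le hI hPriv l).trans hJ
  have hDpos : 0 < D := by omega
  -- minimum of `p`
  obtain ⟨m0, -, hm0⟩ := exists_min_image (univ : Finset (Fin D)) p ⟨m, mem_univ m⟩
  have hq : ∀ k, p m0 ≤ p k := fun k => hm0 k (mem_univ k)
  set q := p m0 with hqdef
  have hqs : s + 2 * y ≤ q := by have := (hp m0).1; omega
  -- the starts
  set A : Finset (Fin D → ℕ) := Fintype.piFinset fun k =>
    if k = m then Finset.Ico (p k - q + s) (p k - q + s + y) else
      Finset.Ico (p k - q + s + 2 * y) (p k - q + s + 2 * y + y) with hA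
  have hAmem : ∀ u ∈ A, (p m - q + s ≤ u m ∧ u m < p m - q + s + y) ∧
      ∀ k, k ≠ m → p k - q + s + 2 * y ≤ u k ∧ u k < p k - q + s + 3 * y := by
    intro u hu
    rw [hA, Fintype.mem_piFinset] at hu
    constructor
    · have := hu m
      rw [if_pos rfl, Finset.mem_Ico] at this
      exact this
    · intro k hk
      have := hu k
      rw [if_neg hk, Finset.mem_Ico] at this
      omega
  have hAbox : A ⊆ box D s (128 * y) := by
    intro u hu
    have h1 := hAmem u hu
    rw [mem_box]
    intro k
    have h2 := (hp k)
    have h3 := hq k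
    have h4 := (hp m0)
    rw [← hqdef] at h4
    by_cases hk : k = m
    · rw [hk] at h2 h3 ⊢
      have := h1.1
      constructor <;> omega
    · have := h1.2 k hk
      constructor <;> omega
  have hAcard : A.card = y ^ D := by
    rw [hA, Fintype.card_piFinset, prod_congr rfl (g := fun _ => y)]
    · rw [prod_const, card_univ, Fintype.card_fin]
    · intro k _
      by_cases hk : k = m
      · rw [if_pos hk, Nat.card_Ico]; omega
      · rw [if_neg hk, Nat.card_Ico]; omega
  set V : Finset (Fin D → ℕ) := (Fintype.piFinset fun k : Fin D => if k = m then {p m} else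
    Finset.Icc (p k) (p k + 4 * y)).filter fun v => ∃ k, k ≠ m ∧ L k (v k) ∈ J with hV
  have hVcard : V.card ≤ D * (beta * (4 * y + 1) ^ (D - 2)) := by
    refine (card_junk_nodes hI m (p m) p (fun k => p k + 4 * y) (4 * y)
      (fun k => by have := (hp k).2.1; omega) (fun k => le_rfl)).trans ?_
    exact Nat.mul_le_mul_left _ (Nat.mul_le_mul_right _ hJ)
  have hrow := hRow α D P L s t y b beta M hD hI hs hNP (by omega) hM (by omega) hbeta hMb hb0
    A hAbox m (p m) p (fun k => p k + 4 * y) (by have := (hp m).2.1; omega)
    (fun k _ => by have := (hp k).2.1; omega)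
    (fun u hu => by
      have h1 := hAmem u hu
      have h3 := hq m
      refine ⟨by omega, fun k hk => ?_⟩
      have h2 := h1.2 k hk
      have h4 := hq k
      constructor <;> omega)
    (fun k hk i hi he' => (hp m).2.2 (by
      have h1 : p k + 4 * y ≤ t := by have := (hp k).2.1; omega
      exact hPriv m k (fun e => hk e.symm) (p m) i (by have := (hp m).2.1; omega) (by omega)
        he'.symm)) V
  -- the upper bound
  have hx : L m (p m) ∈ P := (hI m).1 _ (by have := (hp m).2.1; omega)
  have hQx := hQ _ hx (hp m).2.2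
  have hQe := hQ e heP heJ
  have hup : ∑ u ∈ A, Avg D M (fun om => if ∃ j, j < M ∧ Alive P L s (129 * y) t u om j ∧
        om j = m ∧ pos L u om j m = p m ∧
        (∀ k, k ≠ m → p k ≤ pos L u om j k ∧ pos L u om j k ≤ p k + 4 * y) ∧
        pos L u om j ∉ V then (1 : ℝ) else 0) ≤
      Q ext U P L s (128 * y) (129 * y) t M (L m (p m)) +
        Q ext U P L s (128 * y) (129 * y) t M e := by
    unfold Q
    rw [← sum_add_distrib]
    refine (sum_le_sum fun u hu => ?_).trans (sum_le_sum_of_subset_of_nonneg hAbox
      fun u _ _ => ?_)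
    · rw [← avg_add]
      refine avg_mono M _ _ fun om => ?_
      by_cases hc : ∃ j, j < M ∧ Alive P L s (129 * y) t u om j ∧
        om j = m ∧ pos L u om j m = p m ∧
        (∀ k, k ≠ m → p k ≤ pos L u om j k ∧ pos L u om j k ≤ p k + 4 * y) ∧
        pos L u om j ∉ V
      · rw [if_pos hc]
        obtain ⟨j, hj, hal, hom, hpm, hbox, hnV⟩ := hc
        have hnode := hal j le_rfl
        by_cases hH : e ∈ Hs U P L u ∅ om j
        · obtain ⟨i, hi, h1, h2⟩ := exists_harvest U P L u om e j hH
          rw [if_pos (⟨i, by omega, hal.mono hi, Or.inl ⟨h1, h2⟩⟩ :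
            ∃ j, j < M ∧ Alive P L s (129 * y) t u om j ∧ ExitAt ext U P L u om j e)]
          have : (0 : ℝ) ≤ if ∃ j, j < M ∧ Alive P L s (129 * y) t u om j ∧
            ExitAt ext U P L u om j (L m (p m)) then 1 else 0 := by
            split_ifs <;> norm_num
          linarith
        · have hbad : Bad ext U P L u ∅ om j := by
            intro hsub
            have hX : St P L p \ J ⊆ P := hSp
            have hZ : St P L (pos L u om j) \ Hs U P L u ∅ om j ⊆ P := fun z hz =>
              (mem_St.1 (mem_sdiff.1 hz).1).1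
            have hple : ∀ k, p k ≤ pos L u om j k := by
              intro k
              by_cases hk : k = m
              · rw [hk, hpm]
              · exact (hbox k hk).1
            have hQX : ptrs L (pos L u om j) ⊆ St P L p \ J := by
              intro z hz
              unfold ptrs at hz
              rw [mem_image] at hz
              obtain ⟨k, -, rfl⟩ := hz
              rw [mem_sdiff]
              refine ⟨St_anti hple (hnode.mem k), ?_⟩
              by_cases hk : k = m
              · rw [hk, hpm]; exact (hp m).2.2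
              · intro hJk
                apply hnV
                rw [hV, mem_filter, Fintype.mem_piFinset]
                refine ⟨fun k' => ?_, k, hk, hJk⟩
                by_cases hk' : k' = m
                · rw [if_pos hk', hk', hpm]; exact mem_singleton_self _
                · rw [if_neg hk', Finset.mem_Icc]; exact hbox k' hk'
            have heSv : e ∈ St P L (pos L u om j) := by
              rw [mem_St]
              refine ⟨heP, fun k i hi hki => ?_⟩
              by_cases hk : k = m
              · rw [hk, hpm] at hi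
                rw [hk] at hki
                exact (mem_St.1 heSt).2 m i hi hki
              · exact hm k hk i (by have := hnode.le_t k; omega) hki
            have heQ : e ∉ ptrs L (pos L u om j) := by
              intro hz
              unfold ptrs at hz
              rw [mem_image] at hz
              obtain ⟨k, -, hk'⟩ := hz
              by_cases hk : k = m
              · rw [hk, hpm] at hk'
                apply hep
                unfold ptrs
                rw [mem_image]
                exact ⟨m, mem_univ m, hk'⟩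
              · exact hm k hk _ (hnode.le_t k) hk'
            exact hG.inner _ _ _ hZ hX hsub hQX e (mem_sdiff.2 ⟨heSv, hH⟩)
              (mem_sdiff.2 ⟨heSt, heJ⟩) heQ he
          rw [if_pos (⟨j, hj, hal, Or.inr ⟨by rw [hom, hpm], hbad⟩⟩ :
            ∃ j, j < M ∧ Alive P L s (129 * y) t u om j ∧ ExitAt ext U P L u om j (L m (p m)))]
          have : (0 : ℝ) ≤ if ∃ j, j < M ∧ Alive P L s (129 * y) t u om j ∧
            ExitAt ext U P L u om j e then 1 else 0 := by
            split_ifs <;> norm_num
          linarith
      · rw [if_neg hc]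
        have h1 : (0 : ℝ) ≤ if ∃ j, j < M ∧ Alive P L s (129 * y) t u om j ∧
          ExitAt ext U P L u om j (L m (p m)) then 1 else 0 := by
          split_ifs <;> norm_num
        have h2 : (0 : ℝ) ≤ if ∃ j, j < M ∧ Alive P L s (129 * y) t u om j ∧
          ExitAt ext U P L u om j e then 1 else 0 := by
          split_ifs <;> norm_num
        linarith
    · have hz : ∀ f : (ℕ → Fin D) → ℝ, (∀ om, 0 ≤ f om) → 0 ≤ Avg D M f := by
        intro f hf
        have := avg_mono M (fun _ => (0 : ℝ)) f hf
        rwa [avg_const] at this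
      have h1 := hz (fun om => if ∃ j, j < M ∧ Alive P L s (129 * y) t u om j ∧
          ExitAt ext U P L u om j (L m (p m)) then 1 else 0)
          (fun om => by split_ifs <;> norm_num)
      have h2 := hz (fun om => if ∃ j, j < M ∧ Alive P L s (129 * y) t u om j ∧
          ExitAt ext U P L u om j e then 1 else 0)
          (fun om => by split_ifs <;> norm_num)
      exact add_nonneg h1 h2
  -- numbers
  have hy : 0 < y := by omega
  have hVnum : 64 * (V.card * (128 * y + beta)) ≤ y ^ D := by
    obtain ⟨E, rfl⟩ : ∃ E, D = E + 2 := ⟨D - 2, by omega⟩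
    have e2 : E + 2 - 2 = E := by omega
    rw [e2] at hVcard
    have hb1 : beta ≤ y := by omega
    calc 64 * (V.card * (128 * y + beta))
        ≤ 64 * ((E + 2) * (beta * (4 * y + 1) ^ E) * (129 * y)) :=
          Nat.mul_le_mul_left _ (Nat.mul_le_mul hVcard (by omega))
      _ ≤ 64 * ((E + 2) * (beta * (260 * y) ^ E) * (129 * y)) := by
          refine Nat.mul_le_mul_left _ (Nat.mul_le_mul_right _ (Nat.mul_le_mul_left _
            (Nat.mul_le_mul_left _ (Nat.pow_le_pow_left (by omega) _))))
      _ = (64 * (E + 2) * 129 * 260 ^ E * beta) * y ^ (E + 1) := by rw [mul_pow]; ring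
      _ ≤ (64 * (E + 2) ^ 2 * 260 ^ (E + 2) * beta) * y ^ (E + 1) := by
          refine Nat.mul_le_mul_right _ (Nat.mul_le_mul_right _ ?_)
          have h1 : (129 : ℕ) * 260 ^ E ≤ 260 ^ (E + 2) := by
            rw [pow_add]
            have : 0 < 260 ^ E := by positivity
            nlinarith
          calc 64 * (E + 2) * 129 * 260 ^ E = (64 * (E + 2)) * (129 * 260 ^ E) := by ring
            _ ≤ (64 * (E + 2) ^ 2) * 260 ^ (E + 2) := by
              refine Nat.mul_le_mul ?_ h1
              refine Nat.mul_le_mul_left _ ?_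
              nlinarith
      _ ≤ y * y ^ (E + 1) := Nat.mul_le_mul_right _ hbeta
      _ = y ^ (E + 2) := by ring
  have hVreal : (V.card : ℝ) * (128 * y + beta) ≤ (y : ℝ) ^ D / 64 := by
    have : (64 : ℝ) * ((V.card : ℝ) * (128 * y + beta)) ≤ (y : ℝ) ^ D := by exact_mod_cast hVnum
    linarith
  have hyD : (0 : ℝ) < (y : ℝ) ^ D := by positivity
  have hAr : (A.card : ℝ) = (y : ℝ) ^ D := by rw [hAcard]; push_cast; ring
  rw [hAr] at hrow
  have hfin := hrow.trans hup
  nlinarith

theorem z2Stmt : Z2Stmt := z2_of_row rowStmt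

end Pool.Agent.Lib.MP_f1849d_co.J
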