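import Pool.Agent.Lib.MP_f1849d_co.J.Spec

/-!
MP_f1849d_co, route J: module Z3 (extension), section 5 of the proof.
-/

open Finset
open scoped Classical

namespace Pool.Agent.Lib.MP_f1849d_co.J

section Z3
variable {α : Type} [DecidableEq α] {D : ℕ}

/-- membership in `Rem` -/
lemma z3_mem_Rem (L : Fin D → ℕ → α) (v : Fin D → ℕ) (x : α) :
    x ∈ Rem L v ↔ ∃ l, ∃ i, i < v l ∧ L l i = x := by
  unfold Rem
  simp only [mem_biUnion, mem_univ, true_and, mem_image, mem_range]

/-- a nonjunk entry with index in an interval longer than the junk -/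
lemma z3_exists (P : Finset α) (L : Fin D → ℕ → α) (t : ℕ) (J : Finset α) (hI : Inj P L t)
    (l : Fin D) (a b : ℕ) (hb : b ≤ t) (h : J.card < b + 1 - a) :
    ∃ i, a ≤ i ∧ i ≤ b ∧ L l i ∉ J := by
  by_contra hcon
  push Not at hcon
  have h1 : ((Finset.Icc a b).image (L l)).card = (Finset.Icc a b).card := by
    apply Finset.card_image_of_injOn
    intro i hi j hj hij
    rw [Finset.mem_coe, Finset.mem_Icc] at hi hj
    exact (hI l).2 i j (hi.2.trans hb) (hj.2.trans hb) hij
  have h2 : (Finset.Icc a b).image (L l) ⊆ J := by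
    intro x hx
    rw [Finset.mem_image] at hx
    obtain ⟨i, hi, rfl⟩ := hx
    rw [Finset.mem_Icc] at hi
    exact hcon i hi.1 hi.2
  have h3 := Finset.card_le_card h2
  rw [h1, Nat.card_Icc] at h3
  omega

end Z3

theorem z3Stmt : Z3Stmt := by
  intro α _ D P ext L t y J hD hG hI hty hJ hPriv hex l
  by_contra hcon
  push Not at hcon
  set u : Fin D → ℕ := corner l (t + 1) (130 * y + 1) with hu
  have hul : u l = t + 1 := by rw [hu]; unfold corner; simp
  have huk : ∀ k, k ≠ l → u k = t - 130 * y := by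
    intro k hk
    rw [hu]; unfold corner
    rw [if_neg hk]; omega
  set F := St P L u with hF
  have hFP : F ⊆ P := by rw [hF]; unfold St; exact sdiff_subset
  -- the classes
  let X : Fin D → Finset α := fun m => ((Finset.Icc (t - 130 * y) (t - 8 * y)).image (L m)) \ J
  have hX : ∀ m x, x ∈ X m ↔ (∃ i, (t - 130 * y ≤ i ∧ i ≤ t - 8 * y) ∧ L m i = x) ∧ x ∉ J := by
    intro m x
    simp only [X, mem_sdiff, mem_image, Finset.mem_Icc]
  -- two lists with a common nonjunk entry
  have hpr : ∀ {m k : Fin D} {i j : ℕ}, i ≤ t → j ≤ t → L m i = L k j → L m i ∉ J →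
      m = k ∧ i = j := by
    intro m k i j hi hj he hn
    by_cases hmk : m = k
    · subst hmk
      exact ⟨rfl, (hI m).2 i j hi hj he⟩
    · exact absurd (hPriv m k hmk i j hi hj he) hn
  -- another list
  obtain ⟨m0, hm0⟩ : ∃ m0 : Fin D, m0 ≠ l := by
    by_cases h0 : l = ⟨0, by omega⟩
    · refine ⟨⟨1, by omega⟩, ?_⟩
      rw [h0]
      intro h
      have := congrArg Fin.val h
      simp at this
    · exact ⟨⟨0, by omega⟩, fun h => h0 h.symm⟩
  -- the elements `a` and `o`
  obtain ⟨ia, hia1, hia2, haJ⟩ := z3_exists P L t J hI l (t - 130 * y) (t - 8 * y) (by omega)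
    (by omega)
  obtain ⟨io, hio1, hio2, hoJ⟩ := z3_exists P L t J hI m0 (t - 8 * y + 1) t le_rfl (by omega)
  have hoX : ∀ m, L m0 io ∉ X m := by
    intro m hm
    rw [hX] at hm
    obtain ⟨⟨i, ⟨_, hi2⟩, hi⟩, _⟩ := hm
    have := (hpr (m := m0) (k := m) (i := io) (j := i) hio2 (by omega) hi.symm hoJ).2
    omega
  have haX : ∀ m, m ≠ l → L l ia ∉ X m := by
    intro m hml hm
    rw [hX] at hm
    obtain ⟨⟨i, ⟨_, hi2⟩, hi⟩, _⟩ := hm
    have := (hpr (m := l) (k := m) (i := ia) (j := i) (by omega) (by omega) hi.symm haJ).1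
    exact hml this.symm
  have hoa : L m0 io ≠ L l ia := by
    intro h
    have := (hpr (m := m0) (k := l) (i := io) (j := ia) hio2 (by omega) h hoJ).1
    exact hm0 this
  -- the sign lemma
  have hsign := hG.sign l X (L l ia) (L m0 io) ?_ ?_ ((hI l).1 ia (by omega)) hoa ?_ F hFP ?_
  · -- `o ∈ F`
    apply hsign
    rw [hF]; unfold St
    rw [mem_sdiff, z3_mem_Rem]
    refine ⟨(hI m0).1 io hio2, ?_⟩
    rintro ⟨k, i, hi, he⟩
    by_cases hkl : k = l
    · subst hkl
      rw [hul] at hi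
      have := (hpr (m := m0) (k := k) (i := io) (j := i) hio2 (by omega) he.symm hoJ).1
      exact hm0 this
    · rw [huk k hkl] at hi
      have := (hpr (m := m0) (k := k) (i := io) (j := i) hio2 (by omega) he.symm hoJ).2
      omega
  · intro m hml
    refine ⟨?_, ?_, haX m hml, hoX m⟩
    · intro x hx
      rw [hX] at hx
      obtain ⟨⟨i, ⟨_, hi2⟩, rfl⟩, _⟩ := hx
      exact (hI m).1 i (by omega)
    · obtain ⟨i, hi1, hi2, hi3⟩ := z3_exists P L t J hI m (t - 130 * y) (t - 8 * y) (by omega)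
        (by omega)
      exact ⟨L m i, (hX m _).mpr ⟨⟨i, ⟨hi1, hi2⟩, rfl⟩, hi3⟩⟩
  · intro m m' _ _ hmm
    rw [Finset.disjoint_left]
    intro x hx hx'
    rw [hX] at hx hx'
    obtain ⟨⟨i, ⟨_, hi2⟩, hi⟩, hxJ⟩ := hx
    obtain ⟨⟨j, ⟨_, hj2⟩, hj⟩, _⟩ := hx'
    have := (hpr (m := m) (k := m') (i := i) (j := j) (by omega) (by omega) (hi.trans hj.symm)
      (by rw [hi]; exact hxJ)).1
    exact hmm this
  · intro yv hyv
    have hq : ∀ m, ∃ i, (t - 130 * y ≤ i ∧ i ≤ t - 8 * y) ∧ L m i ∉ J ∧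
        (m ≠ l → L m i = yv m) ∧ (m = l → i = ia) := by
      intro m
      by_cases hml : m = l
      · subst hml
        exact ⟨ia, ⟨hia1, hia2⟩, haJ, fun h => absurd rfl h, fun _ => rfl⟩
      · have := hyv m hml
        rw [hX] at this
        obtain ⟨⟨i, hi, he⟩, hn⟩ := this
        exact ⟨i, hi, by rw [he]; exact hn, fun _ => he, fun h => absurd h hml⟩
    choose p hp1 hp2 hp3 hp4 using hq
    refine ⟨St P L p \ J, ?_, ?_, ?_⟩
    · unfold St
      exact sdiff_subset.trans sdiff_subset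
    · have h1 := hex p (fun m => by
        have := hp1 m
        refine ⟨by omega, by omega, hp2 m⟩)
      refine h1.trans ?_
      intro x hx
      unfold ptrs at hx
      rw [mem_image] at hx
      obtain ⟨m, _, rfl⟩ := hx
      by_cases hml : m = l
      · subst hml
        rw [hp4 m rfl]
        exact mem_insert_self _ _
      · rw [hp3 m hml]
        exact mem_insert_of_mem (mem_image_of_mem yv (mem_erase.mpr ⟨hml, mem_univ _⟩))
    · unfold St
      rw [mem_sdiff, mem_sdiff, z3_mem_Rem]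
      refine ⟨⟨(hI m0).1 io hio2, ?_⟩, hoJ⟩
      rintro ⟨k, i, hi, he⟩
      have h1 := hp1 k
      have := (hpr (m := m0) (k := k) (i := io) (j := i) hio2 (by omega) he.symm hoJ).2
      omega
  · -- `ext F` is contained in the union of the classes
    intro x hx
    obtain ⟨hxJ, k, i, hi, he, hi8⟩ := hcon x hx
    have hxF := hG.sub F hFP hx
    rw [hF] at hxF
    unfold St at hxF
    rw [mem_sdiff, z3_mem_Rem] at hxF
    have hxn := hxF.2
    have hkl : k ≠ l := by
      intro h
      subst h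
      exact hxn ⟨k, i, by rw [hul]; omega, he⟩
    have hik : t - 130 * y ≤ i := by
      by_contra hlt
      exact hxn ⟨k, i, by rw [huk k hkl]; omega, he⟩
    rw [mem_biUnion]
    exact ⟨k, mem_erase.mpr ⟨hkl, mem_univ _⟩, (hX k x).mpr ⟨⟨i, ⟨hik, by omega⟩, he⟩, hxJ⟩⟩

end Pool.Agent.Lib.MP_f1849d_co.J
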