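import Pool.Agent.Lib.MP_f1849d_co.J.MainD
import Pool.Agent.Lib.MP_f1849d_co.J.Count
import Pool.Agent.Lib.MP_f1849d_co.J.Nodes
import Pool.Agent.Lib.MP_f1849d_co.J.PotU
import Pool.Agent.Lib.MP_f1849d_co.J.JunkCard
import Pool.Agent.Lib.MP_f1849d_co.J.QMono
import Pool.Agent.Lib.MP_f1849d_co.J.Row
import Pool.Agent.Lib.MP_f1849d_co.J.Z1
import Pool.Agent.Lib.MP_f1849d_co.J.Z1Count
import Pool.Agent.Lib.MP_f1849d_co.J.Z2
import Pool.Agent.Lib.MP_f1849d_co.J.Z3
import Pool.Agent.Lib.MP_f1849d_co.J.Cost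
import Pool.Agent.Lib.MP_f1849d_co.J.Start
import Pool.Agent.Lib.MP_f1849d_co.J.GeoFinal
import Pool.Agent.Lib.MP_f1849d_co.J.GenPosExists
import Pool.Agent.Lib.MP_f1849d_co.J.GenPosIff

/-!
MP_f1849d_co, route J: assembly.
-/

open Finset
open scoped Classical

namespace Pool.Agent.Lib.MP_f1849d_co.J

/-- **There is no large record.** -/
theorem mainStmt : MainStmt :=
  main count potStmt junkCardStmt qMonoStmt z2Stmt z3Stmt
    (z1Stmt (z1Count avgLibStmt rowStmt capStmt harvStmt nodesStmt)) cost startStmt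

/-- **Abstract form of the answer.** In every class of peeling geometries the number of peelings
of `P` is at least `c ((d + 1) (1 + ε))^|P|`. -/
theorem g_lower (D : ℕ) (hD : 3 ≤ D) : ∃ (c eta : ℝ), 0 < c ∧ 0 < eta ∧
    ∀ (α : Type) [DecidableEq α] (P : Finset α) (ext : Finset α → Finset α),
      Geom D P ext → c * ((D : ℝ) * Real.exp eta) ^ P.card ≤ g ext P := by
  obtain ⟨eta, n0, heta, h⟩ := mainStmt D hD
  have hD0 : (0 : ℝ) < D := by
    have : 0 < D := by omega
    exact_mod_cast this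
  set Dp : ℝ := (D : ℝ) * Real.exp eta with hDp
  have hDp1 : 1 ≤ Dp := by
    have h1 : (1 : ℝ) ≤ D := by
      have : 1 ≤ D := by omega
      exact_mod_cast this
    have h2 : 1 ≤ Real.exp eta := Real.one_le_exp heta.le
    nlinarith
  have hDp0 : 0 < Dp := by linarith
  refine ⟨(Dp ^ n0)⁻¹, eta, by positivity, heta, ?_⟩
  intro α _ P ext hG
  induction hn : P.card using Nat.strong_induction_on generalizing P with
  | _ n ih =>
    have hgpos : 0 < g ext P := (count α D P ext hG).2.2.1 P (Subset.refl _)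
    rcases Nat.lt_or_ge n n0 with hlt | hge
    · have h1 : Dp ^ n ≤ Dp ^ n0 := pow_le_pow_right₀ hDp1 hlt.le
      have h2 : (Dp ^ n0)⁻¹ * Dp ^ n ≤ 1 := by
        rw [inv_mul_le_iff₀ (by positivity), mul_one]
        exact h1
      have h3 : (1 : ℝ) ≤ g ext P := by exact_mod_cast hgpos
      linarith
    · have hnot := h α P ext hG (by omega)
      unfold Record at hnot
      push Not at hnot
      obtain ⟨S, hS, hlt⟩ := hnot
      have hne : S ≠ P := by
        rintro rfl
        simp at hlt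
      have hSc : S.card < n := by
        rw [← hn]
        exact card_lt_card (hS.ssubset_of_ne hne)
      have hGS : Geom D S ext := by
        refine ⟨fun T hT => hG.sub T (hT.trans hS), fun T hT => hG.ne T (hT.trans hS),
          fun T hT => hG.card T (hT.trans hS), fun T T' hT => hG.mono T T' (hT.trans hS),
          fun Z X Q hZ hX => hG.inner Z X Q (hZ.trans hS) (hX.trans hS), ?_, ?_⟩
        · intro R a b z o hR hRS ha hb hz h1 h2 h3 h4 h5 h6 Z1 Z2 Z3 hZ1 hZ2 hZ3
          exact hG.three R a b z o hR (hRS.trans hS) (hS ha) (hS hb) (hS hz) h1 h2 h3 h4 h5 h6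
            Z1 Z2 Z3 (hZ1.trans hS) (hZ2.trans hS) (hZ3.trans hS)
        · intro l X a o hX hd ha hoa htr F hF
          exact hG.sign l X a o (fun m hm => ⟨(hX m hm).1.trans hS, (hX m hm).2⟩) hd (hS ha) hoa
            (fun yv hyv => by
              obtain ⟨Z, hZ, h1, h2⟩ := htr yv hyv
              exact ⟨Z, hZ.trans hS, h1, h2⟩) F (hF.trans hS)
      have hIH := ih S.card hSc S hGS rfl
      have hpow : Dp ^ n = Dp ^ S.card * Dp ^ (n - S.card) := by
        rw [← pow_add]
        congr 1
        omega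
      rw [hpow, ← mul_assoc]
      calc (Dp ^ n0)⁻¹ * Dp ^ S.card * Dp ^ (n - S.card)
          ≤ (g ext S : ℝ) * Dp ^ (n - S.card) :=
            mul_le_mul_of_nonneg_right hIH (by positivity)
        _ ≤ g ext P := by
            rw [← hn]
            exact hlt.le

end Pool.Agent.Lib.MP_f1849d_co.J
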