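import Pool.Agent.Lib.MP_f1849d_co.J.Harv

/-!
MP_f1849d_co, route J: the one-step inequality in the form of `Spec.lean`.
-/

open Finset
open scoped Classical

namespace Pool.Agent.Lib.MP_f1849d_co.J

open HarvAux

theorem HarvAux.exp_le_two_of {D : ℕ} (hD : 3 ≤ D) {Dp eta : ℝ} (h1 : Dp = D * Real.exp eta)
    (h2 : Dp ≤ 2 * D) : Real.exp eta ≤ 2 := by
  have hD' : (0 : ℝ) < D := by
    have : 0 < D := by omega
    exact_mod_cast this
  rw [h1] at h2
  nlinarith

theorem oneStepStmt : OneStepStmt := by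
  intro α _ D P ext U Dp eta hD hG hU h0 h1 h2 S H p hS hH hinj hp hmin
  have : NeZero D := ⟨by omega⟩
  have h3 := exp_le_two_of hD h1 h2
  subst h1
  exact one_step h0 h3 hG hU hS hH p hp hinj hmin

end Pool.Agent.Lib.MP_f1849d_co.J
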