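import Pool.Agent.Lib.MP_f1849d_co.J.Defs

/-!
MP_f1849d_co, route J: nodes, `nxt`, inverse, displacement (P1), injectivity (P2), cap (P3),
coincidences (P4), crossing (P5).
-/

open Finset
open scoped Classical

namespace Pool.Agent.Lib.MP_f1849d_co.J.Pa

variable {α : Type} [DecidableEq α] {D : ℕ}
variable {P : Finset α} {L : Fin D → ℕ → α} {s W t : ℕ}

theorem mem_Rem {v : Fin D → ℕ} {x : α} :
    x ∈ Rem L v ↔ ∃ l, ∃ i, i < v l ∧ L l i = x := by
  simp [Rem]

theorem mem_St {v : Fin D → ℕ} {x : α} :
    x ∈ St P L v ↔ x ∈ P ∧ ∀ l, ∀ i, i < v l → L l i ≠ x := by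
  simp [St, mem_Rem]

theorem St_subset (v : Fin D → ℕ) : St P L v ⊆ P := sdiff_subset

theorem St_anti {v v' : Fin D → ℕ} (h : ∀ l, v l ≤ v' l) : St P L v' ⊆ St P L v := by
  intro x hx
  rw [mem_St] at hx ⊢
  exact ⟨hx.1, fun l i hi => hx.2 l i (lt_of_lt_of_le hi (h l))⟩

theorem nxt_self (l : Fin D) (v : Fin D → ℕ) :
    nxt L l v l = sInf {m | v l < m ∧ L l m ∉ insert (L l (v l)) (Rem L v)} := by
  simp [nxt]

theorem nxt_ne {l k : Fin D} (h : k ≠ l) (v : Fin D → ℕ) : nxt L l v k = v k := by
  simp [nxt, h]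

theorem nxt_nonempty {l : Fin D} {v : Fin D → ℕ} (h : 0 < nxt L l v l) :
    {m | v l < m ∧ L l m ∉ insert (L l (v l)) (Rem L v)}.Nonempty := by
  by_contra hne
  rw [Set.not_nonempty_iff_eq_empty] at hne
  rw [nxt_self, hne] at h
  simp at h

theorem lt_nxt_of_pos {l : Fin D} {v : Fin D → ℕ} (h : 0 < nxt L l v l) :
    v l < nxt L l v l := by
  have := Nat.sInf_mem (nxt_nonempty h)
  rw [nxt_self]
  exact this.1

theorem nxt_notMem {l : Fin D} {v : Fin D → ℕ} (h : 0 < nxt L l v l) :
    L l (nxt L l v l) ∉ insert (L l (v l)) (Rem L v) := by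
  have := Nat.sInf_mem (nxt_nonempty h)
  rw [nxt_self]
  exact this.2

theorem skip_mem {l : Fin D} {v : Fin D → ℕ} {m : ℕ} (h1 : v l < m) (h2 : m < nxt L l v l) :
    L l m ∈ insert (L l (v l)) (Rem L v) := by
  by_contra hc
  rw [nxt_self] at h2
  exact absurd (Nat.sInf_le (⟨h1, hc⟩ : m ∈ {m | v l < m ∧
    L l m ∉ insert (L l (v l)) (Rem L v)})) (not_le.mpr h2)

theorem nxt_le {l : Fin D} {v : Fin D → ℕ} {m : ℕ} (h1 : v l < m)
    (h2 : L l m ∉ insert (L l (v l)) (Rem L v)) :
    v l < nxt L l v l ∧ nxt L l v l ≤ m := by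
  have hm : m ∈ {m | v l < m ∧ L l m ∉ insert (L l (v l)) (Rem L v)} := ⟨h1, h2⟩
  rw [nxt_self]
  exact ⟨(Nat.sInf_mem ⟨m, hm⟩).1, Nat.sInf_le hm⟩

theorem Rem_nxt {l : Fin D} {v : Fin D → ℕ} (h : v l < nxt L l v l) :
    Rem L (nxt L l v) = insert (L l (v l)) (Rem L v) := by
  ext x
  constructor
  · intro hx
    rw [mem_Rem] at hx
    obtain ⟨k, i, hi, rfl⟩ := hx
    by_cases hk : k = l
    · subst hk
      rcases lt_trichotomy i (v k) with h1 | h1 | h1
      · exact mem_insert_of_mem (mem_Rem.2 ⟨k, i, h1, rfl⟩)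
      · rw [h1]; exact mem_insert_self _ _
      · exact skip_mem h1 hi
    · rw [nxt_ne hk] at hi
      exact mem_insert_of_mem (mem_Rem.2 ⟨k, i, hi, rfl⟩)
  · intro hx
    rw [mem_insert] at hx
    rcases hx with rfl | hx
    · exact mem_Rem.2 ⟨l, v l, h, rfl⟩
    · rw [mem_Rem] at hx ⊢
      obtain ⟨k, i, hi, rfl⟩ := hx
      by_cases hk : k = l
      · subst hk
        exact ⟨k, i, lt_trans hi h, rfl⟩
      · exact ⟨k, i, by rw [nxt_ne hk]; exact hi, rfl⟩

theorem St_nxt {l : Fin D} {v : Fin D → ℕ} (h : v l < nxt L l v l) :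
    St P L (nxt L l v) = (St P L v).erase (L l (v l)) := by
  unfold St
  rw [Rem_nxt h, sdiff_insert]

/-- skipped positions are non-private -/
theorem skip_NP (hI : Inj P L t) {l : Fin D} {v : Fin D → ℕ} (hvt : ∀ k, v k ≤ t) {m : ℕ}
    (h1 : v l < m) (hm : m ≤ t) (h2 : L l m ∈ insert (L l (v l)) (Rem L v)) :
    m ∈ NPpos L t l := by
  rw [mem_insert, mem_Rem] at h2
  rcases h2 with h2 | ⟨k, i, hi, h2⟩
  · have := (hI l).2 m (v l) hm (hvt l) h2
    omega
  · by_cases hk : k = l
    · subst hk
      have := (hI k).2 i m (by have := hvt k; omega) hm h2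
      omega
    · unfold NPpos
      rw [mem_filter, mem_range]
      exact ⟨by omega, k, hk, i, by have := hvt k; omega, h2⟩

/-- (P2), one step -/
theorem nxt_inj (hI : Inj P L t) {l : Fin D} {v w : Fin D → ℕ} (hvt : ∀ k, v k ≤ t)
    (hwt : ∀ k, w k ≤ t) (hv : ∀ k, L k (v k) ∈ St P L v) (hw : ∀ k, L k (w k) ∈ St P L w)
    (h1 : v l < nxt L l v l) (h2 : w l < nxt L l w l) (h : nxt L l v = nxt L l w) : v = w := by
  have hne : ∀ k, k ≠ l → v k = w k := by
    intro k hk
    have := congrFun h k
    rwa [nxt_ne hk, nxt_ne hk] at this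
  have key : ∀ v w : Fin D → ℕ, (∀ k, v k ≤ t) → (∀ k, w k ≤ t) →
      (∀ k, L k (w k) ∈ St P L w) → (∀ k, k ≠ l → v k = w k) →
      w l < nxt L l v l → ¬ v l < w l := by
    intro v w hvt hwt hw hne h1 hlt
    have h3 := skip_mem hlt h1
    rw [mem_insert, mem_Rem] at h3
    rcases h3 with h3 | ⟨k, i, hi, h3⟩
    · have := (hI l).2 (w l) (v l) (hwt l) (hvt l) h3
      omega
    · by_cases hk : k = l
      · subst hk
        have := (hI k).2 i (w k) (by have := hvt k; omega) (hwt k) h3
        omega
      · have h4 := (mem_St.1 (hw l)).2 k i (by rw [← hne k hk]; exact hi)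
        exact h4 h3
  have hl : v l = w l := by
    have e := congrFun h l
    have a := key v w hvt hwt hw hne (by rw [e]; exact h2)
    have b := key w v hwt hvt hv (fun k hk => (hne k hk).symm) (by rw [← e]; exact h1)
    omega
  funext k
  by_cases hk : k = l
  · rw [hk, hl]
  · exact hne k hk

/-! ### Paths -/

theorem pos_succ (u : Fin D → ℕ) (om : ℕ → Fin D) (j : ℕ) :
    pos L u om (j + 1) = nxt L (om j) (pos L u om j) := rfl

theorem _root_.Pool.Agent.Lib.MP_f1849d_co.J.Alive.mono {u : Fin D → ℕ} {om : ℕ → Fin D} {j i : ℕ} (h : Alive P L s W t u om j)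
    (hi : i ≤ j) : Alive P L s W t u om i := fun k hk => h k (le_trans hk hi)

theorem alive_succ {u : Fin D → ℕ} {om : ℕ → Fin D} {j : ℕ} :
    Alive P L s W t u om (j + 1) ↔
      Alive P L s W t u om j ∧ Node P L s W t (pos L u om (j + 1)) := by
  constructor
  · intro h
    exact ⟨h.mono (Nat.le_succ j), h _ le_rfl⟩
  · rintro ⟨h1, h2⟩ i hi
    rcases Nat.lt_or_ge i (j + 1) with h | h
    · exact h1 i (by omega)
    · have : i = j + 1 := by omega
      rw [this]; exact h2

theorem _root_.Pool.Agent.Lib.MP_f1849d_co.J.Node.le_t {v : Fin D → ℕ} (h : Node P L s W t v) (l : Fin D) : v l ≤ t := (h.1 l).2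

theorem _root_.Pool.Agent.Lib.MP_f1849d_co.J.Node.s_le {v : Fin D → ℕ} (h : Node P L s W t v) (l : Fin D) : s ≤ v l := (h.1 l).1

theorem _root_.Pool.Agent.Lib.MP_f1849d_co.J.Node.mem {v : Fin D → ℕ} (h : Node P L s W t v) (l : Fin D) :
    L l (v l) ∈ St P L v := h.2.2.1 l

theorem _root_.Pool.Agent.Lib.MP_f1849d_co.J.Alive.lt_step (hs : 0 < s) {u : Fin D → ℕ} {om : ℕ → Fin D} {j : ℕ}
    (h : Alive P L s W t u om (j + 1)) :
    pos L u om j (om j) < pos L u om (j + 1) (om j) := by
  have h2 := (h (j + 1) le_rfl).s_le (om j)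
  rw [pos_succ] at h2 ⊢
  exact lt_nxt_of_pos (by omega)

/-- (P2) -/
theorem pos_inj (hs : 0 < s) (hI : Inj P L t) {u u' : Fin D → ℕ} {om : ℕ → Fin D} {j : ℕ}
    (h : Alive P L s W t u om j) (h' : Alive P L s W t u' om j)
    (he : pos L u om j = pos L u' om j) : u = u' := by
  induction j with
  | zero => exact he
  | succ j ih =>
    refine ih (h.mono (Nat.le_succ j)) (h'.mono (Nat.le_succ j)) ?_
    have a := h j (Nat.le_succ j)
    have b := h' j (Nat.le_succ j)
    exact nxt_inj hI a.le_t b.le_t a.mem b.mem (h.lt_step hs) (h'.lt_step hs) he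

theorem cnt_zero (om : ℕ → Fin D) (l : Fin D) : cnt om l 0 = 0 := by simp [cnt]

theorem cnt_succ (om : ℕ → Fin D) (l : Fin D) (j : ℕ) :
    cnt om l (j + 1) = cnt om l j + if om j = l then 1 else 0 := by
  unfold cnt
  rw [range_add_one, filter_insert]
  split_ifs with h
  · rw [card_insert_of_notMem (by simp)]
  · rfl

theorem cnt_mono (om : ℕ → Fin D) (l : Fin D) : Monotone (cnt om l) := by
  refine monotone_nat_of_le_succ fun j => ?_
  rw [cnt_succ]; omega

theorem cnt_inj {om : ℕ → Fin D} {l : Fin D} {j j' : ℕ} (h : om j = l) (h' : om j' = l)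
    (e : cnt om l j = cnt om l j') : j = j' := by
  rcases lt_trichotomy j j' with h1 | h1 | h1
  · have := cnt_mono om l (show j + 1 ≤ j' from h1)
    rw [cnt_succ, if_pos h] at this
    omega
  · exact h1
  · have := cnt_mono om l (show j' + 1 ≤ j from h1)
    rw [cnt_succ, if_pos h'] at this
    omega

/-- (P1), lower bound -/
theorem pos_ge (hs : 0 < s) {u : Fin D → ℕ} {om : ℕ → Fin D} {j : ℕ}
    (h : Alive P L s W t u om j) (l : Fin D) : u l + cnt om l j ≤ pos L u om j l := by
  induction j with
  | zero => simp [cnt, pos]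
  | succ j ih =>
    have ih := ih (h.mono (Nat.le_succ j))
    have hl := h.lt_step hs
    rw [cnt_succ]
    by_cases hk : om j = l
    · rw [if_pos hk]
      rw [hk] at hl
      omega
    · rw [if_neg hk, pos_succ, nxt_ne (fun e => hk e.symm)]
      omega

/-- (P1), upper bound -/
theorem pos_le' (hs : 0 < s) (hI : Inj P L t) {u : Fin D → ℕ} {om : ℕ → Fin D} {j : ℕ}
    (h : Alive P L s W t u om j) (l : Fin D) :
    pos L u om j l ≤ u l + cnt om l j +
      ((NPpos L t l).filter fun i => u l ≤ i ∧ i < pos L u om j l).card := by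
  induction j with
  | zero => simp [cnt, pos]
  | succ j ih =>
    have ih := ih (h.mono (Nat.le_succ j))
    have hl := h.lt_step hs
    rw [cnt_succ]
    by_cases hk : om j = l
    · rw [if_pos hk]
      rw [hk] at hl
      have hge := pos_ge hs (h.mono (Nat.le_succ j)) l
      -- the skipped positions
      have hsub : (Finset.Ioo (pos L u om j l) (pos L u om (j + 1) l)) ∪
          ((NPpos L t l).filter fun i => u l ≤ i ∧ i < pos L u om j l) ⊆
          ((NPpos L t l).filter fun i => u l ≤ i ∧ i < pos L u om (j + 1) l) := by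
        intro i hi
        rw [mem_union, Finset.mem_Ioo, mem_filter] at hi
        rw [mem_filter]
        rcases hi with ⟨h1, h2⟩ | ⟨h1, h2, h3⟩
        · refine ⟨?_, by omega, h2⟩
          have hn := h (j + 1) le_rfl
          have hn' := h j (Nat.le_succ j)
          have h2' := h2
          rw [pos_succ, hk] at h2'
          exact skip_NP hI hn'.le_t h1 (le_trans h2.le (hn.le_t l)) (skip_mem h1 h2')
        · exact ⟨h1, h2, by omega⟩
      have hdis : Disjoint (Finset.Ioo (pos L u om j l) (pos L u om (j + 1) l))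
          ((NPpos L t l).filter fun i => u l ≤ i ∧ i < pos L u om j l) := by
        rw [Finset.disjoint_left]
        intro i hi hi'
        rw [Finset.mem_Ioo] at hi
        rw [mem_filter] at hi'
        omega
      have hc := card_le_card hsub
      rw [card_union_of_disjoint hdis, Nat.card_Ioo] at hc
      omega
    · rw [if_neg hk, pos_succ, nxt_ne (fun e => hk e.symm)]
      exact ih

theorem pos_le (hs : 0 < s) (hI : Inj P L t) {u : Fin D → ℕ} {om : ℕ → Fin D} {j : ℕ}
    (h : Alive P L s W t u om j) (l : Fin D) {β : ℕ} (hβ : (NPpos L t l).card ≤ β) :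
    pos L u om j l ≤ u l + cnt om l j + β := by
  have h1 := pos_le' hs hI h l
  have h2 := card_filter_le (NPpos L t l) (fun i => u l ≤ i ∧ i < pos L u om j l)
  omega

/-- the next position exists and is not too large -/
theorem pos_next (hs : 0 < s) (hI : Inj P L t) {u : Fin D → ℕ} {om : ℕ → Fin D} {j : ℕ}
    (h : Alive P L s W t u om j) {β : ℕ} (hβ : (NPpos L t (om j)).card ≤ β)
    (hb : u (om j) + cnt om (om j) (j + 1) + β ≤ t) :
    pos L u om j (om j) < pos L u om (j + 1) (om j) ∧
      pos L u om (j + 1) (om j) ≤ u (om j) + cnt om (om j) (j + 1) + β := by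
  set l := om j with hl
  rw [pos_succ, ← hl]
  rw [cnt_succ, if_pos hl.symm] at hb ⊢
  by_contra hcon
  -- all positions up to the bound are non-private
  have hall : ∀ m, pos L u om j l < m → m ≤ u l + (cnt om l j + 1) + β → m ∈ NPpos L t l := by
    intro m h1 h2
    by_contra hm
    have h3 : L l m ∉ insert (L l (pos L u om j l)) (Rem L (pos L u om j)) := fun h4 =>
      hm (skip_NP hI (h j le_rfl).le_t h1 (by omega) h4)
    have h5 := nxt_le h1 h3
    exact hcon ⟨h5.1, by omega⟩
  have h1 := pos_le' hs hI h l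
  have hge := pos_ge hs h l
  have hsub : (Finset.Ioc (pos L u om j l) (u l + (cnt om l j + 1) + β)) ∪
      ((NPpos L t l).filter fun i => u l ≤ i ∧ i < pos L u om j l) ⊆ NPpos L t l := by
    intro i hi
    rw [mem_union, Finset.mem_Ioc] at hi
    rcases hi with ⟨h1, h2⟩ | hi
    · exact hall i h1 h2
    · exact (mem_filter.1 hi).1
  have hdis : Disjoint (Finset.Ioc (pos L u om j l) (u l + (cnt om l j + 1) + β))
      ((NPpos L t l).filter fun i => u l ≤ i ∧ i < pos L u om j l) := by
    rw [Finset.disjoint_left]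
    intro i hi hi'
    rw [Finset.mem_Ioc] at hi
    rw [mem_filter] at hi'
    omega
  have hc := card_le_card hsub
  rw [card_union_of_disjoint hdis, Nat.card_Ioc] at hc
  omega

/-! ### (P3) cap -/

/-- (P3): for fixed word, the number of starts whose path visits `v` at a time with letter `l` -/
theorem cap (hs : 0 < s) (hI : Inj P L t) {w β : ℕ} {l : Fin D}
    (hβ : (NPpos L t l).card ≤ β) (om : ℕ → Fin D) (v : Fin D → ℕ) :
    ((box D s w).filter fun u => ∃ j, Alive P L s W t u om j ∧ pos L u om j = v ∧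
      om j = l).card ≤ w + β := by
  classical
  rcases Nat.eq_zero_or_pos w with hw | hw
  · subst hw
    have : box D s 0 = ∅ := by
      unfold box
      ext u
      simp only [Fintype.mem_piFinset, Finset.mem_Ico, Finset.notMem_empty, iff_false]
      intro h
      have := h l
      omega
    rw [this]; simp
  set A := (box D s w).filter fun u => ∃ j, Alive P L s W t u om j ∧ pos L u om j = v ∧ om j = l
    with hA
  have hex : ∀ u ∈ A, ∃ j, Alive P L s W t u om j ∧ pos L u om j = v ∧ om j = l := by
    intro u hu; exact (mem_filter.1 hu).2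
  let f : (Fin D → ℕ) → ℕ := fun u =>
    if h : ∃ j, Alive P L s W t u om j ∧ pos L u om j = v ∧ om j = l then
      cnt om l h.choose else 0
  have hcard : A.card ≤ (Finset.Icc (v l - (s + w - 1 + β)) (v l - s)).card := by
    apply card_le_card_of_injOn f
    · intro u hu
      have hu' : u ∈ A := hu
      have h := hex u hu'
      have hf : f u = cnt om l h.choose := dif_pos h
      obtain ⟨h1, h2, h3⟩ := h.choose_spec
      have hb : u ∈ box D s w := (mem_filter.1 hu').1
      unfold box at hb
      rw [Fintype.mem_piFinset] at hb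
      have hbl := Finset.mem_Ico.1 (hb l)
      have a := pos_ge hs h1 l
      have b := pos_le hs hI h1 l hβ
      rw [h2] at a b
      rw [hf]
      rw [Finset.coe_Icc, Set.mem_Icc]
      constructor <;> omega
    · intro u hu u' hu' he
      have hu1 : u ∈ A := hu
      have hu1' : u' ∈ A := hu'
      have h := hex u hu1
      have h' := hex u' hu1'
      have hf : f u = cnt om l h.choose := dif_pos h
      have hf' : f u' = cnt om l h'.choose := dif_pos h'
      obtain ⟨h1, h2, h3⟩ := h.choose_spec
      obtain ⟨h1', h2', h3'⟩ := h'.choose_spec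
      have he' : f u = f u' := he
      rw [hf, hf'] at he'
      have hj := cnt_inj h3 h3' he'
      rw [← hj] at h1' h2'
      exact pos_inj hs hI h1 h1' (h2.trans h2'.symm)
  rw [Nat.card_Icc] at hcard
  omega

/-- (P3), several nodes -/
theorem cap_set (hs : 0 < s) (hI : Inj P L t) {w β : ℕ} {l : Fin D}
    (hβ : (NPpos L t l).card ≤ β) (om : ℕ → Fin D) (B : Finset (Fin D → ℕ)) :
    ((box D s w).filter fun u => ∃ j, Alive P L s W t u om j ∧ pos L u om j ∈ B ∧
      om j = l).card ≤ B.card * (w + β) := by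
  classical
  have hsub : ((box D s w).filter fun u => ∃ j, Alive P L s W t u om j ∧ pos L u om j ∈ B ∧
      om j = l) ⊆ B.biUnion fun v => (box D s w).filter fun u => ∃ j,
        Alive P L s W t u om j ∧ pos L u om j = v ∧ om j = l := by
    intro u hu
    rw [mem_filter] at hu
    obtain ⟨hb, j, h1, h2, h3⟩ := hu
    rw [mem_biUnion]
    exact ⟨_, h2, mem_filter.2 ⟨hb, j, h1, rfl, h3⟩⟩
  refine (card_le_card hsub).trans ?_
  exact card_biUnion_le_card_mul _ _ _ fun v _ => cap hs hI hβ om v

/-! ### (P4) coincidences -/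

theorem mem_box {w : ℕ} {u : Fin D → ℕ} : u ∈ box D s w ↔ ∀ l, s ≤ u l ∧ u l < s + w := by
  unfold box
  rw [Fintype.mem_piFinset]
  simp only [Finset.mem_Ico]

theorem card_box (D s w : ℕ) : (box D s w).card = w ^ D := by
  unfold box
  rw [Fintype.card_piFinset]
  simp

/-- a starting vector in the box which is no node has a non-private position -/
theorem not_node {w : ℕ} (hwt : s + w ≤ t + 1) (hwW : w ≤ W + 1) (hI : Inj P L t)
    {u : Fin D → ℕ} (hu : u ∈ box D s w) (h : ¬ Node P L s W t u) :
    ∃ l, u l ∈ NPpos L t l := by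
  rw [mem_box] at hu
  by_contra hc
  push Not at hc
  apply h
  refine ⟨fun l => ⟨(hu l).1, by have := (hu l).2; omega⟩, fun l m => ?_, fun l => ?_,
    fun l m hlm he => ?_⟩
  · have := (hu l).2; have := (hu m).1; omega
  · rw [mem_St]
    refine ⟨(hI l).1 _ (by have := (hu l).2; omega), fun k i hi he => ?_⟩
    by_cases hk : k = l
    · subst hk
      have := (hI k).2 i (u k) (by have := (hu k).2; omega) (by have := (hu k).2; omega) he
      omega
    · apply hc l
      unfold NPpos
      rw [mem_filter, mem_range]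
      exact ⟨by have := (hu l).2; omega, k, hk, i, by have := (hu k).2; omega, he⟩
  · apply hc l
    unfold NPpos
    rw [mem_filter, mem_range]
    exact ⟨by have := (hu l).2; omega, m, fun e => hlm e.symm, u m,
      by have := (hu m).2; omega, he.symm⟩

theorem card_pi_ite {w : ℕ} (l : Fin D) (A : Finset ℕ) :
    (Fintype.piFinset fun m : Fin D => if m = l then A else Finset.Ico s (s + w)).card =
      A.card * w ^ (D - 1) := by
  rw [Fintype.card_piFinset, ← mul_prod_erase univ _ (mem_univ l)]
  congr 1
  · simp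
  · rw [prod_congr rfl (g := fun _ => w)]
    · rw [prod_const, card_erase_of_mem (mem_univ l), card_univ, Fintype.card_fin]
    · intro m hm
      rw [if_neg (ne_of_mem_erase hm)]
      simp

theorem card_not_node {w β : ℕ} (hwt : s + w ≤ t + 1) (hwW : w ≤ W + 1) (hI : Inj P L t)
    (hβ : ∀ l, (NPpos L t l).card ≤ β) :
    ((box D s w).filter fun u => ¬ Node P L s W t u).card ≤ D * (β * w ^ (D - 1)) := by
  have hsub : ((box D s w).filter fun u => ¬ Node P L s W t u) ⊆
      (univ : Finset (Fin D)).biUnion fun l =>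
        Fintype.piFinset fun m : Fin D => if m = l then NPpos L t l else Finset.Ico s (s + w) := by
    intro u hu
    rw [mem_filter] at hu
    obtain ⟨l, hl⟩ := not_node hwt hwW hI hu.1 hu.2
    rw [mem_biUnion]
    refine ⟨l, mem_univ l, ?_⟩
    rw [Fintype.mem_piFinset]
    intro m
    by_cases hm : m = l
    · rw [if_pos hm, hm]; exact hl
    · rw [if_neg hm, Finset.mem_Ico]
      exact mem_box.1 hu.1 m
  refine (card_le_card hsub).trans ?_
  refine (card_biUnion_le_card_mul _ _ (β * w ^ (D - 1)) fun l _ => ?_).trans ?_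
  · rw [card_pi_ite]
    exact Nat.mul_le_mul_right _ (hβ l)
  · rw [card_univ, Fintype.card_fin]

/-- at a coincidence the moved position is a genuine next position -/
theorem coin_lt' (hs : 0 < s) {u : Fin D → ℕ} {om : ℕ → Fin D} {j : ℕ}
    (h : Alive P L s W t u om j) {k : Fin D} (hk : k ≠ om j)
    (h2 : L (om j) (pos L u om (j + 1) (om j)) = L k (pos L u om (j + 1) k)) :
    pos L u om j (om j) < pos L u om (j + 1) (om j) := by
  by_contra hlt
  have h0 : pos L u om (j + 1) (om j) = 0 := by
    by_contra h0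
    apply hlt
    rw [pos_succ] at h0 ⊢
    exact lt_nxt_of_pos (by omega)
  rw [h0, pos_succ, nxt_ne hk] at h2
  have hn := h j le_rfl
  have h3 := (mem_St.1 (hn.mem k)).2 (om j) 0 (by have := hn.s_le (om j); omega)
  exact h3 h2

/-- at a coincidence the moved position is a genuine next position -/
theorem coin_lt (hs : 0 < s) {u : Fin D → ℕ} {om : ℕ → Fin D} {j : ℕ}
    (h : Alive P L s W t u om j) (hc : CoinAt L t u om j) :
    pos L u om j (om j) < pos L u om (j + 1) (om j) := by
  obtain ⟨_, _, k, hk, h2⟩ := hc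
  exact coin_lt' hs h hk h2

theorem coin_NP {u : Fin D → ℕ} {om : ℕ → Fin D} {j : ℕ}
    (h : Alive P L s W t u om j) {k : Fin D} (hk : k ≠ om j)
    (h1 : pos L u om (j + 1) (om j) ≤ t)
    (h2 : L (om j) (pos L u om (j + 1) (om j)) = L k (pos L u om (j + 1) k)) :
    pos L u om (j + 1) (om j) ∈ NPpos L t (om j) := by
  unfold NPpos
  rw [mem_filter, mem_range]
  refine ⟨by omega, k, hk, pos L u om (j + 1) k, ?_, h2.symm⟩
  rw [pos_succ, nxt_ne hk]
  exact (h j le_rfl).le_t k

/-- (P1) at the step after an alive time -/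
theorem pos_succ_bounds (hs : 0 < s) (hI : Inj P L t) {u : Fin D → ℕ} {om : ℕ → Fin D} {j : ℕ}
    (h : Alive P L s W t u om j) {β : ℕ} (hβ : (NPpos L t (om j)).card ≤ β)
    (hlt : pos L u om j (om j) < pos L u om (j + 1) (om j))
    (ht : pos L u om (j + 1) (om j) ≤ t) :
    u (om j) + cnt om (om j) (j + 1) ≤ pos L u om (j + 1) (om j) ∧
    pos L u om (j + 1) (om j) ≤ u (om j) + cnt om (om j) (j + 1) + β := by
  set l := om j with hl
  have hge := pos_ge hs h l
  have hle := pos_le' hs hI h l
  rw [cnt_succ, if_pos hl.symm]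
  refine ⟨by omega, ?_⟩
  have hsub : (Finset.Ioo (pos L u om j l) (pos L u om (j + 1) l)) ∪
      ((NPpos L t l).filter fun i => u l ≤ i ∧ i < pos L u om j l) ⊆ NPpos L t l := by
    intro i hi
    rw [mem_union, Finset.mem_Ioo, mem_filter] at hi
    rcases hi with ⟨h1, h2⟩ | ⟨h1, h2, h3⟩
    · have h2' := h2
      rw [pos_succ, ← hl] at h2'
      exact skip_NP hI (h j le_rfl).le_t h1 (le_trans h2.le ht) (skip_mem h1 h2')
    · exact h1
  have hdis : Disjoint (Finset.Ioo (pos L u om j l) (pos L u om (j + 1) l))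
      ((NPpos L t l).filter fun i => u l ≤ i ∧ i < pos L u om j l) := by
    rw [Finset.disjoint_left]
    intro i hi hi'
    rw [Finset.mem_Ioo] at hi
    rw [mem_filter] at hi'
    omega
  have hc := card_le_card hsub
  rw [card_union_of_disjoint hdis, Nat.card_Ioo] at hc
  omega

theorem card_pi_ite2 {a b c : ℕ} {l k : Fin D} (hlk : k ≠ l) (A B C : Finset ℕ)
    (hA : A.card ≤ a) (hB : B.card ≤ b) (hC : C.card ≤ c) :
    (Fintype.piFinset fun m : Fin D => if m = l then A else if m = k then B else C).card ≤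
      a * (b * c ^ (D - 2)) := by
  rw [Fintype.card_piFinset, ← mul_prod_erase univ _ (mem_univ l),
    ← mul_prod_erase (univ.erase l) _ (mem_erase.2 ⟨hlk, mem_univ k⟩)]
  refine Nat.mul_le_mul ?_ (Nat.mul_le_mul ?_ ?_)
  · simpa using hA
  · simpa [hlk] using hB
  · rw [prod_congr rfl (g := fun _ => C.card)]
    · rw [prod_const, card_erase_of_mem (mem_erase.2 ⟨hlk, mem_univ k⟩),
        card_erase_of_mem (mem_univ l), card_univ, Fintype.card_fin]
      exact Nat.pow_le_pow_left hC _
    · intro m hm
      have h1 := ne_of_mem_erase hm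
      have h2 := ne_of_mem_erase (mem_of_mem_erase hm)
      rw [if_neg h2, if_neg h1]

/-- (P4) for a pair of lists -/
theorem card_coin_pair (hs : 0 < s) (hI : Inj P L t) {w β : ℕ} {l k : Fin D} (hlk : k ≠ l)
    (hβ : (NPpos L t l).card ≤ β) (om : ℕ → Fin D) :
    ((box D s w).filter fun u => ∃ j, Alive P L s W t u om j ∧ om j = l ∧
      pos L u om (j + 1) l ≤ t ∧
      L l (pos L u om (j + 1) l) = L k (pos L u om (j + 1) k)).card ≤
      (w + β) * (β * (2 * W + 1) ^ (D - 2)) := by
  classical
  set A := (box D s w).filter fun u => ∃ j, Alive P L s W t u om j ∧ om j = l ∧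
      pos L u om (j + 1) l ≤ t ∧
      L l (pos L u om (j + 1) l) = L k (pos L u om (j + 1) k) with hA
  let g : (Fin D → ℕ) → ℕ → Fin D → ℕ := fun u j m =>
    if m = l then pos L u om (j + 1) l - s - cnt om l (j + 1)
    else if m = k then pos L u om (j + 1) l
    else pos L u om (j + 1) m + W - pos L u om (j + 1) k
  let f : (Fin D → ℕ) → Fin D → ℕ := fun u =>
    if h : ∃ j, Alive P L s W t u om j ∧ om j = l ∧
      pos L u om (j + 1) l ≤ t ∧
      L l (pos L u om (j + 1) l) = L k (pos L u om (j + 1) k) then g u h.choose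
    else fun _ => 0
  have hmem : ∀ u ∈ A, ∃ j, f u = g u j ∧ Alive P L s W t u om j ∧ om j = l ∧
      pos L u om (j + 1) l ≤ t ∧
      L l (pos L u om (j + 1) l) = L k (pos L u om (j + 1) k) := by
    intro u hu
    have h := (mem_filter.1 hu).2
    exact ⟨h.choose, dif_pos h, h.choose_spec⟩
  have hfact : ∀ u ∈ A, ∀ j, Alive P L s W t u om j → om j = l →
      pos L u om (j + 1) l ≤ t →
      L l (pos L u om (j + 1) l) = L k (pos L u om (j + 1) k) →
      pos L u om j l < pos L u om (j + 1) l ∧
      u l + cnt om l (j + 1) ≤ pos L u om (j + 1) l ∧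
      pos L u om (j + 1) l ≤ u l + cnt om l (j + 1) + β ∧
      pos L u om (j + 1) l ∈ NPpos L t l ∧
      (∀ m, m ≠ l → pos L u om (j + 1) m ≤ t) ∧
      ∀ m, m ≠ l → pos L u om (j + 1) m ≤ pos L u om (j + 1) k + W ∧
        pos L u om (j + 1) k ≤ pos L u om (j + 1) m + W := by
    intro u hu j h1 h2 h3 h4
    subst h2
    have hlt := coin_lt' hs h1 hlk h4
    have hb := pos_succ_bounds hs hI h1 hβ hlt h3
    refine ⟨hlt, hb.1, hb.2, coin_NP h1 hlk h3 h4, fun m hm => ?_, fun m hm => ?_⟩
    · rw [pos_succ, nxt_ne hm]; exact (h1 j le_rfl).le_t m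
    · rw [pos_succ, nxt_ne hm, nxt_ne hlk]
      exact ⟨(h1 j le_rfl).2.1 m k, (h1 j le_rfl).2.1 k m⟩
  have hcard : A.card ≤ (Fintype.piFinset fun m : Fin D => if m = l then range (w + β) else
      if m = k then NPpos L t l else range (2 * W + 1)).card := by
    apply card_le_card_of_injOn f
    · intro u hu
      obtain ⟨j, hf, h1, h2, h3, h4⟩ := hmem u hu
      obtain ⟨a1, a2, a3, a4, a5, a6⟩ := hfact u hu j h1 h2 h3 h4
      have hb : u ∈ box D s w := (mem_filter.1 hu).1
      rw [mem_box] at hb
      have hbl := hb l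
      rw [hf, Finset.mem_coe, Fintype.mem_piFinset]
      intro m
      by_cases hm : m = l
      · subst hm
        rw [if_pos rfl]
        simp only [g, if_true]
        rw [mem_range]
        omega
      · by_cases hm' : m = k
        · subst hm'
          rw [if_neg hm, if_pos rfl]
          simp only [g, if_neg hm, if_true]
          exact a4
        · rw [if_neg hm, if_neg hm']
          simp only [g, if_neg hm, if_neg hm']
          rw [mem_range]
          have := a6 m hm
          omega
    · intro u hu u' hu' he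
      obtain ⟨j, hf, h1, h2, h3, h4⟩ := hmem u hu
      obtain ⟨a1, a2, a3, a4, a5, a6⟩ := hfact u hu j h1 h2 h3 h4
      obtain ⟨j', hf', h1', h2', h3', h4'⟩ := hmem u' hu'
      obtain ⟨a1', a2', a3', a4', a5', a6'⟩ := hfact u' hu' j' h1' h2' h3' h4'
      have hb : u ∈ box D s w := (mem_filter.1 hu).1
      have hb' : u' ∈ box D s w := (mem_filter.1 hu').1
      rw [mem_box] at hb hb'
      have he' : f u = f u' := he
      rw [hf, hf'] at he'
      have e1 : pos L u om (j + 1) l = pos L u' om (j' + 1) l := by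
        have := congrFun he' k
        simpa [g, hlk] using this
      have e2 : pos L u om (j + 1) k = pos L u' om (j' + 1) k := by
        apply (hI k).2 _ _ (a5 k hlk) (a5' k hlk)
        rw [← h4, ← h4', e1]
      have e3 : cnt om l (j + 1) = cnt om l (j' + 1) := by
        have := congrFun he' l
        simp only [g, if_true] at this
        have := hb l
        have := hb' l
        omega
      have e4 : j = j' := by
        rw [cnt_succ, cnt_succ, if_pos h2, if_pos h2'] at e3
        exact cnt_inj h2 h2' (by omega)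
      subst e4
      have e5 : pos L u om (j + 1) = pos L u' om (j + 1) := by
        funext m
        by_cases hm : m = l
        · rw [hm, e1]
        · by_cases hm' : m = k
          · rw [hm', e2]
          · have := congrFun he' m
            simp only [g, if_neg hm, if_neg hm'] at this
            have := a6 m hm
            have := a6' m hm
            omega
      have e6 : pos L u om j = pos L u' om j := by
        have c := h1 j le_rfl
        have c' := h1' j le_rfl
        subst h2
        exact nxt_inj hI c.le_t c'.le_t c.mem c'.mem a1 a1' e5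
      exact pos_inj hs hI h1 h1' e6
  exact hcard.trans (card_pi_ite2 hlk _ _ _ (by simp) hβ (by simp))

/-- (P4) -/
theorem card_lost (hs : 0 < s) (hI : Inj P L t) {w β M : ℕ} (hwt : s + w ≤ t + 1)
    (hwW : w ≤ W + 1) (hβ : ∀ l, (NPpos L t l).card ≤ β) (om : ℕ → Fin D) :
    ((box D s w).filter fun u => Lost P L s W t M u om).card ≤
      D * (β * w ^ (D - 1)) + D * (D * ((w + β) * (β * (2 * W + 1) ^ (D - 2)))) := by
  classical
  have hsub : ((box D s w).filter fun u => Lost P L s W t M u om) ⊆
      ((box D s w).filter fun u => ¬ Node P L s W t u) ∪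
      (univ : Finset (Fin D)).biUnion fun l => (univ.erase l).biUnion fun k =>
        (box D s w).filter fun u => ∃ j, Alive P L s W t u om j ∧ om j = l ∧
          pos L u om (j + 1) l ≤ t ∧
          L l (pos L u om (j + 1) l) = L k (pos L u om (j + 1) k) := by
    intro u hu
    rw [mem_filter] at hu
    rw [mem_union]
    rcases hu.2 with h | ⟨j, hj, h1, _, h2, k, hk, h3⟩
    · left; exact mem_filter.2 ⟨hu.1, h⟩
    · right
      rw [mem_biUnion]
      refine ⟨om j, mem_univ _, ?_⟩
      rw [mem_biUnion]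
      exact ⟨k, mem_erase.2 ⟨hk, mem_univ k⟩, mem_filter.2 ⟨hu.1, j, h1, rfl, h2, h3⟩⟩
  refine (card_le_card hsub).trans ((card_union_le _ _).trans ?_)
  refine Nat.add_le_add (card_not_node hwt hwW hI hβ) ?_
  refine (card_biUnion_le_card_mul _ _ (D * ((w + β) * (β * (2 * W + 1) ^ (D - 2))))
    fun l _ => ?_).trans (by rw [card_univ, Fintype.card_fin])
  refine (card_biUnion_le_card_mul _ _ ((w + β) * (β * (2 * W + 1) ^ (D - 2)))
    fun k hk => card_coin_pair hs hI (ne_of_mem_erase hk) (hβ l) om).trans ?_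
  refine Nat.mul_le_mul_right _ ?_
  rw [card_erase_of_mem (mem_univ l), card_univ, Fintype.card_fin]
  exact Nat.sub_le _ _

/-! ### (P5) crossing -/

theorem sum_cnt (om : ℕ → Fin D) (j : ℕ) : ∑ l, cnt om l j = j := by
  induction j with
  | zero => simp [cnt]
  | succ j ih =>
    simp only [cnt_succ, sum_add_distrib, ih, sum_ite_eq, mem_univ, if_true]

/-- (P5), coordinates during the life of a path of a good word -/
theorem lead_bound (hs : 0 < s) (hI : Inj P L t) {u : Fin D → ℕ} {om : ℕ → Fin D}
    {j M b β : ℕ} (hg : GoodWord b M om) (hj : j ≤ M) (h : Alive P L s W t u om j)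
    (hβ : ∀ l, (NPpos L t l).card ≤ β) (l m : Fin D) :
    pos L u om j m + u l ≤ pos L u om j l + u m + (b + β) := by
  have h1 := pos_le hs hI h m (hβ m)
  have h2 := pos_ge hs h l
  have h3 := hg j hj m l
  omega

/-- (P5), crossing of the entry `(l, ν)` -/
theorem crossing (hs : 0 < s) (hI : Inj P L t) {u : Fin D → ℕ} {om : ℕ → Fin D}
    {w M b β ν : ℕ} {l : Fin D} (hu : u ∈ box D s w) (hwW : w + (b + β) ≤ W + 1)
    (hg : GoodWord b M om) (hM : D * (t + 1) ≤ M)
    (hβ : ∀ l, (NPpos L t l).card ≤ β) (hlost : ¬ Lost P L s W t M u om)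
    (h1 : u l ≤ ν) (h2 : ν ≤ t) (h3 : ∀ m, m ≠ l → ν + u m + (b + β) ≤ t + u l)
    (h4 : ∀ m, m ≠ l → ∀ i, i + u l < ν + u m + (b + β) → L m i ≠ L l ν) :
    ∃ j, j < M ∧ Alive P L s W t u om j ∧ pos L u om j l = ν ∧ om j = l ∧
      ∀ m, pos L u om j m + u l ≤ ν + u m + (b + β) ∧
        ν + u m ≤ pos L u om j m + u l + (b + β) := by
  classical
  rw [mem_box] at hu
  have hnode : Node P L s W t u := by
    by_contra hn
    exact hlost (Or.inl hn)
  have hcoin : ∀ j, j < M → Alive P L s W t u om j → ¬ CoinAt L t u om j := fun j hj h hc =>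
    hlost (Or.inr ⟨j, hj, h, hc⟩)
  -- main step
  have step : ∀ j, j < M → Alive P L s W t u om j → pos L u om j l ≤ ν →
      (Alive P L s W t u om (j + 1) ∧ pos L u om (j + 1) l ≤ ν) ∨
      (pos L u om j l = ν ∧ om j = l) := by
    intro j hj h hν
    by_cases hend : pos L u om j l = ν ∧ om j = l
    · exact Or.inr hend
    left
    set k := om j with hk
    -- the count of the moved list is not too large
    have hge := pos_ge hs h l
    have hgk := hg (j + 1) hj k l
    have hbound : pos L u om j k < pos L u om (j + 1) k ∧ pos L u om (j + 1) k ≤ t ∧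
        pos L u om (j + 1) l ≤ ν := by
      by_cases hkl : k = l
      · have hlt : pos L u om j l < ν := lt_of_le_of_ne hν (fun e => hend ⟨e, hkl⟩)
        -- `ν` is a candidate
        have hcand : L l ν ∉ insert (L l (pos L u om j l)) (Rem L (pos L u om j)) := by
          intro hmem
          rw [mem_insert, mem_Rem] at hmem
          rcases hmem with e | ⟨m, i, hi, e⟩
          · have := (hI l).2 _ _ h2 (by omega) e
            omega
          · by_cases hml : m = l
            · subst hml
              have := (hI m).2 i ν (by omega) h2 e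
              omega
            · refine h4 m hml i ?_ e
              have := lead_bound hs hI hg hj.le h hβ l m
              omega
        have hn := nxt_le hlt hcand
        have e : pos L u om (j + 1) = nxt L l (pos L u om j) := by
          rw [pos_succ, ← hk, hkl]
        rw [hkl, e]
        exact ⟨hn.1, hn.2.trans h2, hn.2⟩
      · have hkc := h3 k hkl
        have hcl : cnt om l (j + 1) = cnt om l j := by
          rw [cnt_succ, if_neg (by rw [← hk]; exact hkl)]
          rfl
        have hb' : u k + cnt om k (j + 1) + β ≤ t := by omega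
        have hn := pos_next hs hI h (hβ (om j)) (by rw [← hk]; exact hb')
        rw [← hk] at hn
        refine ⟨hn.1, by omega, ?_⟩
        rw [pos_succ, ← hk, nxt_ne (fun e => hkl e.symm)]
        exact hν
    obtain ⟨hlt, hle, hν'⟩ := hbound
    have hj' := h j le_rfl
    have hkb := pos_succ_bounds hs hI h (hβ (om j)) (by rw [← hk]; exact hlt)
      (by rw [← hk]; exact hle)
    rw [← hk] at hkb
    -- coordinates at the next time
    have hco : ∀ m, u m + cnt om m (j + 1) ≤ pos L u om (j + 1) m ∧
        pos L u om (j + 1) m ≤ u m + cnt om m (j + 1) + β := by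
      intro m
      by_cases hm : m = k
      · rw [hm]; exact hkb
      · have a := pos_ge hs h m
        have b := pos_le hs hI h m (hβ m)
        rw [cnt_succ, if_neg (by rw [← hk]; exact fun e => hm e.symm), pos_succ, ← hk,
          nxt_ne hm]
        omega
    have hnode' : Node P L s W t (pos L u om (j + 1)) := by
      refine ⟨fun m => ⟨?_, ?_⟩, fun m m' => ?_, fun m => ?_, fun m m' hmm' => ?_⟩
      · have := (hco m).1; have := (hu m).1; omega
      · by_cases hm : m = k
        · rw [hm]; exact hle
        · rw [pos_succ, ← hk, nxt_ne hm]; exact hj'.le_t m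
      · have a := (hco m).2
        have b := (hco m').1
        have c := hg (j + 1) hj m m'
        have d := (hu m).2
        have e := (hu m').1
        omega
      · by_cases hm : m = k
        · rw [hm, mem_St]
          refine ⟨(hI k).1 _ hle, fun m' i hi he => ?_⟩
          have hlt' : pos L u om j k < nxt L k (pos L u om j) k := by
            rw [pos_succ, ← hk] at hlt; exact hlt
          have hnm := nxt_notMem (L := L) (l := k) (v := pos L u om j) (by omega)
          apply hnm
          rw [← Rem_nxt hlt', mem_Rem]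
          rw [pos_succ, ← hk] at hi he
          exact ⟨m', i, hi, he⟩
        · rw [pos_succ, ← hk] at hlt ⊢
          rw [St_nxt hlt, nxt_ne hm]
          refine mem_erase.2 ⟨hj'.2.2.2 m k hm, hj'.mem m⟩
      · intro he
        have hc := hcoin j hj h
        apply hc
        by_cases hm : m = k
        · subst hm
          exact ⟨by rw [← hk]; omega, by rw [← hk]; exact hle, m',
            by rw [← hk]; exact fun e => hmm' e.symm, by rw [← hk]; exact he⟩
        · by_cases hm' : m' = k
          · subst hm'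
            exact ⟨by rw [← hk]; omega, by rw [← hk]; exact hle, m, by rw [← hk]; exact hmm',
              by rw [← hk]; exact he.symm⟩
          · exfalso
            rw [pos_succ, ← hk, nxt_ne hm, nxt_ne hm'] at he
            exact hj'.2.2.2 m m' hmm' he
    exact ⟨alive_succ.2 ⟨h, hnode'⟩, hν'⟩
  -- there is a crossing time
  have hex : ∃ j, j < M ∧ Alive P L s W t u om j ∧ pos L u om j l = ν ∧ om j = l := by
    by_contra hno
    push Not at hno
    have hall : ∀ j, j ≤ M → Alive P L s W t u om j ∧ pos L u om j l ≤ ν := by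
      intro j
      induction j with
      | zero =>
        intro _
        refine ⟨fun i hi => ?_, h1⟩
        have : i = 0 := by omega
        rw [this]; exact hnode
      | succ j ih =>
        intro hj
        obtain ⟨a, b⟩ := ih (by omega)
        rcases step j (by omega) a b with c | c
        · exact c
        · exact absurd c.2 (hno j (by omega) a c.1)
    obtain ⟨a, b⟩ := hall M le_rfl
    have hsum : ∑ m, pos L u om M m ≤ ∑ m : Fin D, t := sum_le_sum fun m _ => (a M le_rfl).le_t m
    have hsum' : ∑ m, (u m + cnt om m M) ≤ ∑ m, pos L u om M m :=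
      sum_le_sum fun m _ => pos_ge hs a m
    rw [sum_add_distrib, sum_cnt] at hsum'
    rw [sum_const, card_univ, Fintype.card_fin, smul_eq_mul] at hsum
    have hD : 0 < D := l.pos
    have hul : s ≤ ∑ m, u m := (hu l).1.trans (single_le_sum (fun _ _ => Nat.zero_le _)
      (mem_univ l))
    have : D * (t + 1) = D * t + D := by ring
    omega
  obtain ⟨j, hj, h, hν, hl⟩ := hex
  refine ⟨j, hj, h, hν, hl, fun m => ?_⟩
  have a := lead_bound hs hI hg hj.le h hβ l m
  have b := lead_bound hs hI hg hj.le h hβ m l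
  rw [hν] at a b
  exact ⟨by omega, by omega⟩

end Pool.Agent.Lib.MP_f1849d_co.J.Pa
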