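import Pool.Agent.Lib.MP_f1849d_co.J.OneStep

/-!
MP_f1849d_co, route J: the potential bound for the process in the form of `Spec.lean`.
-/

open Finset
open scoped Classical

namespace Pool.Agent.Lib.MP_f1849d_co.J

open HarvAux

section
variable {α : Type} [DecidableEq α] {D : ℕ}

/-- along alive paths the harvested set is contained in the remaining set -/
theorem HarvAux.pre_subset_St (U : Finset α → ℝ) {P : Finset α} {L : Fin D → ℕ → α} {s W t : ℕ}
    (hs : 1 ≤ s) (u : Fin D → ℕ) {H0 : Finset α} (hH0 : H0 ⊆ St P L u) (om : ℕ → Fin D) :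
    ∀ j, Alive P L s W t u om j → pre U P L u H0 om j ⊆ St P L (pos L u om j) := by
  intro j
  induction j with
  | zero => intro _; exact hH0
  | succ j ih =>
    intro hA
    have hA' : Alive P L s W t u om j := fun i hi => hA i (by omega)
    have h1 := ih hA'
    have h2 : Node P L s W t (nxt L (om j) (pos L u om j)) := hA (j + 1) (le_refl _)
    have h3 : St P L (pos L u om (j + 1))
        = (St P L (pos L u om j)).erase (L (om j) (pos L u om j (om j))) := St_nxt hs h2
    have h4 : pre U P L u H0 om (j + 1)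
        = (harv U (St P L (pos L u om j)) (pre U P L u H0 om j)).erase
            (L (om j) (pos L u om j (om j))) := rfl
    rw [h3, h4]
    exact Finset.erase_subset_erase _ (harv_spec U h1).2.1

theorem HarvAux.pre_subset_Hs (U : Finset α → ℝ) {P : Finset α} {L : Fin D → ℕ → α} {s W t : ℕ}
    (hs : 1 ≤ s) (u : Fin D → ℕ) {H0 : Finset α} (hH0 : H0 ⊆ St P L u) (om : ℕ → Fin D)
    (j : ℕ) (hA : Alive P L s W t u om j) :
    pre U P L u H0 om j ⊆ Hs U P L u H0 om j :=
  (harv_spec U (pre_subset_St U hs u hH0 om j hA)).1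

theorem HarvAux.card_Hs_sdiff (U : Finset α → ℝ) {P : Finset α} {L : Fin D → ℕ → α} {s W t : ℕ}
    (hs : 1 ≤ s) (u : Fin D → ℕ) {H0 : Finset α} (hH0 : H0 ⊆ St P L u) (om : ℕ → Fin D)
    (j : ℕ) (hA : Alive P L s W t u om j) :
    ((Hs U P L u H0 om j \ pre U P L u H0 om j).card : ℝ)
      = ((Hs U P L u H0 om j).card : ℝ) - ((pre U P L u H0 om j).card : ℝ) := by
  have h := pre_subset_Hs U hs u hH0 om j hA
  rw [Finset.card_sdiff_of_subset h, Nat.cast_sub (Finset.card_le_card h)]

theorem HarvAux.gain_eq (ext : Finset α → Finset α) (U : Finset α → ℝ) {P : Finset α}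
    {L : Fin D → ℕ → α} {s W t : ℕ}
    (hs : 1 ≤ s) (u : Fin D → ℕ) {H0 : Finset α} (hH0 : H0 ⊆ St P L u) (om : ℕ → Fin D)
    (j : ℕ) :
    gain ext U P L s W t u H0 om j = if Alive P L s W t u om j then
        ((if Bad ext U P L u H0 om j then 1 / (16 * (D : ℝ) ^ 2) else 0) +
          (((Hs U P L u H0 om j).card : ℝ) - ((pre U P L u H0 om j).card : ℝ))) else 0 := by
  rw [gain]
  by_cases hA : Alive P L s W t u om j
  · rw [if_pos hA, if_pos hA, card_Hs_sdiff U hs u hH0 om j hA]
  · rw [if_neg hA, if_neg hA]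

end

theorem procStmt : ProcStmt := by
  intro α _ D _ P ext U Dp eta L s W t hD hG hU h0 h1 h2 _ hs hV M u H0 hH0
  have h3 := exp_le_two_of hD h1 h2
  subst h1
  have h4 := avg_gain_le h0 h3 hG hU hs hV M u H0 hH0
  rw [Phi] at h4
  simp only [gain_eq ext U hs u hH0] at h4
  exact h4

end Pool.Agent.Lib.MP_f1849d_co.J
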